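import Pool.Agent.Lib_MP_6af485_kt.KPrB
import Pool.Agent.Lib_MP_6af485_co.StepD

/-!
# MP_6af485_co, `k = 3`: all degrees two

`S` irreducible, all degrees two.

`six`: `|S| = 6`: `phi S = 12`, `S` is a 6-cycle component of itself, so `C6V S = S`, `Gh S = F S ≤ 1`
(`(BG.main G _ S rfl).1`, `Lib_MP_6af485_co.StepD`).
`all2`: `|S| ≠ 6`, `S` nonempty. Take `u1 ∈ S`, `N S u1 = {u2, p}`, `N S u2 = {u1, q}` (`nbr2`): `Pr`. `N S q = {u2, q'}`,
`N S p = {u1, p'}`. Colours: `u1`, `q`, `p'` have one colour, `u2`, `p`, `q'` the other one. `p`, `q` are not adjacent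
(`Pr.mem`), so `p' ≠ q`, `q' ≠ p`.
First term: in `S \ {u2, u1}` the vertex `q` has the only neighbour `q'` of degree two: `BG.forced` with
`R = {u2, u1}`: `F (S \ {u2, u1}) = yy * F (S \ {q', q, u2, u1})`. `phi_four` (path `u1, u2, q, q'`): exponent
`8 + 2 + 2 = 12`. In `U = S \ {q', q, u2, u1}` the vertex `p` has the only neighbour `p'`. `N S p' = {p, p''}`; `p'' ≠ u2`
(`p' ≠ u1, q`); if `p'' = q'` then `{p, u1, u2, q, q', p'}` is closed under neighbours, so equal to `S` (`Conn`), `|S| = 6`: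
excluded. So `p'' ∈ U` and `p'` has degree two in `U`: `PP.L` for `U`, `C6V U = ∅` (`all2_C6`: by `Irr.attach` a component has a
vertex adjacent to `R`, it has degree two in `S \ R`, so degree at least three in `S`). The first term is at most
`yy ^ 2 * yy * (lam * QQ ^ 12)`.
Second term: `yy ^ 3 * F (S \ {q, u2, p, u1}) * QQ ^ 12` (`Pr.phi_W`: `4 + 2 + 2 + 2 + 2`), `C6V = ∅` by `all2_C6`, `PP.A`.
`yy ^ 3 = 1 / 2`, `num_all2`.
-/

set_option autoImplicit false

namespace Pool.Agent.CFree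

open Finset

variable {V : Type} [Fintype V] [DecidableEq V] {G : BG V}

private theorem kall2_phi {S : Finset V} (hall : ∀ w ∈ S, G.deg S w = 2) :
    G.phi S = 2 * S.card := by
  unfold BG.phi
  rw [sum_congr rfl fun w hw => by rw [hall w hw, hh_two], sum_const, smul_eq_mul, mul_comm]

private theorem kall2_pair {S : Finset V} {x a b : V} (hd : G.deg S x = 2) (ha : a ∈ G.N S x)
    (hb : b ∈ G.N S x) (hab : a ≠ b) : G.N S x = {a, b} := by
  symm
  apply eq_of_subset_of_card_le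
  · intro t ht
    rw [mem_insert, mem_singleton] at ht
    rcases ht with rfl | rfl
    · exact ha
    · exact hb
  · unfold BG.deg at hd
    rw [hd, card_pair hab]

private theorem kall2_sum {S s : Finset V} {k : ℕ} (h : s.card = k) :
    ∑ w ∈ s, dl (G.deg S w) ≤ 2 * (k : ℤ) := by
  rw [← h]
  exact sum_dl_le_two

theorem BG.six {S : Finset V} (hall : ∀ w ∈ S, G.deg S w = 2) (hc : S.card = 6) : G.Gh S ≤ 1 := by
  have hK : G.IsC6 S S := ⟨Subset.refl S, hc, fun w hw => ⟨hall w hw, filter_subset _ _⟩⟩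
  have hC : G.C6V S = S := by
    apply Subset.antisymm
    · intro x hx
      obtain ⟨K, hK', hx'⟩ := BG.mem_C6V.1 hx
      exact hK'.1 hx'
    · intro x hx
      exact BG.mem_C6V.2 ⟨S, hK, hx⟩
  unfold BG.Gh
  rw [hC, kall2_phi hall, hc]
  have h1 := (BG.main G _ S rfl).1
  norm_num
  exact h1

/-- a component which is a 6-cycle needs a vertex of degree at least three -/
theorem BG.all2_C6 {S R : Finset V} (hI : G.Irr S) (hall : ∀ w ∈ S, G.deg S w = 2) (hR : R ⊆ S)
    (hne : R.Nonempty) : G.C6V (S \ R) = ∅ := by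
  rw [BG.C6V_eq_empty]
  intro K hK
  obtain ⟨k1, h1, _, _, _, ⟨r, hr, ha⟩, _⟩ := hI.attach hR hne hK
  have h2 := (hK.2.2 k1 h1).1
  have h3 := hall k1 (mem_sdiff.1 (hK.1 h1)).1
  unfold BG.deg at h2 h3
  rw [BG.N_sdiff] at h2
  have h4 : (G.N S k1 \ R).card < (G.N S k1).card :=
    card_sdiff_lt (BG.mem_N.2 ⟨hR hr, ha⟩) hr
  omega

theorem BG.all2 {S : Finset V} (IH : ∀ T : Finset V, T.card < S.card → G.PP T) (hI : G.Irr S)
    (hne : S.Nonempty) (hall : ∀ w ∈ S, G.deg S w = 2) (hc : S.card ≠ 6) :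
    G.F S * QQ ^ G.phi S ≤ EE := by
  obtain ⟨u1, h1⟩ := hne
  obtain ⟨u2, p, hp2, hN1⟩ := card_eq_two.1 (hall u1 h1)
  have hu2N : u2 ∈ G.N S u1 := by rw [hN1]; simp
  obtain ⟨h2, ha12⟩ := BG.mem_N.1 hu2N
  obtain ⟨q, hq1, hN2⟩ := BG.nbr2 (hall u2 h2) (BG.mem_N.2 ⟨h1, G.symm _ _ ha12⟩)
  have hPr : G.Pr S p u1 u2 q := ⟨h1, h2, hN1, hN2, hp2, hq1.symm⟩
  obtain ⟨hpS, hqS, _, hpu1, hu2q, hnpq, hpq, hpu, hqu⟩ := hPr.mem
  obtain ⟨q', hq'2, hNq⟩ := BG.nbr2 (hall q hqS) (BG.mem_N.2 ⟨h2, G.symm _ _ hu2q⟩)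
  obtain ⟨p', hp'1, hNp⟩ := BG.nbr2 (hall p hpS) (BG.mem_N.2 ⟨h1, hpu1⟩)
  have hq'N : q' ∈ G.N S q := by rw [hNq]; simp
  have hp'N : p' ∈ G.N S p := by rw [hNp]; simp
  obtain ⟨hq'S, hqq'⟩ := BG.mem_N.1 hq'N
  obtain ⟨hp'S, hpp'⟩ := BG.mem_N.1 hp'N
  -- colours
  have cq : G.col q = G.col u1 := BG.col_common hu2q (G.symm _ _ ha12)
  have cp : G.col p = G.col u2 := BG.col_common (G.symm _ _ hpu1) ha12
  have cq' : G.col q' = G.col u2 := BG.col_common hqq' (G.symm _ _ hu2q)
  have cp' : G.col p' = G.col u1 := BG.col_common hpp' hpu1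
  have c12 := G.bip _ _ ha12
  have npq' : p ≠ q' := fun e => hnpq (e ▸ G.symm _ _ hqq')
  have np'q : p' ≠ q := fun e => hnpq (e ▸ hpp')
  have nu1q' : u1 ≠ q' := fun e => c12 (by rw [← cq', ← e])
  have np'u2 : p' ≠ u2 := fun e => c12 (by rw [← cp', ← e])
  have np'q' : p' ≠ q' := fun e => c12 (by rw [← cp', ← cq', e])
  have nq'q : q' ≠ q := (BG.ne_of_adj hqq').symm
  have np'p : p' ≠ p := (BG.ne_of_adj hpp').symm
  have nu12 : u1 ≠ u2 := BG.ne_of_adj ha12
  -- `p'` and `q'` are not adjacent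
  have hnadj : ¬ G.adj p' q' := by
    intro hadj
    have hNq' : G.N S q' = {q, p'} := kall2_pair (hall q' hq'S) (BG.mem_N.2 ⟨hqS, G.symm _ _ hqq'⟩)
      (BG.mem_N.2 ⟨hp'S, G.symm _ _ hadj⟩) np'q.symm
    have hNp' : G.N S p' = {p, q'} := kall2_pair (hall p' hp'S) (BG.mem_N.2 ⟨hpS, G.symm _ _ hpp'⟩)
      (BG.mem_N.2 ⟨hq'S, hadj⟩) npq'
    have hW : ({p, u1, u2, q, q', p'} : Finset V) = S := by
      by_contra hWS
      obtain ⟨w, hw, x, hx, hwx⟩ := hI.conn ({p, u1, u2, q, q', p'} : Finset V) (by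
        intro t ht
        simp only [mem_insert, mem_singleton] at ht
        rcases ht with rfl | rfl | rfl | rfl | rfl | rfl <;> assumption) (insert_nonempty _ _) hWS
      obtain ⟨hxS, hxW⟩ := mem_sdiff.1 hx
      have hxN : x ∈ G.N S w := BG.mem_N.2 ⟨hxS, hwx⟩
      apply hxW
      simp only [mem_insert, mem_singleton] at hw ⊢
      rcases hw with rfl | rfl | rfl | rfl | rfl | rfl
      · rw [hNp, mem_insert, mem_singleton] at hxN
        tauto
      · rw [hN1, mem_insert, mem_singleton] at hxN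
        tauto
      · rw [hN2, mem_insert, mem_singleton] at hxN
        tauto
      · rw [hNq, mem_insert, mem_singleton] at hxN
        tauto
      · rw [hNq', mem_insert, mem_singleton] at hxN
        tauto
      · rw [hNp', mem_insert, mem_singleton] at hxN
        tauto
    apply hc
    rw [← hW]
    rw [card_insert_of_notMem (by simp [hpu, hp2.symm, hpq, npq', np'p.symm]),
      card_insert_of_notMem (by simp [nu12, hq1.symm, nu1q', hp'1.symm]),
      card_insert_of_notMem (by simp [hqu.symm, hq'2.symm, np'u2.symm]),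
      card_insert_of_notMem (by simp [nq'q.symm, np'q.symm]),
      card_insert_of_notMem (by simp [np'q'.symm]), card_singleton]
  -- the first term
  have hmemU : ∀ x, x ∈ ({q', q, u2, u1} : Finset V) ↔ x = u1 ∨ x = u2 ∨ x = q ∨ x = q' := by
    intro x
    simp only [mem_insert, mem_singleton]
    tauto
  have hRU : ({q', q, u2, u1} : Finset V) ⊆ S := by
    intro x hx
    rcases (hmemU x).1 hx with rfl | rfl | rfl | rfl <;> assumption
  have hUc : (S \ {q', q, u2, u1}).card < S.card := card_sdiff_lt h1 ((hmemU u1).2 (Or.inl rfl))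
  have hCU : G.C6V (S \ {q', q, u2, u1}) = ∅ :=
    BG.all2_C6 hI hall hRU ⟨u1, (hmemU u1).2 (Or.inl rfl)⟩
  have hpU : p ∈ S \ {q', q, u2, u1} := by
    refine mem_sdiff.2 ⟨hpS, fun hx => ?_⟩
    rcases (hmemU p).1 hx with e | e | e | e
    · exact hpu e
    · exact hp2 e.symm
    · exact hpq e
    · exact npq' e
  have hNU : G.N (S \ {q', q, u2, u1}) p = {p'} := by
    rw [BG.N_sdiff, hNp]
    ext x
    rw [mem_sdiff, mem_insert, mem_singleton]
    constructor
    · rintro ⟨h3 | h3, h4⟩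
      · exact absurd ((hmemU x).2 (Or.inl h3)) h4
      · exact h3
    · rintro rfl
      refine ⟨Or.inr rfl, fun hx => ?_⟩
      rcases (hmemU x).1 hx with e | e | e | e
      · exact hp'1 e
      · exact np'u2 e
      · exact np'q e
      · exact np'q' e
  have hdU : 2 ≤ G.deg (S \ {q', q, u2, u1}) p' := by
    rw [BG.deg_sdiff_eq, hall p' hp'S]
    intro r hr
    rcases (hmemU r).1 hr with rfl | rfl | rfl | rfl
    · exact BG.nadj_col cp'
    · intro hadj
      have h3 : p' ∈ G.N S r := BG.mem_N.2 ⟨hp'S, G.symm _ _ hadj⟩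
      rw [hN2, mem_insert, mem_singleton] at h3
      rcases h3 with h3 | h3
      · exact hp'1 h3
      · exact np'q h3
    · exact BG.nadj_col (cp'.trans cq.symm)
    · exact hnadj
  have hGU := (IH _ hUc).L p p' hpU hNU hdU
  have c1 : ((G.N S u1).erase u2).card = 1 := by
    have e1 := card_erase_add_one hu2N
    have e2 := hall u1 h1
    unfold BG.deg at e2
    omega
  have c2 : (((G.N S u2).erase u1).erase q).card = 0 := by
    rw [hN2, card_eq_zero]
    ext x
    simp only [mem_erase, mem_insert, mem_singleton, notMem_empty, iff_false]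
    tauto
  have c3 : (((G.N S q).erase u2).erase q').card = 0 := by
    rw [hNq, card_eq_zero]
    ext x
    simp only [mem_erase, mem_insert, mem_singleton, notMem_empty, iff_false]
    tauto
  have c4 : ((G.N S q').erase q).card = 1 := by
    have e1 := card_erase_add_one (BG.mem_N.2 ⟨hqS, G.symm _ _ hqq'⟩ : q ∈ G.N S q')
    have e2 := hall q' hq'S
    unfold BG.deg at e2
    omega
  have hphiU := BG.phi_four (G := G) hmemU h1 hu2N (by rw [hN2]; simp) hq'N hq1.symm hq'2.symm
  have s1 := kall2_sum (G := G) (S := S) c1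
  have s2 := kall2_sum (G := G) (S := S) c2
  have s3 := kall2_sum (G := G) (S := S) c3
  have s4 := kall2_sum (G := G) (S := S) c4
  rw [hall u1 h1, hall u2 h2, hall q hqS, hall q' hq'S, hh_two] at hphiU
  have hU := BG.use (S := S) (k := 12) hGU (by
    rw [hCU, card_empty]
    push_cast at *
    linarith)
  have hNT : G.N (S \ {u2, u1}) q = {q'} := by
    rw [BG.N_sdiff, hNq]
    ext x
    rw [mem_sdiff, mem_insert, mem_singleton, mem_insert, mem_singleton]
    constructor
    · rintro ⟨h3 | h3, h4⟩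
      · exact absurd (Or.inl h3) h4
      · exact h3
    · rintro rfl
      refine ⟨Or.inr rfl, ?_⟩
      rintro (e | e)
      · exact hq'2 e
      · exact nu1q' e.symm
  have hqR : q ∉ ({u2, u1} : Finset V) := by
    rw [mem_insert, mem_singleton]
    rintro (e | e)
    · exact hqu e
    · exact hq1 e
  have hdq' : G.deg (S \ {u2, u1}) q' = 2 := by
    rw [BG.deg_sdiff_eq, hall q' hq'S]
    intro r hr
    rw [mem_insert, mem_singleton] at hr
    rcases hr with rfl | rfl
    · exact BG.nadj_col cq'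
    · intro hadj
      have h3 : q' ∈ G.N S r := BG.mem_N.2 ⟨hq'S, G.symm _ _ hadj⟩
      rw [hN1, mem_insert, mem_singleton] at h3
      rcases h3 with h3 | h3
      · exact hq'2 h3
      · exact npq' h3.symm
  have hforced := BG.forced hNT hqS hqR
  rw [hdq', show 2 - 1 = 1 from rfl, pow_one] at hforced
  -- the second term
  have hmemW : ∀ x, x ∈ ({q, u2, p, u1} : Finset V) → x ∈ S := by
    intro x hx
    simp only [mem_insert, mem_singleton] at hx
    rcases hx with rfl | rfl | rfl | rfl <;> assumption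
  have hu1W : u1 ∈ ({q, u2, p, u1} : Finset V) := by simp
  have hWc : (S \ {q, u2, p, u1}).card < S.card := card_sdiff_lt h1 hu1W
  have hCW : G.C6V (S \ {q, u2, p, u1}) = ∅ := BG.all2_C6 hI hall hmemW ⟨u1, hu1W⟩
  have d1 : ((G.N S p).erase u1).card = 1 := by
    have e1 := card_erase_add_one (BG.mem_N.2 ⟨h1, hpu1⟩ : u1 ∈ G.N S p)
    have e2 := hall p hpS
    unfold BG.deg at e2
    omega
  have d2 : ((G.N S q).erase u2).card = 1 := by
    have e1 := card_erase_add_one (BG.mem_N.2 ⟨h2, G.symm _ _ hu2q⟩ : u2 ∈ G.N S q)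
    have e2 := hall q hqS
    unfold BG.deg at e2
    omega
  have hphiW := hPr.phi_W
  rw [hall p hpS, hall q hqS, hh_two] at hphiW
  have t1 := kall2_sum (G := G) (S := S) d1
  have t2 := kall2_sum (G := G) (S := S) d2
  have hW := BG.use (S := S) (k := 12) (IH _ hWc).A (by
    rw [hCW, card_empty]
    push_cast at *
    linarith)
  -- the sum
  rw [hPr.Q, hall p hpS, hall q hqS, hforced, show 2 + 2 - 1 = 3 from rfl]
  have hy := yy_cube
  have e1 : yy ^ 2 * (yy * G.F (S \ {q', q, u2, u1}) * QQ ^ G.phi S) =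
      1 / 2 * (G.F (S \ {q', q, u2, u1}) * QQ ^ G.phi S) := by
    rw [← hy]
    ring
  rw [e1, hy]
  have := num_all2
  linarith

end Pool.Agent.CFree
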