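import Pool.Agent.Lib_MP_6af485_kt.KNum

/-!
# MP_6af485_co, `k = 3`: first consequences of the definitions
-/

set_option autoImplicit false

namespace Pool.Agent.CFree

open Finset

variable {V : Type} [Fintype V] [DecidableEq V] {G : BG V}

/-- how the bound for a smaller graph `T` is used in `S` -/
theorem BG.use {S T : Finset V} {B : ℝ} {k : ℕ} (hT : G.Gh T ≤ B)
    (hk : (G.phi S : ℤ) + 2 * ((G.C6V T).card : ℤ) ≤ (G.phi T : ℤ) + k) :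
    G.F T * QQ ^ G.phi S ≤ B * QQ ^ k := by
  have h0 := G.F_nonneg T
  have h1 : QQ ^ G.phi S ≤ QQ ^ ((G.phi T : ℤ) - 2 * ((G.C6V T).card : ℤ)) * QQ ^ k := by
    rw [← zpow_natCast QQ (G.phi S), ← zpow_natCast QQ k, ← zpow_add₀ QQ_pos.ne']
    exact zpow_le_zpow_right₀ one_le_QQ (by omega)
  calc G.F T * QQ ^ G.phi S ≤ G.F T * (QQ ^ ((G.phi T : ℤ) - 2 * ((G.C6V T).card : ℤ)) * QQ ^ k) :=
        mul_le_mul_of_nonneg_left h1 h0
    _ = G.Gh T * QQ ^ k := by unfold BG.Gh; ring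
    _ ≤ B * QQ ^ k := mul_le_mul_of_nonneg_right hT (pow_nonneg QQ_pos.le _)

/-- the same with a gain of two units -/
theorem BG.use_gain {S T : Finset V} {B : ℝ} (hT : G.Gh T ≤ B) (hC : G.C6V T = ∅)
    (hk : (G.phi S : ℤ) + 2 ≤ (G.phi T : ℤ)) : G.F T * QQ ^ G.phi S * QQ ^ 2 ≤ B := by
  have h0 := G.F_nonneg T
  have h1 : QQ ^ G.phi S * QQ ^ 2 ≤ QQ ^ ((G.phi T : ℤ) - 2 * ((G.C6V T).card : ℤ)) := by
    rw [hC, card_empty, ← pow_add, ← zpow_natCast QQ (G.phi S + 2)]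
    exact zpow_le_zpow_right₀ one_le_QQ (by push_cast; omega)
  calc G.F T * QQ ^ G.phi S * QQ ^ 2 = G.F T * (QQ ^ G.phi S * QQ ^ 2) := by ring
    _ ≤ G.F T * QQ ^ ((G.phi T : ℤ) - 2 * ((G.C6V T).card : ℤ)) := mul_le_mul_of_nonneg_left h1 h0
    _ ≤ B := hT

theorem BG.Gh_eq {S : Finset V} (h : G.C6V S = ∅) : G.Gh S = G.F S * QQ ^ G.phi S := by
  unfold BG.Gh
  rw [h, card_empty, ← zpow_natCast QQ (G.phi S)]
  norm_num

theorem BG.Gh_nonneg (S : Finset V) : 0 ≤ G.Gh S :=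
  mul_nonneg (G.F_nonneg S) (zpow_nonneg QQ_pos.le _)

theorem BG.Gh_le {S : Finset V} {B : ℝ} (h : G.F S * QQ ^ G.phi S ≤ B) : G.Gh S ≤ B := by
  refine le_trans ?_ h
  unfold BG.Gh
  refine mul_le_mul_of_nonneg_left ?_ (G.F_nonneg S)
  rw [← zpow_natCast QQ (G.phi S)]
  exact zpow_le_zpow_right₀ one_le_QQ (by omega)

theorem BG.mem_C6V {S : Finset V} {v : V} : v ∈ G.C6V S ↔ ∃ K, G.IsC6 S K ∧ v ∈ K := by
  simp only [BG.C6V, mem_filter]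
  constructor
  · rintro ⟨_, h⟩; exact h
  · rintro ⟨K, h, hv⟩; exact ⟨h.1 hv, K, h, hv⟩

theorem BG.C6V_eq_empty {S : Finset V} : G.C6V S = ∅ ↔ ∀ K, ¬ G.IsC6 S K := by
  rw [eq_empty_iff_forall_notMem]
  constructor
  · intro h K hK
    obtain ⟨x, hx⟩ : K.Nonempty := by
      rw [← card_pos, hK.2.1]; norm_num
    exact h x (BG.mem_C6V.2 ⟨K, hK, hx⟩)
  · intro h x hx
    obtain ⟨K, hK, _⟩ := BG.mem_C6V.1 hx
    exact h K hK

theorem BG.mem_ThV {S : Finset V} {v : V} :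
    v ∈ G.ThV S ↔ ∃ u1 u2 K, G.IsTh S u1 u2 K ∧ v ∈ insert u1 (insert u2 K) := by
  simp only [BG.ThV, mem_filter]
  constructor
  · rintro ⟨_, h⟩; exact h
  · rintro ⟨u1, u2, K, h, hv⟩
    refine ⟨?_, u1, u2, K, h, hv⟩
    rw [mem_insert, mem_insert] at hv
    rcases hv with rfl | rfl | hv
    · exact h.1
    · exact h.2.1
    · exact (mem_sdiff.1 (h.2.2.2.2.2.1.1 hv)).1

theorem BG.ThV_eq_empty {S : Finset V} : G.ThV S = ∅ ↔ ∀ u1 u2 K, ¬ G.IsTh S u1 u2 K := by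
  rw [eq_empty_iff_forall_notMem]
  constructor
  · intro h u1 u2 K hK
    exact h u1 (BG.mem_ThV.2 ⟨u1, u2, K, hK, mem_insert_self _ _⟩)
  · intro h x hx
    obtain ⟨u1, u2, K, hK, _⟩ := BG.mem_ThV.1 hx
    exact h u1 u2 K hK

theorem sum_dl_le_one {S s : Finset V} (h : ∀ w ∈ s, 3 ≤ G.deg S w) :
    ∑ w ∈ s, dl (G.deg S w) ≤ (s.card : ℤ) := by
  calc ∑ w ∈ s, dl (G.deg S w) ≤ ∑ _w ∈ s, (1 : ℤ) := sum_le_sum fun w hw => dl_le_one (h w hw)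
    _ = (s.card : ℤ) := by simp

theorem sum_dl_le_two {S s : Finset V} : ∑ w ∈ s, dl (G.deg S w) ≤ 2 * (s.card : ℤ) := by
  calc ∑ w ∈ s, dl (G.deg S w) ≤ ∑ _w ∈ s, (2 : ℤ) := sum_le_sum fun w _ => dl_le_two _
    _ = 2 * (s.card : ℤ) := by simp [mul_comm]

theorem BG.zero_PP {S : Finset V} (h : G.F S = 0) : G.PP S := by
  have h0 : G.Gh S = 0 := by unfold BG.Gh; rw [h, zero_mul]
  constructor
  · rw [h0]; norm_num
  · intros; rw [h0]; exact lam_pos.le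
  · intros; rw [h0]; exact bet_pos.le
  · intros; rw [h0]; exact b34_pos.le
  · intros; rw [h0]; exact b44_pos.le
  · intros; rw [h0]; exact EE_pos.le
  · intros; rw [h0]; exact EE_pos.le
  · intros; rw [h0]; exact b22_pos.le

end Pool.Agent.CFree
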