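import Pool.Agent.Lib_MP_6af485_kt.KProd

/-!
# MP_6af485_co, `k = 3`: a balanced part with one exit

`Cut S W x`: `W ⊆ S` is balanced (and not all of `S`) and only `x ∈ W` has neighbours in `S \ W`; let
`m = |N S x \ W|`. Then the edges from `x` to `S \ W` are in no perfect matching.

`F_cut_aux`: the statement without `W ≠ S`; induction on `|W|`. `W` is balanced and contains `x`, so it contains
a vertex `w` of the other colour, `w ≠ x`. Expand `F S` and `F W` at `w`: `N S w = N W w` (as `w ≠ x`), and
`deg S w = deg W w`; for `u ∈ N W w` with `u ≠ x`: `deg S u = deg W u`, and `W' = (W.erase w).erase u` is balanced,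
contains `x`, `S' = (S.erase w).erase u`, `S' \ W' = S \ W`, `N S' x \ W' = N S x \ W` (`w, u ∈ W`): induction gives
`F S' = yy ^ m * F W' * F (S \ W)`. For `u = x`: `deg S x = deg W x + m`, so the factor is `yy ^ m` times the factor of
`F W`, and `W' = (W.erase w).erase x` has no neighbours outside: `F S' = F W' * F (S \ W)` by `F_prod`.
In all cases the term of `F S` is `yy ^ m * F (S \ W)` times the term of `F W`. (`1 ≤ deg W w`, `1 ≤ deg W u` for the
subtraction in the exponents.)
-/

set_option autoImplicit false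

namespace Pool.Agent.CFree

open Finset

variable {V : Type} [Fintype V] [DecidableEq V] {G : BG V}

private theorem kcut_bal_erase {W : Finset V} {v u : V} (hb : G.bal W) (hv : v ∈ W) (hu : u ∈ W)
    (h : G.adj v u) : G.bal ((W.erase v).erase u) := by
  have hc := G.bip _ _ h
  have h1 : ∀ b : Bool, (((W.erase v).erase u).filter fun x => G.col x = b) =
      ((W.filter fun x => G.col x = b).erase v).erase u := by
    intro b
    ext x
    simp only [mem_filter, mem_erase]
    tauto
  unfold BG.bal at hb ⊢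
  rw [h1, h1]
  have huv : u ≠ v := (BG.ne_of_adj h).symm
  rcases Bool.eq_false_or_eq_true (G.col v) with hcv | hcv
  · have hcu : G.col u = false := by
      rw [hcv] at hc
      cases hcu : G.col u
      · rfl
      · exact absurd hcu.symm hc
    rw [erase_eq_of_notMem (s := (W.filter fun x => G.col x = true).erase v) (a := u)
      (by simp [hcu]), erase_eq_of_notMem (s := W.filter fun x => G.col x = false) (a := v)
      (by simp [hcv]), card_erase_of_mem (by simp [hv, hcv]), card_erase_of_mem (by simp [hu, hcu]),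
      hb]
  · have hcu : G.col u = true := by
      rw [hcv] at hc
      cases hcu : G.col u
      · exact absurd hcu.symm hc
      · rfl
    rw [erase_eq_of_notMem (s := W.filter fun x => G.col x = true) (a := v)
      (by simp [hcv]), erase_eq_of_notMem (s := (W.filter fun x => G.col x = false).erase v) (a := u)
      (by simp [hcu]), card_erase_of_mem (by simp [hu, hcu]), card_erase_of_mem (by simp [hv, hcv]),
      hb]

private theorem kcut_other {W : Finset V} {x : V} (hb : G.bal W) (hx : x ∈ W) :
    ∃ w ∈ W, G.col w ≠ G.col x := by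
  unfold BG.bal at hb
  rcases Bool.eq_false_or_eq_true (G.col x) with hc | hc
  · have h1 : 0 < (W.filter fun x => G.col x = false).card := by
      rw [← hb]
      exact card_pos.2 ⟨x, mem_filter.2 ⟨hx, hc⟩⟩
    obtain ⟨w, hw⟩ := card_pos.1 h1
    rw [mem_filter] at hw
    exact ⟨w, hw.1, by rw [hw.2, hc]; exact Bool.false_ne_true⟩
  · have h1 : 0 < (W.filter fun x => G.col x = true).card := by
      rw [hb]
      exact card_pos.2 ⟨x, mem_filter.2 ⟨hx, hc⟩⟩
    obtain ⟨w, hw⟩ := card_pos.1 h1
    rw [mem_filter] at hw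
    exact ⟨w, hw.1, by rw [hw.2, hc]; exact Bool.false_ne_true.symm⟩

private theorem kcut_N_eq {S W : Finset V} {w : V} (hW : W ⊆ S) (h : G.N S w ⊆ W) :
    G.N S w = G.N W w := by
  ext u
  rw [BG.mem_N, BG.mem_N]
  constructor
  · rintro ⟨h1, h2⟩
    exact ⟨h (BG.mem_N.2 ⟨h1, h2⟩), h2⟩
  · rintro ⟨h1, h2⟩
    exact ⟨hW h1, h2⟩

omit [Fintype V] in
private theorem kcut_sdiff {S W : Finset V} {w u : V} (hw : w ∈ W) (hu : u ∈ W) :
    ((S.erase w).erase u) \ ((W.erase w).erase u) = S \ W := by
  ext y
  simp only [mem_sdiff, mem_erase]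
  constructor
  · rintro ⟨⟨h1, h2, h3⟩, h4⟩
    exact ⟨h3, fun h5 => h4 ⟨h1, h2, h5⟩⟩
  · rintro ⟨h3, h4⟩
    exact ⟨⟨fun e => h4 (e ▸ hu), fun e => h4 (e ▸ hw), h3⟩, fun h5 => h4 h5.2.2⟩

private theorem kcut_main (x : V) : ∀ (n : ℕ) (S W : Finset V), W.card = n → W ⊆ S → x ∈ W →
    G.bal W → (∀ w ∈ W, w ≠ x → G.N S w ⊆ W) →
    G.F S = yy ^ (G.N S x \ W).card * G.F W * G.F (S \ W) := by
  intro n
  induction n using Nat.strong_induction_on with
  | _ n ih =>
    intro S W hn hW hx hb hout
    obtain ⟨w, hwW, hwc⟩ := kcut_other hb hx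
    have hwx : w ≠ x := fun e => hwc (by rw [e])
    have hNw : G.N S w = G.N W w := kcut_N_eq hW (hout w hwW hwx)
    have hdw : G.deg S w = G.deg W w := by
      unfold BG.deg
      rw [hNw]
    rw [BG.F_expand (hW hwW), BG.F_expand hwW, hNw, mul_sum, sum_mul]
    refine sum_congr rfl ?_
    intro u hu
    obtain ⟨huW, hadj⟩ := BG.mem_N.1 hu
    have hwu : w ≠ u := BG.ne_of_adj hadj
    have hsd := kcut_sdiff (S := S) hwW huW
    have hsub : (W.erase w).erase u ⊆ (S.erase w).erase u :=
      erase_subset_erase _ (erase_subset_erase _ hW)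
    have hd1 : 1 ≤ G.deg W w := card_pos.2 ⟨u, hu⟩
    have hd2 : 1 ≤ G.deg W u := card_pos.2 ⟨w, BG.mem_N.2 ⟨hwW, G.symm _ _ hadj⟩⟩
    have hcl : ∀ z ∈ (W.erase w).erase u, z ≠ x →
        G.N ((S.erase w).erase u) z ⊆ (W.erase w).erase u := by
      intro z hz hzx y hy
      rw [mem_erase, mem_erase] at hz
      rw [BG.N_erase, BG.N_erase, mem_erase, mem_erase] at hy
      rw [mem_erase, mem_erase]
      exact ⟨hy.1, hy.2.1, hout z hz.2.2 hzx hy.2.2⟩
    by_cases hux : u = x
    · have h1 : G.F ((S.erase w).erase u) = G.F ((W.erase w).erase u) * G.F (S \ W) := by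
        rw [BG.F_prod hsub (fun z hz => hcl z hz (by
          rintro rfl
          rw [hux] at hz
          exact (mem_erase.1 hz).1 rfl)), hsd]
      have h2 : G.deg S u = G.deg W u + (G.N S u \ W).card := by
        have h3 : G.N S u ∩ W = G.N W u := by
          ext y
          rw [mem_inter, BG.mem_N, BG.mem_N]
          constructor
          · rintro ⟨⟨_, h5⟩, h6⟩
            exact ⟨h6, h5⟩
          · rintro ⟨h5, h6⟩
            exact ⟨⟨hW h5, h6⟩, h5⟩
        unfold BG.deg
        rw [← h3]
        exact (card_inter_add_card_sdiff _ _).symm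
      rw [h1, hdw, h2, ← hux]
      have h4 : G.deg W w + (G.deg W u + (G.N S u \ W).card) - 2 =
          (G.N S u \ W).card + (G.deg W w + G.deg W u - 2) := by omega
      rw [h4, pow_add]
      ring
    · have hxW' : x ∈ (W.erase w).erase u :=
        mem_erase.2 ⟨Ne.symm hux, mem_erase.2 ⟨hwx.symm, hx⟩⟩
      have hcard : ((W.erase w).erase u).card < n := by
        rw [← hn]
        refine card_lt_card ⟨(erase_subset _ _).trans (erase_subset _ _), fun h => ?_⟩
        exact (mem_erase.1 (h huW)).1 rfl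
      have h1 := ih _ hcard ((S.erase w).erase u) ((W.erase w).erase u) rfl hsub hxW'
        (kcut_bal_erase hb hwW huW hadj) hcl
      have h2 : G.N ((S.erase w).erase u) x \ ((W.erase w).erase u) = G.N S x \ W := by
        rw [BG.N_erase, BG.N_erase]
        exact kcut_sdiff hwW huW
      have h3 : G.deg S u = G.deg W u := by
        unfold BG.deg
        rw [kcut_N_eq hW (hout u huW hux)]
      rw [h1, h2, hsd, hdw, h3]
      ring

theorem BG.F_cut_aux {S W : Finset V} {x : V} (hW : W ⊆ S) (hx : x ∈ W) (hb : G.bal W)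
    (hout : ∀ w ∈ W, w ≠ x → G.N S w ⊆ W) :
    G.F S = yy ^ (G.N S x \ W).card * G.F W * G.F (S \ W) :=
  kcut_main x W.card S W rfl hW hx hb hout

theorem BG.F_cut {S W : Finset V} {x : V} (h : G.Cut S W x) :
    G.F S = yy ^ (G.N S x \ W).card * G.F W * G.F (S \ W) :=
  BG.F_cut_aux h.sub h.mem h.bal h.out

end Pool.Agent.CFree
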