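import Pool.Agent.Lib_MP_6af485_co.StepB

/-!
# MP_6af485_co, the sharp bound for `k = 3`: definitions

All graphs are induced subgraphs `S` of a fixed bipartite graph `G` without 4-cycles (`BG V`, `Base.lean`).
`y = yy = 2 ^ (-1/3)`, `Q = QQ`, `Q ^ 14 * (3 * y ^ 5) = 1`, so `Q = 1.0040534...`.

* `hh d`: weight of a vertex of degree `d`: `0, 0, 2, 1, 2, 3, 4, ...` for `d = 0, 1, 2, 3, 4, 5, 6, ...`.
* `dl d = hh d - hh (d - 1)`: `0, 0, 2, -1, 1, 1, ...`.
* `phi S`: sum of the weights of the degrees in `S`.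
* `IsC6 S K`: `K` is a component of `S` which is a cycle of length 6.
* `C6V S`: the vertices in such components.
* `IsTh S u1 u2 K`: `K ∪ {u1, u2}` is a component of `S` which consists of two vertices joined by three paths of
  length 3 (theta graph; `u1 u2` is the middle edge of one of the paths, `K` is the 6-cycle formed by the two others).
* `ThV S`: the vertices in such components.
* `Gh S = F S * Q ^ (phi S - 2 * |C6V S|)`: the normalized number of perfect matchings.
* `PP S`: the statement proved by induction on the number of vertices; `PP.A` is the theorem.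
* `Irr S`: `S` is connected, balanced, and every balanced proper nonempty part `W` has two vertices with neighbours
  outside of `W`.
-/

set_option autoImplicit false

namespace Pool.Agent.CFree

open Finset

/-- weight of a degree -/
def hh (d : ℕ) : ℕ := if d ≤ 1 then 0 else if d = 2 then 2 else d - 2

/-- loss of weight when a neighbour is removed -/
def dl (d : ℕ) : ℤ := (hh d : ℤ) - (hh (d - 1) : ℤ)

theorem hh_two : hh 2 = 2 := rfl

theorem hh_three : hh 3 = 1 := rfl

theorem hh_ge {d : ℕ} (h : 3 ≤ d) : hh d = d - 2 := by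
  unfold hh
  rw [if_neg (by omega), if_neg (by omega)]

theorem hh_le (d : ℕ) : hh d ≤ d := by
  unfold hh
  split_ifs <;> omega

theorem dl_zero : dl 0 = 0 := rfl

theorem dl_one : dl 1 = 0 := rfl

theorem dl_two : dl 2 = 2 := rfl

theorem dl_three : dl 3 = -1 := rfl

theorem dl_ge {d : ℕ} (h : 4 ≤ d) : dl d = 1 := by
  unfold dl
  rw [hh_ge (by omega), hh_ge (by omega)]
  omega

theorem dl_le_one {d : ℕ} (h : 3 ≤ d) : dl d ≤ 1 := by
  rcases Nat.lt_or_ge d 4 with h1 | h1
  · have : d = 3 := by omega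
    rw [this, dl_three]
    norm_num
  · rw [dl_ge h1]

theorem dl_le_two (d : ℕ) : dl d ≤ 2 := by
  rcases Nat.lt_or_ge d 3 with h1 | h1
  · interval_cases d
    · rw [dl_zero]; norm_num
    · rw [dl_one]; norm_num
    · rw [dl_two]
  · have := dl_le_one h1
    omega

theorem dl_ge_neg (d : ℕ) : -1 ≤ dl d := by
  rcases Nat.lt_or_ge d 4 with h1 | h1
  · interval_cases d
    · rw [dl_zero]; norm_num
    · rw [dl_one]; norm_num
    · rw [dl_two]; norm_num
    · rw [dl_three]
  · rw [dl_ge h1]; norm_num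

/-- the constant `Q` with `Q ^ 14 * (3 * y ^ 5) = 1` -/
noncomputable def QQ : ℝ := (3 * yy ^ 5) ^ (-(1 / 14) : ℝ)

/-- bound for graphs with a vertex of degree one (whose neighbour has degree at least two) -/
noncomputable def lam : ℝ := yy * QQ ^ 13

/-- bound for graphs with a vertex of degree two whose two neighbours have degree at least three -/
noncomputable def bet : ℝ := yy * QQ ^ 16

/-- the same if one of the two neighbours has degree at least four -/
noncomputable def b34 : ℝ := yy * QQ ^ 16 * (2 - QQ ^ 2)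

/-- the same if both neighbours have degree at least four -/
noncomputable def b44 : ℝ := yy * QQ ^ 8

/-- bound for graphs with a vertex of degree two, which does not lie in a 6-cycle or theta component -/
noncomputable def EE : ℝ := yy ^ 2 * QQ ^ 2 + yy ^ 5 * QQ ^ 20

/-- bound for graphs with four consecutive vertices of degree two -/
noncomputable def b22 : ℝ := yy * QQ ^ 22

variable {V : Type} [Fintype V] [DecidableEq V] (G : BG V)

/-- sum of the weights of the degrees -/
def BG.phi (S : Finset V) : ℕ := ∑ v ∈ S, hh (G.deg S v)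

/-- `K` is a component of `S` which is a cycle of length 6 -/
def BG.IsC6 (S K : Finset V) : Prop :=
  K ⊆ S ∧ K.card = 6 ∧ ∀ w ∈ K, G.deg S w = 2 ∧ G.N S w ⊆ K

open Classical in
/-- vertices of the components which are cycles of length 6 -/
noncomputable def BG.C6V (S : Finset V) : Finset V := S.filter fun v => ∃ K, G.IsC6 S K ∧ v ∈ K

/-- `K ∪ {u1, u2}` is a component of `S` which is a theta graph with three paths of length 3 -/
def BG.IsTh (S : Finset V) (u1 u2 : V) (K : Finset V) : Prop :=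
  u1 ∈ S ∧ u2 ∈ S ∧ G.adj u1 u2 ∧ G.deg S u1 = 2 ∧ G.deg S u2 = 2 ∧ G.IsC6 (S \ {u1, u2}) K ∧
    G.N S u1 ⊆ insert u2 K ∧ G.N S u2 ⊆ insert u1 K

open Classical in
/-- vertices of the theta components -/
noncomputable def BG.ThV (S : Finset V) : Finset V :=
  S.filter fun v => ∃ u1 u2 K, G.IsTh S u1 u2 K ∧ v ∈ insert u1 (insert u2 K)

/-- the normalized number of perfect matchings -/
noncomputable def BG.Gh (S : Finset V) : ℝ :=
  G.F S * QQ ^ ((G.phi S : ℤ) - 2 * ((G.C6V S).card : ℤ))

/-- the statement proved by induction -/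
structure BG.PP (S : Finset V) : Prop where
  A : G.Gh S ≤ 1
  L : ∀ v u, v ∈ S → G.N S v = {u} → 2 ≤ G.deg S u → G.Gh S ≤ lam
  B : ∀ v a b, v ∈ S → a ≠ b → G.N S v = {a, b} → 3 ≤ G.deg S a → 3 ≤ G.deg S b → G.Gh S ≤ bet
  B34 : ∀ v a b, v ∈ S → a ≠ b → G.N S v = {a, b} → 3 ≤ G.deg S a → 4 ≤ G.deg S b → G.Gh S ≤ b34
  B44 : ∀ v a b, v ∈ S → a ≠ b → G.N S v = {a, b} → 4 ≤ G.deg S a → 4 ≤ G.deg S b → G.Gh S ≤ b44
  N : ∀ u ∈ S, G.deg S u = 2 → u ∉ G.C6V S → u ∉ G.ThV S → G.Gh S ≤ EE
  D : ∀ b c, b ∈ S → c ∈ G.N S b → G.deg S b = 3 → 4 ≤ G.deg S c → G.Gh S ≤ EE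
  P4 : ∀ p u1 u2 u3 u4 w, u1 ∈ S → u2 ∈ S → u3 ∈ S → u4 ∈ S → G.N S u1 = {p, u2} → G.N S u2 = {u1, u3} →
    G.N S u3 = {u2, u4} → G.N S u4 = {u3, w} → p ≠ u2 → u1 ≠ u3 → u2 ≠ u4 → u3 ≠ w → 3 ≤ G.deg S p →
    p ∉ G.C6V (S \ {u1, u2, u3, u4}) → G.Gh S ≤ b22

/-- both colours occur equally often -/
def BG.bal (W : Finset V) : Prop :=
  (W.filter fun x => G.col x = true).card = (W.filter fun x => G.col x = false).card

/-- `S` is connected -/
def BG.Conn (S : Finset V) : Prop :=
  ∀ W ⊆ S, W.Nonempty → W ≠ S → ∃ w ∈ W, ∃ x ∈ S \ W, G.adj w x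

/-- connected, balanced, and every balanced proper nonempty part has two vertices with neighbours outside -/
structure BG.Irr (S : Finset V) : Prop where
  bal : G.bal S
  conn : G.Conn S
  irr : ∀ W ⊆ S, W.Nonempty → W ≠ S → G.bal W →
    ∃ w1 ∈ W, ∃ w2 ∈ W, w1 ≠ w2 ∧ (∃ x ∈ S \ W, G.adj w1 x) ∧ ∃ x ∈ S \ W, G.adj w2 x

/-- `W` is a balanced proper part of `S`, and only `x` has neighbours outside of `W` -/
structure BG.Cut (S W : Finset V) (x : V) : Prop where
  sub : W ⊆ S
  mem : x ∈ W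
  ne : W ≠ S
  bal : G.bal W
  out : ∀ w ∈ W, w ≠ x → G.N S w ⊆ W

end Pool.Agent.CFree
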