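import Pool.Agent.Lib_MP_6af485_kt.KBase

/-!
# MP_6af485_co, `k = 3`: products

`F_empty`: as in the proof of `BG.step4` (`StepD`): the only involution is the identity.

`F_prod`: induction on `|W|`. `W = ∅`: `F_empty`. Otherwise take `v ∈ W` and expand (`BG.F_expand`) `F S` and `F W`
at `v`: `N S v = N W v`, the degrees of the vertices of `W` are the same in `S` and `W`, and
`(S.erase v).erase u` with `(W.erase v).erase u` satisfies the assumptions for `u ∈ N W v`, with the same complement.

`F_unbal`: induction on `|S|`: if `S` is empty it is balanced; otherwise expand at some `v ∈ S`: `u ∈ N S v` has the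
other colour (`G.bip`), so `(S.erase v).erase u` is not balanced either and all terms vanish.

`F_closed_unbal`: from the two others: `F S = F W * F (S \ W) = 0`.
-/

set_option autoImplicit false

namespace Pool.Agent.CFree

open Finset

variable {V : Type} [Fintype V] [DecidableEq V] {G : BG V}

theorem BG.F_empty : G.F ∅ = 1 := by
  have h1 : G.pm ∅ = 1 := by
    unfold BG.pm
    rw [card_eq_one]
    refine ⟨1, ?_⟩
    ext f
    simp only [BG.PM, mem_filter, mem_univ, true_and, mem_singleton]
    constructor
    · rintro ⟨_, _, h⟩
      ext x
      rw [h x (by simp), Equiv.Perm.one_apply]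
    · rintro rfl
      simp
  unfold BG.F
  rw [h1]
  simp [BG.E2]

theorem BG.F_prod {S W : Finset V} (hW : W ⊆ S) (hcl : ∀ w ∈ W, G.N S w ⊆ W) :
    G.F S = G.F W * G.F (S \ W) := by
  induction hn : W.card using Nat.strong_induction_on generalizing S W with
  | _ n ih =>
    subst hn
    rcases W.eq_empty_or_nonempty with rfl | ⟨v, hv⟩
    · rw [BG.F_empty, one_mul, sdiff_empty]
    · have hN : ∀ w ∈ W, G.N S w = G.N W w := by
        intro w hw
        ext x
        rw [BG.mem_N, BG.mem_N]
        constructor
        · rintro ⟨h1, h2⟩
          exact ⟨hcl w hw (BG.mem_N.2 ⟨h1, h2⟩), h2⟩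
        · rintro ⟨h1, h2⟩
          exact ⟨hW h1, h2⟩
      have hd : ∀ w ∈ W, G.deg S w = G.deg W w := by
        intro w hw
        unfold BG.deg
        rw [hN w hw]
      rw [BG.F_expand (hW hv), BG.F_expand hv, sum_mul, hN v hv]
      refine sum_congr rfl fun u hu => ?_
      obtain ⟨huW, hvu⟩ := BG.mem_N.1 hu
      have huv : u ≠ v := fun e => BG.irr v (e ▸ hvu)
      have hset : ((S.erase v).erase u) \ ((W.erase v).erase u) = S \ W := by
        ext x
        simp only [mem_sdiff, mem_erase]
        constructor
        · rintro ⟨⟨h1, h2, h3⟩, h4⟩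
          exact ⟨h3, fun h => h4 ⟨h1, h2, h⟩⟩
        · rintro ⟨h1, h2⟩
          refine ⟨⟨?_, ?_, h1⟩, fun h => h2 h.2.2⟩
          · rintro rfl; exact h2 huW
          · rintro rfl; exact h2 hv
      have hlt : ((W.erase v).erase u).card < W.card :=
        (card_le_card (erase_subset _ _)).trans_lt (card_erase_lt_of_mem hv)
      have h1 := ih _ hlt (S := (S.erase v).erase u) (W := (W.erase v).erase u)
        (erase_subset_erase _ (erase_subset_erase _ hW)) (by
          intro w hw
          have hwW : w ∈ W := (mem_erase.1 (mem_erase.1 hw).2).2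
          rw [BG.N_erase, BG.N_erase]
          exact erase_subset_erase _ (erase_subset_erase _ (hcl w hwW))) rfl
      rw [h1, hset, hd v hv, hd u huW]
      ring

theorem BG.F_unbal {S : Finset V} (h : ¬ G.bal S) : G.F S = 0 := by
  induction hn : S.card using Nat.strong_induction_on generalizing S with
  | _ n ih =>
    subst hn
    rcases S.eq_empty_or_nonempty with rfl | ⟨v, hv⟩
    · exact absurd (by unfold BG.bal; simp) h
    · rw [BG.F_expand hv]
      refine sum_eq_zero fun u hu => ?_
      obtain ⟨huS, hvu⟩ := BG.mem_N.1 hu
      have huv : u ≠ v := fun e => BG.irr v (e ▸ hvu)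
      have hc := G.bip _ _ hvu
      have hlt : ((S.erase v).erase u).card < S.card :=
        (card_le_card (erase_subset _ _)).trans_lt (card_erase_lt_of_mem hv)
      have h1 : ¬ G.bal ((S.erase v).erase u) := by
        intro hb
        apply h
        unfold BG.bal at hb ⊢
        have key : ∀ (c : Bool) (T : Finset V) (x : V), x ∈ T →
            (T.filter fun y => G.col y = c).card =
              ((T.erase x).filter fun y => G.col y = c).card + if G.col x = c then 1 else 0 := by
          intro c T x hx
          rw [filter_erase]
          by_cases hxc : G.col x = c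
          · rw [if_pos hxc, card_erase_add_one (mem_filter.2 ⟨hx, hxc⟩)]
          · have hx' : x ∉ T.filter fun y => G.col y = c := fun h' => hxc (mem_filter.1 h').2
            rw [if_neg hxc, erase_eq_of_notMem hx', add_zero]
        have hu' : u ∈ S.erase v := mem_erase.2 ⟨huv, huS⟩
        rw [key true S v hv, key true (S.erase v) u hu', key false S v hv, key false (S.erase v) u hu', hb]
        cases h1 : G.col v <;> cases h2 : G.col u <;> simp_all
      rw [ih _ hlt h1 rfl, mul_zero]

end Pool.Agent.CFree
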