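import Pool.Agent.Lib_MP_6af485_kt.KPhiCut
import Pool.Agent.Lib_MP_6af485_kt.KProd

/-!
# MP_6af485_co, `k = 3`: disconnected graphs

`Gh S = Gh W * Gh (S \ W)` by `F_prod`, `phi_prod`, `C6V_prod` (`zpow_add₀`), both factors are in `[0, 1]` by `A`.
The vertices in the assumptions of `L, B, B34, B44, N, D, P4` are joined by edges, so they are all in `W` or all in
`S \ W` (both are closed under neighbours; `S \ W` by symmetry of `adj`), and the neighbourhoods and degrees are the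
same. For `N`: `u ∉ C6V S` gives `u ∉ C6V W` (`C6V_prod`), `u ∉ ThV S` gives `u ∉ ThV W` (`ThV_prod`). For `P4`: if
`p ∈ C6V (W \ {u1, u2, u3, u4})` then `p ∈ C6V (S \ {u1, u2, u3, u4})` (`C6V_prod` for `W \ {..} ⊆ S \ {..}`).
For the case `⊆ S \ W` apply the same argument with `S \ W` instead of `W` (`S \ (S \ W) = W`), so it is convenient to
prove a private lemma with the hypothesis `Gh (S \ W) ≤ 1` only, for one of the two parts.
-/

set_option autoImplicit false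

namespace Pool.Agent.CFree

open Finset

variable {V : Type} [Fintype V] [DecidableEq V] {G : BG V}

private theorem kdisc_N {S W : Finset V} (hW : W ⊆ S) {w : V} (h : G.N S w ⊆ W) :
    G.N W w = G.N S w := by
  ext y
  constructor
  · intro hy
    exact BG.mem_N.2 ⟨hW (BG.mem_N.1 hy).1, (BG.mem_N.1 hy).2⟩
  · intro hy
    exact BG.mem_N.2 ⟨h hy, (BG.mem_N.1 hy).2⟩

private theorem kdisc_deg {S W : Finset V} (hW : W ⊆ S) {w : V} (h : G.N S w ⊆ W) :
    G.deg W w = G.deg S w := by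
  unfold BG.deg
  rw [kdisc_N hW h]

private theorem kdisc_Gh {S W : Finset V} (hW : W ⊆ S) (hcl : ∀ w ∈ W, G.N S w ⊆ W) :
    G.Gh S = G.Gh W * G.Gh (S \ W) := by
  have e1 := BG.F_prod hW hcl
  have e2 := BG.phi_prod hW hcl
  obtain ⟨e3, e4⟩ := BG.C6V_prod hW hcl
  have e5 : (G.C6V S).card = (G.C6V W).card + (G.C6V (S \ W)).card := by
    rw [e3, card_union_of_disjoint e4]
  unfold BG.Gh
  have e6 : (G.phi S : ℤ) - 2 * ((G.C6V S).card : ℤ) =
      ((G.phi W : ℤ) - 2 * ((G.C6V W).card : ℤ)) +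
        ((G.phi (S \ W) : ℤ) - 2 * ((G.C6V (S \ W)).card : ℤ)) := by
    rw [e2, e5]
    push_cast
    ring
  rw [e1, e6, zpow_add₀ QQ_pos.ne']
  ring

private theorem kdisc_half {S W : Finset V} (hW : W ⊆ S) (hcl : ∀ w ∈ W, G.N S w ⊆ W) (h1 : G.PP W)
    (h2 : G.Gh (S \ W) ≤ 1) :
    (∀ v u, v ∈ W → G.N S v = {u} → 2 ≤ G.deg S u → G.Gh S ≤ lam) ∧
    (∀ v a b, v ∈ W → a ≠ b → G.N S v = {a, b} → 3 ≤ G.deg S a → 3 ≤ G.deg S b → G.Gh S ≤ bet) ∧
    (∀ v a b, v ∈ W → a ≠ b → G.N S v = {a, b} → 3 ≤ G.deg S a → 4 ≤ G.deg S b → G.Gh S ≤ b34) ∧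
    (∀ v a b, v ∈ W → a ≠ b → G.N S v = {a, b} → 4 ≤ G.deg S a → 4 ≤ G.deg S b → G.Gh S ≤ b44) ∧
    (∀ u ∈ W, G.deg S u = 2 → u ∉ G.C6V S → u ∉ G.ThV S → G.Gh S ≤ EE) ∧
    (∀ b c, b ∈ W → c ∈ G.N S b → G.deg S b = 3 → 4 ≤ G.deg S c → G.Gh S ≤ EE) ∧
    (∀ p u1 u2 u3 u4 w, u1 ∈ W → u2 ∈ S → u3 ∈ S → u4 ∈ S → G.N S u1 = {p, u2} → G.N S u2 = {u1, u3} →
      G.N S u3 = {u2, u4} → G.N S u4 = {u3, w} → p ≠ u2 → u1 ≠ u3 → u2 ≠ u4 → u3 ≠ w → 3 ≤ G.deg S p →
      p ∉ G.C6V (S \ {u1, u2, u3, u4}) → G.Gh S ≤ b22) := by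
  have hle : G.Gh S ≤ G.Gh W := by
    rw [kdisc_Gh hW hcl]
    exact mul_le_of_le_one_right (BG.Gh_nonneg W) h2
  have hN : ∀ w ∈ W, G.N W w = G.N S w := fun w hw => kdisc_N hW (hcl w hw)
  have hd : ∀ w ∈ W, G.deg W w = G.deg S w := fun w hw => kdisc_deg hW (hcl w hw)
  have mem : ∀ {v a : V}, v ∈ W → a ∈ G.N S v → a ∈ W := fun {v a} hv ha => hcl v hv ha
  refine ⟨?_, ?_, ?_, ?_, ?_, ?_, ?_⟩
  · intro v u hv hNv hdu
    have hu : u ∈ W := mem hv (by rw [hNv]; simp)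
    exact hle.trans (h1.L v u hv (by rw [hN v hv]; exact hNv) (by rw [hd u hu]; exact hdu))
  · intro v a b hv hab hNv ha hb
    have ha' : a ∈ W := mem hv (by rw [hNv]; simp)
    have hb' : b ∈ W := mem hv (by rw [hNv]; simp)
    exact hle.trans (h1.B v a b hv hab (by rw [hN v hv]; exact hNv) (by rw [hd a ha']; exact ha)
      (by rw [hd b hb']; exact hb))
  · intro v a b hv hab hNv ha hb
    have ha' : a ∈ W := mem hv (by rw [hNv]; simp)
    have hb' : b ∈ W := mem hv (by rw [hNv]; simp)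
    exact hle.trans (h1.B34 v a b hv hab (by rw [hN v hv]; exact hNv) (by rw [hd a ha']; exact ha)
      (by rw [hd b hb']; exact hb))
  · intro v a b hv hab hNv ha hb
    have ha' : a ∈ W := mem hv (by rw [hNv]; simp)
    have hb' : b ∈ W := mem hv (by rw [hNv]; simp)
    exact hle.trans (h1.B44 v a b hv hab (by rw [hN v hv]; exact hNv) (by rw [hd a ha']; exact ha)
      (by rw [hd b hb']; exact hb))
  · intro u hu hdu hC hT
    refine hle.trans (h1.N u hu (by rw [hd u hu]; exact hdu) ?_ ?_)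
    · intro h
      apply hC
      rw [(BG.C6V_prod hW hcl).1]
      exact mem_union_left _ h
    · intro h
      exact hT (BG.ThV_prod hW hcl h)
  · intro b c hb hc hdb hdc
    have hc' : c ∈ W := mem hb hc
    exact hle.trans (h1.D b c hb (by rw [hN b hb]; exact hc) (by rw [hd b hb]; exact hdb)
      (by rw [hd c hc']; exact hdc))
  · intro p u1 u2 u3 u4 w m1 _ _ _ n1 n2 n3 n4 d1 d2 d3 d4 hp hC
    have mp : p ∈ W := mem m1 (by rw [n1]; simp)
    have m2 : u2 ∈ W := mem m1 (by rw [n1]; simp)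
    have m3 : u3 ∈ W := mem m2 (by rw [n2]; simp)
    have m4 : u4 ∈ W := mem m3 (by rw [n3]; simp)
    refine hle.trans (h1.P4 p u1 u2 u3 u4 w m1 m2 m3 m4 (by rw [hN u1 m1]; exact n1)
      (by rw [hN u2 m2]; exact n2) (by rw [hN u3 m3]; exact n3) (by rw [hN u4 m4]; exact n4) d1 d2 d3 d4
      (by rw [hd p mp]; exact hp) ?_)
    intro h
    apply hC
    have hW' : W \ {u1, u2, u3, u4} ⊆ S \ {u1, u2, u3, u4} := sdiff_subset_sdiff hW (Subset.refl _)
    have hcl' : ∀ x ∈ W \ {u1, u2, u3, u4}, G.N (S \ {u1, u2, u3, u4}) x ⊆ W \ {u1, u2, u3, u4} := by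
      intro x hx
      rw [BG.N_sdiff]
      exact sdiff_subset_sdiff (hcl x (mem_sdiff.1 hx).1) (Subset.refl _)
    rw [(BG.C6V_prod hW' hcl').1]
    exact mem_union_left _ h

theorem BG.PP_disc {S W : Finset V} (hW : W ⊆ S) (hcl : ∀ w ∈ W, G.N S w ⊆ W) (h1 : G.PP W)
    (h2 : G.PP (S \ W)) : G.PP S := by
  have hW2 : S \ W ⊆ S := sdiff_subset
  have hcl2 : ∀ r ∈ S \ W, G.N S r ⊆ S \ W := by
    intro r hr y hy
    obtain ⟨hrS, hrW⟩ := mem_sdiff.1 hr
    obtain ⟨hyS, hadj⟩ := BG.mem_N.1 hy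
    exact mem_sdiff.2 ⟨hyS, fun hyW => hrW (hcl y hyW (BG.mem_N.2 ⟨hrS, G.symm _ _ hadj⟩))⟩
  have hSS : S \ (S \ W) = W := Finset.sdiff_sdiff_eq_self hW
  obtain ⟨a1, a2, a3, a4, a5, a6, a7⟩ := kdisc_half hW hcl h1 h2.A
  obtain ⟨b1, b2, b3, b4, b5, b6, b7⟩ := kdisc_half hW2 hcl2 h2 (by rw [hSS]; exact h1.A)
  have cases' : ∀ v ∈ S, v ∈ W ∨ v ∈ S \ W := by
    intro v hv
    by_cases h : v ∈ W
    · exact Or.inl h
    · exact Or.inr (mem_sdiff.2 ⟨hv, h⟩)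
  refine ⟨?_, ?_, ?_, ?_, ?_, ?_, ?_, ?_⟩
  · rw [kdisc_Gh hW hcl]
    exact mul_le_one₀ h1.A (BG.Gh_nonneg _) h2.A
  · intro v u hv
    rcases cases' v hv with h | h
    · exact a1 v u h
    · exact b1 v u h
  · intro v a b hv
    rcases cases' v hv with h | h
    · exact a2 v a b h
    · exact b2 v a b h
  · intro v a b hv
    rcases cases' v hv with h | h
    · exact a3 v a b h
    · exact b3 v a b h
  · intro v a b hv
    rcases cases' v hv with h | h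
    · exact a4 v a b h
    · exact b4 v a b h
  · intro u hu
    rcases cases' u hu with h | h
    · exact a5 u h
    · exact b5 u h
  · intro b c hb
    rcases cases' b hb with h | h
    · exact a6 b c h
    · exact b6 b c h
  · intro p u1 u2 u3 u4 w hu1
    rcases cases' u1 hu1 with h | h
    · exact a7 p u1 u2 u3 u4 w h
    · exact b7 p u1 u2 u3 u4 w h

end Pool.Agent.CFree
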