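import Pool.Agent.Lib_MP_6af485_kt.KBase

/-!
# MP_6af485_co, `k = 3`: components which are cycles of length 6

`IsC6 T K`: `K ⊆ T`, `|K| = 6`, all vertices of `K` have degree two in `T` and their neighbours in `T` are in `K`.

`three`: double counting of the edges of `K` (colour `c` against the other colour, all degrees are two, all neighbours
in `K` have the other colour) gives that both colours have the same number of vertices, so 3.

`share`: `k1 ≠ k2` of the same colour in `K` have two neighbours each in the set of the three vertices of `K` of the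
other colour, so they have a common neighbour.

`outside`: if both `k1` and `k2` are adjacent to `r ∉ K`, they have the same colour (`BG.col_common`), so by `share` a
common neighbour `c ∈ K`, `c ≠ r`: a 4-cycle (`G.c4`).

`unique`: two such components with a common vertex `x`: all vertices of `K` can be reached from `x` inside `K`
(a neighbour `c` of `x`, the other vertices of the colour of `x` share a neighbour with `x` by `share`), and `K'` is
closed under neighbours. So `K ⊆ K'`, and both have 6 elements.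

`C6V_card_le`: `C6V T` is the union over `m ∈ M` of the (unique) component containing `m`, if there is one.
-/

set_option autoImplicit false

namespace Pool.Agent.CFree

open Finset

variable {V : Type} [Fintype V] [DecidableEq V] {G : BG V}

private theorem ksix_filter {T K : Finset V} (h : G.IsC6 T K) {x : V} (hx : x ∈ K) {c : Bool} (hc : G.col x = c) :
    ((K.filter fun y => G.col y = !c).filter fun y => G.adj x y) = G.N T x := by
  ext y
  simp only [mem_filter, BG.mem_N]
  constructor
  · rintro ⟨⟨h1, _⟩, h3⟩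
    exact ⟨h.1 h1, h3⟩
  · rintro ⟨h1, h2⟩
    have hy : y ∈ K := (h.2.2 x hx).2 (BG.mem_N.2 ⟨h1, h2⟩)
    have hb := G.bip _ _ h2
    refine ⟨⟨hy, ?_⟩, h2⟩
    rw [← hc]
    cases h4 : G.col x <;> cases h5 : G.col y <;> simp_all

private theorem ksix_card {T K : Finset V} (h : G.IsC6 T K) {x : V} (hx : x ∈ K) {c : Bool} (hc : G.col x = c) :
    ((K.filter fun y => G.col y = !c).filter fun y => G.adj x y).card = 2 := by
  rw [ksix_filter h hx hc]
  exact (h.2.2 x hx).1

theorem BG.IsC6.three {T K : Finset V} (h : G.IsC6 T K) (c : Bool) :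
    (K.filter fun x => G.col x = c).card = 3 := by
  have h1 : ∑ x ∈ K.filter (fun x => G.col x = c), ((K.filter fun y => G.col y = !c).filter fun y => G.adj x y).card =
      2 * (K.filter fun x => G.col x = c).card := by
    rw [sum_congr rfl (g := fun _ => 2) (fun x hx => ksix_card h (mem_filter.1 hx).1 (mem_filter.1 hx).2)]
    rw [sum_const, smul_eq_mul, mul_comm]
  have h2 : ∑ y ∈ K.filter (fun y => G.col y = !c), ((K.filter fun x => G.col x = c).filter fun x => G.adj x y).card =
      2 * (K.filter fun y => G.col y = !c).card := by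
    rw [sum_congr rfl (g := fun _ => 2) ?_]
    · rw [sum_const, smul_eq_mul, mul_comm]
    · intro y hy
      have h3 := ksix_card h (mem_filter.1 hy).1 (mem_filter.1 hy).2
      rw [Bool.not_not] at h3
      rw [← h3]
      congr 1
      ext z
      simp only [mem_filter]
      constructor
      · rintro ⟨h4, h5⟩
        exact ⟨h4, G.symm _ _ h5⟩
      · rintro ⟨h4, h5⟩
        exact ⟨h4, G.symm _ _ h5⟩
  have h3 := sum_card_bipartiteAbove_eq_sum_card_bipartiteBelow (s := K.filter fun x => G.col x = c)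
    (t := K.filter fun y => G.col y = !c) (fun x y => G.adj x y)
  simp only [bipartiteAbove, bipartiteBelow] at h3
  rw [h1, h2] at h3
  have h4 := card_filter_add_card_filter_not (s := K) (fun x => G.col x = c)
  have h5 : (K.filter fun x => ¬ G.col x = c) = K.filter fun y => G.col y = !c := by
    apply filter_congr
    intro x _
    cases h6 : G.col x <;> cases c <;> simp
  rw [h5, h.2.1] at h4
  omega

theorem BG.IsC6.bal {T K : Finset V} (h : G.IsC6 T K) : G.bal K := by
  unfold BG.bal
  rw [h.three, h.three]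

theorem BG.IsC6.share {T K : Finset V} (h : G.IsC6 T K) {k1 k2 : V} (h1 : k1 ∈ K) (h2 : k2 ∈ K)
    (hne : k1 ≠ k2) (hc : G.col k1 = G.col k2) : ∃ c ∈ K, G.adj k1 c ∧ G.adj k2 c := by
  have _ := hne
  have c1 := ksix_card h h1 rfl
  have c2 := ksix_card h h2 hc.symm
  have c3 := h.three (!G.col k1)
  set B := K.filter fun y => G.col y = !G.col k1 with hB
  by_contra hcon
  push Not at hcon
  have hd : Disjoint (B.filter fun y => G.adj k1 y) (B.filter fun y => G.adj k2 y) := by
    rw [disjoint_left]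
    intro y hy hy'
    have hyK : y ∈ K := (mem_filter.1 (mem_filter.1 hy).1).1
    exact hcon y hyK (mem_filter.1 hy).2 (mem_filter.1 hy').2
  have h5 := card_union_of_disjoint hd
  have h6 : ((B.filter fun y => G.adj k1 y) ∪ (B.filter fun y => G.adj k2 y)).card ≤ B.card :=
    card_le_card (union_subset (filter_subset _ _) (filter_subset _ _))
  omega

theorem BG.IsC6.outside {T K : Finset V} (h : G.IsC6 T K) {k1 k2 r : V} (h1 : k1 ∈ K) (h2 : k2 ∈ K)
    (hne : k1 ≠ k2) (hr : r ∉ K) : ¬ (G.adj k1 r ∧ G.adj k2 r) := by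
  rintro ⟨a1, a2⟩
  have hc : G.col k1 = G.col k2 := BG.col_common (G.symm _ _ a1) (G.symm _ _ a2)
  obtain ⟨c, hcK, b1, b2⟩ := h.share h1 h2 hne hc
  have h3 : c = r := G.c4 k1 k2 c r hne b1 b2 a1 a2
  exact hr (h3 ▸ hcK)

private theorem ksix_sub {T K K' : Finset V} (h : G.IsC6 T K) (h' : G.IsC6 T K') {x : V} (hx : x ∈ K)
    (hx' : x ∈ K') : K ⊆ K' := by
  -- closure of K' under neighbours
  have hcl : ∀ y ∈ K', ∀ z ∈ K, G.adj y z → z ∈ K' := fun y hy z hz hyz =>
    (h'.2.2 y hy).2 (BG.mem_N.2 ⟨h.1 hz, hyz⟩)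
  have hsame : ∀ y ∈ K, y ∈ K' → ∀ z ∈ K, G.col z = G.col y → z ∈ K' := by
    intro y hy hy' z hz hcol
    by_cases hyz : z = y
    · rw [hyz]; exact hy'
    · obtain ⟨c, hcK, a1, a2⟩ := h.share hz hy hyz hcol
      exact hcl c (hcl y hy' c hcK a2) z hz (G.symm _ _ a1)
  -- a neighbour of x in K
  have hdeg := (h.2.2 x hx).1
  have hne : (G.N T x).Nonempty := by
    rw [← card_pos]
    unfold BG.deg at hdeg
    omega
  obtain ⟨c, hc⟩ := hne
  have hcK : c ∈ K := (h.2.2 x hx).2 hc
  have hadj : G.adj x c := (BG.mem_N.1 hc).2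
  have hcK' : c ∈ K' := hcl x hx' c hcK hadj
  have hb := G.bip _ _ hadj
  intro z hz
  by_cases hzx : G.col z = G.col x
  · exact hsame x hx hx' z hz hzx
  · refine hsame c hcK hcK' z hz ?_
    cases h1 : G.col z <;> cases h2 : G.col x <;> cases h3 : G.col c <;> simp_all

theorem BG.IsC6.unique {T K K' : Finset V} (h : G.IsC6 T K) (h' : G.IsC6 T K') {x : V} (hx : x ∈ K)
    (hx' : x ∈ K') : K = K' :=
  eq_of_subset_of_card_le (ksix_sub h h' hx hx') (by rw [h.2.1, h'.2.1])

theorem BG.C6V_card_le {T M : Finset V} (h : ∀ K, G.IsC6 T K → ∃ m ∈ M, m ∈ K) :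
    (G.C6V T).card ≤ 6 * M.card := by
  classical
  have hsub : G.C6V T ⊆ M.biUnion fun m => (G.C6V T).filter fun v => ∃ K, G.IsC6 T K ∧ v ∈ K ∧ m ∈ K := by
    intro v hv
    obtain ⟨K, hK, hvK⟩ := BG.mem_C6V.1 hv
    obtain ⟨m, hm, hmK⟩ := h K hK
    rw [mem_biUnion]
    exact ⟨m, hm, mem_filter.2 ⟨hv, K, hK, hvK, hmK⟩⟩
  have hcard : ∀ m ∈ M, ((G.C6V T).filter fun v => ∃ K, G.IsC6 T K ∧ v ∈ K ∧ m ∈ K).card ≤ 6 := by
    intro m _
    by_cases hex : ∃ K, G.IsC6 T K ∧ m ∈ K
    · obtain ⟨K0, hK0, hm0⟩ := hex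
      rw [← hK0.2.1]
      apply card_le_card
      intro v hv
      obtain ⟨_, K, hK, hvK, hmK⟩ := mem_filter.1 hv
      rw [hK0.unique hK hm0 hmK]
      exact hvK
    · have he : ((G.C6V T).filter fun v => ∃ K, G.IsC6 T K ∧ v ∈ K ∧ m ∈ K) = ∅ := by
        rw [filter_eq_empty_iff]
        rintro v _ ⟨K, hK, _, hmK⟩
        exact hex ⟨K, hK, hmK⟩
      rw [he]
      simp
  calc (G.C6V T).card ≤ _ := card_le_card hsub
    _ ≤ ∑ m ∈ M, ((G.C6V T).filter fun v => ∃ K, G.IsC6 T K ∧ v ∈ K ∧ m ∈ K).card := card_biUnion_le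
    _ ≤ ∑ _m ∈ M, 6 := sum_le_sum hcard
    _ = 6 * M.card := by rw [sum_const, smul_eq_mul, mul_comm]

end Pool.Agent.CFree
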