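import Pool.Agent.Lib_MP_6af485_kt.KPhi
import Pool.Agent.Lib_MP_6af485_kt.KSix

/-!
# MP_6af485_co, `k = 3`: all degrees at least three

All degrees in `S` are at least three.

`C6_edge`: `v`, `u` adjacent; a 6-cycle component `K` of `S \ {u, v}`: all its vertices have degree two, so all of them are
adjacent to `u` or `v`; at most one is adjacent to `u`, at most one to `v` (`IsC6.outside`), so `|K| ≤ 2`.
`edge_nbr`: `w ∈ (N S v).erase u`: `w` is not adjacent to `u` (same colour); it loses `v`. The neighbours `x ≠ v` of `w` are not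
adjacent to `v` (same colour), nor to `u` (`u`, `w` would have the common neighbours `v`, `x`): the same degree.
`edge_bet`: if `deg w = 3`: `w` has degree two in `S \ {u, v}`, the neighbours have degree at least three: `PP.B`.
`edge_use`: `phi_pair` and `C6_edge`, `BG.use`.
`cubic`: all degrees are three: `F_expand` at `v ∈ S`; `phi_pair`: `phi S = phi (S \ {u, v}) + 1 + 1 - 2 - 2`, `use_gain` with
`edge_bet` for each of the three terms: `F S * QQ ^ phi S * QQ ^ 2 ≤ 3 * (yy ^ 4 * bet) = QQ ^ 2` (`num_cubic`).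
-/

set_option autoImplicit false

namespace Pool.Agent.CFree

open Finset

variable {V : Type} [Fintype V] [DecidableEq V] {G : BG V}

theorem kedge_set (S : Finset V) (v u : V) : (S.erase v).erase u = S \ {u, v} := by
  ext x
  simp only [mem_erase, mem_sdiff, mem_insert, mem_singleton]
  tauto

theorem BG.C6_edge {S : Finset V} {v u : V} (h3 : ∀ w ∈ S, 3 ≤ G.deg S w) (hv : v ∈ S)
    (hu : u ∈ G.N S v) : G.C6V (S \ {u, v}) = ∅ := by
  rw [BG.C6V_eq_empty]
  intro K hK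
  have huK : u ∉ K := fun h => (mem_sdiff.1 (hK.1 h)).2 (mem_insert_self _ _)
  have hvK : v ∉ K := fun h => (mem_sdiff.1 (hK.1 h)).2 (mem_insert_of_mem (mem_singleton_self _))
  have hone : ∀ r, r ∉ K → (K.filter fun k => G.adj k r).card ≤ 1 := by
    intro r hr
    rw [card_le_one]
    intro x hx y hy
    by_contra hxy
    exact hK.outside (mem_filter.1 hx).1 (mem_filter.1 hy).1 hxy hr ⟨(mem_filter.1 hx).2, (mem_filter.1 hy).2⟩
  have hsub : K ⊆ (K.filter fun k => G.adj k u) ∪ (K.filter fun k => G.adj k v) := by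
    intro k hk
    rw [mem_union, mem_filter, mem_filter]
    by_contra hcon
    push Not at hcon
    obtain ⟨h1, h2⟩ := hcon
    have h4 : G.deg (S \ {u, v}) k = G.deg S k := by
      apply BG.deg_sdiff_eq
      intro r hr
      rw [mem_insert, mem_singleton] at hr
      rcases hr with rfl | rfl
      · exact h1 hk
      · exact h2 hk
    have h5 := h3 k (mem_sdiff.1 (hK.1 hk)).1
    have h6 := (hK.2.2 k hk).1
    omega
  have h1 := card_le_card hsub
  have h2 := card_union_le (K.filter fun k => G.adj k u) (K.filter fun k => G.adj k v)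
  have h4 := hone u huK
  have h5 := hone v hvK
  have h6 := hK.2.1
  omega

theorem BG.edge_nbr {S : Finset V} {v u w : V} (hv : v ∈ S) (hu : u ∈ G.N S v)
    (hw : w ∈ (G.N S v).erase u) :
    w ∈ S \ {u, v} ∧ G.N (S \ {u, v}) w = (G.N S w).erase v ∧ G.deg (S \ {u, v}) w + 1 = G.deg S w ∧
      ∀ x ∈ (G.N S w).erase v, G.deg (S \ {u, v}) x = G.deg S x := by
  obtain ⟨huS, hvu⟩ := BG.mem_N.1 hu
  obtain ⟨hwu, hwN⟩ := mem_erase.1 hw
  obtain ⟨hwS, hvw⟩ := BG.mem_N.1 hwN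
  have hN : G.N (S \ {u, v}) w = (G.N S w).erase v := by
    rw [BG.N_sdiff]
    ext x
    rw [mem_sdiff, mem_erase, mem_insert, mem_singleton]
    constructor
    · rintro ⟨h1, h2⟩
      exact ⟨fun h => h2 (Or.inr h), h1⟩
    · rintro ⟨h1, h2⟩
      refine ⟨h2, ?_⟩
      rintro (rfl | h)
      · exact BG.nadj_common hvw hvu (BG.mem_N.1 h2).2
      · exact h1 h
  refine ⟨?_, hN, ?_, ?_⟩
  · rw [mem_sdiff, mem_insert, mem_singleton]
    refine ⟨hwS, ?_⟩
    rintro (h | h)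
    · exact hwu h
    · exact BG.ne_of_adj hvw h.symm
  · unfold BG.deg
    rw [hN]
    exact card_erase_add_one (BG.mem_N.2 ⟨hv, G.symm _ _ hvw⟩)
  · intro x hx
    obtain ⟨hxv, hxN⟩ := mem_erase.1 hx
    obtain ⟨hxS, hwx⟩ := BG.mem_N.1 hxN
    apply BG.deg_sdiff_eq
    intro r hr
    rw [mem_insert, mem_singleton] at hr
    rcases hr with rfl | rfl
    · intro h
      exact hxv (G.c4 r w v x hwu.symm (G.symm _ _ hvu) (G.symm _ _ hvw) (G.symm _ _ h) hwx).symm
    · exact BG.nadj_common hwx (G.symm _ _ hvw)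

theorem BG.edge_bet {S : Finset V} {v u w : V} (IH : ∀ T : Finset V, T.card < S.card → G.PP T)
    (h3 : ∀ w ∈ S, 3 ≤ G.deg S w) (hv : v ∈ S) (hu : u ∈ G.N S v) (hw : w ∈ (G.N S v).erase u)
    (hdw : G.deg S w = 3) : G.Gh (S \ {u, v}) ≤ bet := by
  obtain ⟨hwT, hN, hd, hx⟩ := BG.edge_nbr hv hu hw
  have hc : ((G.N S w).erase v).card = 2 := by
    rw [← hN]
    unfold BG.deg at hd hdw
    omega
  obtain ⟨x1, x2, h12, he⟩ := card_eq_two.1 hc
  have m1 : x1 ∈ (G.N S w).erase v := by rw [he]; simp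
  have m2 : x2 ∈ (G.N S w).erase v := by rw [he]; simp
  refine (IH _ (card_sdiff_lt hv (by simp))).B w x1 x2 hwT h12 (by rw [hN, he]) ?_ ?_
  · rw [hx x1 m1]
    exact h3 x1 (BG.mem_N.1 (mem_erase.1 m1).2).1
  · rw [hx x2 m2]
    exact h3 x2 (BG.mem_N.1 (mem_erase.1 m2).2).1

theorem BG.edge_use {S : Finset V} {v u : V} (h3 : ∀ w ∈ S, 3 ≤ G.deg S w) (hv : v ∈ S)
    (hu : u ∈ G.N S v) {B : ℝ} {k : ℕ} (hB : G.Gh (S \ {u, v}) ≤ B)
    (hk : (hh (G.deg S v) : ℤ) + hh (G.deg S u) + ∑ w ∈ (G.N S v).erase u, dl (G.deg S w) +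
      ∑ w ∈ (G.N S u).erase v, dl (G.deg S w) ≤ k) :
    G.F (S \ {u, v}) * QQ ^ G.phi S ≤ B * QQ ^ k := by
  refine BG.use hB ?_
  rw [BG.C6_edge h3 hv hu, card_empty, BG.phi_pair hv hu]
  push_cast
  linarith

theorem BG.cubic {S : Finset V} (IH : ∀ T : Finset V, T.card < S.card → G.PP T) (hne : S.Nonempty)
    (h3 : ∀ w ∈ S, G.deg S w = 3) : G.F S * QQ ^ G.phi S ≤ 1 := by
  have hq := QQ_pos
  have h3' : ∀ w ∈ S, 3 ≤ G.deg S w := fun w hw => (h3 w hw).ge
  obtain ⟨v, hv⟩ := hne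
  have hcard : (G.N S v).card = 3 := h3 v hv
  have hterm : ∀ u ∈ G.N S v, yy ^ (G.deg S v + G.deg S u - 2) * G.F ((S.erase v).erase u) *
      QQ ^ G.phi S * QQ ^ 2 ≤ yy ^ 4 * bet := by
    intro u hu
    have huS := (BG.mem_N.1 hu).1
    have hvu := (BG.mem_N.1 hu).2
    have hc1 : ((G.N S v).erase u).card = 2 := by
      have := card_erase_add_one hu
      omega
    have hc2 : ((G.N S u).erase v).card = 2 := by
      have h4 := card_erase_add_one (show v ∈ G.N S u from BG.mem_N.2 ⟨hv, G.symm _ _ hvu⟩)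
      have h5 : (G.N S u).card = 3 := h3 u huS
      omega
    obtain ⟨w, hw⟩ : ((G.N S v).erase u).Nonempty := by
      rw [← card_pos, hc1]
      norm_num
    have hbet := BG.edge_bet IH h3' hv hu hw (h3 w (BG.mem_N.1 (mem_erase.1 hw).2).1)
    have hs : ∀ r : V, ∀ t : V, ∑ w ∈ (G.N S r).erase t, dl (G.deg S w) = -(((G.N S r).erase t).card : ℤ) := by
      intro r t
      have h5 : ∑ w ∈ (G.N S r).erase t, dl (G.deg S w) = ∑ _w ∈ (G.N S r).erase t, (-1 : ℤ) := by
        refine sum_congr rfl fun x hx => ?_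
        rw [h3 x (BG.mem_N.1 (mem_erase.1 hx).2).1, dl_three]
      rw [h5, sum_const, nsmul_eq_mul]
      ring
    have hphi := BG.phi_pair hv hu
    rw [h3 v hv, h3 u huS, hh_three, hs v u, hs u v, hc1, hc2] at hphi
    have hg := BG.use_gain (S := S) hbet (BG.C6_edge h3' hv hu) (by push_cast at hphi; omega)
    rw [kedge_set, h3 v hv, h3 u huS]
    calc yy ^ (3 + 3 - 2) * G.F (S \ {u, v}) * QQ ^ G.phi S * QQ ^ 2
        = yy ^ 4 * (G.F (S \ {u, v}) * QQ ^ G.phi S * QQ ^ 2) := by ring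
      _ ≤ yy ^ 4 * bet := mul_le_mul_of_nonneg_left hg (pow_nonneg yy_pos.le _)
  have hsum : G.F S * QQ ^ G.phi S * QQ ^ 2 ≤ QQ ^ 2 := by
    rw [BG.F_expand hv, sum_mul, sum_mul]
    calc _ ≤ ∑ _u ∈ G.N S v, yy ^ 4 * bet := sum_le_sum hterm
      _ = 3 * (yy ^ 4 * bet) := by
          rw [sum_const, hcard, nsmul_eq_mul]
          norm_num
      _ = QQ ^ 2 := num_cubic
  have h2 : 0 < QQ ^ 2 := by positivity
  nlinarith

end Pool.Agent.CFree
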