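import Pool.Agent.Lib_MP_6af485_kt.KMain
import Pool.Agent.Lib_MP_6af485_co.Perm

/-!
# MP_6af485_co, `k = 3`: permanents
-/

set_option autoImplicit false

namespace Pool.Agent.CFree

open Finset

variable {V : Type} [Fintype V] [DecidableEq V] {G : BG V}

theorem BG.phi_ge (S : Finset V) :
    (G.E2 S : ℤ) - 2 * (S.card : ℤ) ≤ (G.phi S : ℤ) - 2 * ((G.C6V S).card : ℤ) := by
  have h1 : (G.C6V S).card = ∑ w ∈ S, if w ∈ G.C6V S then 1 else 0 := by
    rw [← card_filter]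
    congr 1
    ext w
    rw [mem_filter]
    constructor
    · intro h
      obtain ⟨K, hK, hw⟩ := BG.mem_C6V.1 h
      exact ⟨hK.1 hw, h⟩
    · exact fun h => h.2
  have h2 : (S.card : ℤ) = ∑ _w ∈ S, 1 := by simp
  unfold BG.E2 BG.phi
  rw [h1, h2]
  push_cast
  rw [mul_sum, mul_sum, ← sum_sub_distrib, ← sum_sub_distrib]
  refine sum_le_sum fun w _ => ?_
  by_cases hc : w ∈ G.C6V S
  · obtain ⟨K, hK, hw⟩ := BG.mem_C6V.1 hc
    rw [if_pos hc, (hK.2.2 w hw).1, hh_two]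
  · rw [if_neg hc]
    rcases Nat.lt_or_ge (G.deg S w) 3 with h3 | h3
    · have h4 : (0 : ℤ) ≤ hh (G.deg S w) := Int.natCast_nonneg _
      omega
    · rw [hh_ge h3]
      omega

theorem BG.F_bound (S : Finset V) : G.F S * QQ ^ ((G.E2 S : ℤ) - 2 * (S.card : ℤ)) ≤ 1 := by
  have h1 := (BG.mainK G _ S rfl).A
  refine le_trans ?_ h1
  unfold BG.Gh
  exact mul_le_mul_of_nonneg_left (zpow_le_zpow_right₀ one_le_QQ (BG.phi_ge S)) (G.F_nonneg S)

variable {n : ℕ}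

/-- the bound with at least `2 n` ones -/
theorem perm_kt (A : Matrix (Fin n) (Fin n) ℕ) (h01 : ZeroOne A) (h4 : C4Free A) (he : 2 * n ≤ ones A) :
    A.permanent ^ 21 ≤ 27 ^ (ones A - 2 * n) * 4 ^ ones A * 8 ^ n := by
  have hy := yy_pos
  have hq := QQ_pos
  obtain ⟨m, hm⟩ : ∃ m, ones A = 2 * n + m := ⟨ones A - 2 * n, by omega⟩
  have h1 := BG.F_bound (G := gr A h4) univ
  rw [E2_gr, card_univ, Fintype.card_sum, Fintype.card_fin, ← two_mul] at h1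
  have h2 : (((2 * ones A : ℕ) : ℤ) - 2 * ((2 * n : ℕ) : ℤ)) = ((2 * m : ℕ) : ℤ) := by
    rw [hm]
    push_cast
    ring
  rw [h2, zpow_natCast] at h1
  -- the factor of `F`
  have h3 : (gr A h4).F univ = ((gr A h4).pm univ : ℝ) * yy ^ (n + m) := by
    unfold BG.F
    rw [E2_gr, card_univ, Fintype.card_sum, Fintype.card_fin, ← two_mul]
    congr 1
    unfold yy
    rw [← Real.rpow_natCast, ← Real.rpow_mul (by norm_num), hm]
    congr 1
    push_cast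
    ring
  rw [h3] at h1
  set P : ℝ := ((gr A h4).pm univ : ℝ) with hP
  have hP0 : 0 ≤ P := Nat.cast_nonneg _
  have h5 : (P * yy ^ (n + m) * QQ ^ (2 * m)) ^ 21 ≤ 1 := pow_le_one₀ (by positivity) h1
  have h6 : (P * yy ^ (n + m) * QQ ^ (2 * m)) ^ 21 * ((3 * yy ^ 5) ^ m) ^ 3 =
      P ^ 21 * (yy ^ 3) ^ (7 * (n + m)) := by
    have e1 : (QQ ^ (2 * m)) ^ 21 = ((QQ ^ 14) ^ m) ^ 3 := by
      rw [← pow_mul, ← pow_mul, ← pow_mul]
      congr 1
      ring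
    have e2 : (yy ^ (n + m)) ^ 21 = (yy ^ 3) ^ (7 * (n + m)) := by
      rw [← pow_mul, ← pow_mul]
      congr 1
      ring
    have e3 : ((QQ ^ 14) ^ m) ^ 3 * ((3 * yy ^ 5) ^ m) ^ 3 = 1 := by
      rw [← mul_pow, ← mul_pow, QQ_pow14]
      simp
    rw [mul_pow, mul_pow, e1, e2]
    linear_combination P ^ 21 * (yy ^ 3) ^ (7 * (n + m)) * e3
  have h7 : P ^ 21 * (1 / 2) ^ (7 * (n + m)) ≤ ((3 * yy ^ 5) ^ m) ^ 3 := by
    rw [yy_cube] at h6
    rw [← h6]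
    have : 0 ≤ ((3 * yy ^ 5) ^ m) ^ 3 := by positivity
    nlinarith
  have h8 : ((3 * yy ^ 5) ^ m) ^ 3 = (27 / 32 : ℝ) ^ m := by
    have e1 : (3 * yy ^ 5) ^ 3 = (27 / 32 : ℝ) := by
      have : (3 * yy ^ 5) ^ 3 = 27 * (yy ^ 3) ^ 5 := by ring
      rw [this, yy_cube]
      norm_num
    rw [← pow_mul, Nat.mul_comm, pow_mul, e1]
  rw [h8] at h7
  have h9 : P ^ 21 ≤ 27 ^ m * 4 ^ (2 * n + m) * 8 ^ n := by
    have e1 : P ^ 21 = (P ^ 21 * (1 / 2) ^ (7 * (n + m))) * 2 ^ (7 * (n + m)) := by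
      rw [mul_assoc, ← mul_pow]
      norm_num
    have e2 : (27 ^ m * 4 ^ (2 * n + m) * 8 ^ n : ℝ) = (27 / 32 : ℝ) ^ m * 2 ^ (7 * (n + m)) := by
      rw [div_pow]
      have e3 : (4 : ℝ) ^ (2 * n + m) = 2 ^ (4 * n + 2 * m) := by
        rw [show (4 : ℝ) = 2 ^ 2 by norm_num, ← pow_mul]
        congr 1
        ring
      have e4 : (8 : ℝ) ^ n = 2 ^ (3 * n) := by
        rw [show (8 : ℝ) = 2 ^ 3 by norm_num, ← pow_mul]
      have e5 : (32 : ℝ) ^ m = 2 ^ (5 * m) := by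
        rw [show (32 : ℝ) = 2 ^ 5 by norm_num, ← pow_mul]
      have e6 : (2 : ℝ) ^ (7 * (n + m)) = 2 ^ (4 * n + 2 * m) * 2 ^ (3 * n) * 2 ^ (5 * m) := by
        rw [← pow_add, ← pow_add]
        congr 1
        ring
      rw [e3, e4, e5, e6]
      field_simp
    rw [e1, e2]
    exact mul_le_mul_of_nonneg_right h7 (by positivity)
  have h10 := perm_le A h01 h4
  have h11 : ((gr A h4).pm univ) ^ 21 ≤ 27 ^ m * 4 ^ (2 * n + m) * 8 ^ n := by
    rw [hP] at h9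
    exact_mod_cast h9
  have h12 : ones A - 2 * n = m := by omega
  rw [h12, hm]
  exact (Nat.pow_le_pow_left h10 21).trans h11

/-- the bound with at most `3 n` ones -/
theorem perm_kt3 (A : Matrix (Fin n) (Fin n) ℕ) (h01 : ZeroOne A) (h4 : C4Free A) (he : ones A ≤ 3 * n) :
    A.permanent ^ 7 ≤ 24 ^ n := by
  have h21 : A.permanent ^ 21 ≤ (24 ^ n) ^ 3 := by
    rcases Nat.lt_or_ge (ones A) (2 * n) with h | h
    · have h1 := perm_bound A h01 h4
      have h2 : 2 ^ ones A ≤ 2 ^ (2 * n) := Nat.pow_le_pow_right (by norm_num) h.le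
      have h5 : A.permanent ^ 3 * 2 ^ n ≤ 2 ^ n * 2 ^ n := by
        refine (h1.trans h2).trans_eq ?_
        rw [← pow_add, two_mul]
      have h6 : A.permanent ^ 3 ≤ 2 ^ n := Nat.le_of_mul_le_mul_right h5 (by positivity)
      calc A.permanent ^ 21 = (A.permanent ^ 3) ^ 7 := by rw [← pow_mul]
        _ ≤ (2 ^ n) ^ 7 := Nat.pow_le_pow_left h6 7
        _ = 128 ^ n := by rw [← pow_mul, Nat.mul_comm, pow_mul]; norm_num
        _ ≤ 13824 ^ n := Nat.pow_le_pow_left (by norm_num) n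
        _ = (24 ^ n) ^ 3 := by rw [← pow_mul, Nat.mul_comm, pow_mul]; norm_num
    · calc A.permanent ^ 21 ≤ 27 ^ (ones A - 2 * n) * 4 ^ ones A * 8 ^ n := perm_kt A h01 h4 h
        _ ≤ 27 ^ n * 4 ^ (3 * n) * 8 ^ n := by
          refine Nat.mul_le_mul_right _ (Nat.mul_le_mul ?_ ?_)
          · exact Nat.pow_le_pow_right (by norm_num) (by omega)
          · exact Nat.pow_le_pow_right (by norm_num) he
        _ = (24 ^ n) ^ 3 := by
          rw [pow_mul 4 3 n, ← mul_pow, ← mul_pow, ← pow_mul 24 n 3, Nat.mul_comm n 3, pow_mul 24 3 n]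
          norm_num
  have e : A.permanent ^ 21 = (A.permanent ^ 7) ^ 3 := by rw [← pow_mul]
  rw [e] at h21
  exact le_of_pow_le_pow_left₀ (by norm_num) (Nat.zero_le _) h21

end Pool.Agent.CFree
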