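import Pool.Agent.Lib_MP_6af485_kt.KEdge

/-!
# MP_6af485_co, `k = 3`: all degrees are four

`four_D`: all degrees are four; `v`, `u` adjacent, `T = S \ {u, v}`, `w ∈ (N S v).erase u`, `c ∈ N T w`. Then
`Gh (T \ {c, w}) ≤ EE`: `N S w = {v, c, c2, c3}`; `c2` has degree three in `T \ {c, w}`: it loses `w`; it is not adjacent to
`u` (`u`, `w` would have the common neighbours `v`, `c2`), nor to `v`, `c` (same colour). Let `d ≠ w` be a neighbour of `c2`: it
has degree four in `T \ {c, w}`: it is not adjacent to `v` (`d`, `w` would have the common neighbours `v`, `c2`), nor to `c`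
(common neighbours `c`, `c2` of `d`, `w`), nor to `u`, `w` (same colour); `d ≠ u` as above. So `PP.D` with `b = c2`, `c = d`.
`four_C6`: `C6V (T \ {c, w}) = ∅`: a vertex `x` of a component has degree two there and degree four in `S`, so it is adjacent
to at least two of `u, v, c, w`, by colour to `u` and `w` or to `v` and `c`. `u`, `w` have the common neighbour `v ≠ x`, and
`v`, `c` have the common neighbour `w ≠ x`: `G.c4`.
`ge44`: all degrees are four: `F_expand` at `v`: four terms `yy ^ 6 * F (S \ {u, v})`, `phi S ≤ phi T + 10` (`phi_pair`); for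
each of them take `w ∈ (N S v).erase u`, `deg T w = 3`, `F_expand` at `w` in `T`: three terms `yy ^ (3 + deg T c - 2) * F (T \ {c, w})`,
`deg T c = 4` (`edge_nbr`), so `yy ^ 5`; `phi T ≤ phi (T \ {c, w}) + 1 + 2 + 2 + 3` (`phi_pair` for `T`: the two other neighbours of
`w` have degree four, `dl ≤ 1` for all vertices of degree at least three, all degrees in `T` are at least three),
`four_D`, `four_C6`, `BG.use`. So `F S * QQ ^ phi S ≤ 4 * (yy ^ 6 * QQ ^ 10 * (3 * (EE * (yy ^ 5 * QQ ^ 8)))) ≤ 1` (`num_g44`).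
-/

set_option autoImplicit false

namespace Pool.Agent.CFree

open Finset

variable {V : Type} [Fintype V] [DecidableEq V] {G : BG V}

theorem BG.four_D {S : Finset V} {v u w c : V} (IH : ∀ T : Finset V, T.card < S.card → G.PP T)
    (h4 : ∀ w ∈ S, G.deg S w = 4) (hv : v ∈ S) (hu : u ∈ G.N S v) (hw : w ∈ (G.N S v).erase u)
    (hc : c ∈ G.N (S \ {u, v}) w) : G.Gh ((S \ {u, v}) \ {c, w}) ≤ EE := by
  obtain ⟨huS, hvu⟩ := BG.mem_N.1 hu
  obtain ⟨hwu, hwN⟩ := mem_erase.1 hw
  obtain ⟨hwS, hvw⟩ := BG.mem_N.1 hwN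
  obtain ⟨hwT, hNw, hdw, -⟩ := BG.edge_nbr hv hu hw
  rw [h4 w hwS] at hdw
  have hc3 : (G.N (S \ {u, v}) w).card = 3 := by
    unfold BG.deg at hdw
    omega
  obtain ⟨c2, hc2⟩ : ((G.N (S \ {u, v}) w).erase c).Nonempty := by
    rw [← card_pos]
    have := card_erase_add_one hc
    omega
  obtain ⟨hc2c, hc2N⟩ := mem_erase.1 hc2
  obtain ⟨hc2T, hwc2⟩ := BG.mem_N.1 hc2N
  obtain ⟨hcT, hwc⟩ := BG.mem_N.1 hc
  have hc2S := (mem_sdiff.1 hc2T).1
  have hc2v : c2 ≠ v := by
    rintro rfl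
    exact (mem_sdiff.1 hc2T).2 (by simp)
  have hc2u' : c2 ≠ u := by
    rintro rfl
    exact (mem_sdiff.1 hc2T).2 (by simp)
  have hcv : c ≠ v := by
    rintro rfl
    exact (mem_sdiff.1 hcT).2 (by simp)
  -- `c2` is adjacent to `w` only
  have hc2u : ¬ G.adj c2 u := by
    intro h
    exact hc2v (G.c4 u w v c2 hwu.symm (G.symm _ _ hvu) (G.symm _ _ hvw) (G.symm _ _ h) hwc2).symm
  have hc2v' : ¬ G.adj c2 v := BG.nadj_common hwc2 (G.symm _ _ hvw)
  have hc2c' : ¬ G.adj c2 c := BG.nadj_common hwc2 hwc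
  have hNc2 : G.N ((S \ {u, v}) \ {c, w}) c2 = (G.N S c2).erase w := by
    rw [BG.N_sdiff, BG.N_sdiff]
    ext x
    simp only [mem_sdiff, mem_erase, mem_insert, mem_singleton]
    constructor
    · rintro ⟨⟨h1, _⟩, h3⟩
      exact ⟨fun h => h3 (Or.inr h), h1⟩
    · rintro ⟨h1, h2⟩
      refine ⟨⟨h2, ?_⟩, ?_⟩
      · rintro (rfl | rfl)
        · exact hc2u (BG.mem_N.1 h2).2
        · exact hc2v' (BG.mem_N.1 h2).2
      · rintro (rfl | h)
        · exact hc2c' (BG.mem_N.1 h2).2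
        · exact h1 h
  have hdc2 : G.deg ((S \ {u, v}) \ {c, w}) c2 + 1 = 4 := by
    unfold BG.deg
    rw [hNc2, card_erase_add_one (BG.mem_N.2 ⟨hwS, G.symm _ _ hwc2⟩)]
    exact h4 c2 hc2S
  have hc2U : c2 ∈ (S \ {u, v}) \ {c, w} := by
    rw [mem_sdiff, mem_insert, mem_singleton]
    refine ⟨hc2T, ?_⟩
    rintro (h | h)
    · exact hc2c h
    · exact BG.ne_of_adj hwc2 h.symm
  obtain ⟨d, hd⟩ : (G.N ((S \ {u, v}) \ {c, w}) c2).Nonempty := by
    rw [← card_pos]
    unfold BG.deg at hdc2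
    omega
  have hdN : d ∈ (G.N S c2).erase w := by
    rw [← hNc2]
    exact hd
  obtain ⟨hdw', hdN'⟩ := mem_erase.1 hdN
  obtain ⟨hdS, hc2d⟩ := BG.mem_N.1 hdN'
  have cdw : G.col d = G.col w := BG.col_common hc2d (G.symm _ _ hwc2)
  have cuw : G.col u = G.col w := BG.col_common hvu hvw
  have hdd : G.deg ((S \ {u, v}) \ {c, w}) d = 4 := by
    rw [BG.deg_sdiff_eq, BG.deg_sdiff_eq, h4 d hdS]
    · intro r hr
      rw [mem_insert, mem_singleton] at hr
      rcases hr with rfl | rfl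
      · exact BG.nadj_col (cdw.trans cuw.symm)
      · intro h
        exact hc2v (G.c4 d w r c2 hdw' h (G.symm _ _ hvw) (G.symm _ _ hc2d) hwc2).symm
    · intro r hr
      rw [mem_insert, mem_singleton] at hr
      rcases hr with rfl | rfl
      · intro h
        exact hc2c (G.c4 d w r c2 hdw' h hwc (G.symm _ _ hc2d) hwc2).symm
      · exact BG.nadj_col cdw
  refine (IH _ ?_).D c2 d hc2U hd (by omega) (by omega)
  exact (card_le_card sdiff_subset).trans_lt (card_sdiff_lt hv (by simp))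

theorem BG.four_C6 {S : Finset V} {v u w c : V} (h4 : ∀ w ∈ S, G.deg S w = 4) (hv : v ∈ S)
    (hu : u ∈ G.N S v) (hw : w ∈ (G.N S v).erase u) (hc : c ∈ G.N (S \ {u, v}) w) :
    G.C6V ((S \ {u, v}) \ {c, w}) = ∅ := by
  obtain ⟨huS, hvu⟩ := BG.mem_N.1 hu
  obtain ⟨hwu, hwN⟩ := mem_erase.1 hw
  obtain ⟨hwS, hvw⟩ := BG.mem_N.1 hwN
  obtain ⟨hcT, hwc⟩ := BG.mem_N.1 hc
  have hcv : c ≠ v := by
    rintro rfl
    exact (mem_sdiff.1 hcT).2 (by simp)
  have cuw : G.col u = G.col w := BG.col_common hvu hvw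
  have cvc : G.col v = G.col c := BG.col_common (G.symm _ _ hvw) hwc
  have cvu : G.col v ≠ G.col u := G.bip _ _ hvu
  have hset : (S \ {u, v}) \ {c, w} = S \ {u, v, c, w} := by
    ext x
    simp only [mem_sdiff, mem_insert, mem_singleton]
    tauto
  rw [hset, BG.C6V_eq_empty]
  intro K hK
  obtain ⟨x, hx⟩ : K.Nonempty := by
    rw [← card_pos, hK.2.1]
    norm_num
  obtain ⟨hxS, hxR⟩ := mem_sdiff.1 (hK.1 hx)
  simp only [mem_insert, mem_singleton, not_or] at hxR
  obtain ⟨hxu, hxv, hxc, hxw⟩ := hxR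
  have key : ∃ r0, ∀ r ∈ ({u, v, c, w} : Finset V), G.adj x r → r = r0 := by
    by_cases hcol : G.col x = G.col v
    · -- adjacent to `u` or `w`
      have h1 : ¬ G.adj x v := BG.nadj_col hcol
      have h2 : ¬ G.adj x c := BG.nadj_col (hcol.trans cvc)
      have h3 : ¬ (G.adj x u ∧ G.adj x w) := fun h => hwu (G.c4 x v u w hxv h.1 hvu h.2 hvw).symm
      by_cases h5 : G.adj x u
      · refine ⟨u, fun r hr hadj => ?_⟩
        simp only [mem_insert, mem_singleton] at hr
        rcases hr with rfl | rfl | rfl | rfl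
        · rfl
        · exact absurd hadj h1
        · exact absurd hadj h2
        · exact absurd ⟨h5, hadj⟩ h3
      · refine ⟨w, fun r hr hadj => ?_⟩
        simp only [mem_insert, mem_singleton] at hr
        rcases hr with rfl | rfl | rfl | rfl
        · exact absurd hadj h5
        · exact absurd hadj h1
        · exact absurd hadj h2
        · rfl
    · have hcol' : G.col x = G.col u := by
        cases h1 : G.col x <;> cases h2 : G.col v <;> cases h3 : G.col u <;> simp_all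
      have h1 : ¬ G.adj x u := BG.nadj_col hcol'
      have h2 : ¬ G.adj x w := BG.nadj_col (hcol'.trans cuw)
      have h3 : ¬ (G.adj x v ∧ G.adj x c) :=
        fun h => hcv (G.c4 x w v c hxw h.1 (G.symm _ _ hvw) h.2 hwc).symm
      by_cases h5 : G.adj x v
      · refine ⟨v, fun r hr hadj => ?_⟩
        simp only [mem_insert, mem_singleton] at hr
        rcases hr with rfl | rfl | rfl | rfl
        · exact absurd hadj h1
        · rfl
        · exact absurd ⟨h5, hadj⟩ h3
        · exact absurd hadj h2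
      · refine ⟨c, fun r hr hadj => ?_⟩
        simp only [mem_insert, mem_singleton] at hr
        rcases hr with rfl | rfl | rfl | rfl
        · exact absurd hadj h1
        · exact absurd hadj h5
        · rfl
        · exact absurd hadj h2
  obtain ⟨r0, hr0⟩ := key
  have h1 := BG.deg_sdiff_ge (G := G) (S := S) hr0
  have h2 := (hK.2.2 x hx).1
  rw [h4 x hxS] at h1
  omega

/-- the second level -/
theorem BG.kge44_T {S : Finset V} {v u w : V} (IH : ∀ T : Finset V, T.card < S.card → G.PP T)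
    (h4 : ∀ w ∈ S, G.deg S w = 4) (hv : v ∈ S) (hu : u ∈ G.N S v) (hw : w ∈ (G.N S v).erase u) :
    G.F (S \ {u, v}) * QQ ^ G.phi (S \ {u, v}) ≤ 3 * (EE * (yy ^ 5 * QQ ^ 8)) := by
  obtain ⟨huS, hvu⟩ := BG.mem_N.1 hu
  have hwS := (BG.mem_N.1 (mem_erase.1 hw).2).1
  obtain ⟨hwT, hNw, hdw, hdx⟩ := BG.edge_nbr hv hu hw
  rw [h4 w hwS] at hdw
  have hdw3 : G.deg (S \ {u, v}) w = 3 := by omega
  have hT3 : ∀ x ∈ S \ {u, v}, 3 ≤ G.deg (S \ {u, v}) x := by
    intro x hx
    have hxS := (mem_sdiff.1 hx).1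
    have key : ∃ r0, ∀ r ∈ ({u, v} : Finset V), G.adj x r → r = r0 := by
      by_cases h : G.adj x u
      · refine ⟨u, fun r hr hadj => ?_⟩
        rw [mem_insert, mem_singleton] at hr
        rcases hr with rfl | rfl
        · rfl
        · exact absurd hvu (BG.nadj_common hadj h)
      · refine ⟨v, fun r hr hadj => ?_⟩
        rw [mem_insert, mem_singleton] at hr
        rcases hr with rfl | rfl
        · exact absurd hadj h
        · rfl
    obtain ⟨r0, hr0⟩ := key
    have h1 := BG.deg_sdiff_ge (G := G) (S := S) hr0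
    rw [h4 x hxS] at h1
    omega
  rw [BG.F_expand hwT, sum_mul]
  have hc3 : (G.N (S \ {u, v}) w).card = 3 := hdw3
  calc _ ≤ ∑ _c ∈ G.N (S \ {u, v}) w, EE * (yy ^ 5 * QQ ^ 8) := by
        refine sum_le_sum fun c hc => ?_
        obtain ⟨hcT, hwc⟩ := BG.mem_N.1 hc
        have hdc : G.deg (S \ {u, v}) c = 4 := by
          rw [hdx c (by rw [← hNw]; exact hc)]
          exact h4 c (mem_sdiff.1 hcT).1
        have hphi := BG.phi_pair hwT hc
        have c1 := card_erase_add_one hc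
        have c2 : ((G.N (S \ {u, v}) c).erase w).card + 1 = 4 := by
          rw [card_erase_add_one (BG.mem_N.2 ⟨hwT, G.symm _ _ hwc⟩)]
          exact hdc
        have s1 := sum_dl_le_one (G := G) (S := S \ {u, v}) (s := (G.N (S \ {u, v}) w).erase c)
          (fun x hx => hT3 x (BG.mem_N.1 (mem_erase.1 hx).2).1)
        have s2 := sum_dl_le_one (G := G) (S := S \ {u, v}) (s := (G.N (S \ {u, v}) c).erase w)
          (fun x hx => hT3 x (BG.mem_N.1 (mem_erase.1 hx).2).1)
        rw [hdw3, hdc, hh_three, hh_ge (by norm_num : 3 ≤ 4)] at hphi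
        have h1 := BG.use (S := S \ {u, v}) (k := 8) (BG.four_D IH h4 hv hu hw hc) (by
          rw [BG.four_C6 h4 hv hu hw hc, card_empty]
          push_cast at hphi ⊢
          omega)
        rw [kedge_set, hdw3, hdc]
        calc yy ^ (3 + 4 - 2) * G.F ((S \ {u, v}) \ {c, w}) * QQ ^ G.phi (S \ {u, v})
            = yy ^ 5 * (G.F ((S \ {u, v}) \ {c, w}) * QQ ^ G.phi (S \ {u, v})) := by ring
          _ ≤ yy ^ 5 * (EE * QQ ^ 8) := mul_le_mul_of_nonneg_left h1 (pow_nonneg yy_pos.le _)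
          _ = EE * (yy ^ 5 * QQ ^ 8) := by ring
    _ = 3 * (EE * (yy ^ 5 * QQ ^ 8)) := by
        rw [sum_const, hc3, nsmul_eq_mul]
        norm_num

theorem BG.ge44 {S : Finset V} {v : V} (IH : ∀ T : Finset V, T.card < S.card → G.PP T) (hv : v ∈ S)
    (h4 : ∀ w ∈ S, G.deg S w = 4) : G.F S * QQ ^ G.phi S ≤ 1 := by
  have hN4 : (G.N S v).card = 4 := h4 v hv
  rw [BG.F_expand hv, sum_mul]
  calc _ ≤ ∑ _u ∈ G.N S v, yy ^ 6 * QQ ^ 10 * (3 * (EE * (yy ^ 5 * QQ ^ 8))) := by
        refine sum_le_sum fun u hu => ?_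
        obtain ⟨huS, hvu⟩ := BG.mem_N.1 hu
        have c1 := card_erase_add_one hu
        obtain ⟨w, hw⟩ : ((G.N S v).erase u).Nonempty := by
          rw [← card_pos]
          omega
        have h1 := BG.kge44_T IH h4 hv hu hw
        have hphi := BG.phi_pair hv hu
        have c2 : ((G.N S u).erase v).card + 1 = 4 := by
          rw [card_erase_add_one (BG.mem_N.2 ⟨hv, G.symm _ _ hvu⟩)]
          exact h4 u huS
        have s1 := sum_dl_le_one (G := G) (S := S) (s := (G.N S v).erase u)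
          (fun x hx => by rw [h4 x (BG.mem_N.1 (mem_erase.1 hx).2).1]; norm_num)
        have s2 := sum_dl_le_one (G := G) (S := S) (s := (G.N S u).erase v)
          (fun x hx => by rw [h4 x (BG.mem_N.1 (mem_erase.1 hx).2).1]; norm_num)
        rw [h4 v hv, h4 u huS, hh_ge (by norm_num : 3 ≤ 4)] at hphi
        have hle : G.phi S ≤ G.phi (S \ {u, v}) + 10 := by
          push_cast at hphi
          omega
        have h2 : G.F (S \ {u, v}) * QQ ^ G.phi S ≤ 3 * (EE * (yy ^ 5 * QQ ^ 8)) * QQ ^ 10 := by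
          calc G.F (S \ {u, v}) * QQ ^ G.phi S ≤ G.F (S \ {u, v}) * QQ ^ (G.phi (S \ {u, v}) + 10) :=
                mul_le_mul_of_nonneg_left (QQ_pow_mono hle) (G.F_nonneg _)
            _ = G.F (S \ {u, v}) * QQ ^ G.phi (S \ {u, v}) * QQ ^ 10 := by rw [pow_add]; ring
            _ ≤ 3 * (EE * (yy ^ 5 * QQ ^ 8)) * QQ ^ 10 :=
                mul_le_mul_of_nonneg_right h1 (pow_nonneg QQ_pos.le _)
        rw [kedge_set, h4 v hv, h4 u huS]
        calc yy ^ (4 + 4 - 2) * G.F (S \ {u, v}) * QQ ^ G.phi S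
            = yy ^ 6 * (G.F (S \ {u, v}) * QQ ^ G.phi S) := by ring
          _ ≤ yy ^ 6 * (3 * (EE * (yy ^ 5 * QQ ^ 8)) * QQ ^ 10) :=
              mul_le_mul_of_nonneg_left h2 (pow_nonneg yy_pos.le _)
          _ = yy ^ 6 * QQ ^ 10 * (3 * (EE * (yy ^ 5 * QQ ^ 8))) := by ring
    _ = 4 * (yy ^ 6 * QQ ^ 10 * (3 * (EE * (yy ^ 5 * QQ ^ 8)))) := by
        rw [sum_const, hN4, nsmul_eq_mul]
        norm_num
    _ ≤ 1 := num_g44

end Pool.Agent.CFree
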