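import Pool.Agent.Lib_MP_6af485_kt.KEdge

/-!
# MP_6af485_co, `k = 3`: all degrees at least three, a vertex of degree three next to one of degree at least four

`stepD`: `deg b = 3`, `N S b = {c1, c2, c3}`, `c = c1` of degree at least four. `BG.F_expand` at `b` (`(S.erase b).erase c =
S \ {c, b}`): `F S = ∑ yy ^ (deg c + 1) * F (S \ {c, b})`. Exponent for `c` of degree `g` (`phi_pair`):
`1 + hh g + ∑ dl (the two others) + ∑ dl (N S c \ b) ≤ 1 + (g - 2) + ∑ dl (others) + (g - 1) = 2 g - 2 + ∑ dl (others)`.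
If exactly one `ci` has degree at least four: for the ones of degree three the exponent is at most `4 + 1 - 1 = 4`, and
`edge_bet`; for `c1` it is at most `2 g - 2 - 2`, `yy ^ (g + 1) * QQ ^ (2 g - 4) ≤ yy ^ 5 * QQ ^ 4` (`yQ_mono`), `edge_bet`:
`num_D1`. If exactly two: for the one of degree three exponent `4 + 2 = 6` and `PP.A`; for the two others
`2 g - 2 + 1 - 1`, `yy ^ (g + 1) * QQ ^ (2 g - 2) ≤ yy ^ 5 * QQ ^ 6`, `edge_bet`: `num_D2`. If all three: `2 g - 2 + 2`,
`yy ^ 5 * QQ ^ 8`, `PP.A`: `num_D3`.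
-/

set_option autoImplicit false

namespace Pool.Agent.CFree

open Finset

variable {V : Type} [Fintype V] [DecidableEq V] {G : BG V}

/-- the term of a neighbour of degree three -/
theorem BG.kstepd_three {S : Finset V} {b c : V} (h3 : ∀ w ∈ S, 3 ≤ G.deg S w) (hb : b ∈ S)
    (hc : c ∈ G.N S b) (hdb : G.deg S b = 3) (hdc : G.deg S c = 3) {B : ℝ} {k : ℕ}
    (hB : G.Gh (S \ {c, b}) ≤ B) (hk : 4 + ∑ w ∈ (G.N S b).erase c, dl (G.deg S w) ≤ k) :
    yy ^ (G.deg S b + G.deg S c - 2) * G.F ((S.erase b).erase c) * QQ ^ G.phi S ≤ B * (yy ^ 4 * QQ ^ k) := by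
  obtain ⟨hcS, hbc⟩ := BG.mem_N.1 hc
  have h1 : ((G.N S c).erase b).card + 1 = G.deg S c :=
    card_erase_add_one (BG.mem_N.2 ⟨hb, G.symm _ _ hbc⟩)
  have h2 := sum_dl_le_one (G := G) (S := S) (s := (G.N S c).erase b)
    (fun w hw => h3 w (BG.mem_N.1 (mem_erase.1 hw).2).1)
  have h4 := BG.edge_use h3 hb hc hB (k := k) (by
    rw [hdb, hdc, hh_three]
    push_cast
    omega)
  rw [kedge_set, hdb, hdc]
  calc yy ^ (3 + 3 - 2) * G.F (S \ {c, b}) * QQ ^ G.phi S = yy ^ 4 * (G.F (S \ {c, b}) * QQ ^ G.phi S) := by ring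
    _ ≤ yy ^ 4 * (B * QQ ^ k) := mul_le_mul_of_nonneg_left h4 (pow_nonneg yy_pos.le _)
    _ = B * (yy ^ 4 * QQ ^ k) := by ring

/-- the term of a neighbour of degree at least four -/
theorem BG.kstepd_four {S : Finset V} {b c : V} (h3 : ∀ w ∈ S, 3 ≤ G.deg S w) (hb : b ∈ S)
    (hc : c ∈ G.N S b) (hdb : G.deg S b = 3) (hdc : 4 ≤ G.deg S c) {B : ℝ} {k : ℕ} (hB0 : 0 ≤ B)
    (hB : G.Gh (S \ {c, b}) ≤ B) (hk : 6 + ∑ w ∈ (G.N S b).erase c, dl (G.deg S w) ≤ k) :
    yy ^ (G.deg S b + G.deg S c - 2) * G.F ((S.erase b).erase c) * QQ ^ G.phi S ≤ B * (yy ^ 5 * QQ ^ k) := by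
  obtain ⟨hcS, hbc⟩ := BG.mem_N.1 hc
  obtain ⟨m, hm⟩ : ∃ m, G.deg S c = 4 + m := ⟨G.deg S c - 4, by omega⟩
  have h1 : ((G.N S c).erase b).card + 1 = G.deg S c :=
    card_erase_add_one (BG.mem_N.2 ⟨hb, G.symm _ _ hbc⟩)
  have h2 := sum_dl_le_one (G := G) (S := S) (s := (G.N S c).erase b)
    (fun w hw => h3 w (BG.mem_N.1 (mem_erase.1 hw).2).1)
  have h4 := BG.edge_use h3 hb hc hB (k := k + 2 * m) (by
    rw [hdb, hh_three, hh_ge (by omega : 3 ≤ G.deg S c)]
    push_cast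
    omega)
  rw [kedge_set, hdb]
  have e1 : 3 + G.deg S c - 2 = 5 + m := by omega
  rw [e1]
  calc yy ^ (5 + m) * G.F (S \ {c, b}) * QQ ^ G.phi S
      = yy ^ (5 + m) * (G.F (S \ {c, b}) * QQ ^ G.phi S) := by ring
    _ ≤ yy ^ (5 + m) * (B * QQ ^ (k + 2 * m)) := mul_le_mul_of_nonneg_left h4 (pow_nonneg yy_pos.le _)
    _ = B * (yy ^ (5 + m) * QQ ^ (k + 2 * m)) := by ring
    _ ≤ B * (yy ^ 5 * QQ ^ k) := mul_le_mul_of_nonneg_left (yQ_mono m (by norm_num)) hB0

/-- exactly two neighbours of degree at least four -/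
theorem BG.kstepd_two {S : Finset V} {b c1 c2 c3 : V} (IH : ∀ T : Finset V, T.card < S.card → G.PP T)
    (h3 : ∀ w ∈ S, 3 ≤ G.deg S w) (hb : b ∈ S) (hdb : G.deg S b = 3) (hN : G.N S b = {c1, c2, c3})
    (h12 : c1 ≠ c2) (h13 : c1 ≠ c3) (h23 : c2 ≠ c3) (d1 : 4 ≤ G.deg S c1) (d2 : 4 ≤ G.deg S c2)
    (d3 : G.deg S c3 = 3) : G.F S * QQ ^ G.phi S ≤ EE := by
  have m1 : c1 ∈ G.N S b := by rw [hN]; simp
  have m2 : c2 ∈ G.N S b := by rw [hN]; simp
  have m3 : c3 ∈ G.N S b := by rw [hN]; simp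
  have hlt : ∀ c, (S \ {c, b}).card < S.card := fun c => card_sdiff_lt hb (by simp)
  have e1 : (G.N S b).erase c1 = {c2, c3} := by
    rw [hN]; ext x; simp only [mem_erase, mem_insert, mem_singleton]; grind
  have e2 : (G.N S b).erase c2 = {c1, c3} := by
    rw [hN]; ext x; simp only [mem_erase, mem_insert, mem_singleton]; grind
  have e3 : (G.N S b).erase c3 = {c1, c2} := by
    rw [hN]; ext x; simp only [mem_erase, mem_insert, mem_singleton]; grind
  have b1 := BG.edge_bet IH h3 hb m1 (w := c3) (by rw [e1]; simp) d3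
  have b2 := BG.edge_bet IH h3 hb m2 (w := c3) (by rw [e2]; simp) d3
  have t1 := BG.kstepd_four (k := 6) h3 hb m1 hdb d1 bet_pos.le b1 (by
    rw [e1, sum_pair h23, dl_ge d2, d3, dl_three]
    norm_num)
  have t2 := BG.kstepd_four (k := 6) h3 hb m2 hdb d2 bet_pos.le b2 (by
    rw [e2, sum_pair h13, dl_ge d1, d3, dl_three]
    norm_num)
  have t3 := BG.kstepd_three (k := 6) h3 hb m3 hdb d3 (IH _ (hlt c3)).A (by
    rw [e3, sum_pair h12, dl_ge d1, dl_ge d2]
    norm_num)
  rw [BG.F_expand hb, sum_mul, hN, sum_insert (by simp [h12, h13]), sum_pair h23]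
  linarith [num_D2]

theorem BG.stepD {S : Finset V} {b c : V} (IH : ∀ T : Finset V, T.card < S.card → G.PP T)
    (h3 : ∀ w ∈ S, 3 ≤ G.deg S w) (hb : b ∈ S) (hc : c ∈ G.N S b) (hdb : G.deg S b = 3)
    (hdc : 4 ≤ G.deg S c) : G.F S * QQ ^ G.phi S ≤ EE := by
  obtain ⟨z, w, hzw, hzc, hwc, hN⟩ := BG.nbr3 hdb hc
  have mz : z ∈ G.N S b := by rw [hN]; simp
  have mw : w ∈ G.N S b := by rw [hN]; simp
  have cz := h3 z (BG.mem_N.1 mz).1
  have cw := h3 w (BG.mem_N.1 mw).1
  by_cases dz : 4 ≤ G.deg S z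
  · by_cases dw : 4 ≤ G.deg S w
    · -- all three
      have hlt : ∀ c, (S \ {c, b}).card < S.card := fun c => card_sdiff_lt hb (by simp)
      have e1 : (G.N S b).erase c = {z, w} := by
        rw [hN]; ext x; simp only [mem_erase, mem_insert, mem_singleton]; grind
      have e2 : (G.N S b).erase z = {c, w} := by
        rw [hN]; ext x; simp only [mem_erase, mem_insert, mem_singleton]; grind
      have e3 : (G.N S b).erase w = {c, z} := by
        rw [hN]; ext x; simp only [mem_erase, mem_insert, mem_singleton]; grind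
      have t1 := BG.kstepd_four (k := 8) h3 hb hc hdb hdc zero_le_one (IH _ (hlt c)).A (by
        rw [e1, sum_pair hzw, dl_ge dz, dl_ge dw]
        norm_num)
      have t2 := BG.kstepd_four (k := 8) h3 hb mz hdb dz zero_le_one (IH _ (hlt z)).A (by
        rw [e2, sum_pair hwc.symm, dl_ge hdc, dl_ge dw]
        norm_num)
      have t3 := BG.kstepd_four (k := 8) h3 hb mw hdb dw zero_le_one (IH _ (hlt w)).A (by
        rw [e3, sum_pair hzc.symm, dl_ge hdc, dl_ge dz]
        norm_num)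
      rw [BG.F_expand hb, sum_mul, hN, sum_insert (by simp [hzc.symm, hwc.symm]), sum_pair hzw]
      linarith [num_D3]
    · exact BG.kstepd_two IH h3 hb hdb hN hzc.symm hwc.symm hzw hdc dz (by omega)
  · by_cases dw : 4 ≤ G.deg S w
    · refine BG.kstepd_two (c1 := c) (c2 := w) (c3 := z) IH h3 hb hdb ?_ hwc.symm hzc.symm hzw.symm hdc dw
        (by omega)
      rw [hN]
      ext x
      simp only [mem_insert, mem_singleton]
      tauto
    · -- exactly one
      have dz' : G.deg S z = 3 := by omega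
      have dw' : G.deg S w = 3 := by omega
      have e1 : (G.N S b).erase c = {z, w} := by
        rw [hN]; ext x; simp only [mem_erase, mem_insert, mem_singleton]; grind
      have e2 : (G.N S b).erase z = {c, w} := by
        rw [hN]; ext x; simp only [mem_erase, mem_insert, mem_singleton]; grind
      have e3 : (G.N S b).erase w = {c, z} := by
        rw [hN]; ext x; simp only [mem_erase, mem_insert, mem_singleton]; grind
      have b1 := BG.edge_bet IH h3 hb hc (w := z) (by rw [e1]; simp) dz'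
      have b2 := BG.edge_bet IH h3 hb mz (w := w) (by rw [e2]; simp) dw'
      have b3 := BG.edge_bet IH h3 hb mw (w := z) (by rw [e3]; simp) dz'
      have t1 := BG.kstepd_four (k := 4) h3 hb hc hdb hdc bet_pos.le b1 (by
        rw [e1, sum_pair hzw, dz', dw', dl_three]
        norm_num)
      have t2 := BG.kstepd_three (k := 4) h3 hb mz hdb dz' b2 (by
        rw [e2, sum_pair hwc.symm, dl_ge hdc, dw', dl_three]
        norm_num)
      have t3 := BG.kstepd_three (k := 4) h3 hb mw hdb dw' b3 (by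
        rw [e3, sum_pair hzc.symm, dl_ge hdc, dz', dl_three]
        norm_num)
      rw [BG.F_expand hb, sum_mul, hN, sum_insert (by simp [hzc.symm, hwc.symm]), sum_pair hzw]
      linarith [num_D1]

end Pool.Agent.CFree
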