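import Pool.Agent.Lib_MP_6af485_kt.KGe4
import Pool.Agent.Lib_MP_6af485_kt.KGe44
import Pool.Agent.Lib_MP_6af485_kt.KStepD

/-!
# MP_6af485_co, `k = 3`: all degrees at least three

`ge3`: all degrees at least three, `S` connected and nonempty: if all are three: `cubic`. If some are three and some are
larger: `Conn` for `S.filter (deg = 3)` gives an edge: `stepD`, `EE_le_one`. Otherwise all are at least four; if all are at
least five: `ge5` for `v` of minimal degree. If some are four and some larger: `Conn` for `S.filter (deg = 4)`: `ge45`.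
Otherwise `ge44`.
-/

set_option autoImplicit false

namespace Pool.Agent.CFree

open Finset

variable {V : Type} [Fintype V] [DecidableEq V] {G : BG V}

theorem BG.ge3 {S : Finset V} (IH : ∀ T : Finset V, T.card < S.card → G.PP T) (hc : G.Conn S)
    (hne : S.Nonempty) (h3 : ∀ w ∈ S, 3 ≤ G.deg S w) : G.F S * QQ ^ G.phi S ≤ 1 := by
  -- an edge between degree `d` and another degree
  have hedge : ∀ d : ℕ, (∃ u ∈ S, G.deg S u = d) → (∃ w ∈ S, G.deg S w ≠ d) →
      ∃ x ∈ S, ∃ y ∈ G.N S x, G.deg S x = d ∧ G.deg S y ≠ d := by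
    rintro d ⟨u, hu, hdu⟩ ⟨w, hw, hdw⟩
    obtain ⟨x, hx, y, hy, hxy⟩ := hc (S.filter fun t => G.deg S t = d) (filter_subset _ _)
      ⟨u, mem_filter.2 ⟨hu, hdu⟩⟩ (fun h => by
        have h' : w ∈ S.filter fun t => G.deg S t = d := by
          rw [h]
          exact hw
        exact hdw (mem_filter.1 h').2)
    obtain ⟨hyS, hyn⟩ := mem_sdiff.1 hy
    exact ⟨x, (mem_filter.1 hx).1, y, BG.mem_N.2 ⟨hyS, hxy⟩, (mem_filter.1 hx).2,
      fun h => hyn (mem_filter.2 ⟨hyS, h⟩)⟩
  by_cases h33 : ∃ u ∈ S, G.deg S u = 3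
  · by_cases hall : ∀ w ∈ S, G.deg S w = 3
    · exact BG.cubic IH hne hall
    · push Not at hall
      obtain ⟨x, hx, y, hy, hdx, hdy⟩ := hedge 3 h33 hall
      have h4 := h3 y (BG.mem_N.1 hy).1
      exact (BG.stepD IH h3 hx hy hdx (by omega)).trans EE_le_one
  · have h4 : ∀ w ∈ S, 4 ≤ G.deg S w := by
      intro w hw
      have h1 := h3 w hw
      have h2 : G.deg S w ≠ 3 := fun h => h33 ⟨w, hw, h⟩
      omega
    by_cases h44 : ∃ u ∈ S, G.deg S u = 4
    · by_cases hall : ∀ w ∈ S, G.deg S w = 4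
      · obtain ⟨v, hv⟩ := hne
        exact BG.ge44 IH hv hall
      · push Not at hall
        obtain ⟨x, hx, y, hy, hdx, hdy⟩ := hedge 4 h44 hall
        have h5 := h4 y (BG.mem_N.1 hy).1
        exact BG.ge45 IH h4 hx hdx hy (by omega)
    · obtain ⟨v, hv, hmin⟩ := exists_min_image S (fun w => G.deg S w) hne
      refine BG.ge5 IH hv ?_ hmin
      have h1 := h4 v hv
      have h2 : G.deg S v ≠ 4 := fun h => h44 ⟨v, hv, h⟩
      omega

end Pool.Agent.CFree
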