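import Pool.Agent.Lib_MP_6af485_kt.KEdge

/-!
# MP_6af485_co, `k = 3`: all degrees at least four

All degrees in `S` are at least four.

`edge4`: `v` of degree `d`, `u ∈ N S v` of degree `g`: `yy ^ (d + g - 2) * F (S \ {u, v}) * QQ ^ phi S ≤
yy ^ (d + g - 2) * QQ ^ (2 d + 2 g - 6)` (`edge_use`, `PP.A`, `hh d = d - 2`, `∑ dl ≤ d - 1`, `g - 1`: `sum_dl_le_one`).
`ge5`: all degrees at least `d = deg v ≥ 5`: `F S * QQ ^ phi S ≤ d * (yy ^ (2 d - 2) * QQ ^ (4 d - 6)) ≤ 1`: for `d = 5`: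
`num_g5`; induction on `d` (`yy ^ 2 * QQ ^ 4 * (d + 1) ≤ d` as `yy ^ 2 * QQ ^ 4 ≤ 5 / 6`: `mup 2 4`), and
`yy ^ (d + g - 2) * QQ ^ (2 d + 2 g - 6) ≤ yy ^ (2 d - 2) * QQ ^ (4 d - 6)` for `g ≥ d` (`yQ_mono`).
`ge45`: `deg v = 4` and some neighbour `u0` of degree at least five: three terms at most `yy ^ 6 * QQ ^ 10`, the term for `u0` at
most `yy ^ 7 * QQ ^ 12`: `num_g45`.
-/

set_option autoImplicit false

namespace Pool.Agent.CFree

open Finset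

variable {V : Type} [Fintype V] [DecidableEq V] {G : BG V}

theorem BG.edge4 {S : Finset V} {v u : V} (IH : ∀ T : Finset V, T.card < S.card → G.PP T)
    (h4 : ∀ w ∈ S, 4 ≤ G.deg S w) (hv : v ∈ S) (hu : u ∈ G.N S v) :
    yy ^ (G.deg S v + G.deg S u - 2) * (G.F (S \ {u, v}) * QQ ^ G.phi S) ≤
      yy ^ (G.deg S v + G.deg S u - 2) * QQ ^ (2 * G.deg S v + 2 * G.deg S u - 6) := by
  obtain ⟨huS, hvu⟩ := BG.mem_N.1 hu
  have h3 : ∀ w ∈ S, 3 ≤ G.deg S w := fun w hw => by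
    have := h4 w hw
    omega
  have dv := h4 v hv
  have du := h4 u huS
  have c1 : ((G.N S v).erase u).card + 1 = G.deg S v := card_erase_add_one hu
  have c2 : ((G.N S u).erase v).card + 1 = G.deg S u :=
    card_erase_add_one (BG.mem_N.2 ⟨hv, G.symm _ _ hvu⟩)
  have s1 := sum_dl_le_one (G := G) (S := S) (s := (G.N S v).erase u)
    (fun w hw => h3 w (BG.mem_N.1 (mem_erase.1 hw).2).1)
  have s2 := sum_dl_le_one (G := G) (S := S) (s := (G.N S u).erase v)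
    (fun w hw => h3 w (BG.mem_N.1 (mem_erase.1 hw).2).1)
  have h := BG.edge_use (k := 2 * G.deg S v + 2 * G.deg S u - 6) h3 hv hu
    (IH _ (card_sdiff_lt hv (by simp))).A (by
      rw [hh_ge (by omega : 3 ≤ G.deg S v), hh_ge (by omega : 3 ≤ G.deg S u)]
      omega)
  rw [one_mul] at h
  exact mul_le_mul_of_nonneg_left h (pow_nonneg yy_pos.le _)

theorem kge4_pow : ∀ d : ℕ, 5 ≤ d → (d : ℝ) * (yy ^ (2 * d - 2) * QQ ^ (4 * d - 6)) ≤ 1 := by
  intro d hd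
  induction d, hd using Nat.le_induction with
  | base =>
    have := num_g5
    rw [show 2 * 5 - 2 = 8 from rfl, show 4 * 5 - 6 = 14 from rfl]
    norm_num
    linarith
  | succ d hd ih =>
    have e1 : 2 * (d + 1) - 2 = 2 * d - 2 + 2 := by omega
    have e2 : 4 * (d + 1) - 6 = 4 * d - 6 + 4 := by omega
    rw [e1, e2]
    have h1 : yy ^ 2 * QQ ^ 4 ≤ 5 / 6 := mup 2 4 (by norm_num)
    have h2 : 0 ≤ yy ^ (2 * d - 2) * QQ ^ (4 * d - 6) :=
      mul_nonneg (pow_nonneg yy_pos.le _) (pow_nonneg QQ_pos.le _)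
    have h3 : ((d : ℝ) + 1) * (5 / 6) ≤ d := by
      have : (5 : ℝ) ≤ d := by exact_mod_cast hd
      linarith
    push_cast
    calc ((d : ℝ) + 1) * (yy ^ (2 * d - 2 + 2) * QQ ^ (4 * d - 6 + 4))
        = (((d : ℝ) + 1) * (yy ^ 2 * QQ ^ 4)) * (yy ^ (2 * d - 2) * QQ ^ (4 * d - 6)) := by ring
      _ ≤ (((d : ℝ) + 1) * (5 / 6)) * (yy ^ (2 * d - 2) * QQ ^ (4 * d - 6)) :=
          mul_le_mul_of_nonneg_right (mul_le_mul_of_nonneg_left h1 (by positivity)) h2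
      _ ≤ (d : ℝ) * (yy ^ (2 * d - 2) * QQ ^ (4 * d - 6)) := mul_le_mul_of_nonneg_right h3 h2
      _ ≤ 1 := ih

/-- a term with lower bounds of the degrees -/
theorem BG.kge4_term {S : Finset V} {v u : V} {g : ℕ} (IH : ∀ T : Finset V, T.card < S.card → G.PP T)
    (h4 : ∀ w ∈ S, 4 ≤ G.deg S w) (hv : v ∈ S) (hu : u ∈ G.N S v) (hg : g ≤ G.deg S u) (hg4 : 4 ≤ g) :
    yy ^ (G.deg S v + G.deg S u - 2) * G.F ((S.erase v).erase u) * QQ ^ G.phi S ≤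
      yy ^ (G.deg S v + g - 2) * QQ ^ (2 * G.deg S v + 2 * g - 6) := by
  have dv := h4 v hv
  obtain ⟨m, hm⟩ : ∃ m, G.deg S u = g + m := ⟨G.deg S u - g, by omega⟩
  rw [kedge_set]
  calc yy ^ (G.deg S v + G.deg S u - 2) * G.F (S \ {u, v}) * QQ ^ G.phi S
      = yy ^ (G.deg S v + G.deg S u - 2) * (G.F (S \ {u, v}) * QQ ^ G.phi S) := by ring
    _ ≤ yy ^ (G.deg S v + G.deg S u - 2) * QQ ^ (2 * G.deg S v + 2 * G.deg S u - 6) := BG.edge4 IH h4 hv hu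
    _ = yy ^ (G.deg S v + g - 2 + m) * QQ ^ (2 * G.deg S v + 2 * g - 6 + 2 * m) := by
        rw [hm]
        congr 2
        · omega
        · omega
    _ ≤ yy ^ (G.deg S v + g - 2) * QQ ^ (2 * G.deg S v + 2 * g - 6) := yQ_mono m (by norm_num)

theorem BG.ge5 {S : Finset V} {v : V} (IH : ∀ T : Finset V, T.card < S.card → G.PP T) (hv : v ∈ S)
    (hd : 5 ≤ G.deg S v) (hmin : ∀ w ∈ S, G.deg S v ≤ G.deg S w) : G.F S * QQ ^ G.phi S ≤ 1 := by
  have h4 : ∀ w ∈ S, 4 ≤ G.deg S w := fun w hw => by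
    have := hmin w hw
    omega
  rw [BG.F_expand hv, sum_mul]
  calc _ ≤ ∑ _u ∈ G.N S v, yy ^ (2 * G.deg S v - 2) * QQ ^ (4 * G.deg S v - 6) := by
        refine sum_le_sum fun u hu => ?_
        have h := BG.kge4_term (g := G.deg S v) IH h4 hv hu (hmin u (BG.mem_N.1 hu).1) (by omega)
        have e1 : G.deg S v + G.deg S v - 2 = 2 * G.deg S v - 2 := by omega
        have e2 : 2 * G.deg S v + 2 * G.deg S v - 6 = 4 * G.deg S v - 6 := by omega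
        rw [e1, e2] at h
        exact h
    _ = (G.deg S v : ℝ) * (yy ^ (2 * G.deg S v - 2) * QQ ^ (4 * G.deg S v - 6)) := by
        rw [sum_const, nsmul_eq_mul]
        rfl
    _ ≤ 1 := kge4_pow _ hd

theorem BG.ge45 {S : Finset V} {v u0 : V} (IH : ∀ T : Finset V, T.card < S.card → G.PP T)
    (h4 : ∀ w ∈ S, 4 ≤ G.deg S w) (hv : v ∈ S) (hd : G.deg S v = 4) (hu0 : u0 ∈ G.N S v)
    (hd0 : 5 ≤ G.deg S u0) : G.F S * QQ ^ G.phi S ≤ 1 := by
  rw [BG.F_expand hv, sum_mul, ← add_sum_erase _ _ hu0]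
  have h1 := BG.kge4_term (g := 5) IH h4 hv hu0 hd0 (by norm_num)
  have h2 : ∑ u ∈ (G.N S v).erase u0, yy ^ (G.deg S v + G.deg S u - 2) * G.F ((S.erase v).erase u) *
      QQ ^ G.phi S ≤ ∑ _u ∈ (G.N S v).erase u0, yy ^ 6 * QQ ^ 10 := by
    refine sum_le_sum fun u hu => ?_
    have h := BG.kge4_term (g := 4) IH h4 hv (mem_erase.1 hu).2 (h4 u (BG.mem_N.1 (mem_erase.1 hu).2).1) (by norm_num)
    rw [hd] at h ⊢
    exact h
  have h3 : ((G.N S v).erase u0).card = 3 := by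
    have h5 := card_erase_add_one hu0
    have h6 : (G.N S v).card = 4 := hd
    omega
  rw [sum_const, h3, nsmul_eq_mul] at h2
  rw [hd] at h1
  have e1 : 4 + 5 - 2 = 7 := rfl
  have e2 : 2 * 4 + 2 * 5 - 6 = 12 := rfl
  rw [e1, e2] at h1
  have h7 := num_g45
  push_cast at h2
  rw [hd] at h2 ⊢
  linarith

end Pool.Agent.CFree
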