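import Pool.Agent.Lib_MP_6af485_kt.KSix

/-!
# MP_6af485_co, `k = 3`: irreducible graphs

`deg2`: if `deg w = 0` then `{w}` contradicts `Conn` (`|S| ≥ 3`). If `N S w = {u}` then `W = {w, u}` is balanced,
nonempty and not `S`, but only `u` can have neighbours outside: contradicts `Irr.irr`.
`attach'`: `K` is balanced, nonempty and not `S` (`R` is nonempty and disjoint from `K`); by `Irr.irr` two
vertices of `K` have neighbours in `S \ K`; the neighbours in `S \ R` of the vertices of `K` are in `K`, so these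
neighbours are in `R`.
`rest'`: `U = S \ (K ∪ R)` is balanced (`S`, `K`, `R` are balanced and `K`, `R` are disjoint), nonempty and not `S`. Two
vertices of `U` have neighbours in `S \ U = K ∪ R`; not in `K` since `K` is closed in `S \ R`.
`inner'`: the same for `W = K ∪ R` (balanced, nonempty, not `S`): two vertices of `W` have neighbours in `S \ W`; the
vertices of `K` have none.
`attach`, `rest`, `inner`: the same for 6-cycle components (`IsC6.bal`).
`C6V_irr`: a component `K` would be closed, so `K = S` by `Conn`, so `|S| = 6` and all degrees are two.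
-/

set_option autoImplicit false

namespace Pool.Agent.CFree

open Finset

variable {V : Type} [Fintype V] [DecidableEq V] {G : BG V}

theorem BG.bal_sdiff {S W : Finset V} (hS : G.bal S) (hW : G.bal W) (hsub : W ⊆ S) : G.bal (S \ W) := by
  have key : ∀ c : Bool, ((S \ W).filter fun x => G.col x = c).card +
      (W.filter fun x => G.col x = c).card = (S.filter fun x => G.col x = c).card := by
    intro c
    rw [← card_union_of_disjoint]
    · congr 1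
      ext x
      simp only [mem_union, mem_filter, mem_sdiff]
      constructor
      · rintro (⟨⟨h1, _⟩, h3⟩ | ⟨h1, h2⟩)
        · exact ⟨h1, h3⟩
        · exact ⟨hsub h1, h2⟩
      · rintro ⟨h1, h2⟩
        by_cases h3 : x ∈ W
        · exact Or.inr ⟨h3, h2⟩
        · exact Or.inl ⟨⟨h1, h3⟩, h2⟩
    · rw [disjoint_left]
      intro x hx hx'
      exact (mem_sdiff.1 (mem_filter.1 hx).1).2 (mem_filter.1 hx').1
  unfold BG.bal at *
  have h1 := key true
  have h2 := key false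
  omega

theorem BG.bal_union {K R : Finset V} (hK : G.bal K) (hR : G.bal R) (hd : Disjoint K R) : G.bal (K ∪ R) := by
  have key : ∀ c : Bool, ((K ∪ R).filter fun x => G.col x = c).card =
      (K.filter fun x => G.col x = c).card + (R.filter fun x => G.col x = c).card := by
    intro c
    rw [filter_union, card_union_of_disjoint]
    exact disjoint_filter_filter hd
  unfold BG.bal at *
  have h1 := key true
  have h2 := key false
  omega

/-- two vertices of different colours -/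
theorem BG.bal_two {u v : V} (h : G.adj u v) : G.bal {u, v} := by
  have hc := G.bip _ _ h
  have hne : u ≠ v := fun e => hc (by rw [e])
  unfold BG.bal
  cases hu : G.col u <;> cases hv : G.col v
  · rw [hu, hv] at hc; exact absurd rfl hc
  · rw [filter_insert, filter_singleton, filter_insert, filter_singleton, hu, hv]
    simp
  · rw [filter_insert, filter_singleton, filter_insert, filter_singleton, hu, hv]
    simp
  · rw [hu, hv] at hc; exact absurd rfl hc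

/-- a path with four vertices -/
theorem BG.bal_four {R : Finset V} {r1 r2 r3 r4 : V} (hR : ∀ x, x ∈ R ↔ x = r1 ∨ x = r2 ∨ x = r3 ∨ x = r4)
    (h12 : G.adj r1 r2) (h23 : G.adj r2 r3) (h34 : G.adj r3 r4) (h13 : r1 ≠ r3) (h24 : r2 ≠ r4) :
    G.bal R := by
  have c13 : G.col r1 = G.col r3 := BG.col_path h12 h23
  have c24 : G.col r2 = G.col r4 := BG.col_path h23 h34
  have c12 := G.bip _ _ h12
  have n12 : r1 ≠ r2 := fun e => c12 (by rw [e])
  have n14 : r1 ≠ r4 := fun e => c12 (by rw [c24, e])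
  have n32 : r3 ≠ r2 := fun e => c12 (by rw [c13, e])
  have n34 : r3 ≠ r4 := fun e => c12 (by rw [c13, c24, e])
  have hRe : R = {r1, r2} ∪ {r3, r4} := by
    ext x
    rw [hR, mem_union, mem_insert, mem_singleton, mem_insert, mem_singleton]
    tauto
  rw [hRe]
  refine BG.bal_union (BG.bal_two h12) (BG.bal_two h34) ?_
  rw [disjoint_left]
  intro x hx hx'
  rw [mem_insert, mem_singleton] at hx hx'
  rcases hx with rfl | rfl <;> rcases hx' with h | h
  · exact h13 h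
  · exact n14 h
  · exact n32 h.symm
  · exact h24 h

theorem BG.Irr.deg2 {S : Finset V} (hI : G.Irr S) (hc : 3 ≤ S.card) : ∀ w ∈ S, 2 ≤ G.deg S w := by
  intro w hw
  by_contra hlt
  have hcN : (G.N S w).card ≤ 1 := by unfold BG.deg at hlt; omega
  rcases Nat.eq_zero_or_pos (G.N S w).card with h0 | h1
  · have hN : G.N S w = ∅ := card_eq_zero.1 h0
    obtain ⟨x, hx, y, hy, hxy⟩ := hI.conn {w} (singleton_subset_iff.2 hw) (singleton_nonempty w) (by
      intro h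
      rw [← h, card_singleton] at hc
      omega)
    rw [mem_singleton] at hx
    subst hx
    have h2 : y ∈ G.N S x := BG.mem_N.2 ⟨(mem_sdiff.1 hy).1, hxy⟩
    rw [hN] at h2
    exact notMem_empty _ h2
  · obtain ⟨u, hu⟩ := card_eq_one.1 (show (G.N S w).card = 1 by omega)
    obtain ⟨huS, hwu⟩ := BG.mem_N.1 (show u ∈ G.N S w by rw [hu]; simp)
    have key : ∀ t ∈ ({w, u} : Finset V), ∀ x ∈ S \ {w, u}, G.adj t x → t = u := by
      intro t ht x hx htx
      rw [mem_insert, mem_singleton] at ht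
      rcases ht with rfl | rfl
      · have h2 : x ∈ G.N S t := BG.mem_N.2 ⟨(mem_sdiff.1 hx).1, htx⟩
        rw [hu, mem_singleton] at h2
        subst h2
        exact absurd (mem_insert_of_mem (mem_singleton_self _)) (mem_sdiff.1 hx).2
      · rfl
    obtain ⟨w1, h1, w2, h2, hne, ⟨x1, hx1, ha1⟩, x2, hx2, ha2⟩ := hI.irr {w, u} (by
      intro x hx
      rw [mem_insert, mem_singleton] at hx
      rcases hx with rfl | rfl
      · exact hw
      · exact huS) (insert_nonempty _ _) (by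
      intro h
      have := card_le_two (a := w) (b := u)
      rw [h] at this
      omega) (BG.bal_two hwu)
    exact hne ((key w1 h1 x1 hx1 ha1).trans (key w2 h2 x2 hx2 ha2).symm)

theorem BG.Irr.attach' {S R K : Finset V} (hI : G.Irr S) (hR : R ⊆ S) (hne : R.Nonempty)
    (hK : K ⊆ S \ R) (hKn : K.Nonempty) (hKb : G.bal K) (hcl : ∀ w ∈ K, G.N (S \ R) w ⊆ K) :
    ∃ k1 ∈ K, ∃ k2 ∈ K, k1 ≠ k2 ∧ (∃ r ∈ R, G.adj k1 r) ∧ ∃ r ∈ R, G.adj k2 r := by
  obtain ⟨r, hr⟩ := hne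
  obtain ⟨w1, h1, w2, h2, hne', ⟨x1, hx1, ha1⟩, x2, hx2, ha2⟩ := hI.irr K
    (hK.trans sdiff_subset) hKn (fun h => (mem_sdiff.1 (hK (h ▸ hR hr))).2 hr) hKb
  have key : ∀ w ∈ K, ∀ x ∈ S \ K, G.adj w x → x ∈ R := by
    intro w hw x hx hwx
    by_contra hxR
    exact (mem_sdiff.1 hx).2 (hcl w hw (BG.mem_N.2 ⟨mem_sdiff.2 ⟨(mem_sdiff.1 hx).1, hxR⟩, hwx⟩))
  exact ⟨w1, h1, w2, h2, hne', ⟨x1, key w1 h1 x1 hx1 ha1, ha1⟩, x2, key w2 h2 x2 hx2 ha2, ha2⟩

theorem BG.Irr.inner' {S R K : Finset V} (hI : G.Irr S) (hR : R ⊆ S) (hne : R.Nonempty) (hb : G.bal R)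
    (hK : K ⊆ S \ R) (hKb : G.bal K) (hcl : ∀ w ∈ K, G.N (S \ R) w ⊆ K)
    (hU : (S \ (K ∪ R)).Nonempty) :
    ∃ r1 ∈ R, ∃ r2 ∈ R, r1 ≠ r2 ∧ (∃ w ∈ S \ (K ∪ R), G.adj r1 w) ∧ ∃ w ∈ S \ (K ∪ R), G.adj r2 w := by
  obtain ⟨r, hr⟩ := hne
  obtain ⟨u, hu⟩ := hU
  have hd : Disjoint K R := by
    rw [disjoint_left]
    intro x hx hx'
    exact (mem_sdiff.1 (hK hx)).2 hx'
  have hsub : K ∪ R ⊆ S := union_subset (hK.trans sdiff_subset) hR
  obtain ⟨w1, h1, w2, h2, hne', ⟨x1, hx1, ha1⟩, x2, hx2, ha2⟩ := hI.irr (K ∪ R) hsub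
    ⟨r, mem_union_right _ hr⟩ (fun h => (mem_sdiff.1 hu).2 (h ▸ (mem_sdiff.1 hu).1)) (BG.bal_union hKb hb hd)
  have key : ∀ w ∈ K ∪ R, ∀ x ∈ S \ (K ∪ R), G.adj w x → w ∈ R := by
    intro w hw x hx hwx
    rcases mem_union.1 hw with h | h
    · exfalso
      refine (mem_sdiff.1 hx).2 (mem_union_left _ (hcl w h (BG.mem_N.2 ⟨mem_sdiff.2 ⟨(mem_sdiff.1 hx).1, ?_⟩, hwx⟩)))
      exact fun h' => (mem_sdiff.1 hx).2 (mem_union_right _ h')
    · exact h
  exact ⟨w1, key w1 h1 x1 hx1 ha1, w2, key w2 h2 x2 hx2 ha2, hne', ⟨x1, hx1, ha1⟩, x2, hx2, ha2⟩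

theorem BG.Irr.rest' {S R K : Finset V} (hI : G.Irr S) (hR : R ⊆ S) (hne : R.Nonempty) (hb : G.bal R)
    (hK : K ⊆ S \ R) (hKb : G.bal K) (hcl : ∀ w ∈ K, G.N (S \ R) w ⊆ K)
    (hU : (S \ (K ∪ R)).Nonempty) :
    ∃ w1 ∈ S \ (K ∪ R), ∃ w2 ∈ S \ (K ∪ R), w1 ≠ w2 ∧ (∃ r ∈ R, G.adj w1 r) ∧ ∃ r ∈ R, G.adj w2 r := by
  obtain ⟨r, hr⟩ := hne
  have hd : Disjoint K R := by
    rw [disjoint_left]
    intro x hx hx'
    exact (mem_sdiff.1 (hK hx)).2 hx'
  have hsub : K ∪ R ⊆ S := union_subset (hK.trans sdiff_subset) hR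
  obtain ⟨w1, h1, w2, h2, hne', ⟨x1, hx1, ha1⟩, x2, hx2, ha2⟩ := hI.irr (S \ (K ∪ R)) sdiff_subset hU
    (fun h => by
      have h' : r ∈ S \ (K ∪ R) := by
        rw [h]
        exact hR hr
      exact (mem_sdiff.1 h').2 (mem_union_right _ hr))
    (BG.bal_sdiff hI.bal (BG.bal_union hKb hb hd) hsub)
  have key : ∀ w ∈ S \ (K ∪ R), ∀ x ∈ S \ (S \ (K ∪ R)), G.adj w x → x ∈ R := by
    intro w hw x hx hwx
    have hxKR : x ∈ K ∪ R := by
      by_contra h
      exact (mem_sdiff.1 hx).2 (mem_sdiff.2 ⟨(mem_sdiff.1 hx).1, h⟩)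
    rcases mem_union.1 hxKR with h | h
    · exfalso
      have hwR : w ∉ R := fun h' => (mem_sdiff.1 hw).2 (mem_union_right _ h')
      exact (mem_sdiff.1 hw).2 (mem_union_left _ (hcl x h (BG.mem_N.2
        ⟨mem_sdiff.2 ⟨(mem_sdiff.1 hw).1, hwR⟩, G.symm _ _ hwx⟩)))
    · exact h
  exact ⟨w1, h1, w2, h2, hne', ⟨x1, key w1 h1 x1 hx1 ha1, ha1⟩, x2, key w2 h2 x2 hx2 ha2, ha2⟩

theorem BG.IsC6.nonempty {T K : Finset V} (h : G.IsC6 T K) : K.Nonempty := by
  rw [← card_pos, h.2.1]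
  norm_num

theorem BG.Irr.attach {S R K : Finset V} (hI : G.Irr S) (hR : R ⊆ S) (hne : R.Nonempty)
    (hK : G.IsC6 (S \ R) K) :
    ∃ k1 ∈ K, ∃ k2 ∈ K, k1 ≠ k2 ∧ (∃ r ∈ R, G.adj k1 r) ∧ ∃ r ∈ R, G.adj k2 r :=
  hI.attach' hR hne hK.1 hK.nonempty hK.bal fun w hw => (hK.2.2 w hw).2

theorem BG.Irr.rest {S R K : Finset V} (hI : G.Irr S) (hR : R ⊆ S) (hne : R.Nonempty) (hb : G.bal R)
    (hK : G.IsC6 (S \ R) K) (hU : (S \ (K ∪ R)).Nonempty) :
    ∃ w1 ∈ S \ (K ∪ R), ∃ w2 ∈ S \ (K ∪ R), w1 ≠ w2 ∧ (∃ r ∈ R, G.adj w1 r) ∧ ∃ r ∈ R, G.adj w2 r :=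
  hI.rest' hR hne hb hK.1 hK.bal (fun w hw => (hK.2.2 w hw).2) hU

theorem BG.Irr.inner {S R K : Finset V} (hI : G.Irr S) (hR : R ⊆ S) (hne : R.Nonempty) (hb : G.bal R)
    (hK : G.IsC6 (S \ R) K) (hU : (S \ (K ∪ R)).Nonempty) :
    ∃ r1 ∈ R, ∃ r2 ∈ R, r1 ≠ r2 ∧ (∃ w ∈ S \ (K ∪ R), G.adj r1 w) ∧ ∃ w ∈ S \ (K ∪ R), G.adj r2 w :=
  hI.inner' hR hne hb hK.1 hK.bal (fun w hw => (hK.2.2 w hw).2) hU

theorem BG.Irr.C6V_irr {S : Finset V} (hI : G.Irr S) (h : S.card ≠ 6 ∨ ∃ w ∈ S, G.deg S w ≠ 2) :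
    G.C6V S = ∅ := by
  rw [BG.C6V_eq_empty]
  intro K hK
  have hKS : K = S := by
    by_contra hne
    obtain ⟨w, hw, x, hx, hwx⟩ := hI.conn K hK.1 hK.nonempty hne
    exact (mem_sdiff.1 hx).2 ((hK.2.2 w hw).2 (BG.mem_N.2 ⟨(mem_sdiff.1 hx).1, hwx⟩))
  rcases h with h | ⟨w, hw, hd⟩
  · exact h (hKS ▸ hK.2.1)
  · exact hd (hK.2.2 w (hKS ▸ hw)).1

end Pool.Agent.CFree
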