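import Pool.Agent.Lib_MP_6af485_kt.KRedE

/-!
# MP_6af485_co, `k = 3`: connected graphs which are not irreducible, and small graphs

`irr_or_cut`: if `Irr.irr` fails for `W` (balanced, nonempty, not `S`), take `x ∈ W` with a neighbour in `S \ W`
(`Conn`); every other vertex of `W` has its neighbours in `W`.
`PP_red`: `Gh_le` and `red1` (`A`, `N`, `D`, `P4`; `b22_le_one`, `b22_le_EE`), `red2` (`L`), `red3` (`B`, `B34`;
`lam_le_bet`, `lam_le_b34`), `red4` (`B44`).
`PP_small`: all degrees in `S` are at most one (`N S v ⊆ S.erase v`), so `phi S = 0`, `C6V S = ∅` (`IsC6` needs six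
vertices), `Gh S = F S ≤ 1` by `(BG.main G _ S rfl).1` (`Lib_MP_6af485_co.StepD`); the other statements need a vertex of
degree at least two.
-/

set_option autoImplicit false

namespace Pool.Agent.CFree

open Finset

variable {V : Type} [Fintype V] [DecidableEq V] {G : BG V}

theorem BG.irr_or_cut {S : Finset V} (hb : G.bal S) (hc : G.Conn S) : G.Irr S ∨ ∃ W x, G.Cut S W x := by
  by_cases h : ∀ W ⊆ S, W.Nonempty → W ≠ S → G.bal W →
      ∃ w1 ∈ W, ∃ w2 ∈ W, w1 ≠ w2 ∧ (∃ x ∈ S \ W, G.adj w1 x) ∧ ∃ x ∈ S \ W, G.adj w2 x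
  · exact Or.inl ⟨hb, hc, h⟩
  · right
    push Not at h
    obtain ⟨W, hW, hne, hWS, hWb, h⟩ := h
    obtain ⟨x, hx, y, hy, hxy⟩ := hc W hW hne hWS
    refine ⟨W, x, hW, hx, hWS, hWb, ?_⟩
    intro w hw hwx z hz
    by_contra hzW
    obtain ⟨hzS, hwz⟩ := BG.mem_N.1 hz
    exact h w hw x hx hwx ⟨z, mem_sdiff.2 ⟨hzS, hzW⟩, hwz⟩ y hy hxy

theorem BG.PP_red {S W : Finset V} {x : V} (IH : ∀ T : Finset V, T.card < S.card → G.PP T)
    (hc : G.Conn S) (h : G.Cut S W x) : G.PP S := by
  have h1 := BG.Gh_le (BG.red1 IH hc h)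
  constructor
  · exact h1.trans b22_le_one
  · intro v u hv hN hu
    exact BG.Gh_le (BG.red2 IH hc hv hN hu)
  · intro v a b hv hab hN ha hb
    exact (BG.Gh_le (BG.red3 IH hc h hv hab hN ha hb)).trans lam_le_bet
  · intro v a b hv hab hN ha hb
    exact (BG.Gh_le (BG.red3 IH hc h hv hab hN ha (by omega))).trans lam_le_b34
  · intro v a b hv hab hN ha hb
    exact BG.Gh_le (BG.red4 IH hc h hv hab hN ha hb)
  · intros
    exact h1.trans b22_le_EE
  · intros
    exact h1.trans b22_le_EE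
  · intros
    exact h1

theorem BG.PP_small {S : Finset V} (hc : S.card ≤ 2) : G.PP S := by
  have hd : ∀ w ∈ S, G.deg S w ≤ 1 := by
    intro w hw
    have h1 : G.N S w ⊆ S.erase w := by
      intro x hx
      obtain ⟨hxS, hwx⟩ := BG.mem_N.1 hx
      exact mem_erase.2 ⟨(BG.ne_of_adj hwx).symm, hxS⟩
    have h2 := card_le_card h1
    have h3 := card_erase_add_one hw
    unfold BG.deg
    omega
  have hphi : G.phi S = 0 := by
    unfold BG.phi
    refine sum_eq_zero fun w hw => ?_
    unfold hh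
    rw [if_pos (hd w hw)]
  have hC : G.C6V S = ∅ := by
    rw [BG.C6V_eq_empty]
    intro K hK
    have h1 := card_le_card hK.1
    rw [hK.2.1] at h1
    omega
  have hA : G.Gh S ≤ 1 := by
    rw [BG.Gh_eq hC, hphi, pow_zero, mul_one]
    exact (BG.main G _ S rfl).1
  have hmem : ∀ v a, a ∈ G.N S v → G.deg S a ≤ 1 := fun v a ha => hd a (BG.mem_N.1 ha).1
  have hN1 : ∀ v a b, v ∈ S → a ≠ b → G.N S v = {a, b} → False := by
    intro v a b hv hab hN
    have h1 := hd v hv
    unfold BG.deg at h1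
    rw [hN, card_pair hab] at h1
    omega
  constructor
  · exact hA
  · intro v u hv hN hu
    have := hmem v u (by rw [hN]; simp)
    omega
  · intro v a b hv hab hN
    exact (hN1 v a b hv hab hN).elim
  · intro v a b hv hab hN
    exact (hN1 v a b hv hab hN).elim
  · intro v a b hv hab hN
    exact (hN1 v a b hv hab hN).elim
  · intro u hu hd2
    have := hd u hu
    omega
  · intro b c hb _ hd3
    have := hd b hb
    omega
  · intro p u1 u2 u3 u4 w h1 h2 h3 h4 hN1' _ _ _ hp
    exact (hN1 u1 p u2 h1 hp hN1').elim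

end Pool.Agent.CFree
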