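import Pool.Agent.Lib_MP_6af485_kt.KPrB

/-!
# MP_6af485_co, `k = 3`: two adjacent vertices of degree two, one outer neighbour of degree two

`p ≥ 3`, `deg q = 2`, `N S q = {u2, q'}`. `hTh`: no component `K` of `T = S \ {u2, u1}` (`Pr.th`), so `C6V T = ∅`.

`PrA`: `Pr.Q`. First term: in `T` the vertex `q` has the only neighbour `q'` (`deg_p` for `h.symm`), `q' ∈ T` (`q' ≠ u1`:
`h.q1`..., colour), `deg T q' = deg S q' ≥ 2` unless `q' = p`, impossible since `p`, `q` are not adjacent (`deg_T`): `PP.L`;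
exponent `4 + dl p + 2` (`Pr.phi_T`): 5 for `deg p = 3`, 7 for `deg p ≥ 4`. Second term: `yy ^ (deg p + 1)`, `C6V W = ∅`
(`emptyW`), `PP.A`, exponent `4 + hh p + 2 + ∑ dl (p) + dl q' ≤ 6 + (deg p - 2) + 2 (deg p - 1) + 2 = 3 deg p + 4`
(`Pr.phi_W`). `deg p = 3`: `num_pA3`; `deg p ≥ 4`: `yQ_mono`, `num_pA4`.
-/

set_option autoImplicit false

namespace Pool.Agent.CFree

open Finset

variable {V : Type} [Fintype V] [DecidableEq V] {G : BG V}

/-- in `T` the vertex `q` has one neighbour `q'`, which has degree at least two -/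
theorem BG.Pr.kprc_lam {S : Finset V} {p u1 u2 q : V} (h : G.Pr S p u1 u2 q)
    (IH : ∀ T : Finset V, T.card < S.card → G.PP T) (hmin : ∀ w ∈ S, 2 ≤ G.deg S w)
    (hq : G.deg S q = 2) : G.Gh (S \ {u2, u1}) ≤ lam := by
  obtain ⟨hpS, hqS, a12, ap1, a2q, npq, hpq, hp1, hq2⟩ := h.mem
  obtain ⟨d1, d2, d3⟩ := h.symm.deg_p
  have e : ({u1, u2} : Finset V) = {u2, u1} := Finset.pair_comm u1 u2
  rw [e] at d1 d2 d3
  have hu2q : u2 ∈ G.N S q := BG.mem_N.2 ⟨h.h2, G.symm _ _ a2q⟩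
  have hc : ((G.N S q).erase u2).card = 1 := by
    rw [card_erase_of_mem hu2q]
    unfold BG.deg at hq
    omega
  obtain ⟨q', hq'⟩ := card_eq_one.1 hc
  have hm : q' ∈ (G.N S q).erase u2 := by rw [hq']; exact mem_singleton_self _
  obtain ⟨n2, hN⟩ := mem_erase.1 hm
  obtain ⟨hq'S, aqq'⟩ := BG.mem_N.1 hN
  have np : q' ≠ p := fun e => npq (G.symm _ _ (e ▸ aqq'))
  have nq : q' ≠ q := (BG.ne_of_adj aqq').symm
  have n1 : q' ≠ u1 := by
    intro e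
    rw [e] at aqq'
    exact BG.nadj_col (BG.col_path a12 a2q) (G.symm _ _ aqq')
  obtain ⟨t1, t2, t3⟩ := h.deg_T hq'S np nq n1 n2
  have hlt : (S \ {u2, u1}).card < S.card := by
    refine card_lt_card ⟨sdiff_subset, fun hs => ?_⟩
    exact (mem_sdiff.1 (hs h.h1)).2 (by simp)
  refine (IH _ hlt).L q q' d1 ?_ ?_
  · rw [d2, hq']
  · rw [t3]; exact hmin _ hq'S

/-- the exponent for `W` -/
theorem BG.Pr.kprc_expW {S : Finset V} {p u1 u2 q : V} (h : G.Pr S p u1 u2 q)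
    (hp : 3 ≤ G.deg S p) (hq : G.deg S q = 2) :
    (G.phi S : ℤ) ≤ (G.phi (S \ {q, u2, p, u1}) : ℤ) + ((3 * G.deg S p + 4 : ℕ) : ℤ) := by
  obtain ⟨hpS, hqS, a12, ap1, a2q, npq, hpq, hp1, hq2⟩ := h.mem
  have e := h.phi_W
  have h1 := sum_dl_le_two (G := G) (S := S) (s := (G.N S p).erase u1)
  have h2 := sum_dl_le_two (G := G) (S := S) (s := (G.N S q).erase u2)
  have hu1p : u1 ∈ G.N S p := BG.mem_N.2 ⟨h.h1, ap1⟩
  have hu2q : u2 ∈ G.N S q := BG.mem_N.2 ⟨h.h2, G.symm _ _ a2q⟩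
  have c1 : ((G.N S p).erase u1).card + 1 = G.deg S p := by
    rw [card_erase_of_mem hu1p]
    unfold BG.deg at hp ⊢
    omega
  have c2 : ((G.N S q).erase u2).card + 1 = G.deg S q := by
    rw [card_erase_of_mem hu2q]
    unfold BG.deg at hq ⊢
    omega
  have hhp : hh (G.deg S p) = G.deg S p - 2 := hh_ge hp
  have hhq : hh (G.deg S q) = 2 := by rw [hq, hh_two]
  rw [hhp, hhq] at e
  omega

theorem BG.PrA {S : Finset V} {p u1 u2 q : V} (IH : ∀ T : Finset V, T.card < S.card → G.PP T)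
    (hI : G.Irr S) (hmin : ∀ w ∈ S, 2 ≤ G.deg S w) (h : G.Pr S p u1 u2 q)
    (hTh : G.C6V (S \ {u2, u1}) = ∅) (hp : 3 ≤ G.deg S p) (hq : G.deg S q = 2) :
    G.F S * QQ ^ G.phi S ≤ EE := by
  have hlam := h.kprc_lam IH hmin hq
  have hW := h.emptyW hI hp hq
  have hltW : (S \ {q, u2, p, u1}).card < S.card := by
    refine card_lt_card ⟨sdiff_subset, fun hs => ?_⟩
    exact (mem_sdiff.1 (hs h.h1)).2 (by simp)
  have hA := (IH _ hltW).A
  have hexp := h.kprc_expW hp hq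
  have t2 : G.F (S \ {q, u2, p, u1}) * QQ ^ G.phi S ≤ 1 * QQ ^ (3 * G.deg S p + 4) := by
    refine BG.use hA ?_
    rw [hW, card_empty]
    push_cast at hexp ⊢
    linarith
  have eT := h.phi_T
  rw [hq, dl_two] at eT
  rw [h.Q, hq]
  have hy := yy_pos
  have hQ := QQ_pos
  rcases Nat.lt_or_ge (G.deg S p) 4 with h4 | h4
  · have e3 : G.deg S p = 3 := by omega
    rw [e3, dl_three] at eT
    rw [e3] at t2 ⊢
    have t1 : G.F (S \ {u2, u1}) * QQ ^ G.phi S ≤ lam * QQ ^ 5 := by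
      refine BG.use hlam ?_
      rw [hTh, card_empty]
      push_cast
      linarith
    have k1 : yy ^ 2 * (G.F (S \ {u2, u1}) * QQ ^ G.phi S) ≤ yy ^ 2 * (lam * QQ ^ 5) :=
      mul_le_mul_of_nonneg_left t1 (by positivity)
    have k2 : yy ^ (3 + 2 - 1) * (G.F (S \ {q, u2, p, u1}) * QQ ^ G.phi S) ≤
        yy ^ 4 * (1 * QQ ^ (3 * 3 + 4)) :=
      mul_le_mul_of_nonneg_left t2 (by positivity)
    calc _ ≤ yy ^ 2 * (lam * QQ ^ 5) + yy ^ 4 * (1 * QQ ^ (3 * 3 + 4)) := add_le_add k1 k2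
      _ = lam * (yy ^ 2 * QQ ^ 5) + yy ^ 4 * QQ ^ 13 := by ring
      _ ≤ EE := num_pA3
  · obtain ⟨m, hm⟩ := Nat.exists_eq_add_of_le h4
    rw [dl_ge h4] at eT
    have t1 : G.F (S \ {u2, u1}) * QQ ^ G.phi S ≤ lam * QQ ^ 7 := by
      refine BG.use hlam ?_
      rw [hTh, card_empty]
      push_cast
      linarith
    have k1 : yy ^ 2 * (G.F (S \ {u2, u1}) * QQ ^ G.phi S) ≤ yy ^ 2 * (lam * QQ ^ 7) :=
      mul_le_mul_of_nonneg_left t1 (by positivity)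
    rw [hm] at t2 ⊢
    have e1 : 4 + m + 2 - 1 = 5 + m := by omega
    have e2 : 3 * (4 + m) + 4 = 16 + 3 * m := by ring
    rw [e1]
    rw [e2] at t2
    have k2 : yy ^ (5 + m) * (G.F (S \ {q, u2, p, u1}) * QQ ^ G.phi S) ≤
        yy ^ (5 + m) * (1 * QQ ^ (16 + 3 * m)) :=
      mul_le_mul_of_nonneg_left t2 (by positivity)
    have k3 := yQ_mono (n := 5) (a := 16) (k := 3) m (by norm_num)
    calc _ ≤ yy ^ 2 * (lam * QQ ^ 7) + yy ^ (5 + m) * (1 * QQ ^ (16 + 3 * m)) := add_le_add k1 k2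
      _ = lam * (yy ^ 2 * QQ ^ 7) + yy ^ (5 + m) * QQ ^ (16 + 3 * m) := by ring
      _ ≤ lam * (yy ^ 2 * QQ ^ 7) + yy ^ 5 * QQ ^ 16 := by linarith
      _ ≤ EE := num_pA4

end Pool.Agent.CFree
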