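import Pool.Agent.Lib_MP_6af485_kt.KPrB

/-!
# MP_6af485_co, `k = 3`: two adjacent vertices of degree two, outer neighbours of degree at least three

`Pr.Q`, `T = S \ {u2, u1}`, `W = S \ {q, u2, p, u1}`, `C6V T = ∅`, `d = deg p`, `d' = deg q`.
Exponent of the first term (`Pr.phi_T`): `4 + dl p + dl q`. Exponent of the second term (`Pr.phi_W`):
`4 + hh p + hh q + ∑ dl (p) + ∑ dl (q) + 2 |C6V W|`, the power of `yy` is `d + d' - 1`.

`PrB` (`d = 3`, both other neighbours `w1, w2` of `p` have degree at least three): first term: `N T p = {w1, w2}` (`deg_p`),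
`deg T wi = deg S wi` (`deg_T`: `wi ≠ q` as `p`, `q` are not adjacent; `wi ≠ u2`: colour): `PP.B`, exponent 2 (`d' = 3`) or 4
(`d' ≥ 4`). Second term: `PP.A`, `|C6V W| ≤ 12` (`card_W`), exponent at most `4 + 1 + (d' - 2) + 4 + 2 (d' - 1) + 24 = 3 d' + 29`
(`hh 3 = 1`), which is 38 for `d' = 3` and 41 for `d' = 4`: `num_pB3`, `num_pB4`, `yQ_mono`.
`PrE` (`d, d' ≥ 4`): first term `PP.A`, exponent 6; second term: `|C6V W| ≤ 6 (d - 1)` and `≤ 6 (d' - 1)` (`card_W` for `h`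
and `h.symm`), so `2 |C6V W| ≤ 6 (d + d' - 2)`; exponent at most
`4 + (d - 2) + (d' - 2) + 2 (d - 1) + 2 (d' - 1) + 6 (d + d' - 2) = 9 (d + d') - 16`,
`yy ^ (d + d' - 1) * QQ ^ (9 (d + d') - 16) ≤ yy ^ 7 * QQ ^ 56` (`yQ_mono`), `num_p44`.
-/

set_option autoImplicit false

namespace Pool.Agent.CFree

open Finset

variable {V : Type} [Fintype V] [DecidableEq V] {G : BG V}

/-- the exponent of the first term -/
theorem BG.Pr.kprd_T {S : Finset V} {p u1 u2 q : V} (h : G.Pr S p u1 u2 q)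
    (hTh : G.C6V (S \ {u2, u1}) = ∅) {B : ℝ} {k : ℕ} (hB : G.Gh (S \ {u2, u1}) ≤ B)
    (hk : 4 + dl (G.deg S p) + dl (G.deg S q) ≤ k) :
    yy ^ 2 * (G.F (S \ {u2, u1}) * QQ ^ G.phi S) ≤ B * (yy ^ 2 * QQ ^ k) := by
  have h1 := BG.use (S := S) (k := k) hB (by
    rw [hTh, card_empty, h.phi_T]
    push_cast
    linarith)
  calc yy ^ 2 * (G.F (S \ {u2, u1}) * QQ ^ G.phi S) ≤ yy ^ 2 * (B * QQ ^ k) :=
        mul_le_mul_of_nonneg_left h1 (pow_nonneg yy_pos.le _)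
    _ = B * (yy ^ 2 * QQ ^ k) := by ring

/-- the second term -/
theorem BG.Pr.kprd_W {S : Finset V} {p u1 u2 q : V} (h : G.Pr S p u1 u2 q) {B : ℝ} {k n : ℕ}
    (hB : G.Gh (S \ {q, u2, p, u1}) ≤ B) (hn : G.deg S p + G.deg S q - 1 = n)
    (hk : 4 + (hh (G.deg S p) : ℤ) + hh (G.deg S q) + ∑ w ∈ (G.N S p).erase u1, dl (G.deg S w) +
      ∑ w ∈ (G.N S q).erase u2, dl (G.deg S w) + 2 * ((G.C6V (S \ {q, u2, p, u1})).card : ℤ) ≤ k) :
    yy ^ (G.deg S p + G.deg S q - 1) * (G.F (S \ {q, u2, p, u1}) * QQ ^ G.phi S) ≤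
      B * (yy ^ n * QQ ^ k) := by
  have h1 := BG.use (S := S) (k := k) hB (by
    rw [h.phi_W]
    linarith)
  rw [hn]
  calc yy ^ n * (G.F (S \ {q, u2, p, u1}) * QQ ^ G.phi S) ≤ yy ^ n * (B * QQ ^ k) :=
        mul_le_mul_of_nonneg_left h1 (pow_nonneg yy_pos.le _)
    _ = B * (yy ^ n * QQ ^ k) := by ring

/-- the numbers of other neighbours -/
theorem BG.Pr.kprd_card {S : Finset V} {p u1 u2 q : V} (h : G.Pr S p u1 u2 q) :
    ((G.N S p).erase u1).card + 1 = G.deg S p ∧ ((G.N S q).erase u2).card + 1 = G.deg S q := by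
  obtain ⟨hp, hq, a12, ap1, a2q, hpq, npq, np1, nq2⟩ := h.mem
  exact ⟨card_erase_add_one (BG.mem_N.2 ⟨h.h1, ap1⟩), card_erase_add_one (BG.mem_N.2 ⟨h.h2, G.symm _ _ a2q⟩)⟩

theorem BG.PrB {S : Finset V} {p u1 u2 q : V} (IH : ∀ T : Finset V, T.card < S.card → G.PP T)
    (hI : G.Irr S) (h : G.Pr S p u1 u2 q) (hTh : G.C6V (S \ {u2, u1}) = ∅) (hp : G.deg S p = 3)
    (hq : 3 ≤ G.deg S q) (hcl : ∀ w ∈ (G.N S p).erase u1, 3 ≤ G.deg S w) :
    G.F S * QQ ^ G.phi S ≤ EE := by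
  obtain ⟨hpS, hqS, a12, ap1, a2q, hpq, npq, np1, nq2⟩ := h.mem
  obtain ⟨cq, cp, c12⟩ := h.cols
  obtain ⟨k1, k2⟩ := h.kprd_card
  obtain ⟨hpT, hNp, hdp⟩ := h.deg_p
  obtain ⟨w1, w2, hw12, he⟩ := card_eq_two.1 (show ((G.N S p).erase u1).card = 2 by omega)
  have mw : ∀ w ∈ (G.N S p).erase u1, G.deg (S \ {u2, u1}) w = G.deg S w := by
    intro w hw
    obtain ⟨hw1, hwN⟩ := mem_erase.1 hw
    obtain ⟨hwS, hpw⟩ := BG.mem_N.1 hwN
    have cw : G.col w = G.col u1 := BG.col_common hpw ap1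
    refine (h.deg_T hwS (BG.ne_of_adj hpw).symm ?_ hw1 ?_).2.2
    · rintro rfl
      exact hpq hpw
    · rintro rfl
      exact c12 cw.symm
  have m1 : w1 ∈ (G.N S p).erase u1 := by rw [he]; simp
  have m2 : w2 ∈ (G.N S p).erase u1 := by rw [he]; simp
  have hB : G.Gh (S \ {u2, u1}) ≤ bet := by
    refine (IH _ (card_sdiff_lt h.h1 (by simp))).B p w1 w2 hpT hw12 (by rw [hNp, he]) ?_ ?_
    · rw [mw w1 m1]
      exact hcl w1 m1
    · rw [mw w2 m2]
      exact hcl w2 m2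
  have hA := (IH (S \ {q, u2, p, u1}) (card_sdiff_lt h.h1 (by simp))).A
  have hC := h.card_W hI
  have s1 := sum_dl_le_two (G := G) (S := S) (s := (G.N S p).erase u1)
  have s2 := sum_dl_le_two (G := G) (S := S) (s := (G.N S q).erase u2)
  rw [h.Q]
  rcases Nat.lt_or_ge (G.deg S q) 4 with hq4 | hq4
  · have hq3 : G.deg S q = 3 := by omega
    have t1 := h.kprd_T (k := 2) hTh hB (by rw [hp, hq3, dl_three]; norm_num)
    have t2 := h.kprd_W (k := 38) (n := 5) hA (by omega) (by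
      rw [hp, hq3, hh_three]
      push_cast
      omega)
    rw [one_mul] at t2
    linarith [num_pB3]
  · obtain ⟨m, hm⟩ : ∃ m, G.deg S q = 4 + m := ⟨G.deg S q - 4, by omega⟩
    have t1 := h.kprd_T (k := 4) hTh hB (by rw [hp, dl_ge hq4, dl_three]; norm_num)
    have t2 := h.kprd_W (k := 41 + 3 * m) (n := 6 + m) hA (by omega) (by
      rw [hp, hh_ge hq, hh_three]
      push_cast
      omega)
    rw [one_mul] at t2
    have t3 := yQ_mono (n := 6) (a := 41) (k := 3) m (by norm_num)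
    linarith [num_pB4]

theorem BG.PrE {S : Finset V} {p u1 u2 q : V} (IH : ∀ T : Finset V, T.card < S.card → G.PP T)
    (hI : G.Irr S) (h : G.Pr S p u1 u2 q) (hTh : G.C6V (S \ {u2, u1}) = ∅) (hp : 4 ≤ G.deg S p)
    (hq : 4 ≤ G.deg S q) : G.F S * QQ ^ G.phi S ≤ EE := by
  obtain ⟨k1, k2⟩ := h.kprd_card
  have hA1 := (IH (S \ {u2, u1}) (card_sdiff_lt h.h1 (by simp))).A
  have hA := (IH (S \ {q, u2, p, u1}) (card_sdiff_lt h.h1 (by simp))).A
  have hC := h.card_W hI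
  have hset : S \ {p, u1, q, u2} = S \ {q, u2, p, u1} := by
    ext x
    simp only [mem_sdiff, mem_insert, mem_singleton]
    tauto
  have hC' := h.symm.card_W hI
  rw [hset] at hC'
  have s1 := sum_dl_le_two (G := G) (S := S) (s := (G.N S p).erase u1)
  have s2 := sum_dl_le_two (G := G) (S := S) (s := (G.N S q).erase u2)
  obtain ⟨m, hm⟩ : ∃ m, G.deg S p + G.deg S q = 8 + m := ⟨G.deg S p + G.deg S q - 8, by omega⟩
  rw [h.Q]
  have t1 := h.kprd_T (k := 6) hTh hA1 (by rw [dl_ge hp, dl_ge hq]; norm_num)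
  have t2 := h.kprd_W (k := 56 + 9 * m) (n := 7 + m) hA (by omega) (by
    rw [hh_ge (by omega : 3 ≤ G.deg S p), hh_ge (by omega : 3 ≤ G.deg S q)]
    push_cast
    omega)
  rw [one_mul] at t1 t2
  have t3 := yQ_mono (n := 7) (a := 56) (k := 9) m (by norm_num)
  linarith [num_p44]

end Pool.Agent.CFree
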