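import Pool.Agent.Lib_MP_6af485_kt.KBase

/-!
# MP_6af485_co, `k = 3`: the sum of weights after removing vertices

`phi_erase`: the degree of `w ≠ r` drops by one exactly for the neighbours of `r`
(`BG.deg_erase_of_adj`, `BG.deg_erase_of_not`), and `hh d = hh (d - 1) + dl d`; `r ∉ N S r` (`BG.irr`).

`phi_pair`: `phi_erase` for `v` in `S` and for `u` in `S.erase v` (`S \ {u, v} = (S.erase v).erase u`);
`deg (S.erase v) u = deg S u - 1`, `hh (d - 1) + dl d = hh d`; the neighbours of `u` in `S.erase v` are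
`(N S u).erase v`, they are not adjacent to `v` (`BG.nadj_common`), so their degrees are the degrees in `S`.

`phi_four`: `r1 r2 r3 r4` is a path, so apply `phi_pair` to `(r1, r2)` in `S` and to `(r3, r4)` in `S \ {r2, r1}`.
Degrees in `S \ {r2, r1}`: `r3` loses `r2` (not adjacent to `r1`: same colour as `r1`), `r4` loses nothing (not adjacent
to `r2`: same colour; not adjacent to `r1`: otherwise `r1, r3` have the common neighbours `r2, r4`, `G.c4`, `r2 ≠ r4`).
The other neighbours `w` of `r3` (`w ≠ r2, r4`) have the same colour as `r2`; they are not adjacent to `r1` (otherwise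
`r1, r3` have the common neighbours `r2, w`), so nothing changes for them. The other neighbours `w` of `r4` are not
adjacent to `r2` (otherwise `r2, r4` have the common neighbours `r3, w`), nor to `r1` (colour).
In `phi_pair` for `(r3, r4)`: `hh (deg S r3 - 1)`; the missing `dl (deg S r3)` comes from the sum over
`(N S r2).erase r1 = insert r3 (((N S r2).erase r1).erase r3)` of the first step.
-/

set_option autoImplicit false

namespace Pool.Agent.CFree

open Finset

variable {V : Type} [Fintype V] [DecidableEq V] {G : BG V}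

theorem BG.phi_erase {S : Finset V} {r : V} (hr : r ∈ S) :
    (G.phi S : ℤ) = (G.phi (S.erase r) : ℤ) + hh (G.deg S r) + ∑ w ∈ G.N S r, dl (G.deg S w) := by
  unfold BG.phi
  rw [← add_sum_erase S _ hr]
  push_cast
  have h1 : ∀ w ∈ S.erase r, (hh (G.deg S w) : ℤ) = (hh (G.deg (S.erase r) w) : ℤ) +
      if G.adj r w then dl (G.deg S w) else 0 := by
    intro w _
    by_cases h : G.adj r w
    · rw [if_pos h]
      have h3 := BG.deg_erase_of_adj (G := G) (G.symm _ _ h) hr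
      have e : G.deg (S.erase r) w = G.deg S w - 1 := by omega
      unfold dl
      rw [e]
      ring
    · rw [if_neg h, BG.deg_erase_of_not (fun h' => h (G.symm _ _ h')), add_zero]
  have h2 : ((S.erase r).filter fun w => G.adj r w) = G.N S r := by
    ext x
    simp only [mem_filter, mem_erase, BG.mem_N]
    constructor
    · rintro ⟨⟨_, h⟩, h'⟩; exact ⟨h, h'⟩
    · rintro ⟨h, h'⟩
      exact ⟨⟨fun e => BG.irr r (e ▸ h'), h⟩, h'⟩
  rw [sum_congr rfl h1, sum_add_distrib, ← sum_filter, h2]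
  ring

theorem BG.phi_pair {S : Finset V} {v u : V} (hv : v ∈ S) (hu : u ∈ G.N S v) :
    (G.phi S : ℤ) = (G.phi (S \ {u, v}) : ℤ) + hh (G.deg S v) + hh (G.deg S u) +
      ∑ w ∈ (G.N S v).erase u, dl (G.deg S w) + ∑ w ∈ (G.N S u).erase v, dl (G.deg S w) := by
  obtain ⟨huS, hadj⟩ := BG.mem_N.1 hu
  have huv : u ≠ v := (BG.ne_of_adj hadj).symm
  have e1 := BG.phi_erase (G := G) hv
  have e2 := BG.phi_erase (G := G) (S := S.erase v) (r := u) (mem_erase.2 ⟨huv, huS⟩)
  have e3 : S \ {u, v} = (S.erase v).erase u := by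
    ext x
    simp only [mem_sdiff, mem_insert, mem_singleton, mem_erase]
    tauto
  have e4 : ∑ w ∈ G.N (S.erase v) u, dl (G.deg (S.erase v) w) = ∑ w ∈ (G.N S u).erase v, dl (G.deg S w) := by
    rw [BG.N_erase]
    refine sum_congr rfl fun w hw => ?_
    have hw' := (BG.mem_N.1 (mem_erase.1 hw).2).2
    rw [BG.deg_erase_of_not (BG.nadj_common hw' (G.symm _ _ hadj))]
  have e5 := add_sum_erase (G.N S v) (fun w => dl (G.deg S w)) hu
  have e6 := BG.deg_erase_of_adj (G := G) (G.symm _ _ hadj) hv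
  have e7 : (hh (G.deg (S.erase v) u) : ℤ) + dl (G.deg S u) = hh (G.deg S u) := by
    have e : G.deg (S.erase v) u = G.deg S u - 1 := by omega
    unfold dl
    rw [e]
    ring
  rw [e3, e1, e2, e4, ← e5, ← e7]
  ring

theorem BG.phi_four {S R : Finset V} {r1 r2 r3 r4 : V}
    (hR : ∀ x, x ∈ R ↔ x = r1 ∨ x = r2 ∨ x = r3 ∨ x = r4) (h1 : r1 ∈ S) (h12 : r2 ∈ G.N S r1)
    (h23 : r3 ∈ G.N S r2) (h34 : r4 ∈ G.N S r3) (h13 : r1 ≠ r3) (h24 : r2 ≠ r4) :
    (G.phi S : ℤ) = (G.phi (S \ R) : ℤ) +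
      (hh (G.deg S r1) + hh (G.deg S r2) + hh (G.deg S r3) + hh (G.deg S r4)) +
      (∑ w ∈ (G.N S r1).erase r2, dl (G.deg S w) + ∑ w ∈ ((G.N S r2).erase r1).erase r3, dl (G.deg S w) +
        ∑ w ∈ ((G.N S r3).erase r2).erase r4, dl (G.deg S w) + ∑ w ∈ (G.N S r4).erase r3, dl (G.deg S w)) := by
  obtain ⟨s2, a12⟩ := BG.mem_N.1 h12
  obtain ⟨s3, a23⟩ := BG.mem_N.1 h23
  obtain ⟨s4, a34⟩ := BG.mem_N.1 h34
  have n12 : r1 ≠ r2 := BG.ne_of_adj a12
  have n23 : r2 ≠ r3 := BG.ne_of_adj a23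
  have n34 : r3 ≠ r4 := BG.ne_of_adj a34
  have c13 : G.col r1 = G.col r3 := BG.col_path a12 a23
  have c24 : G.col r2 = G.col r4 := BG.col_path a23 a34
  have x13 : ¬ G.adj r1 r3 := BG.nadj_col c13
  have x24 : ¬ G.adj r2 r4 := BG.nadj_col c24
  have x14 : ¬ G.adj r1 r4 := fun h => h24 (G.c4 r1 r3 r2 r4 h13 a12 (G.symm _ _ a23) h a34)
  have n14 : r1 ≠ r4 := by
    rintro rfl
    exact x24 (G.symm _ _ a12)
  have hd : ∀ w, ¬ G.adj w r1 → ¬ G.adj w r2 → G.deg (S \ {r2, r1}) w = G.deg S w := by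
    intro w h1 h2
    refine BG.deg_sdiff_eq fun r hr => ?_
    rw [mem_insert, mem_singleton] at hr
    rcases hr with rfl | rfl
    · exact h2
    · exact h1
  have hT3 : r3 ∈ S \ {r2, r1} := by
    rw [mem_sdiff, mem_insert, mem_singleton]
    exact ⟨s3, by rintro (h | h); exacts [n23 h.symm, h13 h.symm]⟩
  have hT4 : r4 ∈ S \ {r2, r1} := by
    rw [mem_sdiff, mem_insert, mem_singleton]
    exact ⟨s4, by rintro (h | h); exacts [h24 h.symm, n14 h.symm]⟩
  have e1 := BG.phi_pair (G := G) h1 h12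
  have e2 := BG.phi_pair (G := G) (S := S \ {r2, r1}) hT3 (BG.mem_N.2 ⟨hT4, a34⟩)
  have e3 : (S \ {r2, r1}) \ {r4, r3} = S \ R := by
    ext x
    simp only [mem_sdiff, mem_insert, mem_singleton, hR]
    tauto
  have e4 : G.deg (S \ {r2, r1}) r3 + 1 = G.deg S r3 := by
    have q1 : G.deg ((S.erase r2).erase r1) r3 = G.deg (S.erase r2) r3 :=
      BG.deg_erase_of_not fun h => x13 (G.symm _ _ h)
    have q2 := BG.deg_erase_of_adj (G := G) (G.symm _ _ a23) s2
    have q3 : S \ {r2, r1} = (S.erase r2).erase r1 := by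
      ext x
      simp only [mem_sdiff, mem_insert, mem_singleton, mem_erase]
      tauto
    rw [q3, q1, q2]
  have e5 : G.deg (S \ {r2, r1}) r4 = G.deg S r4 :=
    hd r4 (fun h => x14 (G.symm _ _ h)) (fun h => x24 (G.symm _ _ h))
  have e6 : (G.N (S \ {r2, r1}) r3).erase r4 = ((G.N S r3).erase r2).erase r4 := by
    rw [BG.N_sdiff]
    ext x
    simp only [mem_sdiff, mem_insert, mem_singleton, mem_erase, BG.mem_N]
    constructor
    · rintro ⟨q1, ⟨q2, q3⟩, q4⟩
      exact ⟨q1, fun h => q4 (Or.inl h), q2, q3⟩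
    · rintro ⟨q1, q2, q3, q4⟩
      refine ⟨q1, ⟨q3, q4⟩, ?_⟩
      rintro (h | h)
      · exact q2 h
      · rw [h] at q4
        exact x13 (G.symm _ _ q4)
  have e7 : (G.N (S \ {r2, r1}) r4).erase r3 = (G.N S r4).erase r3 := by
    rw [BG.N_sdiff]
    ext x
    simp only [mem_sdiff, mem_insert, mem_singleton, mem_erase, BG.mem_N]
    constructor
    · rintro ⟨q1, ⟨q2, q3⟩, q4⟩
      exact ⟨q1, q2, q3⟩
    · rintro ⟨q1, q2, q3⟩
      refine ⟨q1, ⟨q2, q3⟩, ?_⟩
      rintro (h | h)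
      · rw [h] at q3
        exact x24 (G.symm _ _ q3)
      · rw [h] at q3
        exact x14 (G.symm _ _ q3)
  have e8 : ∑ w ∈ ((G.N S r3).erase r2).erase r4, dl (G.deg (S \ {r2, r1}) w) =
      ∑ w ∈ ((G.N S r3).erase r2).erase r4, dl (G.deg S w) := by
    refine sum_congr rfl fun w hw => ?_
    obtain ⟨w4, hw1⟩ := mem_erase.1 hw
    obtain ⟨w2, hw2⟩ := mem_erase.1 hw1
    obtain ⟨wS, wa⟩ := BG.mem_N.1 hw2
    rw [hd w]
    · intro h
      exact w2 (G.c4 r1 r3 w r2 h13 (G.symm _ _ h) wa a12 (G.symm _ _ a23))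
    · exact BG.nadj_common wa (G.symm _ _ a23)
  have e9 : ∑ w ∈ (G.N S r4).erase r3, dl (G.deg (S \ {r2, r1}) w) =
      ∑ w ∈ (G.N S r4).erase r3, dl (G.deg S w) := by
    refine sum_congr rfl fun w hw => ?_
    obtain ⟨w3, hw1⟩ := mem_erase.1 hw
    obtain ⟨wS, wa⟩ := BG.mem_N.1 hw1
    rw [hd w]
    · refine BG.nadj_col ?_
      exact (BG.col_path (G.symm _ _ wa) (G.symm _ _ a34)).trans c13.symm
    · intro h
      exact w3 (G.c4 r2 r4 w r3 h24 (G.symm _ _ h) wa a23 (G.symm _ _ a34))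
  have e10 : (hh (G.deg (S \ {r2, r1}) r3) : ℤ) + dl (G.deg S r3) = hh (G.deg S r3) := by
    have e : G.deg (S \ {r2, r1}) r3 = G.deg S r3 - 1 := by omega
    unfold dl
    rw [e]
    ring
  have e11 := add_sum_erase ((G.N S r2).erase r1) (fun w => dl (G.deg S w)) (mem_erase.2 ⟨h13.symm, h23⟩)
  rw [e3, e5, e6, e7, e8, e9] at e2
  rw [e1, e2, ← e10, ← e11]
  ring

end Pool.Agent.CFree
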