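import Pool.Agent.Lib_MP_6af485_kt.KSix
import Pool.Agent.Lib_MP_6af485_kt.KPhi
import Pool.Agent.Lib_MP_6af485_co.StepD

/-!
# MP_6af485_co, `k = 3`: theta components

`IsTh S u1 u2 K`, `W = insert u1 (insert u2 K)`, `|W| = 8`. `N S u1 = {u2, p}`, `N S u2 = {u1, q}` with `p, q ∈ K`;
`p` and `q` have different colours, and they are not adjacent (`G.c4` for `u1, q` with the common neighbours `u2, p`).
The vertices of `K` have degree two in `S \ {u1, u2}`, so `p` and `q` have degree three in `S` and the others degree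
two.

`closed`: the vertices of `K` have their neighbours in `K ∪ {u1, u2}`.
`bal`: `K` is balanced (`IsC6.bal`), `u1, u2 ∉ K` have different colours.
`outside`: like `IsC6.outside`, if `k1 ≠ k2` in `W` have the same colour then they have a common neighbour in `W`: for
`k1, k2 ∈ K` this is `IsC6.share`. For `k1 = u1` and `k2 ∈ K` of the colour of `u1` (which is the colour of `q`): if
`k2 = q` then `u2` is a common neighbour; otherwise `p` is adjacent to `k2`, because `p` has two neighbours among the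
three vertices of `K` of the colour of `q` (`IsC6.three`) and is not adjacent to `q`. The same for `u2`; `u1` and `u2`
have different colours.
`val`: if `S = W` then `phi S = 2 + 2 + 1 + 1 + 4 * 2 = 14`, `F S ≤ 3 * yy ^ 5` by `(BG.main G S.card S rfl).2.2`
(`StepD`), and `3 * yy ^ 5 * QQ ^ 14 = 1` (`QQ_pow14`).
-/

set_option autoImplicit false

namespace Pool.Agent.CFree

open Finset

variable {V : Type} [Fintype V] [DecidableEq V] {G : BG V}

private theorem kth_symm {S K : Finset V} {u1 u2 : V} (h : G.IsTh S u1 u2 K) : G.IsTh S u2 u1 K := by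
  obtain ⟨h1, h2, h3, h4, h5, h6, h7, h8⟩ := h
  refine ⟨h2, h1, G.symm _ _ h3, h5, h4, ?_, h8, h7⟩
  rw [pair_comm]
  exact h6

private theorem kth_notMem {S K : Finset V} {u1 u2 : V} (h : G.IsTh S u1 u2 K) : u1 ∉ K ∧ u2 ∉ K := by
  obtain ⟨-, -, -, -, -, h6, -, -⟩ := h
  constructor
  · intro hm
    have := h6.1 hm
    simp at this
  · intro hm
    have := h6.1 hm
    simp at this

private theorem kth_nbr {S K : Finset V} {u1 u2 : V} (h : G.IsTh S u1 u2 K) :
    ∃ p ∈ K, G.N S u1 = {u2, p} := by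
  obtain ⟨h1, h2, h3, h4, h5, h6, h7, h8⟩ := h
  obtain ⟨z, hz, hN⟩ := BG.nbr2 h4 (BG.mem_N.2 ⟨h2, h3⟩)
  refine ⟨z, ?_, hN⟩
  have : z ∈ insert u2 K := h7 (by rw [hN]; simp)
  rcases mem_insert.1 this with e | e
  · exact absurd e hz
  · exact e

theorem BG.IsTh.closed {S K : Finset V} {u1 u2 : V} (h : G.IsTh S u1 u2 K) :
    ∀ w ∈ insert u1 (insert u2 K), G.N S w ⊆ insert u1 (insert u2 K) := by
  obtain ⟨h1, h2, h3, h4, h5, h6, h7, h8⟩ := h
  intro w hw x hx
  rcases mem_insert.1 hw with rfl | hw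
  · exact mem_insert_of_mem (h7 hx)
  · rcases mem_insert.1 hw with rfl | hw
    · rcases mem_insert.1 (h8 hx) with rfl | hx'
      · exact mem_insert_self _ _
      · exact mem_insert_of_mem (mem_insert_of_mem hx')
    · by_cases e1 : x = u1
      · rw [e1]; exact mem_insert_self _ _
      · by_cases e2 : x = u2
        · rw [e2]; exact mem_insert_of_mem (mem_insert_self _ _)
        · refine mem_insert_of_mem (mem_insert_of_mem ((h6.2.2 w hw).2 ?_))
          rw [BG.N_sdiff, mem_sdiff]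
          refine ⟨hx, ?_⟩
          simp [e1, e2]

theorem BG.IsTh.bal {S K : Finset V} {u1 u2 : V} (h : G.IsTh S u1 u2 K) :
    G.bal (insert u1 (insert u2 K)) := by
  obtain ⟨n1, n2⟩ := kth_notMem h
  obtain ⟨h1, h2, h3, h4, h5, h6, h7, h8⟩ := h
  have hne : u1 ≠ u2 := BG.ne_of_adj h3
  have hcol := G.bip _ _ h3
  have m1 : u1 ∉ insert u2 K := by
    rw [mem_insert]; push Not; exact ⟨hne, n1⟩
  have key : ∀ c : Bool, ((insert u1 (insert u2 K)).filter fun x => G.col x = c).card = 4 := by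
    intro c
    have hK := h6.three c
    rw [filter_insert, filter_insert]
    by_cases c1 : G.col u1 = c
    · have c2 : ¬ G.col u2 = c := fun e => hcol (c1.trans e.symm)
      rw [if_pos c1, if_neg c2, card_insert_of_notMem (fun hm => n1 (mem_filter.1 hm).1), hK]
    · have c2 : G.col u2 = c := by
        revert c1 hcol
        cases G.col u1 <;> cases G.col u2 <;> cases c <;> simp
      rw [if_neg c1, if_pos c2, card_insert_of_notMem (fun hm => n2 (mem_filter.1 hm).1), hK]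
  unfold BG.bal
  rw [key, key]

private theorem kth_nadj {S K : Finset V} {u1 u2 p q : V} (h : G.IsTh S u1 u2 K) (hp : p ∈ K) (hq : q ∈ K)
    (hN1 : G.N S u1 = {u2, p}) (hN2 : G.N S u2 = {u1, q}) : ¬ G.adj p q := by
  intro hpq
  obtain ⟨n1, n2⟩ := kth_notMem h
  have a1 : G.adj u1 p := (BG.mem_N.1 (show p ∈ G.N S u1 by rw [hN1]; simp)).2
  have a2 : G.adj u2 q := (BG.mem_N.1 (show q ∈ G.N S u2 by rw [hN2]; simp)).2
  have e := G.c4 u1 q u2 p (fun e => n1 (e ▸ hq)) h.2.2.1 (G.symm _ _ a2) a1 (G.symm _ _ hpq)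
  exact n2 (e ▸ hp)

private theorem kth_common {S K : Finset V} {u1 u2 k : V} (h : G.IsTh S u1 u2 K) (hk : k ∈ K)
    (hc : G.col u1 = G.col k) : ∃ c ∈ insert u2 K, G.adj u1 c ∧ G.adj k c := by
  obtain ⟨p, hp, hN1⟩ := kth_nbr h
  obtain ⟨q, hq, hN2⟩ := kth_nbr (kth_symm h)
  have hnpq := kth_nadj h hp hq hN1 hN2
  have a1 : G.adj u1 p := (BG.mem_N.1 (show p ∈ G.N S u1 by rw [hN1]; simp)).2
  have a2 : G.adj u2 q := (BG.mem_N.1 (show q ∈ G.N S u2 by rw [hN2]; simp)).2
  have h12 := h.2.2.1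
  by_cases e : k = q
  · exact ⟨u2, mem_insert_self _ _, h12, by rw [e]; exact G.symm _ _ a2⟩
  · refine ⟨p, mem_insert_of_mem hp, a1, ?_⟩
    have h6 := h.2.2.2.2.2.1
    have hcq : G.col u1 = G.col q := BG.col_common (G.symm _ _ h12) a2
    obtain ⟨hd, hsub⟩ := h6.2.2 p hp
    -- the neighbours of `p` in `K` are the vertices of the colour of `u1` except `q`
    have hsub2 : G.N (S \ {u1, u2}) p ⊆ (K.filter fun x => G.col x = G.col u1).erase q := by
      intro x hx
      have hxp : G.adj p x := (BG.mem_N.1 hx).2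
      refine mem_erase.2 ⟨fun ex => hnpq (ex ▸ hxp), mem_filter.2 ⟨hsub hx, ?_⟩⟩
      exact BG.col_common hxp (G.symm _ _ a1)
    have hqm : q ∈ K.filter fun x => G.col x = G.col u1 := mem_filter.2 ⟨hq, hcq.symm⟩
    have hcard : ((K.filter fun x => G.col x = G.col u1).erase q).card = 2 := by
      rw [card_erase_of_mem hqm, h6.three]
    have heq := eq_of_subset_of_card_le hsub2 (by rw [hcard]; exact hd.ge)
    have hkm : k ∈ G.N (S \ {u1, u2}) p := by
      rw [heq]
      exact mem_erase.2 ⟨e, mem_filter.2 ⟨hk, hc.symm⟩⟩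
    exact G.symm _ _ (BG.mem_N.1 hkm).2

theorem BG.IsTh.outside {S K : Finset V} {u1 u2 : V} (h : G.IsTh S u1 u2 K) {k1 k2 r : V}
    (h1 : k1 ∈ insert u1 (insert u2 K)) (h2 : k2 ∈ insert u1 (insert u2 K)) (hne : k1 ≠ k2)
    (hr : r ∉ insert u1 (insert u2 K)) : ¬ (G.adj k1 r ∧ G.adj k2 r) := by
  rintro ⟨r1, r2⟩
  have hcol : G.col k1 = G.col k2 := BG.col_common (G.symm _ _ r1) (G.symm _ _ r2)
  have hcom : ∃ c ∈ insert u1 (insert u2 K), G.adj k1 c ∧ G.adj k2 c := by
    rw [mem_insert, mem_insert] at h1 h2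
    rcases h1 with e1 | e1 | m1
    · rcases h2 with e2 | e2 | m2
      · exact absurd (e1.trans e2.symm) hne
      · exact absurd (by rw [← e1, ← e2]; exact hcol) (G.bip _ _ h.2.2.1)
      · rw [e1] at hcol
        obtain ⟨c, hc, hc1, hc2⟩ := kth_common h m2 hcol
        exact ⟨c, mem_insert_of_mem hc, by rw [e1]; exact hc1, hc2⟩
    · rcases h2 with e2 | e2 | m2
      · exact absurd (by rw [← e1, ← e2]; exact hcol.symm) (G.bip _ _ h.2.2.1)
      · exact absurd (e1.trans e2.symm) hne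
      · rw [e1] at hcol
        obtain ⟨c, hc, hc1, hc2⟩ := kth_common (kth_symm h) m2 hcol
        refine ⟨c, ?_, by rw [e1]; exact hc1, hc2⟩
        rw [insert_comm]
        exact mem_insert_of_mem hc
    · rcases h2 with e2 | e2 | m2
      · rw [e2] at hcol
        obtain ⟨c, hc, hc1, hc2⟩ := kth_common h m1 hcol.symm
        exact ⟨c, mem_insert_of_mem hc, hc2, by rw [e2]; exact hc1⟩
      · rw [e2] at hcol
        obtain ⟨c, hc, hc1, hc2⟩ := kth_common (kth_symm h) m1 hcol.symm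
        refine ⟨c, ?_, hc2, by rw [e2]; exact hc1⟩
        rw [insert_comm]
        exact mem_insert_of_mem hc
      · obtain ⟨c, hc, hc1, hc2⟩ := h.2.2.2.2.2.1.share m1 m2 hne hcol
        exact ⟨c, mem_insert_of_mem (mem_insert_of_mem hc), hc1, hc2⟩
  obtain ⟨c, hc, hc1, hc2⟩ := hcom
  have e := G.c4 k1 k2 c r hne hc1 hc2 r1 r2
  exact hr (e ▸ hc)

private theorem kth_deg_three {S K : Finset V} {u1 u2 p : V} (h : G.IsTh S u1 u2 K) (hp : p ∈ K)
    (hN1 : G.N S u1 = {u2, p}) : G.deg S p = 3 := by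
  obtain ⟨h1, h2, h3, h4, h5, h6, h7, h8⟩ := h
  have a1 : G.adj u1 p := (BG.mem_N.1 (show p ∈ G.N S u1 by rw [hN1]; simp)).2
  have hd := (h6.2.2 p hp).1
  have hn : ¬ G.adj p u2 := BG.nadj_common a1 h3
  have e : G.N S p = insert u1 (G.N (S \ {u1, u2}) p) := by
    ext x
    rw [BG.N_sdiff, mem_insert, mem_sdiff, mem_insert, mem_singleton]
    constructor
    · intro hx
      by_cases e1 : x = u1
      · exact Or.inl e1
      · refine Or.inr ⟨hx, ?_⟩
        rintro (e | e)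
        · exact e1 e
        · exact hn (e ▸ (BG.mem_N.1 hx).2)
    · rintro (e | e)
      · rw [e]; exact BG.mem_N.2 ⟨h1, G.symm _ _ a1⟩
      · exact e.1
  unfold BG.deg at hd ⊢
  rw [e, card_insert_of_notMem, hd]
  intro hm
  rw [BG.N_sdiff, mem_sdiff] at hm
  exact hm.2 (by simp)

private theorem kth_deg_two {S K : Finset V} {u1 u2 p q w : V} (h : G.IsTh S u1 u2 K) (hw : w ∈ K)
    (hN1 : G.N S u1 = {u2, p}) (hN2 : G.N S u2 = {u1, q}) (hwp : w ≠ p) (hwq : w ≠ q) :
    G.deg S w = 2 := by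
  obtain ⟨n1, n2⟩ := kth_notMem h
  obtain ⟨h1, h2, h3, h4, h5, h6, h7, h8⟩ := h
  have hd := (h6.2.2 w hw).1
  have hwS : w ∈ S := (mem_sdiff.1 (h6.1 hw)).1
  rw [← hd]
  symm
  apply BG.deg_sdiff_eq
  intro r hr ha
  rw [mem_insert, mem_singleton] at hr
  rcases hr with e | e
  · have : w ∈ G.N S u1 := BG.mem_N.2 ⟨hwS, G.symm _ _ (e ▸ ha)⟩
    rw [hN1, mem_insert, mem_singleton] at this
    rcases this with e' | e'
    · exact n2 (e' ▸ hw)
    · exact hwp e'
  · have : w ∈ G.N S u2 := BG.mem_N.2 ⟨hwS, G.symm _ _ (e ▸ ha)⟩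
    rw [hN2, mem_insert, mem_singleton] at this
    rcases this with e' | e'
    · exact n1 (e' ▸ hw)
    · exact hwq e'

theorem BG.IsTh.val {S K : Finset V} {u1 u2 : V} (h : G.IsTh S u1 u2 K)
    (hS : S = insert u1 (insert u2 K)) : G.F S * QQ ^ G.phi S ≤ 1 := by
  obtain ⟨n1, n2⟩ := kth_notMem h
  obtain ⟨p, hp, hN1⟩ := kth_nbr h
  obtain ⟨q, hq, hN2⟩ := kth_nbr (kth_symm h)
  have d1 : G.deg S u1 = 2 := h.2.2.2.1
  have d2 : G.deg S u2 = 2 := h.2.2.2.2.1
  have dp : G.deg S p = 3 := kth_deg_three h hp hN1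
  have dq : G.deg S q = 3 := kth_deg_three (kth_symm h) hq hN2
  have h12 := h.2.2.1
  have hne : u1 ≠ u2 := BG.ne_of_adj h12
  have m1 : u1 ∉ insert u2 K := by
    rw [mem_insert]; push Not; exact ⟨hne, n1⟩
  have a1 : G.adj u1 p := (BG.mem_N.1 (show p ∈ G.N S u1 by rw [hN1]; simp)).2
  have a2 : G.adj u2 q := (BG.mem_N.1 (show q ∈ G.N S u2 by rw [hN2]; simp)).2
  have hpq : p ≠ q := by
    intro e
    rw [← e] at a2
    exact BG.nadj_common (G.symm _ _ a1) (G.symm _ _ a2) h12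
  have hqe : q ∈ K.erase p := mem_erase.2 ⟨hpq.symm, hq⟩
  have hphi : G.phi S = 14 := by
    have hsum : G.phi S = ∑ v ∈ insert u1 (insert u2 K), hh (G.deg S v) := by
      unfold BG.phi
      exact sum_congr hS fun _ _ => rfl
    rw [hsum, sum_insert m1, sum_insert n2, ← add_sum_erase K _ hp, ← add_sum_erase (K.erase p) _ hqe]
    have hrest : ∑ v ∈ (K.erase p).erase q, hh (G.deg S v) = 4 * 2 := by
      rw [sum_congr rfl (g := fun _ => 2), sum_const, card_erase_of_mem hqe, card_erase_of_mem hp,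
        h.2.2.2.2.2.1.2.1]
      · rfl
      · intro w hw
        rw [mem_erase, mem_erase] at hw
        rw [kth_deg_two h hw.2.2 hN1 hN2 hw.2.1 hw.1]
        rfl
    rw [hrest, d1, d2, dp, dq]
    rfl
  have hF : G.F S ≤ 3 * yy ^ 5 := by
    refine (BG.main G S.card S rfl).2.2 ⟨p, ?_, dp.ge⟩
    exact (mem_sdiff.1 (h.2.2.2.2.2.1.1 hp)).1
  have h14 := QQ_pow14
  have hQ : 0 ≤ QQ ^ 14 := pow_nonneg QQ_pos.le _
  rw [hphi]
  calc G.F S * QQ ^ 14 ≤ 3 * yy ^ 5 * QQ ^ 14 := mul_le_mul_of_nonneg_right hF hQ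
    _ = 1 := by rw [mul_comm]; exact h14

end Pool.Agent.CFree
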