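import Pool.Agent.Lib_MP_6af485_kt.KPrA
import Pool.Agent.Lib_MP_6af485_kt.KIrr
import Pool.Agent.Lib_MP_6af485_kt.KTh

/-!
# MP_6af485_co, `k = 3`: two adjacent vertices of degree two, components

`S` irreducible, `T = S \ {u2, u1}`, `W = S \ {q, u2, p, u1}`.

`th`: a 6-cycle component `K` of `T`: by `Irr.attach` two vertices of `K` are adjacent to `u1` or `u2`, so `p, q ∈ K`
(`outer_T`). If `S \ (K ∪ {u1, u2})` were nonempty then two of its vertices would be adjacent to `u1` or `u2`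
(`Irr.rest`, `bal_two`), but they are not `p` or `q`. So `S = K ∪ {u1, u2}`; `N S u1 = {u2, p}`, `N S u2 = {u1, q}`:
`IsTh S u1 u2 K`.
`both`: a 6-cycle component `K` of `W`: two vertices `k1 ≠ k2` are adjacent to `p` or `q` (`outer_W`), not both to `p`, not
both to `q` (`IsC6.outside`).
`only`: two vertices of `K` adjacent to `p` are equal (`IsC6.outside`).
`card_W`: each component contains an element of `M = (N S p).erase u1` (`both`, `C6V_card_le`), `|M| = deg p - 1`.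
`card_W1`: if `w1 ∈ (N S p).erase u1` has degree two in `S` then it has degree one in `W` and is in no component, so each
component contains an element of `((N S p).erase u1).erase w1`.
`emptyW`: `deg q = 2`, `3 ≤ deg p`. `K` a component of `W`. `q` has the neighbours `u2` and `q'`, so `q' ∈ K` (`both`).
`(N S p).erase u1` has at least two elements, only one of them is in `K` (`only`), so `S \ (K ∪ R)` is nonempty,
`R = {q, u2, p, u1}` is balanced (`bal_four`). By `Irr.inner` two vertices of `R` have neighbours in `S \ (K ∪ R)`, but `u1`,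
`u2` have none (`outer_W`), and the only neighbour of `q` outside `R` is `q' ∈ K`: contradiction.
-/

set_option autoImplicit false

namespace Pool.Agent.CFree

open Finset

variable {V : Type} [Fintype V] [DecidableEq V] {G : BG V}

theorem BG.Pr.th {S K : Finset V} {p u1 u2 q : V} (h : G.Pr S p u1 u2 q) (hI : G.Irr S)
    (hK : G.IsC6 (S \ {u2, u1}) K) : G.IsTh S u1 u2 K ∧ S = insert u1 (insert u2 K) := by
  obtain ⟨hpS, hqS, a12, ap1, a2q, napq, hpq, hp1, hq2⟩ := h.mem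
  have hsub : ({u2, u1} : Finset V) ⊆ S := by
    intro x hx
    rw [mem_insert, mem_singleton] at hx
    rcases hx with rfl | rfl
    · exact h.h2
    · exact h.h1
  have key : ∀ w ∈ S \ {u2, u1}, (∃ r ∈ ({u2, u1} : Finset V), G.adj w r) → w = p ∨ w = q := by
    rintro w hw ⟨r, hr, hwr⟩
    rcases h.outer_T hw hr hwr with h' | h'
    · exact Or.inl h'.2
    · exact Or.inr h'.2
  have hpqK : p ∈ K ∧ q ∈ K := by
    obtain ⟨k1, hk1, k2, hk2, hne, e1, e2⟩ := hI.attach hsub (insert_nonempty _ _) hK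
    rcases key k1 (hK.1 hk1) e1 with h1 | h1 <;> rcases key k2 (hK.1 hk2) e2 with h2 | h2
    · exact absurd (h1.trans h2.symm) hne
    · exact ⟨h1 ▸ hk1, h2 ▸ hk2⟩
    · exact ⟨h2 ▸ hk2, h1 ▸ hk1⟩
    · exact absurd (h1.trans h2.symm) hne
  have hempty : ¬ (S \ (K ∪ {u2, u1})).Nonempty := by
    intro hU
    obtain ⟨w1, hw1, w2, hw2, hne, e1, e2⟩ := hI.rest hsub (insert_nonempty _ _)
      (BG.bal_two (G.symm _ _ a12)) hK hU
    have hw1' : w1 ∈ S \ {u2, u1} :=
      mem_sdiff.2 ⟨(mem_sdiff.1 hw1).1, fun h' => (mem_sdiff.1 hw1).2 (mem_union_right _ h')⟩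
    have hK1 : w1 ∉ K := fun h' => (mem_sdiff.1 hw1).2 (mem_union_left _ h')
    rcases key w1 hw1' e1 with h1 | h1
    · exact hK1 (h1 ▸ hpqK.1)
    · exact hK1 (h1 ▸ hpqK.2)
  have hset : ({u2, u1} : Finset V) = {u1, u2} := pair_comm _ _
  have hS : S = insert u1 (insert u2 K) := by
    ext x
    rw [mem_insert, mem_insert]
    constructor
    · intro hx
      by_contra hcon
      push Not at hcon
      refine hempty ⟨x, mem_sdiff.2 ⟨hx, ?_⟩⟩
      rw [mem_union, mem_insert, mem_singleton]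
      rintro (h' | h' | h')
      · exact hcon.2.2 h'
      · exact hcon.2.1 h'
      · exact hcon.1 h'
    · rintro (rfl | rfl | hx)
      · exact h.h1
      · exact h.h2
      · exact (mem_sdiff.1 (hK.1 hx)).1
  refine ⟨⟨h.h1, h.h2, a12, ?_, ?_, hset ▸ hK, ?_, ?_⟩, hS⟩
  · unfold BG.deg
    rw [h.N1, card_pair h.p2]
  · unfold BG.deg
    rw [h.N2, card_pair h.q1]
  · rw [h.N1]
    intro x hx
    rw [mem_insert, mem_singleton] at hx
    rcases hx with rfl | rfl
    · exact mem_insert_self _ _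
    · exact mem_insert_of_mem hpqK.1
  · rw [h.N2]
    intro x hx
    rw [mem_insert, mem_singleton] at hx
    rcases hx with rfl | rfl
    · exact mem_insert_self _ _
    · exact mem_insert_of_mem hpqK.2

private theorem kprb_sub {S : Finset V} {p u1 u2 q : V} (h : G.Pr S p u1 u2 q) :
    ({q, u2, p, u1} : Finset V) ⊆ S := by
  obtain ⟨hpS, hqS, -⟩ := h.mem
  have h1 := h.h1
  have h2 := h.h2
  intro x hx
  simp only [mem_insert, mem_singleton] at hx
  rcases hx with rfl | rfl | rfl | rfl <;> assumption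

private theorem kprb_notp {S K : Finset V} {p u1 u2 q : V} (hK : G.IsC6 (S \ {q, u2, p, u1}) K) : p ∉ K := by
  intro hp
  exact (mem_sdiff.1 (hK.1 hp)).2 (by simp)

private theorem kprb_notq {S K : Finset V} {p u1 u2 q : V} (hK : G.IsC6 (S \ {q, u2, p, u1}) K) : q ∉ K := by
  intro hp
  exact (mem_sdiff.1 (hK.1 hp)).2 (by simp)

theorem BG.Pr.both {S K : Finset V} {p u1 u2 q : V} (h : G.Pr S p u1 u2 q) (hI : G.Irr S)
    (hK : G.IsC6 (S \ {q, u2, p, u1}) K) :
    (∃ w ∈ (G.N S p).erase u1, w ∈ K) ∧ ∃ w ∈ (G.N S q).erase u2, w ∈ K := by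
  obtain ⟨k1, hk1, k2, hk2, hne, ⟨r1, hr1, e1⟩, r2, hr2, e2⟩ := hI.attach (kprb_sub h) (insert_nonempty _ _) hK
  have key : ∀ k r, k ∈ (G.N S r) → G.adj k r := fun k r hk => G.symm _ _ (BG.mem_N.1 hk).2
  rcases h.outer_W (hK.1 hk1) hr1 e1 with ⟨rfl, h1⟩ | ⟨rfl, h1⟩ <;>
    rcases h.outer_W (hK.1 hk2) hr2 e2 with ⟨h3, h2⟩ | ⟨h3, h2⟩
  · subst h3
    exact absurd ⟨e1, e2⟩ (hK.outside hk1 hk2 hne (kprb_notp hK))
  · subst h3
    exact ⟨⟨k1, h1, hk1⟩, k2, h2, hk2⟩
  · subst h3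
    exact ⟨⟨k2, h2, hk2⟩, k1, h1, hk1⟩
  · subst h3
    exact absurd ⟨e1, e2⟩ (hK.outside hk1 hk2 hne (kprb_notq hK))

theorem BG.Pr.only {S K : Finset V} {p u1 u2 q w w' : V} (h : G.Pr S p u1 u2 q)
    (hK : G.IsC6 (S \ {q, u2, p, u1}) K) (hw : w ∈ (G.N S p).erase u1) (hwK : w ∈ K)
    (hw' : w' ∈ (G.N S p).erase u1) (hwK' : w' ∈ K) : w = w' := by
  by_contra hne
  exact hK.outside hwK hwK' hne (kprb_notp hK)
    ⟨G.symm _ _ (BG.mem_N.1 (mem_erase.1 hw).2).2, G.symm _ _ (BG.mem_N.1 (mem_erase.1 hw').2).2⟩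

private theorem kprb_card {S : Finset V} {p u1 u2 q : V} (h : G.Pr S p u1 u2 q) :
    ((G.N S p).erase u1).card + 1 = G.deg S p :=
  card_erase_add_one (BG.mem_N.2 ⟨h.h1, h.mem.2.2.2.1⟩)

theorem BG.Pr.card_W {S : Finset V} {p u1 u2 q : V} (h : G.Pr S p u1 u2 q) (hI : G.Irr S) :
    (G.C6V (S \ {q, u2, p, u1})).card + 6 ≤ 6 * G.deg S p := by
  have h1 := BG.C6V_card_le (G := G) (T := S \ {q, u2, p, u1}) (M := (G.N S p).erase u1)
    (fun K hK => (h.both hI hK).1)
  have h2 := kprb_card h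
  omega

theorem BG.Pr.card_W1 {S : Finset V} {p u1 u2 q w1 : V} (h : G.Pr S p u1 u2 q) (hI : G.Irr S)
    (hw : w1 ∈ (G.N S p).erase u1) (hd : G.deg S w1 = 2) :
    (G.C6V (S \ {q, u2, p, u1})).card + 12 ≤ 6 * G.deg S p := by
  have h1 := BG.C6V_card_le (G := G) (T := S \ {q, u2, p, u1}) (M := ((G.N S p).erase u1).erase w1)
    (fun K hK => by
      obtain ⟨⟨w, hw', hwK⟩, -⟩ := h.both hI hK
      refine ⟨w, mem_erase.2 ⟨?_, hw'⟩, hwK⟩
      rintro rfl
      have h3 := (h.deg_W1 hw).2.2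
      have h4 := (hK.2.2 w hwK).1
      omega)
  have h2 := kprb_card h
  have h3 := card_erase_add_one hw
  omega

theorem BG.Pr.emptyW {S : Finset V} {p u1 u2 q : V} (h : G.Pr S p u1 u2 q) (hI : G.Irr S)
    (hp : 3 ≤ G.deg S p) (hq : G.deg S q = 2) : G.C6V (S \ {q, u2, p, u1}) = ∅ := by
  obtain ⟨hpS, hqS, a12, ap1, a2q, napq, hpq, hp1, hq2⟩ := h.mem
  rw [BG.C6V_eq_empty]
  intro K hK
  obtain ⟨⟨w, hw, hwK⟩, w', hw', hwK'⟩ := h.both hI hK
  have hc1 : ((G.N S q).erase u2).card = 1 := by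
    have := card_erase_add_one (BG.mem_N.2 ⟨h.h2, G.symm _ _ a2q⟩ : u2 ∈ G.N S q)
    unfold BG.deg at hq
    omega
  have hqK : ∀ x ∈ (G.N S q).erase u2, x ∈ K := by
    intro x hx
    have : x = w' := card_le_one.1 hc1.le x hx w' hw'
    rw [this]
    exact hwK'
  have hc2 : 1 < ((G.N S p).erase u1).card := by
    have := kprb_card h
    omega
  obtain ⟨x, hx, hxw⟩ := exists_mem_ne hc2 w
  have hxK : x ∉ K := fun hxK => hxw (h.only hK hx hxK hw hwK)
  have hxW := (h.deg_W1 hx).1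
  have hU : (S \ (K ∪ {q, u2, p, u1})).Nonempty := by
    refine ⟨x, mem_sdiff.2 ⟨(mem_sdiff.1 hxW).1, fun h' => ?_⟩⟩
    rcases mem_union.1 h' with h' | h'
    · exact hxK h'
    · exact (mem_sdiff.1 hxW).2 h'
  have hb : G.bal {q, u2, p, u1} := BG.bal_four (r1 := p) (r2 := u1) (r3 := u2) (r4 := q) (fun x => by
    simp only [mem_insert, mem_singleton]
    tauto) ap1 a12 a2q h.p2.symm h.q1
  have key : ∀ r ∈ ({q, u2, p, u1} : Finset V),
      (∃ t ∈ S \ (K ∪ {q, u2, p, u1}), G.adj r t) → r = p := by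
    rintro r hr ⟨t, ht, hrt⟩
    have ht' : t ∈ S \ {q, u2, p, u1} :=
      mem_sdiff.2 ⟨(mem_sdiff.1 ht).1, fun h' => (mem_sdiff.1 ht).2 (mem_union_right _ h')⟩
    rcases h.outer_W ht' hr (G.symm _ _ hrt) with h' | h'
    · exact h'.1
    · exact absurd (mem_union_left _ (hqK t h'.2)) (mem_sdiff.1 ht).2
  obtain ⟨r1, hr1, r2, hr2, hne, e1, e2⟩ := hI.inner (kprb_sub h) (insert_nonempty _ _) hb hK hU
  exact hne ((key r1 hr1 e1).trans (key r2 hr2 e2).symm)

end Pool.Agent.CFree
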