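import Pool.Agent.Lib_MP_6af485_kt.KPrD
import Pool.Agent.Lib_MP_6af485_kt.KPrB

/-!
# MP_6af485_co, `k = 3`: two adjacent vertices of degree two, outer neighbours of degree at least three

`Pr.Q`, `T = S \ {u2, u1}`, `W = S \ {q, u2, p, u1}`, `C6V T = ∅`, `d = deg p`, `d' = deg q`.
Exponent of the first term (`Pr.phi_T`): `4 + dl p + dl q`. Exponent of the second term (`Pr.phi_W`):
`4 + hh p + hh q + ∑ dl (p) + ∑ dl (q) + 2 |C6V W|`, the power of `yy` is `d + d' - 1`.

`PrC` (`d = 3`, `w1 ∈ (N S p).erase u1` of degree two with other neighbour `w'` such that `deg W w' ≥ 2`): first term: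
`PP.A`, exponent 2 or 4; second term: `N W w1 = {w'}` (`deg_W1`): `PP.L`, `|C6V W| ≤ 6` (`card_W1`), exponent at most
`4 + 1 + (d' - 2) + 4 + 2 (d' - 1) + 12 = 3 d' + 17`: 26 for `d' = 3`, 29 for `d' = 4`: `num_pC3`, `num_pC4`, `yQ_mono`.
`PrD` (as `PrC`, `deg W w' ≤ 1`): `w' ∈ S` has degree at least two in `S`; it has the colour of `p` and `u2`, so it is
adjacent to `q` (`outer_W`, `deg_W0`), `w' ∈ (N S q).erase u2`, and `deg W w' + 1 = deg S w'` (`deg_W1` for `h.symm`), so
`deg S w' = 2`. `d' = 3`: let `(N S p).erase u1 = {w1, w2}`, `(N S q).erase u2 = {w', w3}`. If `C6V W = ∅` the exponent is at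
most `4 + 1 + 1 + 8 = 14`. Otherwise a component `K` contains `w2` and `w3` (`both`; `w1`, `w'` have degree one in `W`), so they
have degree three in `S` and `dl = -1`, `|C6V W| ≤ 6` (`card_W1`), the exponent is at most `6 + 2 - 1 + 2 - 1 + 12 = 20`. So
`F S * QQ ^ phi S ≤ yy ^ 2 * QQ ^ 2 + yy ^ 5 * QQ ^ 20 = EE`. `d' ≥ 4`: as in `PrC` with `PP.A`: `num_pK4`.
-/

set_option autoImplicit false

namespace Pool.Agent.CFree

open Finset

variable {V : Type} [Fintype V] [DecidableEq V] {G : BG V}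

theorem BG.PrC {S : Finset V} {p u1 u2 q w1 w' : V} (IH : ∀ T : Finset V, T.card < S.card → G.PP T)
    (hI : G.Irr S) (h : G.Pr S p u1 u2 q) (hTh : G.C6V (S \ {u2, u1}) = ∅) (hp : G.deg S p = 3)
    (hq : 3 ≤ G.deg S q) (hw1 : w1 ∈ (G.N S p).erase u1) (hN1 : G.N S w1 = {p, w'}) (hw' : w' ≠ p)
    (hd : 2 ≤ G.deg (S \ {q, u2, p, u1}) w') : G.F S * QQ ^ G.phi S ≤ EE := by
  obtain ⟨k1, k2⟩ := h.kprd_card
  obtain ⟨hwW, hNw, -⟩ := h.deg_W1 hw1
  have hd1 : G.deg S w1 = 2 := by
    unfold BG.deg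
    rw [hN1, card_pair hw'.symm]
  have hNw' : G.N (S \ {q, u2, p, u1}) w1 = {w'} := by
    rw [hNw, hN1]
    ext x
    simp only [mem_erase, mem_insert, mem_singleton]
    grind
  have hB : G.Gh (S \ {q, u2, p, u1}) ≤ lam :=
    (IH _ (card_sdiff_lt h.h1 (by simp))).L w1 w' hwW hNw' hd
  have hA1 := (IH (S \ {u2, u1}) (card_sdiff_lt h.h1 (by simp))).A
  have hC := h.card_W1 hI hw1 hd1
  have s1 := sum_dl_le_two (G := G) (S := S) (s := (G.N S p).erase u1)
  have s2 := sum_dl_le_two (G := G) (S := S) (s := (G.N S q).erase u2)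
  rw [h.Q]
  rcases Nat.lt_or_ge (G.deg S q) 4 with hq4 | hq4
  · have hq3 : G.deg S q = 3 := by omega
    have t1 := h.kprd_T (k := 2) hTh hA1 (by rw [hp, hq3, dl_three]; norm_num)
    have t2 := h.kprd_W (k := 26) (n := 5) hB (by omega) (by
      rw [hp, hq3, hh_three]
      push_cast
      omega)
    rw [one_mul] at t1
    linarith [num_pC3]
  · obtain ⟨m, hm⟩ : ∃ m, G.deg S q = 4 + m := ⟨G.deg S q - 4, by omega⟩
    have t1 := h.kprd_T (k := 4) hTh hA1 (by rw [hp, dl_ge hq4, dl_three]; norm_num)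
    have t2 := h.kprd_W (k := 29 + 3 * m) (n := 6 + m) hB (by omega) (by
      rw [hp, hh_ge hq, hh_three]
      push_cast
      omega)
    rw [one_mul] at t1
    have t3 : lam * (yy ^ (6 + m) * QQ ^ (29 + 3 * m)) ≤ lam * (yy ^ 6 * QQ ^ 29) :=
      mul_le_mul_of_nonneg_left (yQ_mono m (by norm_num)) lam_pos.le
    linarith [num_pC4]

theorem BG.PrD {S : Finset V} {p u1 u2 q w1 w' : V} (IH : ∀ T : Finset V, T.card < S.card → G.PP T)
    (hI : G.Irr S) (hmin : ∀ w ∈ S, 2 ≤ G.deg S w) (h : G.Pr S p u1 u2 q)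
    (hTh : G.C6V (S \ {u2, u1}) = ∅) (hp : G.deg S p = 3)
    (hq : 3 ≤ G.deg S q) (hw1 : w1 ∈ (G.N S p).erase u1) (hN1 : G.N S w1 = {p, w'}) (hw' : w' ≠ p)
    (hd : G.deg (S \ {q, u2, p, u1}) w' ≤ 1) : G.F S * QQ ^ G.phi S ≤ EE := by
  obtain ⟨hpS, hqS, a12, ap1, a2q, hpq, npq, np1, nq2⟩ := h.mem
  obtain ⟨cq, cp, c12⟩ := h.cols
  obtain ⟨k1, k2⟩ := h.kprd_card
  obtain ⟨hwW, hNw, hdw⟩ := h.deg_W1 hw1
  obtain ⟨hw1u, hw1N⟩ := mem_erase.1 hw1
  obtain ⟨hw1S, hpw1⟩ := BG.mem_N.1 hw1N
  obtain ⟨hw'S, hw1w'⟩ := BG.mem_N.1 (show w' ∈ G.N S w1 by rw [hN1]; simp)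
  have hd1 : G.deg S w1 = 2 := by
    unfold BG.deg
    rw [hN1, card_pair hw'.symm]
  have hA1 := (IH (S \ {u2, u1}) (card_sdiff_lt h.h1 (by simp))).A
  have hA := (IH (S \ {q, u2, p, u1}) (card_sdiff_lt h.h1 (by simp))).A
  have hC := h.card_W1 hI hw1 hd1
  have s1 := sum_dl_le_two (G := G) (S := S) (s := (G.N S p).erase u1)
  have s2 := sum_dl_le_two (G := G) (S := S) (s := (G.N S q).erase u2)
  rw [h.Q]
  rcases Nat.lt_or_ge (G.deg S q) 4 with hq4 | hq4
  · have hq3 : G.deg S q = 3 := by omega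
    have t1 := h.kprd_T (k := 2) hTh hA1 (by rw [hp, hq3, dl_three]; norm_num)
    have t2 := h.kprd_W (k := 20) (n := 5) hA (by omega) (by
      rw [hp, hq3, hh_three]
      by_cases hK : G.C6V (S \ {q, u2, p, u1}) = ∅
      · rw [hK, card_empty]
        push_cast
        omega
      · rw [BG.C6V_eq_empty] at hK
        push Not at hK
        obtain ⟨K, hK⟩ := hK
        obtain ⟨⟨w2, hw2, hw2K⟩, w3, hw3, hw3K⟩ := h.both hI hK
        -- `w'` is adjacent to `q` and of degree two
        have cw' : G.col w' = G.col p := BG.col_common hw1w' (G.symm _ _ hpw1)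
        have hw'2 : w' ≠ u2 := by
          rintro rfl
          have h1 : w1 ∈ G.N S w' := BG.mem_N.2 ⟨hw1S, G.symm _ _ hw1w'⟩
          rw [h.N2, mem_insert, mem_singleton] at h1
          rcases h1 with h1 | h1
          · exact hw1u h1
          · exact hpq (h1 ▸ hpw1)
        have hw'q : w' ≠ q := by
          rintro rfl
          exact c12 (by rw [← cq, cw', cp])
        have hw'1 : w' ≠ u1 := by
          rintro rfl
          exact c12 (by rw [cw', cp])
        have hw'W : w' ∈ S \ {q, u2, p, u1} := by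
          simp only [mem_sdiff, mem_insert, mem_singleton, not_or]
          exact ⟨hw'S, hw'q, hw'2, hw', hw'1⟩
        have hqw' : G.adj w' q := by
          by_contra hn
          have h1 := (h.deg_W0 hw'W (BG.nadj_col cw') hn).2
          have h2 := hmin w' hw'S
          omega
        have hw'N : w' ∈ (G.N S q).erase u2 :=
          mem_erase.2 ⟨hw'2, BG.mem_N.2 ⟨hw'S, G.symm _ _ hqw'⟩⟩
        have hset : S \ {p, u1, q, u2} = S \ {q, u2, p, u1} := by
          ext x
          simp only [mem_sdiff, mem_insert, mem_singleton]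
          tauto
        have hdw' := (h.symm.deg_W1 hw'N).2.2
        have hdw2 := (h.deg_W1 hw2).2.2
        have hdw3 := (h.symm.deg_W1 hw3).2.2
        rw [hset] at hdw' hdw3
        have e2 := (hK.2.2 w2 hw2K).1
        have e3 := (hK.2.2 w3 hw3K).1
        have n21 : w2 ≠ w1 := by
          rintro rfl
          omega
        have n3 : w3 ≠ w' := by
          rintro rfl
          omega
        have f1 : (G.N S p).erase u1 = {w1, w2} := by
          symm
          apply eq_of_subset_of_card_le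
          · intro x hx
            rw [mem_insert, mem_singleton] at hx
            rcases hx with rfl | rfl
            · exact hw1
            · exact hw2
          · rw [card_pair n21.symm]
            omega
        have f2 : (G.N S q).erase u2 = {w', w3} := by
          symm
          apply eq_of_subset_of_card_le
          · intro x hx
            rw [mem_insert, mem_singleton] at hx
            rcases hx with rfl | rfl
            · exact hw'N
            · exact hw3
          · rw [card_pair n3.symm]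
            omega
        have g2 : G.deg S w2 = 3 := by omega
        have g3 : G.deg S w3 = 3 := by omega
        have g1 := dl_le_two (G.deg S w')
        rw [f1, f2, sum_pair n21.symm, sum_pair n3.symm, g2, g3, hd1, dl_two, dl_three]
        push_cast
        omega)
    rw [one_mul] at t1 t2
    have : EE = yy ^ 2 * QQ ^ 2 + yy ^ 5 * QQ ^ 20 := rfl
    linarith
  · obtain ⟨m, hm⟩ : ∃ m, G.deg S q = 4 + m := ⟨G.deg S q - 4, by omega⟩
    have t1 := h.kprd_T (k := 4) hTh hA1 (by rw [hp, dl_ge hq4, dl_three]; norm_num)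
    have t2 := h.kprd_W (k := 29 + 3 * m) (n := 6 + m) hA (by omega) (by
      rw [hp, hh_ge hq, hh_three]
      push_cast
      omega)
    rw [one_mul] at t1 t2
    have t3 := yQ_mono (n := 6) (a := 29) (k := 3) m (by norm_num)
    linarith [num_pK4]

end Pool.Agent.CFree
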