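import Pool.Agent.Lib_MP_6af485_kt.KSideD

/-!
# MP_6af485_co, `k = 3`: a vertex of degree two, neighbours of degree three, no other vertices of degree two

`(N S a).erase v = {x1, x2}`, `(N S b).erase v = {y1, y2}`, all of degree at least three; `i` (`j`) the number of `x1, x2`
(`y1, y2`) of degree at least four. `yy ^ 3 = 1 / 2`. First term: `side_use` with `k = 2 i` (`3 - 1 + ∑ dl`) and the bound
`B_j`, `B_0 = bet` (`side_S`), `B_1 = b34` (`side_S34`), `B_2 = b44` (`side_S44`). Second term: the roles exchanged.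
`(i, j) = (0, 0)`: trivial; `(1, 0)`: `num_T7a`; `(2, 0)`: `num_T7b`; `(1, 1)`: `num_T7c`; `(2, 1)`: `num_T7d`;
`(2, 2)`: `num_T7e`; the other cases by exchanging `a` and `b`.
-/

set_option autoImplicit false

namespace Pool.Agent.CFree

open Finset

variable {V : Type} [Fintype V] [DecidableEq V] {G : BG V}

/-- the number of the other neighbours of degree at least four, and what it gives in both terms -/
theorem BG.kt7_half {S : Finset V} {v a b : V} (IH : ∀ T : Finset V, T.card < S.card → G.PP T)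
    (hI : G.Irr S) (hv : v ∈ S) (hab : a ≠ b) (hN : G.N S v = {a, b})
    (ha : G.deg S a = 3) (hb : G.deg S b = 3) (hcl : ∀ x ∈ (G.N S a).erase v, 3 ≤ G.deg S x) :
    ((∀ B : ℝ, G.Gh (S \ {a, v}) ≤ B → G.F (S \ {a, v}) * QQ ^ G.phi S ≤ B) ∧
        G.Gh (S \ {b, v}) ≤ bet) ∨
      ((∀ B : ℝ, G.Gh (S \ {a, v}) ≤ B → G.F (S \ {a, v}) * QQ ^ G.phi S ≤ B * QQ ^ 2) ∧
        G.Gh (S \ {b, v}) ≤ b34) ∨
      ((∀ B : ℝ, G.Gh (S \ {a, v}) ≤ B → G.F (S \ {a, v}) * QQ ^ G.phi S ≤ B * QQ ^ 4) ∧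
        G.Gh (S \ {b, v}) ≤ b44) := by
  have hN' : G.N S v = {b, a} := by rw [hN, pair_comm]
  have hc := BG.side_card hv hN
  obtain ⟨x1, x2, h12, he⟩ := card_eq_two.1 (show ((G.N S a).erase v).card = 2 by omega)
  have hx1 : x1 ∈ (G.N S a).erase v := by rw [he]; simp
  have hx2 : x2 ∈ (G.N S a).erase v := by rw [he]; simp
  have c1 := hcl x1 hx1
  have c2 := hcl x2 hx2
  have hA : ∀ (B : ℝ) (k : ℕ), G.Gh (S \ {a, v}) ≤ B →
      3 + (-1) + (dl (G.deg S x1) + dl (G.deg S x2)) ≤ k →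
      G.F (S \ {a, v}) * QQ ^ G.phi S ≤ B * QQ ^ k := by
    intro B k hB hk
    refine BG.side_use hI hv hab hN ha.ge hB ?_
    rw [he, sum_pair h12, ha, hb, dl_three]
    push_cast
    exact hk
  by_cases d1 : 4 ≤ G.deg S x1
  · by_cases d2 : 4 ≤ G.deg S x2
    · right; right
      refine ⟨fun B hB => hA B 4 hB ?_, BG.side_S44 IH hv hab.symm hN' ha ?_⟩
      · rw [dl_ge d1, dl_ge d2]
        norm_num
      · intro x hx
        rw [he, mem_insert, mem_singleton] at hx
        rcases hx with rfl | rfl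
        · exact d1
        · exact d2
    · right; left
      have d2' : G.deg S x2 = 3 := by omega
      refine ⟨fun B hB => hA B 2 hB ?_, BG.side_S34 IH hv hab.symm hN' ha hcl hx1 d1⟩
      rw [dl_ge d1, d2', dl_three]
      norm_num
  · have d1' : G.deg S x1 = 3 := by omega
    by_cases d2 : 4 ≤ G.deg S x2
    · right; left
      refine ⟨fun B hB => hA B 2 hB ?_, BG.side_S34 IH hv hab.symm hN' ha hcl hx2 d2⟩
      rw [dl_ge d2, d1', dl_three]
      norm_num
    · left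
      have d2' : G.deg S x2 = 3 := by omega
      refine ⟨fun B hB => ?_, BG.side_S IH hv hab.symm hN' ha hcl⟩
      have h := hA B 0 hB (by
        rw [d1', d2', dl_three]
        norm_num)
      rwa [pow_zero, mul_one] at h

theorem BG.T7 {S : Finset V} {v a b : V} (IH : ∀ T : Finset V, T.card < S.card → G.PP T)
    (hI : G.Irr S) (hv : v ∈ S) (hab : a ≠ b) (hN : G.N S v = {a, b})
    (ha : G.deg S a = 3) (hb : G.deg S b = 3) (hcl : ∀ x ∈ (G.N S a).erase v, 3 ≤ G.deg S x)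
    (hcl' : ∀ y ∈ (G.N S b).erase v, 3 ≤ G.deg S y) : G.F S * QQ ^ G.phi S ≤ bet := by
  have hN' : G.N S v = {b, a} := by rw [hN, pair_comm]
  have h1 := BG.kt7_half IH hI hv hab hN ha hb hcl
  have h2 := BG.kt7_half IH hI hv hab.symm hN' hb ha hcl'
  rw [BG.two_Q hv hab hN, ha, hb, yy_cube]
  rcases h1 with ⟨p1, q1⟩ | ⟨p1, q1⟩ | ⟨p1, q1⟩ <;> rcases h2 with ⟨p2, q2⟩ | ⟨p2, q2⟩ | ⟨p2, q2⟩ <;>
    have r1 := p1 _ q2 <;> have r2 := p2 _ q1
  · linarith
  · linarith [num_T7a]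
  · linarith [num_T7b]
  · linarith [num_T7a]
  · linarith [num_T7c]
  · linarith [num_T7d]
  · linarith [num_T7b]
  · linarith [num_T7d]
  · linarith [num_T7e]

end Pool.Agent.CFree
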