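import Pool.Agent.Lib_MP_6af485_kt.KR4A

/-!
# MP_6af485_co, `k = 3`: removing a path of four vertices, degrees

`R = {z, y, b, v}`, `T = S \ R`.

`deg_w`: a vertex `w ∈ T`, `w ≠ a`, not adjacent to `b` or `z` has the same degree and neighbours (`outer`).
`deg_r`: a vertex `w ∈ T` adjacent to `b` or `z` (not to both: `z ≠ b`, `w ≠ y`, common neighbours `w, y`), `w ≠ a`, loses one
neighbour (`w` is not adjacent to `v`, `w ≠ a, b`, and not to `y`).
`lam_y2`: `y2` has degree one in `T`; its other neighbour `w` in `S` (`w ≠ b`) is in `T` (`w ≠ z` as above, `w` has the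
colour of `b`), `w ≠ a` (`y2` is not adjacent to `a`, as `y2 ≠ v`), `w` is not adjacent to `b`, `z` (colour), so
`deg T w = deg S w ≥ 2`: `PP.L`.
-/

set_option autoImplicit false

namespace Pool.Agent.CFree

open Finset

variable {V : Type} [Fintype V] [DecidableEq V] {G : BG V}

omit [Fintype V] in
private theorem kr4c_mem {v b y z x : V} :
    x ∈ ({z, y, b, v} : Finset V) ↔ x = v ∨ x = b ∨ x = y ∨ x = z := by
  rw [mem_insert, mem_insert, mem_insert, mem_singleton]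
  tauto

theorem BG.R4.deg_w {S : Finset V} {v a b y z w : V} (h : G.R4 S v a b y z)
    (hw : w ∈ S \ {z, y, b, v}) (hwa : w ≠ a) (hb : ¬ G.adj b w) (hz : ¬ G.adj z w) :
    G.N (S \ {z, y, b, v}) w = G.N S w ∧ G.deg (S \ {z, y, b, v}) w = G.deg S w := by
  have h1 : G.N (S \ {z, y, b, v}) w = G.N S w := by
    rw [BG.N_sdiff]
    refine sdiff_eq_self_of_disjoint ?_
    rw [disjoint_left]
    intro r hr hrR
    have hadj := (BG.mem_N.1 hr).2
    rcases h.outer hw hrR hadj with ⟨_, e⟩ | ⟨e, _⟩ | ⟨e, _⟩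
    · exact hwa e
    · rw [e] at hadj
      exact hb (G.symm _ _ hadj)
    · rw [e] at hadj
      exact hz (G.symm _ _ hadj)
  refine ⟨h1, ?_⟩
  unfold BG.deg
  rw [h1]

theorem BG.R4.deg_r {S : Finset V} {v a b y z w : V} (h : G.R4 S v a b y z)
    (hw : w ∈ S \ {z, y, b, v}) (hbz : G.adj b w ∨ G.adj z w) :
    w ≠ a ∧ G.deg (S \ {z, y, b, v}) w + 1 = G.deg S w := by
  obtain ⟨haS, hbS, hyS, hzS, hva, hvb, hby, hyz⟩ := h.mem
  obtain ⟨nya, nzv, nza, nzb, nvy⟩ := h.nadj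
  have hwa : w ≠ a := by
    rintro rfl
    rcases hbz with e | e
    · exact BG.nadj_common hvb hva e
    · exact nza e
  have hwy : w ≠ y := fun e => (mem_sdiff.1 hw).2 (kr4c_mem.2 (Or.inr (Or.inr (Or.inl e))))
  have hnot : ¬ (G.adj b w ∧ G.adj z w) := by
    rintro ⟨h1, h2⟩
    exact hwy (G.c4 b z w y h.zb.symm h1 h2 hby (G.symm _ _ hyz))
  refine ⟨hwa, ?_⟩
  rcases hbz with hb | hz
  · have hbN : b ∈ G.N S w := BG.mem_N.2 ⟨hbS, G.symm _ _ hb⟩
    have h1 : G.N (S \ {z, y, b, v}) w = (G.N S w).erase b := by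
      rw [BG.N_sdiff]
      ext r
      rw [mem_sdiff, mem_erase]
      constructor
      · rintro ⟨hr, hrR⟩
        exact ⟨fun e => hrR (kr4c_mem.2 (Or.inr (Or.inl e))), hr⟩
      · rintro ⟨hrb, hr⟩
        refine ⟨hr, fun hrR => ?_⟩
        have hadj := (BG.mem_N.1 hr).2
        rcases h.outer hw hrR hadj with ⟨_, e⟩ | ⟨e, _⟩ | ⟨e, _⟩
        · exact hwa e
        · exact hrb e
        · rw [e] at hadj
          exact hnot ⟨hb, G.symm _ _ hadj⟩
    unfold BG.deg
    rw [h1]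
    exact card_erase_add_one hbN
  · have hzN : z ∈ G.N S w := BG.mem_N.2 ⟨hzS, G.symm _ _ hz⟩
    have h1 : G.N (S \ {z, y, b, v}) w = (G.N S w).erase z := by
      rw [BG.N_sdiff]
      ext r
      rw [mem_sdiff, mem_erase]
      constructor
      · rintro ⟨hr, hrR⟩
        exact ⟨fun e => hrR (kr4c_mem.2 (Or.inr (Or.inr (Or.inr e)))), hr⟩
      · rintro ⟨hrz, hr⟩
        refine ⟨hr, fun hrR => ?_⟩
        have hadj := (BG.mem_N.1 hr).2
        rcases h.outer hw hrR hadj with ⟨_, e⟩ | ⟨e, _⟩ | ⟨e, _⟩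
        · exact hwa e
        · rw [e] at hadj
          exact hnot ⟨G.symm _ _ hadj, hz⟩
        · exact hrz e
    unfold BG.deg
    rw [h1]
    exact card_erase_add_one hzN

theorem BG.R4.deg_a {S : Finset V} {v a b y z : V} (h : G.R4 S v a b y z) :
    a ∈ S \ {z, y, b, v} ∧ G.N (S \ {z, y, b, v}) a = (G.N S a).erase v ∧
      G.deg (S \ {z, y, b, v}) a + 1 = G.deg S a := by
  obtain ⟨haS, hbS, hyS, hzS, hva, hvb, hby, hyz⟩ := h.mem
  obtain ⟨nya, nzv, nza, nzb, nvy⟩ := h.nadj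
  obtain ⟨eva, _, _, eya, _, _, eza⟩ := h.ne
  have haT : a ∈ S \ {z, y, b, v} := by
    refine mem_sdiff.2 ⟨haS, fun hx => ?_⟩
    rcases kr4c_mem.1 hx with e | e | e | e
    · exact eva e.symm
    · exact h.ab e
    · exact eya e.symm
    · exact eza e.symm
  have h1 : G.N (S \ {z, y, b, v}) a = (G.N S a).erase v := by
    rw [BG.N_sdiff]
    ext r
    rw [mem_sdiff, mem_erase]
    constructor
    · rintro ⟨hr, hrR⟩
      exact ⟨fun e => hrR (kr4c_mem.2 (Or.inl e)), hr⟩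
    · rintro ⟨hrv, hr⟩
      refine ⟨hr, fun hrR => ?_⟩
      have hadj := (BG.mem_N.1 hr).2
      rcases kr4c_mem.1 hrR with e | e | e | e
      · exact hrv e
      · rw [e] at hadj
        exact BG.nadj_common hva hvb hadj
      · rw [e] at hadj
        exact nya (G.symm _ _ hadj)
      · rw [e] at hadj
        exact nza (G.symm _ _ hadj)
  refine ⟨haT, h1, ?_⟩
  unfold BG.deg
  rw [h1]
  exact card_erase_add_one (BG.mem_N.2 ⟨h.hv, G.symm _ _ hva⟩)

theorem BG.R4.lam_y2 {S : Finset V} {v a b y z w : V} (h : G.R4 S v a b y z)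
    (IH : ∀ T : Finset V, T.card < S.card → G.PP T) (hmin : ∀ w ∈ S, 2 ≤ G.deg S w)
    (hw : w ∈ ((G.N S b).erase v).erase y) (hdw : G.deg S w = 2) :
    G.Gh (S \ {z, y, b, v}) ≤ lam := by
  obtain ⟨haS, hbS, hyS, hzS, hva, hvb, hby, hyz⟩ := h.mem
  obtain ⟨nya, nzv, nza, nzb, nvy⟩ := h.nadj
  rw [mem_erase, mem_erase] at hw
  obtain ⟨hwy, hwv, hwN⟩ := hw
  obtain ⟨hwS, hbw⟩ := BG.mem_N.1 hwN
  have hwb : G.adj w b := G.symm _ _ hbw
  obtain ⟨p, hpb, hNw⟩ := BG.nbr2 hdw (BG.mem_N.2 ⟨hbS, hwb⟩)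
  have hpN : p ∈ G.N S w := by
    rw [hNw]
    simp
  obtain ⟨hpS, hwp⟩ := BG.mem_N.1 hpN
  have hpz : p ≠ z := by
    rintro rfl
    exact hwy (G.c4 b p w y h.zb.symm hbw (G.symm _ _ hwp) hby (G.symm _ _ hyz))
  have hpv : p ≠ v := by
    rintro rfl
    exact BG.nadj_common hbw (G.symm _ _ hvb) hwp
  have hpy : p ≠ y := by
    rintro rfl
    exact BG.nadj_common hbw hby hwp
  have hpa : p ≠ a := by
    rintro rfl
    exact h.ab (G.c4 w v p b hwv hwp hva hwb hvb)
  have hpT : p ∈ S \ {z, y, b, v} := by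
    refine mem_sdiff.2 ⟨hpS, fun hx => ?_⟩
    rcases kr4c_mem.1 hx with e | e | e | e
    · exact hpv e
    · exact hpb e
    · exact hpy e
    · exact hpz e
  have hwT : w ∈ S \ {z, y, b, v} := by
    refine mem_sdiff.2 ⟨hwS, fun hx => ?_⟩
    rcases kr4c_mem.1 hx with e | e | e | e
    · exact hwv e
    · exact BG.ne_of_adj hwb e
    · exact hwy e
    · rw [e] at hwb
      exact nzb hwb
  have nbp : ¬ G.adj b p := BG.nadj_common hwb hwp
  have nzp : ¬ G.adj z p := by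
    refine BG.nadj_col ?_
    rw [BG.col_common hyz (G.symm _ _ hby)]
    exact BG.col_common hwb hwp
  have hdeg := (h.deg_w hpT hpa nbp nzp).2
  have hNT : G.N (S \ {z, y, b, v}) w = {p} := by
    rw [BG.N_sdiff, hNw]
    ext r
    rw [mem_sdiff, mem_insert, mem_singleton]
    constructor
    · rintro ⟨e | e, hrR⟩
      · exact absurd (kr4c_mem.2 (Or.inr (Or.inl e))) hrR
      · exact e
    · intro e
      subst e
      exact ⟨Or.inr rfl, (mem_sdiff.1 hpT).2⟩
  have hcard : (S \ {z, y, b, v}).card < S.card := by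
    refine card_lt_card ⟨sdiff_subset, fun hs => ?_⟩
    exact (mem_sdiff.1 (hs h.hv)).2 (kr4c_mem.2 (Or.inl rfl))
  refine (IH _ hcard).L w p hwT hNT ?_
  rw [hdeg]
  exact hmin p hpS

end Pool.Agent.CFree
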