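import Pool.Agent.Lib_MP_6af485_kt.KSideC

/-!
# MP_6af485_co, `k = 3`: removing a vertex of degree two and a neighbour, the two terms

`two_Q`: `BG.two'` (`StepB`).
`side_use`: `BG.use` with `side_phi` (`hh (deg a) = deg a - 2`, `hh_ge`) and `side_C6`.
`side_clean3`: `side_use` with `k = 4` (or `k = 2`): `deg a + dl 3 + ∑ dl = 2 + ∑ dl`, two summands at most one each (one
of them `-1` for `hx`).
`side_big`: if all `x` have degree at least three: `∑ dl ≤ deg a - 1` (`sum_dl_le_one`), `dl (deg b) ≤ 1`,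
`deg a + 1 + (deg a - 1) = 2 deg a`, `yy ^ deg a * QQ ^ (2 deg a) ≤ yy ^ n * QQ ^ (2 n)` (`yQ_mono` with `m = deg a - n`),
`Gh ≤ 1`. Otherwise `side_dirty` and `∑ dl ≤ 2 (deg a - 1)` (`sum_dl_le_two`), `3 deg a - 1`.
`side_big3`: the same with `dl (deg b) = -1`.
-/

set_option autoImplicit false

namespace Pool.Agent.CFree

open Finset

variable {V : Type} [Fintype V] [DecidableEq V] {G : BG V}

theorem BG.two_Q {S : Finset V} {v a b : V} (hv : v ∈ S) (hab : a ≠ b) (hN : G.N S v = {a, b}) :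
    G.F S * QQ ^ G.phi S = yy ^ G.deg S a * (G.F (S \ {a, v}) * QQ ^ G.phi S) +
      yy ^ G.deg S b * (G.F (S \ {b, v}) * QQ ^ G.phi S) := by
  rw [BG.two' hab hN hv]
  ring

theorem BG.side_use {S : Finset V} {v a b : V} (hI : G.Irr S) (hv : v ∈ S) (hab : a ≠ b)
    (hN : G.N S v = {a, b}) (ha : 3 ≤ G.deg S a) {B : ℝ} {k : ℕ} (hB : G.Gh (S \ {a, v}) ≤ B)
    (hk : (G.deg S a : ℤ) + dl (G.deg S b) + ∑ x ∈ (G.N S a).erase v, dl (G.deg S x) ≤ k) :
    G.F (S \ {a, v}) * QQ ^ G.phi S ≤ B * QQ ^ k := by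
  refine BG.use hB ?_
  rw [BG.side_C6 hI hv hab hN ha, card_empty, BG.side_phi hv hab hN, hh_ge ha]
  omega

/-- the number of neighbours of `a` different from `v` -/
theorem BG.side_card {S : Finset V} {v a b : V} (hv : v ∈ S) (hN : G.N S v = {a, b}) :
    ((G.N S a).erase v).card + 1 = G.deg S a := by
  obtain ⟨haS, hva⟩ := BG.mem_N.1 (show a ∈ G.N S v by rw [hN]; simp)
  exact card_erase_add_one (BG.mem_N.2 ⟨hv, G.symm _ _ hva⟩)

/-- `deg a = deg b = 3`, the neighbours of `a` have degree at least three -/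
theorem BG.side_clean3 {S : Finset V} {v a b : V} (hI : G.Irr S) (hv : v ∈ S) (hab : a ≠ b)
    (hN : G.N S v = {a, b}) (ha : G.deg S a = 3) (hb : G.deg S b = 3)
    (hcl : ∀ x ∈ (G.N S a).erase v, 3 ≤ G.deg S x) {B : ℝ} (hB : G.Gh (S \ {a, v}) ≤ B) :
    G.F (S \ {a, v}) * QQ ^ G.phi S ≤ B * QQ ^ 4 ∧
      ((∃ x ∈ (G.N S a).erase v, G.deg S x = 3) → G.F (S \ {a, v}) * QQ ^ G.phi S ≤ B * QQ ^ 2) := by
  have hc := BG.side_card hv hN
  constructor
  · refine BG.side_use hI hv hab hN ha.ge hB ?_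
    have h1 := sum_dl_le_one hcl
    rw [ha, hb, dl_three]
    push_cast
    omega
  · rintro ⟨x, hx, hdx⟩
    refine BG.side_use hI hv hab hN ha.ge hB ?_
    rw [ha, hb, dl_three, ← add_sum_erase _ _ hx, hdx, dl_three]
    have h1 := sum_dl_le_one (s := ((G.N S a).erase v).erase x)
      (fun w hw => hcl w (mem_erase.1 hw).2)
    have h2 := card_erase_add_one hx
    push_cast
    omega

theorem BG.side_big {S : Finset V} {v a b : V} {n : ℕ} (IH : ∀ T : Finset V, T.card < S.card → G.PP T)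
    (hI : G.Irr S) (hmin : ∀ w ∈ S, 2 ≤ G.deg S w) (hv : v ∈ S) (hab : a ≠ b) (hN : G.N S v = {a, b})
    (hn : 3 ≤ n) (ha : n ≤ G.deg S a) (hb : 3 ≤ G.deg S b) :
    yy ^ G.deg S a * (G.F (S \ {a, v}) * QQ ^ G.phi S) ≤ yy ^ n * QQ ^ (2 * n) ∨
      yy ^ G.deg S a * (G.F (S \ {a, v}) * QQ ^ G.phi S) ≤ lam * (yy ^ n * QQ ^ (3 * n - 1)) := by
  have hc := BG.side_card hv hN
  obtain ⟨m, hm⟩ : ∃ m, G.deg S a = n + m := ⟨G.deg S a - n, by omega⟩
  have hy : 0 ≤ yy ^ G.deg S a := pow_nonneg yy_pos.le _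
  by_cases hx : ∃ x ∈ (G.N S a).erase v, G.deg S x = 2
  · right
    obtain ⟨x, hx, hdx⟩ := hx
    have h1 := BG.side_use (k := 3 * n - 1 + 3 * m) hI hv hab hN (by omega)
      (BG.side_dirty IH hmin hv hab hN hx hdx) (by
        have h2 := sum_dl_le_two (G := G) (S := S) (s := (G.N S a).erase v)
        have h3 := dl_le_one hb
        omega)
    calc yy ^ G.deg S a * (G.F (S \ {a, v}) * QQ ^ G.phi S)
        ≤ yy ^ G.deg S a * (lam * QQ ^ (3 * n - 1 + 3 * m)) := mul_le_mul_of_nonneg_left h1 hy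
      _ = lam * (yy ^ (n + m) * QQ ^ (3 * n - 1 + 3 * m)) := by rw [hm]; ring
      _ ≤ lam * (yy ^ n * QQ ^ (3 * n - 1)) :=
          mul_le_mul_of_nonneg_left (yQ_mono m (by norm_num)) lam_pos.le
  · left
    have hcl : ∀ x ∈ (G.N S a).erase v, 3 ≤ G.deg S x := by
      intro x hx'
      have h1 := hmin x (BG.mem_N.1 (mem_erase.1 hx').2).1
      have h2 : G.deg S x ≠ 2 := fun h => hx ⟨x, hx', h⟩
      omega
    have h1 := BG.side_use (k := 2 * n + 2 * m) hI hv hab hN (by omega)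
      (IH _ (BG.side_lt hv)).A (by
        have h2 := sum_dl_le_one hcl
        have h3 := dl_le_one hb
        omega)
    calc yy ^ G.deg S a * (G.F (S \ {a, v}) * QQ ^ G.phi S)
        ≤ yy ^ G.deg S a * (1 * QQ ^ (2 * n + 2 * m)) := mul_le_mul_of_nonneg_left h1 hy
      _ = yy ^ (n + m) * QQ ^ (2 * n + 2 * m) := by rw [hm]; ring
      _ ≤ yy ^ n * QQ ^ (2 * n) := yQ_mono m (by norm_num)

theorem BG.side_big3 {S : Finset V} {v a b : V} {n : ℕ} (IH : ∀ T : Finset V, T.card < S.card → G.PP T)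
    (hI : G.Irr S) (hmin : ∀ w ∈ S, 2 ≤ G.deg S w) (hv : v ∈ S) (hab : a ≠ b) (hN : G.N S v = {a, b})
    (hn : 3 ≤ n) (ha : n ≤ G.deg S a) (hb : G.deg S b = 3) :
    yy ^ G.deg S a * (G.F (S \ {a, v}) * QQ ^ G.phi S) ≤ yy ^ n * QQ ^ (2 * n - 2) ∨
      yy ^ G.deg S a * (G.F (S \ {a, v}) * QQ ^ G.phi S) ≤ lam * (yy ^ n * QQ ^ (3 * n - 3)) := by
  have hc := BG.side_card hv hN
  obtain ⟨m, hm⟩ : ∃ m, G.deg S a = n + m := ⟨G.deg S a - n, by omega⟩
  have hy : 0 ≤ yy ^ G.deg S a := pow_nonneg yy_pos.le _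
  by_cases hx : ∃ x ∈ (G.N S a).erase v, G.deg S x = 2
  · right
    obtain ⟨x, hx, hdx⟩ := hx
    have h1 := BG.side_use (k := 3 * n - 3 + 3 * m) hI hv hab hN (by omega)
      (BG.side_dirty IH hmin hv hab hN hx hdx) (by
        have h2 := sum_dl_le_two (G := G) (S := S) (s := (G.N S a).erase v)
        rw [hb, dl_three]
        omega)
    calc yy ^ G.deg S a * (G.F (S \ {a, v}) * QQ ^ G.phi S)
        ≤ yy ^ G.deg S a * (lam * QQ ^ (3 * n - 3 + 3 * m)) := mul_le_mul_of_nonneg_left h1 hy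
      _ = lam * (yy ^ (n + m) * QQ ^ (3 * n - 3 + 3 * m)) := by rw [hm]; ring
      _ ≤ lam * (yy ^ n * QQ ^ (3 * n - 3)) :=
          mul_le_mul_of_nonneg_left (yQ_mono m (by norm_num)) lam_pos.le
  · left
    have hcl : ∀ x ∈ (G.N S a).erase v, 3 ≤ G.deg S x := by
      intro x hx'
      have h1 := hmin x (BG.mem_N.1 (mem_erase.1 hx').2).1
      have h2 : G.deg S x ≠ 2 := fun h => hx ⟨x, hx', h⟩
      omega
    have h1 := BG.side_use (k := 2 * n - 2 + 2 * m) hI hv hab hN (by omega)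
      (IH _ (BG.side_lt hv)).A (by
        have h2 := sum_dl_le_one hcl
        rw [hb, dl_three]
        omega)
    calc yy ^ G.deg S a * (G.F (S \ {a, v}) * QQ ^ G.phi S)
        ≤ yy ^ G.deg S a * (1 * QQ ^ (2 * n - 2 + 2 * m)) := mul_le_mul_of_nonneg_left h1 hy
      _ = yy ^ (n + m) * QQ ^ (2 * n - 2 + 2 * m) := by rw [hm]; ring
      _ ≤ yy ^ n * QQ ^ (2 * n - 2) := yQ_mono m (by norm_num)

end Pool.Agent.CFree
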