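import Pool.Agent.Lib_MP_6af485_kt.KR4B
import Pool.Agent.Lib_MP_6af485_kt.KR4C
import Pool.Agent.Lib_MP_6af485_kt.KSideD

/-!
# MP_6af485_co, `k = 3`: neighbours of degree three, one of them next to a second vertex of degree two

`deg a = deg b = 3`, the neighbours `x ≠ v` of `a` have degree at least three, `y` is a neighbour of `b` of degree two with
other neighbour `z`, `((N S b).erase v).erase y = {y2}`, `T = S \ {z, y, b, v}`. `yy ^ 3 = 1 / 2` (`two_Q`).
First term: `side_clean3` (`QQ ^ 4`, and `QQ ^ 2` if some `x` has degree three) with `side_EE`. Second term: `R4.F`, `R4.phi`,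
`BG.use`: `yy ^ (k - 1)`, `k = deg z`, exponent `4 + hh k + dl y2 + ∑ dl (N S z \ y) + 2 |C6V T|` (`4 + 1 - 1 = 4`).
No 6-cycle component of `T` contains `a` (`R4.a_notin`).

`T8a` (`k ≥ 3`): all components contain `y2` (`R4.meets2`), so `|C6V T| ≤ 6`, exponent at most
`4 + (k - 2) + 2 + 2 (k - 1) + 12 = 3 k + 14`, `yy ^ (k - 1) * QQ ^ (3 k + 14) ≤ yy ^ 2 * QQ ^ 23` (`yQ_mono`), `num_T8a`.
-/

set_option autoImplicit false

namespace Pool.Agent.CFree

open Finset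

variable {V : Type} [Fintype V] [DecidableEq V] {G : BG V}

/-- the second term -/
private theorem kt8a_second {S : Finset V} {v a b y z : V} (IH : ∀ T : Finset V, T.card < S.card → G.PP T)
    (hI : G.Irr S) (h : G.R4 S v a b y z) (ha : G.deg S a = 3) (hb : G.deg S b = 3)
    (hcl : ∀ x ∈ (G.N S a).erase v, 3 ≤ G.deg S x) (hz : 3 ≤ G.deg S z) :
    G.F (S \ {b, v}) * QQ ^ G.phi S ≤ yy ^ 2 * QQ ^ 23 := by
  obtain ⟨_, _, hyS, _, _, hvb, _, hyz⟩ := h.mem
  obtain ⟨_, _, hlt⟩ := h.bal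
  obtain ⟨m, hm⟩ : ∃ m, G.deg S z = 3 + m := ⟨G.deg S z - 3, by omega⟩
  -- the set of the remaining neighbour of `b`
  have c1 : (((G.N S b).erase v).erase y).card = 1 := by
    have hvN : v ∈ G.N S b := BG.mem_N.2 ⟨h.hv, G.symm _ _ hvb⟩
    have e1 := card_erase_add_one hvN
    have e2 := card_erase_add_one (mem_erase.2 ⟨h.yv, h.hy⟩ : y ∈ (G.N S b).erase v)
    unfold BG.deg at hb
    omega
  have c2 : ((G.N S z).erase y).card + 1 = G.deg S z :=
    card_erase_add_one (BG.mem_N.2 ⟨hyS, G.symm _ _ hyz⟩)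
  have hC : (G.C6V (S \ {z, y, b, v})).card ≤ 6 * (((G.N S b).erase v).erase y).card :=
    BG.C6V_card_le fun K hK => (h.meets2 hI hK (h.a_notin ha hcl hK)).1
  rw [c1] at hC
  have s1 := sum_dl_le_two (G := G) (S := S) (s := ((G.N S b).erase v).erase y)
  have s2 := sum_dl_le_two (G := G) (S := S) (s := (G.N S z).erase y)
  rw [c1] at s1
  have h1 : G.F (S \ {z, y, b, v}) * QQ ^ G.phi S ≤ 1 * QQ ^ (23 + 3 * m) := by
    refine BG.use (IH _ hlt).A ?_
    rw [h.phi, ha, hb, dl_three, hh_three, hh_ge hz]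
    omega
  calc G.F (S \ {b, v}) * QQ ^ G.phi S
      = yy ^ (2 + m) * (G.F (S \ {z, y, b, v}) * QQ ^ G.phi S) := by
        rw [h.F, show G.deg S z - 1 = 2 + m by omega]
        ring
    _ ≤ yy ^ (2 + m) * (1 * QQ ^ (23 + 3 * m)) :=
        mul_le_mul_of_nonneg_left h1 (pow_nonneg yy_pos.le _)
    _ = yy ^ (2 + m) * QQ ^ (23 + 3 * m) := by rw [one_mul]
    _ ≤ yy ^ 2 * QQ ^ 23 := yQ_mono m (by norm_num)

theorem BG.T8a {S : Finset V} {v a b y z : V} (IH : ∀ T : Finset V, T.card < S.card → G.PP T)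
    (hI : G.Irr S) (h : G.R4 S v a b y z) (ha : G.deg S a = 3) (hb : G.deg S b = 3)
    (hcl : ∀ x ∈ (G.N S a).erase v, 3 ≤ G.deg S x) (hz : 3 ≤ G.deg S z) :
    G.F S * QQ ^ G.phi S ≤ bet := by
  have h1 := (BG.side_clean3 hI h.hv h.ab h.Nv ha hb hcl
    (BG.side_EE IH hI h.hv h.ab h.Nv ha.ge hb)).1
  have h2 := kt8a_second IH hI h ha hb hcl hz
  rw [BG.two_Q h.hv h.ab h.Nv, ha, hb, yy_cube]
  linarith [num_T8a]

end Pool.Agent.CFree
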