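import Pool.Agent.Lib_MP_6af485_kt.KT8C

/-!
# MP_6af485_co, `k = 3`: the remaining case of a vertex of degree two

As in `KT8A`, `deg z = 2`, `N S z = {y, t}`, `t` adjacent to `a`, `deg t = 3`, `deg y2 ≥ 3`, `T' = S \ {a, v}`.
`v - a - t - z - y - b - v` is a hexagon. Let `N S a = {v, t, x}`, `N S t = {z, a, w}`.

`T8d`: in `T'` the vertices `u1 = b`, `u2 = y`, `u3 = z`, `u4 = t` have degree two: `N T' b = {y2, y}` (`side_b`),
`N T' y = {b, z}` (`side_y`), `N T' z = {y, t}` (`side_z`), `N T' t = {z, w}` (`side_x`), `deg T' y2 = deg S y2 ≥ 3`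
(`side_y`), so `PP.P4` gives `Gh T' ≤ b22`; first term: `side_clean3` with `QQ ^ 2` (`deg t = 3`). Second term: `T8x` with
`k = 6`, `B = 1`: `num_T8d`.
-/

set_option autoImplicit false

namespace Pool.Agent.CFree

open Finset

variable {V : Type} [Fintype V] [DecidableEq V] {G : BG V}

theorem BG.T8d {S : Finset V} {v a b y z t y2 : V} (IH : ∀ T : Finset V, T.card < S.card → G.PP T)
    (hI : G.Irr S) (h : G.R4 S v a b y z) (ha : G.deg S a = 3)
    (hb : G.deg S b = 3) (hcl : ∀ x ∈ (G.N S a).erase v, 3 ≤ G.deg S x)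
    (hy2 : y2 ∈ ((G.N S b).erase v).erase y) (hNz : G.N S z = {y, t}) (hty : t ≠ y)
    (hat : G.adj a t) (hdt : G.deg S t = 3) (hd2 : 3 ≤ G.deg S y2)
    (hC : y2 ∉ G.C6V ((S \ {a, v}) \ {b, y, z, t})) : G.F S * QQ ^ G.phi S ≤ bet := by
  obtain ⟨haS, hbS, hyS, hzS, hva, hvb, hby, hyz⟩ := h.mem
  obtain ⟨nva, nvb, nvz, nya, nyb, nyz, nza⟩ := h.ne
  obtain ⟨naya, nazv, naza, nazb, navy⟩ := h.nadj
  obtain ⟨htS, hzt⟩ := BG.mem_N.1 (show t ∈ G.N S z by rw [hNz]; simp)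
  obtain ⟨hy2y, hy2v⟩ := mem_erase.1 hy2
  have hyv : y ∈ (G.N S b).erase v := mem_erase.2 ⟨h.yv, h.hy⟩
  have htv : t ≠ v := by
    rintro rfl
    exact nazv hzt
  have htx : t ∈ (G.N S a).erase v := mem_erase.2 ⟨htv, BG.mem_N.2 ⟨htS, hat⟩⟩
  obtain ⟨hbT, hNb, -⟩ := BG.side_b h.hv h.ab h.Nv
  obtain ⟨hyT, -, hNy, -⟩ := BG.side_y h.hv h.ab h.Nv hyv
  obtain ⟨-, -, -, hdy2⟩ := BG.side_y h.hv h.ab h.Nv hy2v
  obtain ⟨hzT, -, -, -, -, hNzT, -⟩ := BG.side_z h.hv h.ab h.Nv hyv h.Ny h.zb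
  obtain ⟨htT, hNt, -⟩ := BG.side_x h.hv h.ab h.Nv htx
  have hNb' : G.N (S \ {a, v}) b = {y2, y} := by
    rw [hNb]
    symm
    apply eq_of_subset_of_card_le
    · intro x hx
      rw [mem_insert, mem_singleton] at hx
      rcases hx with rfl | rfl
      · exact hy2v
      · exact hyv
    · have h1 := card_erase_add_one (BG.mem_N.2 ⟨h.hv, G.symm _ _ hvb⟩ : v ∈ G.N S b)
      rw [card_pair hy2y]
      unfold BG.deg at hb
      omega
  obtain ⟨w, hwz, hNt'⟩ : ∃ w, w ≠ z ∧ G.N (S \ {a, v}) t = {z, w} := by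
    obtain ⟨c, d, hcd, hcz, hdz, he⟩ := BG.nbr3 hdt (BG.mem_N.2 ⟨hzS, G.symm _ _ hzt⟩)
    have haN : a ∈ G.N S t := BG.mem_N.2 ⟨haS, G.symm _ _ hat⟩
    rw [he] at haN
    simp only [mem_insert, mem_singleton] at haN
    rcases haN with haN | haN | haN
    · exact absurd haN.symm nza
    · refine ⟨d, hdz, ?_⟩
      rw [hNt, he]
      ext x
      simp only [mem_erase, mem_insert, mem_singleton]
      constructor
      · rintro ⟨h1, h2 | h2 | h2⟩
        · exact Or.inl h2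
        · exact absurd (h2.trans haN.symm) h1
        · exact Or.inr h2
      · rintro (h1 | h1)
        · exact ⟨h1 ▸ nza, Or.inl h1⟩
        · refine ⟨?_, Or.inr (Or.inr h1)⟩
          rw [h1, haN]
          exact hcd.symm
    · refine ⟨c, hcz, ?_⟩
      rw [hNt, he]
      ext x
      simp only [mem_erase, mem_insert, mem_singleton]
      constructor
      · rintro ⟨h1, h2 | h2 | h2⟩
        · exact Or.inl h2
        · exact Or.inr h2
        · exact absurd (h2.trans haN.symm) h1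
      · rintro (h1 | h1)
        · exact ⟨h1 ▸ nza, Or.inl h1⟩
        · refine ⟨?_, Or.inr (Or.inl h1)⟩
          rw [h1, haN]
          exact hcd
  have hP : G.Gh (S \ {a, v}) ≤ b22 :=
    (IH _ (BG.side_lt h.hv)).P4 y2 b y z t w hbT hyT hzT htT hNb' (by rw [hNy, h.Ny])
      (by rw [hNzT, hNz]) hNt' hy2y h.zb.symm hty.symm hwz.symm (by rw [hdy2]; exact hd2) hC
  have h1 := (BG.side_clean3 hI h.hv h.ab h.Nv ha hb hcl hP).2 ⟨t, htx, hdt⟩
  have h2 := BG.T8x (k := 6) hI h ha hb hcl hy2 hNz hty (IH _ h.bal.2.2).A (by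
    rw [hdt, dl_three]
    have := dl_le_one hd2
    push_cast
    omega)
  have h3 := num_T8d
  rw [BG.two_Q h.hv h.ab h.Nv, ha, hb, yy_cube]
  linarith

end Pool.Agent.CFree
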