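import Pool.Agent.Lib_MP_6af485_kt.KT8C
import Pool.Agent.Lib_MP_6af485_co.StepD

/-!
# MP_6af485_co, `k = 3`: the remaining case of a vertex of degree two

As in `KT8A`, `deg z = 2`, `N S z = {y, t}`, `t` adjacent to `a`, `deg t = 3`, `deg y2 ≥ 3`, `T' = S \ {a, v}`.
`v - a - t - z - y - b - v` is a hexagon. Let `N S a = {v, t, x}`, `N S t = {z, a, w}`.

`T8e`: `K` a 6-cycle component of `T' \ {b, y, z, t}`, `y2 ∈ K`. Let `H = {v, a, b, y, z, t}`, so
`T' \ {b, y, z, t} = S \ H`, `H` is balanced (three vertices of each colour). The vertices outside of `H` adjacent to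
`H` are `x` (to `a`), `w` (to `t`), `y2` (to `b`). By `Irr.attach` two of them are in `K`; if `S \ (K ∪ H)` were nonempty
then two of them would be in it (`Irr.rest`): contradiction. So `S = K ∪ H`, `x, w, y2 ∈ K`.
`T8e_phi`: `v, y, z` have degree two, `a, b, t` degree three, `x, w, y2 ∈ K` degree three (each of them has exactly one
neighbour in `H`; they are different: `x ≠ y2` (`v` and `x` would have the common neighbours `a, b`), `w` has the other
colour), the three others in `K` degree two: `phi S = 6 * 2 + 6 = 18`.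
`T8e_F`: `F T' ≤ 1 / 2 + yy ^ 5`: `BG.pair` in `T' = S \ {a, v}` with `v1 = y`, `v2 = z`, `p = b`, `q = t`:
`F T' = yy ^ 2 * F (T' \ {z, y}) + yy ^ 3 * F (T' \ {t, z, b, y})`; the last factor is at most one (`BG.main`, `StepD`).
In `T' \ {z, y}` the vertex `b` has the only neighbour `y2`, which has degree three: `BG.forced`:
`F = yy ^ 2 * F (T' \ {z, y, b, y2})`, and in that graph `t` has the only neighbour `w` of degree at least two (`w` has
three neighbours in `S`: `t` and two in `K`; at most `y2` of them is removed), so `F ≤ yy` (`BG.forced` and `BG.main`).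
Together `yy ^ 2 * (yy ^ 2 * yy) + 1 / 2`.
`T8e`: `two_Q`, first term `(1 / 2 + yy ^ 5) * QQ ^ 18`, second term: `T8x` with `k = 4`, `B = 1` (`dl y2 = dl t = -1`):
`num_T8e`.
-/

set_option autoImplicit false

namespace Pool.Agent.CFree

open Finset

variable {V : Type} [Fintype V] [DecidableEq V] {G : BG V}

private theorem kt8e_mem {v a b y z t x : V} :
    x ∈ ({v, a, b, y, z, t} : Finset V) ↔ x = v ∨ x = a ∨ x = b ∨ x = y ∨ x = z ∨ x = t := by
  simp only [mem_insert, mem_singleton]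

private theorem kt8e_not {v a b y z t x : V} :
    x ∉ ({v, a, b, y, z, t} : Finset V) ↔ x ≠ v ∧ x ≠ a ∧ x ≠ b ∧ x ≠ y ∧ x ≠ z ∧ x ≠ t := by
  rw [kt8e_mem]
  simp only [not_or]

private theorem kt8e_deg {S R : Finset V} {w r0 : V} (hR : r0 ∈ R) (hS : r0 ∈ S) (h0 : G.adj w r0)
    (h : ∀ r ∈ R, G.adj w r → r = r0) : G.deg S w = G.deg (S \ R) w + 1 := by
  have h1 := BG.deg_sdiff_ge (G := G) (S := S) (R := R) (w := w) (r0 := r0) h
  have h2 : G.deg (S \ R) w < G.deg S w := by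
    unfold BG.deg
    rw [BG.N_sdiff]
    apply card_lt_card
    refine ⟨sdiff_subset, fun hh => ?_⟩
    have := hh (BG.mem_N.2 ⟨hS, h0⟩)
    exact (mem_sdiff.1 this).2 hR
  omega

private theorem kt8e_pick {a b t x y2 w r u : V} (h : (r = a ∧ u = x) ∨ (r = b ∧ u = y2) ∨ (r = t ∧ u = w)) :
    u = x ∨ u = y2 ∨ u = w := by
  rcases h with e | e | e
  · exact Or.inl e.2
  · exact Or.inr (Or.inl e.2)
  · exact Or.inr (Or.inr e.2)

private theorem kt8e_four {k1 k2 w1 w2 x y2 w : V} (q1 : k1 = x ∨ k1 = y2 ∨ k1 = w)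
    (q2 : k2 = x ∨ k2 = y2 ∨ k2 = w) (q3 : w1 = x ∨ w1 = y2 ∨ w1 = w) (q4 : w2 = x ∨ w2 = y2 ∨ w2 = w)
    (hk12 : k1 ≠ k2) (hw12 : w1 ≠ w2) (n11 : k1 ≠ w1) (n12 : k1 ≠ w2) (n21 : k2 ≠ w1) (n22 : k2 ≠ w2) : False := by
  rcases q1 with e1 | e1 | e1 <;> rcases q2 with e3 | e3 | e3 <;> rcases q3 with e4 | e4 | e4 <;>
    rcases q4 with e5 | e5 | e5 <;>
    first
      | exact hk12 (e1.trans e3.symm)
      | exact hw12 (e4.trans e5.symm)
      | exact n11 (e1.trans e4.symm)
      | exact n12 (e1.trans e5.symm)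
      | exact n21 (e3.trans e4.symm)
      | exact n22 (e3.trans e5.symm)

/-- the structure of the graph -/
private theorem kt8e_core {S : Finset V} {v a b y z t y2 : V}
    (hI : G.Irr S) (h : G.R4 S v a b y z) (ha : G.deg S a = 3)
    (hb : G.deg S b = 3) (hy2 : y2 ∈ ((G.N S b).erase v).erase y) (hNz : G.N S z = {y, t}) (hty : t ≠ y)
    (hat : G.adj a t) (hdt : G.deg S t = 3) (hC : y2 ∈ G.C6V ((S \ {a, v}) \ {b, y, z, t})) :
    ∃ (x w : V) (K : Finset V), G.N S t = {z, a, w} ∧ G.N S b = {v, y, y2} ∧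
      G.IsC6 (S \ {v, a, b, y, z, t}) K ∧ x ∈ K ∧ w ∈ K ∧ y2 ∈ K ∧ x ≠ y2 ∧ x ≠ w ∧ y2 ≠ w ∧
      S = K ∪ {v, a, b, y, z, t} ∧ G.adj x a ∧ G.adj w t ∧ G.adj y2 b ∧
      (∀ u ∈ S \ {v, a, b, y, z, t}, ∀ r ∈ ({v, a, b, y, z, t} : Finset V), G.adj u r →
        (r = a ∧ u = x) ∨ (r = b ∧ u = y2) ∨ (r = t ∧ u = w)) := by
  obtain ⟨haS, hbS, hyS, hzS, hva, hvb, hby, hyz⟩ := h.mem
  obtain ⟨nva, nvb, nvz, nya, nyb, nyz, nza⟩ := h.ne
  obtain ⟨dya, dzv, dza, dzb, dvy⟩ := h.nadj
  obtain ⟨htS, hzt⟩ := BG.mem_N.1 (show t ∈ G.N S z by rw [hNz]; simp)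
  have htv : t ≠ v := by
    intro e
    rw [e] at hzt
    exact dzv hzt
  have hab := h.ab
  have hyv := h.yv
  have hzb := h.zb
  have cyv : G.col y = G.col v := BG.col_path (G.symm _ _ hby) (G.symm _ _ hvb)
  have ctv : G.col t = G.col v := BG.col_path (G.symm _ _ hat) (G.symm _ _ hva)
  have cab : G.col a = G.col b := BG.col_common hva hvb
  have czb : G.col z = G.col b := BG.col_path (G.symm _ _ hyz) (G.symm _ _ hby)
  have nta : t ≠ a := (BG.ne_of_adj hat).symm
  have ntz : t ≠ z := (BG.ne_of_adj hzt).symm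
  have dtb : ¬ G.adj t b := fun e => hab (G.c4 t v a b htv (G.symm _ _ hat) hva e hvb)
  have ntb : t ≠ b := by
    intro e
    rw [e] at hzt
    exact dzb hzt
  -- x
  have hvNa : v ∈ G.N S a := BG.mem_N.2 ⟨h.hv, G.symm _ _ hva⟩
  have htNa : t ∈ (G.N S a).erase v := mem_erase.2 ⟨htv, BG.mem_N.2 ⟨htS, hat⟩⟩
  obtain ⟨x, hx⟩ : ∃ x, ((G.N S a).erase v).erase t = {x} := by
    rw [← card_eq_one]
    have e1 := card_erase_add_one hvNa
    have e2 := card_erase_add_one htNa
    unfold BG.deg at ha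
    omega
  have hxm : x ∈ ((G.N S a).erase v).erase t := by rw [hx, mem_singleton]
  obtain ⟨hxt, hxv, hxS, hax⟩ : x ≠ t ∧ x ≠ v ∧ x ∈ S ∧ G.adj a x := by
    rw [mem_erase, mem_erase, BG.mem_N] at hxm
    exact ⟨hxm.1, hxm.2.1, hxm.2.2.1, hxm.2.2.2⟩
  -- w
  have hzNt : z ∈ G.N S t := BG.mem_N.2 ⟨hzS, G.symm _ _ hzt⟩
  have haNt : a ∈ (G.N S t).erase z := mem_erase.2 ⟨nza.symm, BG.mem_N.2 ⟨haS, G.symm _ _ hat⟩⟩
  obtain ⟨w, hw⟩ : ∃ w, ((G.N S t).erase z).erase a = {w} := by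
    rw [← card_eq_one]
    have e1 := card_erase_add_one hzNt
    have e2 := card_erase_add_one haNt
    unfold BG.deg at hdt
    omega
  have hwm : w ∈ ((G.N S t).erase z).erase a := by rw [hw, mem_singleton]
  obtain ⟨hwa, hwz, hwS, htw⟩ : w ≠ a ∧ w ≠ z ∧ w ∈ S ∧ G.adj t w := by
    rw [mem_erase, mem_erase, BG.mem_N] at hwm
    exact ⟨hwm.1, hwm.2.1, hwm.2.2.1, hwm.2.2.2⟩
  -- y2
  have hvNb : v ∈ G.N S b := BG.mem_N.2 ⟨h.hv, G.symm _ _ hvb⟩
  have hyNb : y ∈ (G.N S b).erase v := mem_erase.2 ⟨hyv, h.hy⟩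
  obtain ⟨y2', hy2'⟩ : ∃ w, ((G.N S b).erase v).erase y = {w} := by
    rw [← card_eq_one]
    have e1 := card_erase_add_one hvNb
    have e2 := card_erase_add_one hyNb
    unfold BG.deg at hb
    omega
  have e2 : y2 = y2' := by
    rw [hy2', mem_singleton] at hy2
    exact hy2
  rw [← e2] at hy2'
  obtain ⟨h2y, h2v, h2S, hb2⟩ : y2 ≠ y ∧ y2 ≠ v ∧ y2 ∈ S ∧ G.adj b y2 := by
    rw [mem_erase, mem_erase, BG.mem_N] at hy2
    exact ⟨hy2.1, hy2.2.1, hy2.2.2.1, hy2.2.2.2⟩
  have hNt : G.N S t = {z, a, w} := by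
    rw [← insert_erase hzNt, ← insert_erase haNt, hw]
  have hNb : G.N S b = {v, y, y2} := by
    rw [← insert_erase hvNb, ← insert_erase hyNb, hy2']
  have hNa : G.N S a = {v, t, x} := by
    rw [← insert_erase hvNa, ← insert_erase htNa, hx]
  -- the three vertices are not in H
  have hxH : x ∉ ({v, a, b, y, z, t} : Finset V) := by
    rw [kt8e_not]
    refine ⟨hxv, (BG.ne_of_adj hax).symm, ?_, ?_, ?_, hxt⟩
    · intro e; rw [e] at hax; exact BG.nadj_col cab hax
    · intro e; rw [e] at hax; exact dya (G.symm _ _ hax)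
    · intro e; rw [e] at hax; exact dza (G.symm _ _ hax)
  have hwH : w ∉ ({v, a, b, y, z, t} : Finset V) := by
    rw [kt8e_not]
    refine ⟨?_, hwa, ?_, ?_, hwz, (BG.ne_of_adj htw).symm⟩
    · intro e; rw [e] at htw; exact BG.nadj_col ctv htw
    · intro e; rw [e] at htw; exact dtb htw
    · intro e; rw [e] at htw; exact BG.nadj_col (ctv.trans cyv.symm) htw
  have h2H : y2 ∉ ({v, a, b, y, z, t} : Finset V) := by
    rw [kt8e_not]
    refine ⟨h2v, ?_, (BG.ne_of_adj hb2).symm, h2y, ?_, ?_⟩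
    · intro e; rw [e] at hb2; exact BG.nadj_col cab.symm hb2
    · intro e; rw [e] at hb2; exact dzb (G.symm _ _ hb2)
    · intro e; rw [e] at hb2; exact dtb (G.symm _ _ hb2)
  have out : ∀ u ∈ S \ {v, a, b, y, z, t}, ∀ r ∈ ({v, a, b, y, z, t} : Finset V), G.adj u r →
      (r = a ∧ u = x) ∨ (r = b ∧ u = y2) ∨ (r = t ∧ u = w) := by
    intro u hu r hr hur
    obtain ⟨huS, huH⟩ := mem_sdiff.1 hu
    rw [kt8e_not] at huH
    obtain ⟨u1, u2, u3, u4, u5, u6⟩ := huH
    have hm : u ∈ G.N S r := BG.mem_N.2 ⟨huS, G.symm _ _ hur⟩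
    rw [kt8e_mem] at hr
    rcases hr with rfl | rfl | rfl | rfl | rfl | rfl
    · rw [h.Nv, mem_insert, mem_singleton] at hm
      tauto
    · rw [hNa, mem_insert, mem_insert, mem_singleton] at hm
      tauto
    · rw [hNb, mem_insert, mem_insert, mem_singleton] at hm
      tauto
    · rw [h.Ny, mem_insert, mem_singleton] at hm
      tauto
    · rw [hNz, mem_insert, mem_singleton] at hm
      tauto
    · rw [hNt, mem_insert, mem_insert, mem_singleton] at hm
      tauto
  have hx2 : x ≠ y2 := by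
    intro e
    refine hab (G.c4 v x a b hxv.symm hva (G.symm _ _ hax) hvb ?_)
    rw [e]
    exact G.symm _ _ hb2
  have cxv : G.col x = G.col v := BG.col_path (G.symm _ _ hax) (G.symm _ _ hva)
  have c2v : G.col y2 = G.col v := BG.col_path (G.symm _ _ hb2) (G.symm _ _ hvb)
  have cwt : G.col w ≠ G.col v := by
    rw [← ctv]
    exact fun e => BG.nadj_col e.symm htw
  have hxw : x ≠ w := by
    intro e
    rw [e] at cxv
    exact cwt cxv
  have h2w : y2 ≠ w := by
    intro e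
    rw [e] at c2v
    exact cwt c2v
  -- K
  obtain ⟨K, hK, h2K⟩ := BG.mem_C6V.1 hC
  have eH : (S \ {a, v}) \ {b, y, z, t} = S \ {v, a, b, y, z, t} := by
    ext u
    simp only [mem_sdiff, mem_insert, mem_singleton]
    tauto
  rw [eH] at hK
  have hHS : ({v, a, b, y, z, t} : Finset V) ⊆ S := by
    intro u hu
    rw [kt8e_mem] at hu
    rcases hu with rfl | rfl | rfl | rfl | rfl | rfl
    · exact h.hv
    · exact haS
    · exact hbS
    · exact hyS
    · exact hzS
    · exact htS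
  have hHne : ({v, a, b, y, z, t} : Finset V).Nonempty := insert_nonempty _ _
  have hHb : G.bal ({v, a, b, y, z, t} : Finset V) := by
    have e : ({v, a, b, y, z, t} : Finset V) = ({v, a} ∪ {b, y}) ∪ {z, t} := by
      ext u
      simp only [mem_union, mem_insert, mem_singleton]
      tauto
    rw [e]
    refine BG.bal_union (BG.bal_union (BG.bal_two hva) (BG.bal_two hby) ?_) (BG.bal_two hzt) ?_
    · rw [disjoint_left]
      intro u hu hu'
      rw [mem_insert, mem_singleton] at hu hu'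
      rcases hu with rfl | rfl <;> rcases hu' with e' | e'
      · exact nvb e'
      · exact hyv e'.symm
      · exact hab e'
      · exact nya e'.symm
    · rw [disjoint_left]
      intro u hu hu'
      rw [mem_union, mem_insert, mem_singleton, mem_insert, mem_singleton] at hu
      rw [mem_insert, mem_singleton] at hu'
      rcases hu with (rfl | rfl) | (rfl | rfl) <;> rcases hu' with e' | e'
      · exact nvz e'
      · exact htv e'.symm
      · exact nza e'.symm
      · exact nta e'.symm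
      · exact hzb e'.symm
      · exact ntb e'.symm
      · exact nyz e'
      · exact hty e'.symm
  obtain ⟨k1, hk1, k2, hk2, hk12, ⟨r1, hr1, ar1⟩, r2, hr2, ar2⟩ := hI.attach hHS hHne hK
  have hk1' := out k1 (hK.1 hk1) r1 hr1 ar1
  have hk2' := out k2 (hK.1 hk2) r2 hr2 ar2
  have hU : S \ (K ∪ {v, a, b, y, z, t}) = ∅ := by
    by_contra hne
    obtain ⟨w1, hw1, w2, hw2, hw12, ⟨s1, hs1, as1⟩, s2, hs2, as2⟩ :=
      hI.rest hHS hHne hHb hK (nonempty_iff_ne_empty.2 hne)
    obtain ⟨hw1S, hw1n⟩ := mem_sdiff.1 hw1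
    obtain ⟨hw2S, hw2n⟩ := mem_sdiff.1 hw2
    rw [mem_union, not_or] at hw1n hw2n
    have hw1' := out w1 (mem_sdiff.2 ⟨hw1S, hw1n.2⟩) s1 hs1 as1
    have hw2' := out w2 (mem_sdiff.2 ⟨hw2S, hw2n.2⟩) s2 hs2 as2
    have n11 : k1 ≠ w1 := fun e => hw1n.1 (e ▸ hk1)
    have n12 : k1 ≠ w2 := fun e => hw2n.1 (e ▸ hk1)
    have n21 : k2 ≠ w1 := fun e => hw1n.1 (e ▸ hk2)
    have n22 : k2 ≠ w2 := fun e => hw2n.1 (e ▸ hk2)
    exact kt8e_four (kt8e_pick hk1') (kt8e_pick hk2') (kt8e_pick hw1') (kt8e_pick hw2') hk12 hw12 n11 n12 n21 n22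
  have hS : S = K ∪ {v, a, b, y, z, t} := by
    refine Subset.antisymm (sdiff_eq_empty_iff_subset.1 hU) (union_subset (hK.1.trans sdiff_subset) hHS)
  have hin : ∀ u ∈ S, u ∉ ({v, a, b, y, z, t} : Finset V) → u ∈ K := by
    intro u hu hn
    rw [hS, mem_union] at hu
    rcases hu with hu | hu
    · exact hu
    · exact absurd hu hn
  exact ⟨x, w, K, hNt, hNb, hK, hin x hxS hxH, hin w hwS hwH, h2K, hx2, hxw, h2w, hS, G.symm _ _ hax,
    G.symm _ _ htw, G.symm _ _ hb2, out⟩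

private theorem kt8e_sum {f : V → ℕ} {v a b y z t : V} (h1 : v ≠ a) (h2 : v ≠ b) (h3 : v ≠ y) (h4 : v ≠ z) (h5 : v ≠ t)
    (h6 : a ≠ b) (h7 : a ≠ y) (h8 : a ≠ z) (h9 : a ≠ t) (h10 : b ≠ y) (h11 : b ≠ z) (h12 : b ≠ t)
    (h13 : y ≠ z) (h14 : y ≠ t) (h15 : z ≠ t) :
    ∑ x ∈ ({v, a, b, y, z, t} : Finset V), f x = f v + f a + f b + f y + f z + f t := by
  rw [sum_insert (by simp [h1, h2, h3, h4, h5]), sum_insert (by simp [h6, h7, h8, h9]),
    sum_insert (by simp [h10, h11, h12]), sum_insert (by simp [h13, h14]), sum_pair h15]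
  ring

/-- the exceptional graph with twelve vertices -/
theorem BG.T8e_phi {S : Finset V} {v a b y z t y2 : V}
    (hI : G.Irr S) (h : G.R4 S v a b y z) (ha : G.deg S a = 3)
    (hb : G.deg S b = 3) (hy2 : y2 ∈ ((G.N S b).erase v).erase y) (hNz : G.N S z = {y, t}) (hty : t ≠ y)
    (hat : G.adj a t) (hdt : G.deg S t = 3) (hC : y2 ∈ G.C6V ((S \ {a, v}) \ {b, y, z, t})) :
    G.phi S = 18 ∧ G.deg S y2 = 3 := by
  obtain ⟨x, w, K, hNt, hNb, hK, hxK, hwK, h2K, hx2, hxw, h2w, hS, axa, awt, a2b, out⟩ :=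
    kt8e_core hI h ha hb hy2 hNz hty hat hdt hC
  obtain ⟨haS, hbS, hyS, hzS, hva, hvb, hby, hyz⟩ := h.mem
  obtain ⟨nva, nvb, nvz, nya, nyb, nyz, nza⟩ := h.ne
  obtain ⟨dya, dzv, dza, dzb, dvy⟩ := h.nadj
  obtain ⟨htS, hzt⟩ := BG.mem_N.1 (show t ∈ G.N S z by rw [hNz]; simp)
  have htv : t ≠ v := by
    intro e
    rw [e] at hzt
    exact dzv hzt
  have ntb : t ≠ b := by
    intro e
    rw [e] at hzt
    exact dzb hzt
  have nta : t ≠ a := (BG.ne_of_adj hat).symm
  have ntz : t ≠ z := (BG.ne_of_adj hzt).symm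
  have hdv : G.deg S v = 2 := by unfold BG.deg; rw [h.Nv, card_pair h.ab]
  have hdy : G.deg S y = 2 := by unfold BG.deg; rw [h.Ny, card_pair h.zb.symm]
  have hdz : G.deg S z = 2 := by unfold BG.deg; rw [hNz, card_pair hty.symm]
  have mH : ∀ u, u = a ∨ u = b ∨ u = t → u ∈ ({v, a, b, y, z, t} : Finset V) := by
    intro u hu
    rw [kt8e_mem]
    tauto
  have hdx : G.deg S x = 3 := by
    rw [kt8e_deg (mH a (Or.inl rfl)) haS axa (fun r hr har => by
      rcases out x (hK.1 hxK) r hr har with e | e | e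
      · exact e.1
      · exact absurd e.2 hx2
      · exact absurd e.2 hxw), (hK.2.2 x hxK).1]
  have hd2 : G.deg S y2 = 3 := by
    rw [kt8e_deg (mH b (Or.inr (Or.inl rfl))) hbS a2b (fun r hr har => by
      rcases out y2 (hK.1 h2K) r hr har with e | e | e
      · exact absurd e.2.symm hx2
      · exact e.1
      · exact absurd e.2 h2w), (hK.2.2 y2 h2K).1]
  have hdw : G.deg S w = 3 := by
    rw [kt8e_deg (mH t (Or.inr (Or.inr rfl))) htS awt (fun r hr har => by
      rcases out w (hK.1 hwK) r hr har with e | e | e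
      · exact absurd e.2.symm hxw
      · exact absurd e.2.symm h2w
      · exact e.1), (hK.2.2 w hwK).1]
  have hdo : ∀ u ∈ ((K.erase x).erase y2).erase w, G.deg S u = 2 := by
    intro u hu
    obtain ⟨huw, hu⟩ := mem_erase.1 hu
    obtain ⟨hu2, hu⟩ := mem_erase.1 hu
    obtain ⟨hux, huK⟩ := mem_erase.1 hu
    rw [← (hK.2.2 u huK).1]
    refine (BG.deg_sdiff_eq ?_).symm
    intro r hr har
    rcases out u (hK.1 huK) r hr har with e | e | e
    · exact hux e.2
    · exact hu2 e.2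
    · exact huw e.2
  have hd : Disjoint K ({v, a, b, y, z, t} : Finset V) := by
    rw [disjoint_left]
    intro u hu hu'
    exact (mem_sdiff.1 (hK.1 hu)).2 hu'
  have s1 : ∑ u ∈ ({v, a, b, y, z, t} : Finset V), hh (G.deg S u) = 9 := by
    rw [kt8e_sum nva nvb h.yv.symm nvz htv.symm h.ab nya.symm nza.symm nta.symm nyb.symm h.zb.symm ntb.symm
      nyz hty.symm ntz.symm, hdv, ha, hb, hdy, hdz, hdt, hh_two, hh_three]
  have m2 : y2 ∈ K.erase x := mem_erase.2 ⟨hx2.symm, h2K⟩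
  have m3 : w ∈ (K.erase x).erase y2 := mem_erase.2 ⟨h2w.symm, mem_erase.2 ⟨hxw.symm, hwK⟩⟩
  have s2 : ∑ u ∈ K, hh (G.deg S u) = 9 := by
    have c1 := card_erase_add_one hxK
    have c2 := card_erase_add_one m2
    have c3 := card_erase_add_one m3
    have c0 := hK.2.1
    rw [← add_sum_erase K _ hxK, ← add_sum_erase _ _ m2, ← add_sum_erase _ _ m3, hdx, hd2, hdw,
      sum_congr rfl (fun u hu => by rw [hdo u hu]), sum_const, hh_two, hh_three]
    have c4 : (((K.erase x).erase y2).erase w).card = 3 := by omega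
    rw [c4]
    rfl
  refine ⟨?_, hd2⟩
  unfold BG.phi
  have s3 : ∑ u ∈ S, hh (G.deg S u) = ∑ u ∈ K ∪ {v, a, b, y, z, t}, hh (G.deg S u) := sum_congr hS fun _ _ => rfl
  rw [s3, sum_union hd, s1, s2]

theorem BG.T8e_F {S : Finset V} {v a b y z t y2 : V}
    (hI : G.Irr S) (h : G.R4 S v a b y z) (ha : G.deg S a = 3)
    (hb : G.deg S b = 3) (hy2 : y2 ∈ ((G.N S b).erase v).erase y) (hNz : G.N S z = {y, t}) (hty : t ≠ y)
    (hat : G.adj a t) (hdt : G.deg S t = 3) (hC : y2 ∈ G.C6V ((S \ {a, v}) \ {b, y, z, t})) :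
    G.F (S \ {a, v}) ≤ 1 / 2 + yy ^ 5 := by
  have hd2 := (BG.T8e_phi hI h ha hb hy2 hNz hty hat hdt hC).2
  obtain ⟨x, w, K, hNt, hNb, hK, hxK, hwK, h2K, hx2, hxw, h2w, hS, axa, awt, a2b, out⟩ :=
    kt8e_core hI h ha hb hy2 hNz hty hat hdt hC
  obtain ⟨haS, hbS, hyS, hzS, hva, hvb, hby, hyz⟩ := h.mem
  obtain ⟨nva, nvb, nvz, nya, nyb, nyz, nza⟩ := h.ne
  obtain ⟨dya, dzv, dza, dzb, dvy⟩ := h.nadj
  obtain ⟨htS, hzt⟩ := BG.mem_N.1 (show t ∈ G.N S z by rw [hNz]; simp)
  have htv : t ≠ v := by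
    intro e
    rw [e] at hzt
    exact dzv hzt
  have ntb : t ≠ b := by
    intro e
    rw [e] at hzt
    exact dzb hzt
  have nta : t ≠ a := (BG.ne_of_adj hat).symm
  have ntz : t ≠ z := (BG.ne_of_adj hzt).symm
  have hab := h.ab
  have hyv := h.yv
  have hzb := h.zb
  have h2out := kt8e_not.1 (mem_sdiff.1 (hK.1 h2K)).2
  have hwout := kt8e_not.1 (mem_sdiff.1 (hK.1 hwK)).2
  -- the pair
  have N1 : G.N (S \ {a, v}) y = {z, b} := by
    rw [BG.N_sdiff, h.Ny]
    ext u
    simp only [mem_sdiff, mem_insert, mem_singleton, not_or]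
    constructor
    · rintro ⟨e | e, _⟩
      · exact Or.inr e
      · exact Or.inl e
    · rintro (rfl | rfl)
      · exact ⟨Or.inr rfl, nza, nvz.symm⟩
      · exact ⟨Or.inl rfl, hab.symm, nvb.symm⟩
  have N2 : G.N (S \ {a, v}) z = {y, t} := by
    rw [BG.N_sdiff, hNz]
    ext u
    simp only [mem_sdiff, mem_insert, mem_singleton, not_or]
    constructor
    · rintro ⟨e, _⟩
      exact e
    · rintro (rfl | rfl)
      · exact ⟨Or.inl rfl, nya, hyv⟩
      · exact ⟨Or.inr rfl, nta, htv⟩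
  have hyR : y ∉ ({a, v} : Finset V) := by
    simp only [mem_insert, mem_singleton, not_or]
    exact ⟨nya, hyv⟩
  have hzR : z ∉ ({a, v} : Finset V) := by
    simp only [mem_insert, mem_singleton, not_or]
    exact ⟨nza, nvz.symm⟩
  have hpair := BG.pair N1 N2 hzb hty.symm hyS hyR hzS hzR
  have db : G.deg (S \ {a, v}) b = 2 := by
    have e := kt8e_deg (G := G) (S := S) (R := {a, v}) (w := b) (r0 := v) (by simp) h.hv (G.symm _ _ hvb)
      (fun r hr har => by
        rw [mem_insert, mem_singleton] at hr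
        rcases hr with rfl | rfl
        · exact absurd har (BG.nadj_common hvb hva)
        · rfl)
    omega
  have dt : G.deg (S \ {a, v}) t = 2 := by
    have e := kt8e_deg (G := G) (S := S) (R := {a, v}) (w := t) (r0 := a) (by simp) haS (G.symm _ _ hat)
      (fun r hr har => by
        rw [mem_insert, mem_singleton] at hr
        rcases hr with rfl | rfl
        · rfl
        · exact absurd har (BG.nadj_common hat (G.symm _ _ hva)))
    omega
  rw [db, dt] at hpair
  -- the first forced edge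
  have N3 : G.N (S \ (insert z (insert y {a, v}))) b = {y2} := by
    rw [BG.N_sdiff, hNb]
    ext u
    simp only [mem_sdiff, mem_insert, mem_singleton, not_or]
    constructor
    · rintro ⟨e | e | e, g1, g2, g3, g4⟩
      · exact absurd e g4
      · exact absurd e g2
      · exact e
    · rintro rfl
      exact ⟨Or.inr (Or.inr rfl), h2out.2.2.2.2.1, h2out.2.2.2.1, h2out.2.1, h2out.1⟩
  have hbR : b ∉ insert z (insert y ({a, v} : Finset V)) := by
    simp only [mem_insert, mem_singleton, not_or]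
    exact ⟨hzb.symm, nyb.symm, hab.symm, nvb.symm⟩
  have hf1 := BG.forced N3 hbS hbR
  have d2 : G.deg (S \ (insert z (insert y {a, v}))) y2 = 3 := by
    rw [BG.deg_sdiff_eq, hd2]
    intro r hr har
    have hr' : r ∈ ({v, a, b, y, z, t} : Finset V) := by
      rw [kt8e_mem]
      simp only [mem_insert, mem_singleton] at hr
      tauto
    rcases out y2 (hK.1 h2K) r hr' har with e | e | e
    · exact hx2 e.2.symm
    · rw [e.1] at hr
      exact hbR hr
    · exact h2w e.2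
  rw [d2] at hf1
  -- the second forced edge
  have N4 : G.N (S \ (insert y2 (insert b (insert z (insert y {a, v}))))) t = {w} := by
    rw [BG.N_sdiff, hNt]
    ext u
    simp only [mem_sdiff, mem_insert, mem_singleton, not_or]
    constructor
    · rintro ⟨e | e | e, g1, g2, g3, g4, g5, g6⟩
      · exact absurd e g3
      · exact absurd e g5
      · exact e
    · rintro rfl
      exact ⟨Or.inr (Or.inr rfl), h2w.symm, hwout.2.2.1, hwout.2.2.2.2.1, hwout.2.2.2.1, hwout.2.1, hwout.1⟩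
  have htR : t ∉ insert y2 (insert b (insert z (insert y ({a, v} : Finset V)))) := by
    simp only [mem_insert, mem_singleton, not_or]
    exact ⟨h2out.2.2.2.2.2.symm, ntb, ntz, hty, nta, htv⟩
  have dw : 2 ≤ G.deg (S \ (insert y2 (insert b (insert z (insert y {a, v}))))) w := by
    have e1 : G.deg S w = 3 := by
      rw [kt8e_deg (r0 := t) (R := {v, a, b, y, z, t}) (by simp) htS awt (fun r hr har => by
        rcases out w (hK.1 hwK) r hr har with e | e | e
        · exact absurd e.2.symm hxw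
        · exact absurd e.2.symm h2w
        · exact e.1), (hK.2.2 w hwK).1]
    have e2 := BG.deg_sdiff_ge (G := G) (S := S) (R := insert y2 (insert b (insert z (insert y {a, v}))))
      (w := w) (r0 := y2) (fun r hr har => by
        rw [mem_insert] at hr
        rcases hr with e | hr
        · exact e
        · exfalso
          have hr' : r ∈ ({v, a, b, y, z, t} : Finset V) := by
            rw [kt8e_mem]
            simp only [mem_insert, mem_singleton] at hr
            tauto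
          rcases out w (hK.1 hwK) r hr' har with e | e | e
          · exact hxw e.2.symm
          · exact h2w e.2.symm
          · rw [e.1] at hr
            exact htR (mem_insert_of_mem hr))
    omega
  have hf2 := BG.forced N4 htS htR
  have hm1 : G.F (S \ (insert t (insert z (insert b (insert y {a, v}))))) ≤ 1 := (BG.main G _ _ rfl).1
  have hm2 : G.F (S \ (insert w (insert t (insert y2 (insert b (insert z (insert y {a, v}))))))) ≤ 1 :=
    (BG.main G _ _ rfl).1
  have hf3 : G.F (S \ (insert y2 (insert b (insert z (insert y {a, v}))))) ≤ yy := by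
    rw [hf2]
    have p1 : yy ^ (G.deg (S \ (insert y2 (insert b (insert z (insert y {a, v}))))) w - 1) ≤ yy ^ 1 :=
      yy_pow_le (by omega)
    have p2 := G.F_nonneg (S \ (insert w (insert t (insert y2 (insert b (insert z (insert y {a, v})))))))
    calc yy ^ (G.deg (S \ (insert y2 (insert b (insert z (insert y {a, v}))))) w - 1) *
          G.F (S \ (insert w (insert t (insert y2 (insert b (insert z (insert y {a, v})))))))
        ≤ yy ^ 1 * 1 := mul_le_mul p1 hm2 p2 (by have := yy_pos; positivity)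
      _ = yy := by ring
  have hpos := yy_pos
  rw [hpair, hf1]
  have c1 : yy ^ (2 + 2 - 1) = (1 / 2 : ℝ) := yy_cube
  have c2 : (3 - 1 : ℕ) = 2 := rfl
  rw [c1, c2]
  have q1 : yy ^ 2 * (yy ^ 2 * G.F (S \ (insert y2 (insert b (insert z (insert y {a, v})))))) ≤
      yy ^ 2 * (yy ^ 2 * yy) :=
    mul_le_mul_of_nonneg_left (mul_le_mul_of_nonneg_left hf3 (by positivity)) (by positivity)
  have q2 : yy ^ 2 * (yy ^ 2 * yy) = yy ^ 5 := by ring
  linarith

theorem BG.T8e {S : Finset V} {v a b y z t y2 : V} (IH : ∀ T : Finset V, T.card < S.card → G.PP T)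
    (hI : G.Irr S) (h : G.R4 S v a b y z) (ha : G.deg S a = 3)
    (hb : G.deg S b = 3) (hcl : ∀ x ∈ (G.N S a).erase v, 3 ≤ G.deg S x)
    (hy2 : y2 ∈ ((G.N S b).erase v).erase y) (hNz : G.N S z = {y, t}) (hty : t ≠ y)
    (hat : G.adj a t) (hdt : G.deg S t = 3) (hC : y2 ∈ G.C6V ((S \ {a, v}) \ {b, y, z, t})) :
    G.F S * QQ ^ G.phi S ≤ bet := by
  obtain ⟨hphi, hd2⟩ := BG.T8e_phi hI h ha hb hy2 hNz hty hat hdt hC
  have t1 : G.F (S \ {a, v}) * QQ ^ G.phi S ≤ (1 / 2 + yy ^ 5) * QQ ^ 18 := by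
    rw [hphi]
    exact mul_le_mul_of_nonneg_right (BG.T8e_F hI h ha hb hy2 hNz hty hat hdt hC)
      (pow_nonneg QQ_pos.le _)
  have t2 := BG.T8x (k := 4) hI h ha hb hcl hy2 hNz hty (IH _ h.bal.2.2).A (by
    rw [hd2, hdt, dl_three]
    norm_num)
  rw [BG.two_Q h.hv h.ab h.Nv, ha, hb, yy_cube]
  have t3 := num_T8e
  linarith

end Pool.Agent.CFree
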