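import Pool.Agent.Lib_MP_6af485_kt.KT6
import Pool.Agent.Lib_MP_6af485_kt.KT7
import Pool.Agent.Lib_MP_6af485_kt.KT8A
import Pool.Agent.Lib_MP_6af485_kt.KT8D
import Pool.Agent.Lib_MP_6af485_kt.KT8E

/-!
# MP_6af485_co, `k = 3`: a vertex of degree two, neighbours of degree three

If some `x ∈ (N S a).erase v` and some `y ∈ (N S b).erase v` have degree two: `two_Q` and `T6` for both terms
(`yy ^ 3 = 1 / 2`). If neither: `T7`. If only some `y` has degree two: `T8`; if only some `x`: `T8` with the roles of `a`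
and `b` exchanged.
`T8`: `N S y = {b, z}` (`nbr2`). `deg z ≥ 3`: `T8a`. `deg z = 2`: `N S z = {y, t}`; `t` not adjacent to `a` or
`deg t ≥ 4`: `T8b`; otherwise `deg t = 3` (`t ∈ (N S a).erase v`, `t ≠ v` as `z` is not adjacent to `v`),
`((N S b).erase v).erase y = {y2}`, `deg y2 = 2`: `T8c`; otherwise `T8d` or `T8e`.
-/

set_option autoImplicit false

namespace Pool.Agent.CFree

open Finset

variable {V : Type} [Fintype V] [DecidableEq V] {G : BG V}

theorem BG.T8 {S : Finset V} {v a b y : V} (IH : ∀ T : Finset V, T.card < S.card → G.PP T)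
    (hI : G.Irr S) (hmin : ∀ w ∈ S, 2 ≤ G.deg S w) (hv : v ∈ S) (hab : a ≠ b) (hN : G.N S v = {a, b})
    (ha : G.deg S a = 3) (hb : G.deg S b = 3) (hcl : ∀ x ∈ (G.N S a).erase v, 3 ≤ G.deg S x)
    (hy : y ∈ (G.N S b).erase v) (hdy : G.deg S y = 2) : G.F S * QQ ^ G.phi S ≤ bet := by
  obtain ⟨hyv, hyN⟩ := mem_erase.1 hy
  obtain ⟨hyS, hby⟩ := BG.mem_N.1 hyN
  obtain ⟨hbS, hvb⟩ := BG.mem_N.1 (show b ∈ G.N S v by rw [hN]; simp)
  obtain ⟨z, hzb, hNy⟩ := BG.nbr2 hdy (BG.mem_N.2 ⟨hbS, G.symm _ _ hby⟩)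
  have h : G.R4 S v a b y z := ⟨hv, hab, hN, hyN, hyv, hzb, hNy⟩
  obtain ⟨hzS, hyz⟩ := BG.mem_N.1 (show z ∈ G.N S y by rw [hNy]; simp)
  by_cases hz : 3 ≤ G.deg S z
  · exact BG.T8a IH hI h ha hb hcl hz
  · have hz2 : G.deg S z = 2 := by
      have := hmin z hzS
      omega
    obtain ⟨t, hty, hNz⟩ := BG.nbr2 hz2 (BG.mem_N.2 ⟨hyS, G.symm _ _ hyz⟩)
    by_cases ht : ¬ G.adj a t ∨ 4 ≤ G.deg S t
    · exact BG.T8b IH hI h ha hb hcl hNz hty ht
    · push Not at ht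
      obtain ⟨hat, hdt⟩ := ht
      obtain ⟨htS, hzt⟩ := BG.mem_N.1 (show t ∈ G.N S z by rw [hNz]; simp)
      have htv : t ≠ v := by
        rintro rfl
        exact h.nadj.2.1 hzt
      have hdt3 : G.deg S t = 3 := by
        have := hcl t (mem_erase.2 ⟨htv, BG.mem_N.2 ⟨htS, hat⟩⟩)
        omega
      obtain ⟨y2, hy2⟩ : (((G.N S b).erase v).erase y).Nonempty := by
        rw [← card_pos]
        have h1 := card_erase_add_one hy
        have h2 := card_erase_add_one (show v ∈ G.N S b from BG.mem_N.2 ⟨hv, G.symm _ _ hvb⟩)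
        unfold BG.deg at hb
        omega
      have hy2S := (BG.mem_N.1 (mem_erase.1 (mem_erase.1 hy2).2).2).1
      by_cases hd2 : G.deg S y2 = 2
      · exact BG.T8c IH hI hmin h ha hb hcl hy2 hNz hty hat hdt3 hd2
      · have hd3 : 3 ≤ G.deg S y2 := by
          have := hmin y2 hy2S
          omega
        by_cases hC : y2 ∈ G.C6V ((S \ {a, v}) \ {b, y, z, t})
        · exact BG.T8e IH hI h ha hb hcl hy2 hNz hty hat hdt3 hC
        · exact BG.T8d IH hI h ha hb hcl hy2 hNz hty hat hdt3 hd3 hC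

theorem BG.stepB3 {S : Finset V} {v a b : V} (IH : ∀ T : Finset V, T.card < S.card → G.PP T)
    (hI : G.Irr S) (hmin : ∀ w ∈ S, 2 ≤ G.deg S w) (hv : v ∈ S) (hab : a ≠ b) (hN : G.N S v = {a, b})
    (ha : G.deg S a = 3) (hb : G.deg S b = 3) : G.F S * QQ ^ G.phi S ≤ bet := by
  have hN' : G.N S v = {b, a} := by rw [hN, pair_comm]
  have hcl : ∀ c, (¬ ∃ x ∈ (G.N S c).erase v, G.deg S x = 2) → ∀ x ∈ (G.N S c).erase v, 3 ≤ G.deg S x := by
    intro c hc x hx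
    have h1 := hmin x (BG.mem_N.1 (mem_erase.1 hx).2).1
    have h2 : G.deg S x ≠ 2 := fun h => hc ⟨x, hx, h⟩
    omega
  by_cases hx : ∃ x ∈ (G.N S a).erase v, G.deg S x = 2
  · obtain ⟨x, hx', hdx⟩ := hx
    by_cases hy : ∃ y ∈ (G.N S b).erase v, G.deg S y = 2
    · obtain ⟨y, hy', hdy⟩ := hy
      have h1 := BG.T6 IH hI hmin hv hab hN ha hb hy' hdy
      have h2 := BG.T6 IH hI hmin hv hab.symm hN' hb ha hx' hdx
      rw [BG.two_Q hv hab hN, ha, hb, yy_cube]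
      linarith
    · exact BG.T8 IH hI hmin hv hab.symm hN' hb ha (hcl b hy) hx' hdx
  · by_cases hy : ∃ y ∈ (G.N S b).erase v, G.deg S y = 2
    · obtain ⟨y, hy', hdy⟩ := hy
      exact BG.T8 IH hI hmin hv hab hN ha hb (hcl a hx) hy' hdy
    · exact BG.T7 IH hI hv hab hN ha hb (hcl a hx) (hcl b hy)

end Pool.Agent.CFree
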