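import Pool.Agent.Lib_MP_6af485_kt.KR4B
import Pool.Agent.Lib_MP_6af485_kt.KR4C
import Pool.Agent.Lib_MP_6af485_kt.KSideD

/-!
# MP_6af485_co, `k = 3`: a vertex of degree two, neighbours of degree three and four, another vertex of degree two

`deg a = 3`, its neighbours `x ≠ v` have degree at least three, `deg b = 4`, `y` is a neighbour of `b` of degree two with
other neighbour `z`. First term (`yy ^ 3 = 1 / 2`): `side_use` with `k = 6` (`3 + 1 + 2`).

`T4a` (`deg z ≥ 3`): first term: `side_B`; second term: `side_use` (roles of `a`, `b` exchanged) with `side_dirty` and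
`k = 9` (`4 - 1 + 2 * 3`), `num_T4a`.
For `deg z = 2`: first term `side_EEy`; second term: `yy ^ 4 * F (S \ {b, v}) = yy ^ 5 * F T`, `T = S \ {z, y, b, v}`
(`R4.F`), `BG.use` for `T`: the exponent is `7 + ∑ dl (y2, y3) + dl t + 2 |C6V T|` (`R4.phi`), where
`((N S b).erase v).erase y = {y2, y3}`, `(N S z).erase y = {t}`. A 6-cycle component `K` of `T` does not contain `a`
(`R4.a_notin`), so it contains `t` (`R4.meets2`), so `|C6V T| ≤ 6` (`C6V_card_le` with `M = {t}`).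
`T4b`: `deg y2 = 2`: `R4.lam_y2`, exponent at most `7 + 6 + 12 = 25`, `num_T4b`.
`T4c`: `deg y2, deg y3 ≥ 3`: if there is no component the exponent is at most `7 + 1 + 1 + 2`; otherwise `K` contains `t`
and one of `y2, y3` (`R4.meets2`), these have degree two in `T`, so degree three in `S` (`R4.deg_r`) and `dl = -1`; the
exponent is at most `7 - 1 + 1 - 1 + 12 = 18`; `PP.A`, `num_T4c`.
-/

set_option autoImplicit false

namespace Pool.Agent.CFree

open Finset

variable {V : Type} [Fintype V] [DecidableEq V] {G : BG V}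

/-- the first term: `F (S \ {a, v})`, `deg a = 3`, `deg b = 4` -/
private theorem kt4_first {S : Finset V} {v a b : V} (hI : G.Irr S) (hv : v ∈ S) (hab : a ≠ b)
    (hN : G.N S v = {a, b}) (ha : G.deg S a = 3) (hb : G.deg S b = 4)
    (hcl : ∀ x ∈ (G.N S a).erase v, 3 ≤ G.deg S x) {B : ℝ} (hB : G.Gh (S \ {a, v}) ≤ B) :
    G.F (S \ {a, v}) * QQ ^ G.phi S ≤ B * QQ ^ 6 := by
  have hc := BG.side_card hv hN
  refine BG.side_use hI hv hab hN ha.ge hB ?_
  have h1 := sum_dl_le_one hcl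
  rw [ha, hb, dl_ge le_rfl]
  push_cast
  omega

/-- the terms together -/
private theorem kt4_sum {S : Finset V} {v a b y z : V} (h : G.R4 S v a b y z)
    (ha : G.deg S a = 3) (hb : G.deg S b = 4) (hz : G.deg S z = 2) {A B c : ℝ}
    (h1 : G.F (S \ {a, v}) * QQ ^ G.phi S ≤ A) (h2 : G.F (S \ {z, y, b, v}) * QQ ^ G.phi S ≤ B)
    (hn : 1 / 2 * A + yy ^ 5 * B ≤ c) : G.F S * QQ ^ G.phi S ≤ c := by
  rw [BG.two_Q h.hv h.ab h.Nv, ha, hb, yy_cube, h.F, hz]
  have hy : 0 ≤ yy ^ 5 := pow_nonneg yy_pos.le _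
  have e : yy ^ 4 * (yy ^ (2 - 1) * G.F (S \ {z, y, b, v}) * QQ ^ G.phi S) =
      yy ^ 5 * (G.F (S \ {z, y, b, v}) * QQ ^ G.phi S) := by
    rw [show (2 - 1 : ℕ) = 1 from rfl]
    ring
  rw [e]
  have h3 := mul_le_mul_of_nonneg_left h2 hy
  linarith

private theorem kt4_card {S : Finset V} {v a b y z : V} (h : G.R4 S v a b y z)
    (hb : G.deg S b = 4) (hz : G.deg S z = 2) :
    (((G.N S b).erase v).erase y).card = 2 ∧ ((G.N S z).erase y).card = 1 := by
  obtain ⟨_, _, hyS, _, _, hvb, _, hyz⟩ := h.mem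
  have hvN : v ∈ G.N S b := BG.mem_N.2 ⟨h.hv, G.symm _ _ hvb⟩
  have e1 := card_erase_add_one hvN
  have e2 := card_erase_add_one (mem_erase.2 ⟨h.yv, h.hy⟩ : y ∈ (G.N S b).erase v)
  have e3 := card_erase_add_one (BG.mem_N.2 ⟨hyS, G.symm _ _ hyz⟩ : y ∈ G.N S z)
  unfold BG.deg at hb hz
  omega

private theorem kt4_C6 {S : Finset V} {v a b y z : V} (hI : G.Irr S) (h : G.R4 S v a b y z)
    (ha : G.deg S a = 3) (hb : G.deg S b = 4) (hcl : ∀ x ∈ (G.N S a).erase v, 3 ≤ G.deg S x)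
    (hz : G.deg S z = 2) : (G.C6V (S \ {z, y, b, v})).card ≤ 6 := by
  have h1 := BG.C6V_card_le (G := G) (T := S \ {z, y, b, v}) (M := (G.N S z).erase y)
    (fun K hK => (h.meets2 hI hK (h.a_notin ha hcl hK)).2)
  rw [(kt4_card h hb hz).2] at h1
  omega

private theorem kt4_phi {S : Finset V} {v a b y z : V} (h : G.R4 S v a b y z)
    (ha : G.deg S a = 3) (hb : G.deg S b = 4) (hz : G.deg S z = 2) :
    (G.phi S : ℤ) = (G.phi (S \ {z, y, b, v}) : ℤ) + 7 +
      ∑ w ∈ ((G.N S b).erase v).erase y, dl (G.deg S w) + ∑ w ∈ (G.N S z).erase y, dl (G.deg S w) := by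
  rw [h.phi, ha, hb, hz, dl_three, hh_two, hh_ge (by norm_num : 3 ≤ 4)]
  push_cast
  ring

theorem BG.T4a {S : Finset V} {v a b y z : V} (IH : ∀ T : Finset V, T.card < S.card → G.PP T)
    (hI : G.Irr S) (hmin : ∀ w ∈ S, 2 ≤ G.deg S w) (h : G.R4 S v a b y z)
    (ha : G.deg S a = 3) (hb : G.deg S b = 4) (hcl : ∀ x ∈ (G.N S a).erase v, 3 ≤ G.deg S x)
    (hz : 3 ≤ G.deg S z) : G.F S * QQ ^ G.phi S ≤ b34 := by
  have hyb : y ∈ (G.N S b).erase v := mem_erase.2 ⟨h.yv, h.hy⟩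
  have hdy : G.deg S y = 2 := by unfold BG.deg; rw [h.Ny, card_pair h.zb.symm]
  have hN' : G.N S v = {b, a} := by rw [h.Nv, pair_comm]
  have h1 := kt4_first hI h.hv h.ab h.Nv ha hb hcl
    (BG.side_B IH h.hv h.ab h.Nv hb.ge hyb h.Ny h.zb hz)
  have h2 := BG.side_use (k := 9) hI h.hv h.ab.symm hN' (by omega)
    (BG.side_dirty IH hmin h.hv h.ab.symm hN' hyb hdy) (by
      have h3 := sum_dl_le_two (G := G) (S := S) (s := (G.N S b).erase v)
      have h4 := BG.side_card h.hv hN'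
      rw [ha, hb, dl_three]
      push_cast
      omega)
  rw [BG.two_Q h.hv h.ab h.Nv, ha, hb, yy_cube]
  have hy : 0 ≤ yy ^ 4 := pow_nonneg yy_pos.le _
  have h3 := mul_le_mul_of_nonneg_left h2 hy
  have h4 := num_T4a
  have e : yy ^ 4 * (lam * QQ ^ 9) = lam * (yy ^ 4 * QQ ^ 9) := by ring
  rw [e] at h3
  linarith

theorem BG.T4b {S : Finset V} {v a b y z w : V} (IH : ∀ T : Finset V, T.card < S.card → G.PP T)
    (hI : G.Irr S) (hmin : ∀ w ∈ S, 2 ≤ G.deg S w) (h : G.R4 S v a b y z)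
    (ha : G.deg S a = 3) (hb : G.deg S b = 4) (hcl : ∀ x ∈ (G.N S a).erase v, 3 ≤ G.deg S x)
    (hz : G.deg S z = 2) (hw : w ∈ ((G.N S b).erase v).erase y) (hdw : G.deg S w = 2) :
    G.F S * QQ ^ G.phi S ≤ b34 := by
  have hyb : y ∈ (G.N S b).erase v := mem_erase.2 ⟨h.yv, h.hy⟩
  have hdy : G.deg S y = 2 := by unfold BG.deg; rw [h.Ny, card_pair h.zb.symm]
  have h1 := kt4_first hI h.hv h.ab h.Nv ha hb hcl
    (BG.side_EEy IH hI h.hv h.ab h.Nv ha.ge hyb hdy)
  have h2 := BG.use (k := 25) (h.lam_y2 IH hmin hw hdw) (S := S) (by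
    have c1 := kt4_card h hb hz
    have c2 := kt4_C6 hI h ha hb hcl hz
    have c3 := sum_dl_le_two (G := G) (S := S) (s := ((G.N S b).erase v).erase y)
    have c4 := sum_dl_le_two (G := G) (S := S) (s := (G.N S z).erase y)
    have c5 := kt4_phi h ha hb hz
    rw [c1.1] at c3
    rw [c1.2] at c4
    push_cast at c3 c4
    omega)
  refine kt4_sum h ha hb hz h1 h2 ?_
  have h4 := num_T4b
  have e : yy ^ 5 * (lam * QQ ^ 25) = lam * (yy ^ 5 * QQ ^ 25) := by ring
  rw [e]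
  exact h4

theorem BG.T4c {S : Finset V} {v a b y z : V} (IH : ∀ T : Finset V, T.card < S.card → G.PP T)
    (hI : G.Irr S) (h : G.R4 S v a b y z)
    (ha : G.deg S a = 3) (hb : G.deg S b = 4) (hcl : ∀ x ∈ (G.N S a).erase v, 3 ≤ G.deg S x)
    (hz : G.deg S z = 2) (hcl' : ∀ w ∈ ((G.N S b).erase v).erase y, 3 ≤ G.deg S w) :
    G.F S * QQ ^ G.phi S ≤ b34 := by
  have hyb : y ∈ (G.N S b).erase v := mem_erase.2 ⟨h.yv, h.hy⟩
  have hdy : G.deg S y = 2 := by unfold BG.deg; rw [h.Ny, card_pair h.zb.symm]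
  have h1 := kt4_first hI h.hv h.ab h.Nv ha hb hcl
    (BG.side_EEy IH hI h.hv h.ab h.Nv ha.ge hyb hdy)
  have h2 := BG.use (k := 18) (IH _ h.bal.2.2).A (S := S) (by
    have c1 := kt4_card h hb hz
    have c5 := kt4_phi h ha hb hz
    by_cases he : G.C6V (S \ {z, y, b, v}) = ∅
    · have c3 := sum_dl_le_one hcl'
      have c4 := sum_dl_le_two (G := G) (S := S) (s := (G.N S z).erase y)
      rw [c1.1] at c3
      rw [c1.2] at c4
      rw [he, card_empty]
      push_cast at c3 c4 ⊢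
      omega
    · have c2 := kt4_C6 hI h ha hb hcl hz
      rw [BG.C6V_eq_empty] at he
      push Not at he
      obtain ⟨K, hK⟩ := he
      obtain ⟨⟨w, hw, hwK⟩, t, ht, htK⟩ := h.meets2 hI hK (h.a_notin ha hcl hK)
      have hbw := (BG.mem_N.1 (mem_erase.1 (mem_erase.1 hw).2).2).2
      have hzt := (BG.mem_N.1 (mem_erase.1 ht).2).2
      have dw := (h.deg_r (hK.1 hwK) (Or.inl hbw)).2
      have dt := (h.deg_r (hK.1 htK) (Or.inr hzt)).2
      rw [(hK.2.2 w hwK).1] at dw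
      rw [(hK.2.2 t htK).1] at dt
      have s1 : ∑ x ∈ ((G.N S b).erase v).erase y, dl (G.deg S x) ≤ 0 := by
        rw [← add_sum_erase _ _ hw, ← dw]
        have c3 := sum_dl_le_one (s := (((G.N S b).erase v).erase y).erase w)
          (fun x hx => hcl' x (mem_erase.1 hx).2)
        have c4 := card_erase_add_one hw
        have c6 : dl (2 + 1) = -1 := dl_three
        rw [c6]
        omega
      have s2 : ∑ x ∈ (G.N S z).erase y, dl (G.deg S x) ≤ -1 := by
        obtain ⟨t', ht'⟩ := card_eq_one.1 c1.2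
        have ht2 : t = t' := by
          rw [ht', mem_singleton] at ht
          exact ht
        rw [ht', sum_singleton, ← ht2, ← dt]
        exact le_of_eq dl_three
      omega)
  refine kt4_sum h ha hb hz h1 h2 ?_
  have h4 := num_T4c
  rw [one_mul]
  exact h4

end Pool.Agent.CFree
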