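import Pool.Agent.Lib_MP_6af485_kt.KSideD

/-!
# MP_6af485_co, `k = 3`: a vertex of degree two, neighbours of degree three and four, no other vertices of degree two

`(N S a).erase v = {x1, x2}`, `(N S b).erase v = {y1, y2, y3}`, all of degree at least three. Let `i` be the number of
`x1, x2` of degree at least four. First term (`yy ^ 3 = 1 / 2`): `side_use` with `k = 2 + 2 i` (`3 + 1 + ∑ dl`); second term
(roles exchanged): `yy ^ 4`, `side_use` with `k = 6` (`4 - 1 + 3`), or `k = 0` if all `yj` have degree three.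
`i = 0`: `side_EE'` for the first, `side_S` for the second term (roles exchanged), `num_T5a`.
`i = 1`: `side_EE'` (the `x` of degree three), `side_S34`, `num_T5b`.
`i = 2`: all `yj` of degree three: `PP.A`, `side_S44`, `num_T5c`. Some `yj` of degree at least four: `side_D`, `side_S44`,
`num_T5d`.
-/

set_option autoImplicit false

namespace Pool.Agent.CFree

open Finset

variable {V : Type} [Fintype V] [DecidableEq V] {G : BG V}

/-- the sum over the two other neighbours -/
theorem BG.kt5_two {S : Finset V} {v a x1 x2 : V} (h12 : x1 ≠ x2) (he : (G.N S a).erase v = {x1, x2}) :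
    ∑ x ∈ (G.N S a).erase v, dl (G.deg S x) = dl (G.deg S x1) + dl (G.deg S x2) := by
  rw [he, sum_pair h12]

theorem BG.T5 {S : Finset V} {v a b : V} (IH : ∀ T : Finset V, T.card < S.card → G.PP T)
    (hI : G.Irr S) (hv : v ∈ S) (hab : a ≠ b) (hN : G.N S v = {a, b})
    (ha : G.deg S a = 3) (hb : G.deg S b = 4) (hcl : ∀ x ∈ (G.N S a).erase v, 3 ≤ G.deg S x)
    (hcl' : ∀ y ∈ (G.N S b).erase v, 3 ≤ G.deg S y) : G.F S * QQ ^ G.phi S ≤ b34 := by
  have hN' : G.N S v = {b, a} := by rw [hN, pair_comm]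
  have hc := BG.side_card hv hN
  have hc' := BG.side_card hv hN'
  obtain ⟨x1, x2, h12, he⟩ := card_eq_two.1 (show ((G.N S a).erase v).card = 2 by omega)
  have hx1 : x1 ∈ (G.N S a).erase v := by rw [he]; simp
  have hx2 : x2 ∈ (G.N S a).erase v := by rw [he]; simp
  have c1 := hcl x1 hx1
  have c2 := hcl x2 hx2
  have hs := BG.kt5_two (G := G) h12 he
  -- second term
  have hB : ∀ B : ℝ, G.Gh (S \ {b, v}) ≤ B →
      yy ^ G.deg S b * (G.F (S \ {b, v}) * QQ ^ G.phi S) ≤ B * (yy ^ 4 * QQ ^ 6) := by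
    intro B hB
    have h1 : G.F (S \ {b, v}) * QQ ^ G.phi S ≤ B * QQ ^ 6 := by
      refine BG.side_use hI hv hab.symm hN' (by omega) hB ?_
      have h2 := sum_dl_le_one hcl'
      rw [ha, hb, dl_three]
      push_cast
      omega
    rw [hb]
    calc yy ^ 4 * (G.F (S \ {b, v}) * QQ ^ G.phi S) ≤ yy ^ 4 * (B * QQ ^ 6) :=
          mul_le_mul_of_nonneg_left h1 (pow_nonneg yy_pos.le _)
      _ = B * (yy ^ 4 * QQ ^ 6) := by ring
  -- first term
  have hA : ∀ (B : ℝ) (k : ℕ), G.Gh (S \ {a, v}) ≤ B →
      3 + 1 + (dl (G.deg S x1) + dl (G.deg S x2)) ≤ k →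
      yy ^ G.deg S a * (G.F (S \ {a, v}) * QQ ^ G.phi S) ≤ 1 / 2 * (B * QQ ^ k) := by
    intro B k hB hk
    have h1 : G.F (S \ {a, v}) * QQ ^ G.phi S ≤ B * QQ ^ k := by
      refine BG.side_use hI hv hab hN ha.ge hB ?_
      rw [hs, ha, hb, dl_ge (le_refl 4)]
      push_cast
      exact hk
    rw [ha, yy_cube]
    exact mul_le_mul_of_nonneg_left h1 (by norm_num)
  rw [BG.two_Q hv hab hN]
  by_cases d1 : 4 ≤ G.deg S x1
  · by_cases d2 : 4 ≤ G.deg S x2
    · -- both at least four
      have hcl4 : ∀ x ∈ (G.N S a).erase v, 4 ≤ G.deg S x := by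
        intro x hx
        rw [he, mem_insert, mem_singleton] at hx
        rcases hx with rfl | rfl
        · exact d1
        · exact d2
      have h44 := BG.side_S44 IH hv hab.symm hN' ha hcl4
      by_cases hy : ∃ y ∈ (G.N S b).erase v, 4 ≤ G.deg S y
      · obtain ⟨y, hy, hdy⟩ := hy
        have h1 := hA EE 6 (BG.side_D IH hv hab hN hb hy hdy) (by
          rw [dl_ge d1, dl_ge d2]
          norm_num)
        have h2 := hB b44 h44
        linarith [num_T5d]
      · have h1 := hA 1 6 (IH _ (BG.side_lt hv)).A (by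
          rw [dl_ge d1, dl_ge d2]
          norm_num)
        have h2 : G.F (S \ {b, v}) * QQ ^ G.phi S ≤ b44 * QQ ^ 0 := by
          refine BG.side_use hI hv hab.symm hN' (by omega) h44 ?_
          have h3 : ∑ x ∈ (G.N S b).erase v, dl (G.deg S x) = ∑ _x ∈ (G.N S b).erase v, (-1 : ℤ) := by
            refine sum_congr rfl fun y hy' => ?_
            have h4 := hcl' y hy'
            have h5 : ¬ 4 ≤ G.deg S y := fun h => hy ⟨y, hy', h⟩
            have h6 : G.deg S y = 3 := by omega
            rw [h6, dl_three]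
          rw [h3, sum_const, nsmul_eq_mul, ha, hb, dl_three]
          have h4 : ((G.N S b).erase v).card = 3 := by omega
          rw [h4]
          norm_num
        rw [pow_zero, mul_one] at h2
        have h3 : yy ^ G.deg S b * (G.F (S \ {b, v}) * QQ ^ G.phi S) ≤ b44 * yy ^ 4 := by
          rw [hb, mul_comm b44]
          exact mul_le_mul_of_nonneg_left h2 (pow_nonneg yy_pos.le _)
        linarith [num_T5c]
    · have d2' : G.deg S x2 = 3 := by omega
      have h1 := hA EE 4 (BG.side_EE' IH hI hv hab hN ha.ge hx2 d2') (by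
        rw [dl_ge d1, d2', dl_three]
        norm_num)
      have h2 := hB b34 (BG.side_S34 IH hv hab.symm hN' ha hcl hx1 d1)
      linarith [num_T5b]
  · have d1' : G.deg S x1 = 3 := by omega
    by_cases d2 : 4 ≤ G.deg S x2
    · have h1 := hA EE 4 (BG.side_EE' IH hI hv hab hN ha.ge hx1 d1') (by
        rw [dl_ge d2, d1', dl_three]
        norm_num)
      have h2 := hB b34 (BG.side_S34 IH hv hab.symm hN' ha hcl hx2 d2)
      linarith [num_T5b]
    · have d2' : G.deg S x2 = 3 := by omega
      have h1 := hA EE 2 (BG.side_EE' IH hI hv hab hN ha.ge hx1 d1') (by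
        rw [d1', d2', dl_three]
        norm_num)
      have h2 := hB bet (BG.side_S IH hv hab.symm hN' ha hcl)
      linarith [num_T5a]

end Pool.Agent.CFree
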