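import Pool.Agent.Lib_MP_6af485_kt.KT1
import Pool.Agent.Lib_MP_6af485_kt.KT4
import Pool.Agent.Lib_MP_6af485_kt.KT5

/-!
# MP_6af485_co, `k = 3`: a vertex of degree two, neighbours of degree three and at least four

If some `x ∈ (N S a).erase v` has degree two: `T2`. Otherwise, if `deg b ≥ 5`: `T3`. If `deg b = 4` and all
`y ∈ (N S b).erase v` have degree at least three: `T5`. If some `y` has degree two: `N S y = {b, z}` (`nbr2`), `R4`,
`T4a`, `T4b`, `T4c`.
-/

set_option autoImplicit false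

namespace Pool.Agent.CFree

open Finset

variable {V : Type} [Fintype V] [DecidableEq V] {G : BG V}

theorem BG.stepB34 {S : Finset V} {v a b : V} (IH : ∀ T : Finset V, T.card < S.card → G.PP T)
    (hI : G.Irr S) (hmin : ∀ w ∈ S, 2 ≤ G.deg S w) (hv : v ∈ S) (hab : a ≠ b) (hN : G.N S v = {a, b})
    (ha : G.deg S a = 3) (hb : 4 ≤ G.deg S b) : G.F S * QQ ^ G.phi S ≤ b34 := by
  by_cases hx : ∃ x ∈ (G.N S a).erase v, G.deg S x = 2
  · obtain ⟨x, hx, hdx⟩ := hx
    exact BG.T2 IH hI hmin hv hab hN ha hb hx hdx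
  · have hcl : ∀ x ∈ (G.N S a).erase v, 3 ≤ G.deg S x := by
      intro x hx'
      have h1 := hmin x (BG.mem_N.1 (mem_erase.1 hx').2).1
      have h2 : G.deg S x ≠ 2 := fun h => hx ⟨x, hx', h⟩
      omega
    rcases Nat.lt_or_ge (G.deg S b) 5 with h5 | h5
    · have hb4 : G.deg S b = 4 := by omega
      by_cases hy : ∃ y ∈ (G.N S b).erase v, G.deg S y = 2
      · obtain ⟨y, hy, hdy⟩ := hy
        obtain ⟨hyv, hyN⟩ := mem_erase.1 hy
        obtain ⟨hyS, hby⟩ := BG.mem_N.1 hyN
        obtain ⟨hbS, hvb⟩ := BG.mem_N.1 (show b ∈ G.N S v by rw [hN]; simp)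
        obtain ⟨z, hzb, hNy⟩ := BG.nbr2 hdy (BG.mem_N.2 ⟨hbS, G.symm _ _ hby⟩)
        have h : G.R4 S v a b y z := ⟨hv, hab, hN, hyN, hyv, hzb, hNy⟩
        have hzS := (BG.mem_N.1 (show z ∈ G.N S y by rw [hNy]; simp)).1
        by_cases hz : 3 ≤ G.deg S z
        · exact BG.T4a IH hI hmin h ha hb4 hcl hz
        · have hz2 : G.deg S z = 2 := by
            have := hmin z hzS
            omega
          by_cases hw : ∃ w ∈ ((G.N S b).erase v).erase y, G.deg S w = 2
          · obtain ⟨w, hw, hdw⟩ := hw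
            exact BG.T4b IH hI hmin h ha hb4 hcl hz2 hw hdw
          · refine BG.T4c IH hI h ha hb4 hcl hz2 ?_
            intro w hw'
            have h1 := hmin w (BG.mem_N.1 (mem_erase.1 (mem_erase.1 hw').2).2).1
            have h2 : G.deg S w ≠ 2 := fun h => hw ⟨w, hw', h⟩
            omega
      · refine BG.T5 IH hI hv hab hN ha hb4 hcl ?_
        intro y hy'
        have h1 := hmin y (BG.mem_N.1 (mem_erase.1 hy').2).1
        have h2 : G.deg S y ≠ 2 := fun h => hy ⟨y, hy', h⟩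
        omega
    · exact BG.T3 IH hI hmin hv hab hN ha h5 hcl

end Pool.Agent.CFree
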