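import Pool.Agent.Lib_MP_6af485_kt.KRedC
import Pool.Agent.Lib_MP_6af485_kt.KStepB34
import Pool.Agent.Lib_MP_6af485_kt.KStepB
import Pool.Agent.Lib_MP_6af485_kt.KPrC
import Pool.Agent.Lib_MP_6af485_kt.KPrD
import Pool.Agent.Lib_MP_6af485_kt.KPrE
import Pool.Agent.Lib_MP_6af485_kt.KAll2

/-!
# MP_6af485_co, `k = 3`: irreducible graphs with a vertex of degree two

`S` irreducible, all degrees at least two.

`kstepB`: both degrees are three: `stepB3`; one is at least four: `stepB34` or (both) `T1`, `b44_le_bet`, `b34_le_bet`.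
`stepB34'`: `deg a = 3`: `stepB34`; otherwise `T1`, `b44_le_b34`.
`edge23`: if there are vertices of degree two and vertices of other degrees: `Conn` for
`W = S.filter (deg = 2)` gives adjacent `u1 ∈ W`, `p ∉ W`, `deg p ≥ 3`.
`stepPr`: `Pr S p u1 u2 q`, `deg p ≥ 3`, `C6V (S \ {u2, u1}) = ∅`: `deg q = 2`: `PrA`. `deg q ≥ 3`: if `deg p, deg q ≥ 4`:
`PrE`. If `deg p = 3`: all `w ∈ (N S p).erase u1` have degree at least three: `PrB`; otherwise some `w1` has degree two,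
`N S w1 = {p, w'}` (`nbr2`), `PrC` or `PrD`. If `deg q = 3`: the same for `h.symm` (`S \ {u1, u2} = S \ {u2, u1}`,
`pair_comm`).
`stepN`: by `edge23`; `N S u1 = {p, u2}`: if `deg u2 ≥ 3`: `kstepB`, `bet_le_EE`. Otherwise `N S u2 = {u1, q}`: `Pr`; if
`C6V (S \ {u2, u1})` were nonempty then `S` would be a theta graph (`Pr.th`): excluded by `hTh`. `stepPr`.
`theta_or`: the dichotomy: either `S` is a theta graph or `F S * QQ ^ phi S ≤ EE`.
-/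

set_option autoImplicit false

namespace Pool.Agent.CFree

open Finset

variable {V : Type} [Fintype V] [DecidableEq V] {G : BG V}

theorem BG.kstepB {S : Finset V} {v a b : V} (IH : ∀ T : Finset V, T.card < S.card → G.PP T)
    (hI : G.Irr S) (hmin : ∀ w ∈ S, 2 ≤ G.deg S w) (hv : v ∈ S) (hab : a ≠ b) (hN : G.N S v = {a, b})
    (ha : 3 ≤ G.deg S a) (hb : 3 ≤ G.deg S b) : G.F S * QQ ^ G.phi S ≤ bet := by
  have hN' : G.N S v = {b, a} := by rw [hN, pair_comm]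
  rcases Nat.lt_or_ge (G.deg S a) 4 with ha4 | ha4
  · have ha3 : G.deg S a = 3 := by omega
    rcases Nat.lt_or_ge (G.deg S b) 4 with hb4 | hb4
    · exact BG.stepB3 IH hI hmin hv hab hN ha3 (by omega)
    · exact (BG.stepB34 IH hI hmin hv hab hN ha3 hb4).trans b34_le_bet
  · rcases Nat.lt_or_ge (G.deg S b) 4 with hb4 | hb4
    · exact (BG.stepB34 IH hI hmin hv hab.symm hN' (by omega) ha4).trans b34_le_bet
    · exact (BG.T1 IH hI hmin hv hab hN ha4 hb4).trans b44_le_bet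

theorem BG.stepB34' {S : Finset V} {v a b : V} (IH : ∀ T : Finset V, T.card < S.card → G.PP T)
    (hI : G.Irr S) (hmin : ∀ w ∈ S, 2 ≤ G.deg S w) (hv : v ∈ S) (hab : a ≠ b) (hN : G.N S v = {a, b})
    (ha : 3 ≤ G.deg S a) (hb : 4 ≤ G.deg S b) : G.F S * QQ ^ G.phi S ≤ b34 := by
  rcases Nat.lt_or_ge (G.deg S a) 4 with ha4 | ha4
  · exact BG.stepB34 IH hI hmin hv hab hN (by omega) hb
  · exact (BG.T1 IH hI hmin hv hab hN ha4 hb).trans b44_le_b34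

theorem BG.edge23 {S : Finset V} {u w : V} (hI : G.Irr S) (hu : u ∈ S) (hd : G.deg S u = 2) (hw : w ∈ S)
    (hmin : ∀ w ∈ S, 2 ≤ G.deg S w) (hdw : G.deg S w ≠ 2) :
    ∃ u1 ∈ S, ∃ p ∈ S, G.adj u1 p ∧ G.deg S u1 = 2 ∧ 3 ≤ G.deg S p := by
  obtain ⟨x, hx, y, hy, hxy⟩ := hI.conn (S.filter fun t => G.deg S t = 2) (filter_subset _ _)
    ⟨u, mem_filter.2 ⟨hu, hd⟩⟩ (fun h => by
      have h' : w ∈ S.filter fun t => G.deg S t = 2 := by
        rw [h]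
        exact hw
      exact hdw (mem_filter.1 h').2)
  obtain ⟨hyS, hyn⟩ := mem_sdiff.1 hy
  refine ⟨x, (mem_filter.1 hx).1, y, hyS, hxy, (mem_filter.1 hx).2, ?_⟩
  have h1 := hmin y hyS
  have h2 : G.deg S y ≠ 2 := fun h => hyn (mem_filter.2 ⟨hyS, h⟩)
  omega

/-- `deg p = 3`, `deg q ≥ 3` -/
theorem BG.kstepn_3 {S : Finset V} {p u1 u2 q : V} (IH : ∀ T : Finset V, T.card < S.card → G.PP T)
    (hI : G.Irr S) (hmin : ∀ w ∈ S, 2 ≤ G.deg S w) (h : G.Pr S p u1 u2 q)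
    (hTh : G.C6V (S \ {u2, u1}) = ∅) (hp : G.deg S p = 3) (hq : 3 ≤ G.deg S q) :
    G.F S * QQ ^ G.phi S ≤ EE := by
  by_cases hw : ∃ w1 ∈ (G.N S p).erase u1, G.deg S w1 = 2
  · obtain ⟨w1, hw1, hd1⟩ := hw
    obtain ⟨hwS, hpw⟩ := BG.mem_N.1 (mem_erase.1 hw1).2
    obtain ⟨w', hw', hN1⟩ := BG.nbr2 hd1 (BG.mem_N.2 ⟨h.mem.1, G.symm _ _ hpw⟩)
    rcases Nat.lt_or_ge (G.deg (S \ {q, u2, p, u1}) w') 2 with h2 | h2
    · exact BG.PrD IH hI hmin h hTh hp hq hw1 hN1 hw' (by omega)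
    · exact BG.PrC IH hI h hTh hp hq hw1 hN1 hw' h2
  · refine BG.PrB IH hI h hTh hp hq fun w hw1 => ?_
    have h1 := hmin w (BG.mem_N.1 (mem_erase.1 hw1).2).1
    have h2 : G.deg S w ≠ 2 := fun h => hw ⟨w, hw1, h⟩
    omega

theorem BG.stepPr {S : Finset V} {p u1 u2 q : V} (IH : ∀ T : Finset V, T.card < S.card → G.PP T)
    (hI : G.Irr S) (hmin : ∀ w ∈ S, 2 ≤ G.deg S w) (h : G.Pr S p u1 u2 q)
    (hTh : G.C6V (S \ {u2, u1}) = ∅) (hp : 3 ≤ G.deg S p) : G.F S * QQ ^ G.phi S ≤ EE := by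
  have hq2 := hmin q h.mem.2.1
  rcases Nat.lt_or_ge (G.deg S q) 3 with hq | hq
  · exact BG.PrA IH hI hmin h hTh hp (by omega)
  · rcases Nat.lt_or_ge (G.deg S p) 4 with hp4 | hp4
    · exact BG.kstepn_3 IH hI hmin h hTh (by omega) hq
    · rcases Nat.lt_or_ge (G.deg S q) 4 with hq4 | hq4
      · exact BG.kstepn_3 IH hI hmin h.symm (by rw [pair_comm]; exact hTh) (by omega) hp
      · exact BG.PrE IH hI h hTh hp4 hq4

theorem BG.theta_or {S : Finset V} {u w : V} (IH : ∀ T : Finset V, T.card < S.card → G.PP T)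
    (hI : G.Irr S) (hmin : ∀ w ∈ S, 2 ≤ G.deg S w) (hu : u ∈ S) (hd : G.deg S u = 2) (hw : w ∈ S)
    (hdw : G.deg S w ≠ 2) :
    G.F S * QQ ^ G.phi S ≤ EE ∨ ∃ u1 u2 K, G.IsTh S u1 u2 K ∧ S = insert u1 (insert u2 K) := by
  obtain ⟨u1, hu1, p, hp, hup, hd1, hdp⟩ := BG.edge23 hI hu hd hw hmin hdw
  obtain ⟨u2, h2p, hN1⟩ := BG.nbr2 hd1 (BG.mem_N.2 ⟨hp, hup⟩)
  obtain ⟨hu2, h12⟩ := BG.mem_N.1 (show u2 ∈ G.N S u1 by rw [hN1]; simp)
  rcases Nat.lt_or_ge (G.deg S u2) 3 with hd2 | hd2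
  · obtain ⟨q, hq1, hN2⟩ := BG.nbr2 (show G.deg S u2 = 2 by have := hmin u2 hu2; omega)
      (BG.mem_N.2 ⟨hu1, G.symm _ _ h12⟩)
    have h : G.Pr S p u1 u2 q := ⟨hu1, hu2, by rw [hN1, pair_comm], hN2, h2p, hq1.symm⟩
    by_cases hC : G.C6V (S \ {u2, u1}) = ∅
    · exact Or.inl (BG.stepPr IH hI hmin h hC hdp)
    · rw [BG.C6V_eq_empty] at hC
      push Not at hC
      obtain ⟨K, hK⟩ := hC
      exact Or.inr ⟨u1, u2, K, h.th hI hK⟩
  · exact Or.inl ((BG.kstepB IH hI hmin hu1 h2p.symm hN1 hdp hd2).trans bet_le_EE)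

end Pool.Agent.CFree
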