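import Pool.Agent.Lib_MP_6af485_kt.KPrB

/-!
# MP_6af485_co, `k = 3`: four consecutive vertices of degree two

`S` irreducible, path `p - u1 - u2 - u3 - u4 - w`, `u1, ..., u4` of degree two, `deg p ≥ 3`. `Pr S p u1 u2 u3`.
Colours: `p`, `u2`, `u4` one colour; `u1`, `u3`, `w` the other one. `p ≠ u4`, `w ≠ u1` (degrees of `p`; `N S u1 = {p, u2}`,
`u4 ≠ p, u2`), `w ≠ u3`. `S4 = S \ {u4, u3, u2, u1}`, `W = S \ {u3, u2, p, u1}`.

First term: in `S \ {u2, u1}` the vertex `u3` has the only neighbour `u4` of degree two: `BG.forced`: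
`F (S \ {u2, u1}) = yy * F S4`, `phi_four`: exponent `8 + dl p + dl w + 2 |C6V S4|`. A 6-cycle component `K` of `S4` has two
vertices adjacent to `{u1, ..., u4}` (`Irr.attach`), they are `p` (adjacent to `u1`) and `w` (adjacent to `u4`), so `p ∈ K`:
excluded by `hC`. So `C6V S4 = ∅`.
If `deg w = 2`: the other neighbour `w'` of `w`; in `S4` the vertex `w` has the only neighbour `w'`, `deg S4 w' ≥ 2` (if
`w' = p`: `deg p - 1 ≥ 2`, otherwise nothing changes): `PP.L`.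
Second term: `Pr.Q`: `yy ^ (deg p + 1) * F W`, `C6V W = ∅` (`Pr.emptyW`), exponent (`Pr.phi_W`)
`4 + (deg p - 2) + 2 + ∑ dl (p) + dl u4 ≤ 4 + (deg p - 2) + 2 + 2 (deg p - 1) + 2 = 3 deg p + 4`. In `W` the vertex `u4` has the
only neighbour `w`. `deg W w ≥ 2`: if `w` is not adjacent to `p` then `deg W w = deg S w ≥ 2`. If `w` is adjacent to `p` then
`deg S w ≥ 3`: otherwise `N S w = {u4, p}` and in the balanced set `{p, u1, u2, u3, u4, w}` only `p` has neighbours outside, so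
by `Irr.irr` it is `S`, but then `deg p = 2`. So `PP.L` for `W`.
`deg p = 3` (`dl p = -1`): `deg w ≥ 3`: exponent 8: `num_P4a`; `deg w = 2`: exponent 9: `num_P4b`. `deg p ≥ 4`: `yQ_mono`
for the second term (`yy ^ (deg p + 1) * QQ ^ (3 deg p + 4) ≤ yy ^ 5 * QQ ^ 16`); `deg w ≥ 3`: exponent 10: `num_P4c`;
`deg w = 2`: exponent 11 and `lam * QQ ^ 11 ≤ QQ ^ 10` (`lam * QQ ≤ 1`), `num_P4c`.
-/

set_option autoImplicit false

namespace Pool.Agent.CFree

open Finset

variable {V : Type} [Fintype V] [DecidableEq V] {G : BG V}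

/-- the colours and the inequalities of a path with four inner vertices of degree two -/
private theorem kstepp_facts {S : Finset V} {p u1 u2 u3 u4 w : V}
    (hN1 : G.N S u1 = {p, u2}) (hN2 : G.N S u2 = {u1, u3}) (hN3 : G.N S u3 = {u2, u4})
    (hN4 : G.N S u4 = {u3, w}) (hp2 : p ≠ u2) (h13 : u1 ≠ u3) (h24 : u2 ≠ u4) (h3w : u3 ≠ w)
    (hp : 3 ≤ G.deg S p) :
    (p ∈ S ∧ w ∈ S ∧ G.adj u1 p ∧ G.adj u1 u2 ∧ G.adj u2 u3 ∧ G.adj u3 u4 ∧ G.adj u4 w) ∧
    (G.col p = G.col u2 ∧ G.col u4 = G.col u2 ∧ G.col u3 = G.col u1 ∧ G.col w = G.col u1 ∧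
      G.col u1 ≠ G.col u2) ∧
    (G.deg S u1 = 2 ∧ G.deg S u2 = 2 ∧ G.deg S u3 = 2 ∧ G.deg S u4 = 2) ∧
    p ≠ u4 ∧ w ≠ u1 := by
  obtain ⟨hpS, a1p⟩ := BG.mem_N.1 (show p ∈ G.N S u1 by rw [hN1]; simp)
  obtain ⟨-, a12⟩ := BG.mem_N.1 (show u2 ∈ G.N S u1 by rw [hN1]; simp)
  obtain ⟨-, a23⟩ := BG.mem_N.1 (show u3 ∈ G.N S u2 by rw [hN2]; simp)
  obtain ⟨h4S, a34⟩ := BG.mem_N.1 (show u4 ∈ G.N S u3 by rw [hN3]; simp)
  obtain ⟨hwS, a4w⟩ := BG.mem_N.1 (show w ∈ G.N S u4 by rw [hN4]; simp)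
  have d1 : G.deg S u1 = 2 := by unfold BG.deg; rw [hN1, card_pair hp2]
  have d2 : G.deg S u2 = 2 := by unfold BG.deg; rw [hN2, card_pair h13]
  have d3 : G.deg S u3 = 2 := by unfold BG.deg; rw [hN3, card_pair h24]
  have d4 : G.deg S u4 = 2 := by unfold BG.deg; rw [hN4, card_pair h3w]
  have c1 : G.col p = G.col u2 := BG.col_common a1p a12
  have c2 : G.col u4 = G.col u2 := (BG.col_path a23 a34).symm
  have c3 : G.col u3 = G.col u1 := (BG.col_path a12 a23).symm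
  have c4 : G.col w = G.col u1 := by rw [← c3]; exact (BG.col_path a34 a4w).symm
  have c5 : G.col u1 ≠ G.col u2 := G.bip _ _ a12
  have n1 : p ≠ u4 := by
    rintro rfl
    omega
  refine ⟨⟨hpS, hwS, a1p, a12, a23, a34, a4w⟩, ⟨c1, c2, c3, c4, c5⟩, ⟨d1, d2, d3, d4⟩, n1, ?_⟩
  rintro rfl
  have : u4 ∈ G.N S w := BG.mem_N.2 ⟨h4S, G.symm _ _ a4w⟩
  rw [hN1, mem_insert, mem_singleton] at this
  rcases this with h | h
  · exact n1 h.symm
  · exact h24 h.symm

/-- no 6-cycle component after the removal of the four vertices -/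
private theorem kstepp_empty {S : Finset V} {p u1 u2 u3 u4 w : V}
    (hI : G.Irr S) (h1 : u1 ∈ S) (h2 : u2 ∈ S) (h3 : u3 ∈ S) (h4 : u4 ∈ S)
    (hN1 : G.N S u1 = {p, u2}) (hN2 : G.N S u2 = {u1, u3}) (hN3 : G.N S u3 = {u2, u4})
    (hN4 : G.N S u4 = {u3, w}) (hC : p ∉ G.C6V (S \ {u1, u2, u3, u4})) :
    G.C6V (S \ {u4, u3, u2, u1}) = ∅ := by
  have hset : ({u1, u2, u3, u4} : Finset V) = {u4, u3, u2, u1} := by
    ext x
    simp only [mem_insert, mem_singleton]
    tauto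
  rw [hset] at hC
  rw [BG.C6V_eq_empty]
  intro K hK
  have key : ∀ k ∈ K, (∃ r ∈ ({u4, u3, u2, u1} : Finset V), G.adj k r) → k = p ∨ k = w := by
    rintro k hk ⟨r, hr, hkr⟩
    obtain ⟨hkS, hkR⟩ := mem_sdiff.1 (hK.1 hk)
    have hkN : k ∈ G.N S r := BG.mem_N.2 ⟨hkS, G.symm _ _ hkr⟩
    simp only [mem_insert, mem_singleton, not_or] at hr hkR
    rcases hr with rfl | rfl | rfl | rfl
    · rw [hN4, mem_insert, mem_singleton] at hkN
      tauto
    · rw [hN3, mem_insert, mem_singleton] at hkN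
      tauto
    · rw [hN2, mem_insert, mem_singleton] at hkN
      tauto
    · rw [hN1, mem_insert, mem_singleton] at hkN
      tauto
  obtain ⟨k1, hk1, k2, hk2, hne, e1, e2⟩ := hI.attach (R := {u4, u3, u2, u1}) (by
    intro x hx
    simp only [mem_insert, mem_singleton] at hx
    rcases hx with rfl | rfl | rfl | rfl <;> assumption) (insert_nonempty _ _) hK
  refine hC (BG.mem_C6V.2 ⟨K, hK, ?_⟩)
  rcases key k1 hk1 e1 with rfl | rfl
  · exact hk1
  · rcases key k2 hk2 e2 with rfl | rfl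
    · exact hk2
    · exact absurd rfl hne

/-- the hexagon: a vertex of degree at least three -/
private theorem kstepp_hex {S : Finset V} {p u1 u2 u3 u4 w : V}
    (hI : G.Irr S) (h1 : u1 ∈ S) (h2 : u2 ∈ S) (h3 : u3 ∈ S) (h4 : u4 ∈ S)
    (hN1 : G.N S u1 = {p, u2}) (hN2 : G.N S u2 = {u1, u3}) (hN3 : G.N S u3 = {u2, u4})
    (hN4 : G.N S u4 = {u3, w}) (hp2 : p ≠ u2) (h13 : u1 ≠ u3) (h24 : u2 ≠ u4) (h3w : u3 ≠ w)
    (hp : 3 ≤ G.deg S p) (hwp : G.adj w p) (hw2 : 2 ≤ G.deg S w) : 3 ≤ G.deg S w := by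
  obtain ⟨⟨hpS, hwS, a1p, a12, a23, a34, a4w⟩, ⟨c1, c2, c3, c4, c5⟩, ⟨d1, d2, d3, d4⟩, n1, n2⟩ :=
    kstepp_facts hN1 hN2 hN3 hN4 hp2 h13 h24 h3w hp
  by_contra hlt
  have hd : G.deg S w = 2 := by omega
  have hNw : G.N S w = {u4, p} := by
    symm
    apply eq_of_subset_of_card_le
    · intro x hx
      rw [mem_insert, mem_singleton] at hx
      rcases hx with rfl | rfl
      · exact BG.mem_N.2 ⟨h4, G.symm _ _ a4w⟩
      · exact BG.mem_N.2 ⟨hpS, hwp⟩
    · rw [card_pair n1.symm]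
      exact hd.le
  have hmem : ∀ x, x ∈ ({p, u1, u2, u3, u4, w} : Finset V) ↔
      x = p ∨ x = u1 ∨ x = u2 ∨ x = u3 ∨ x = u4 ∨ x = w := by
    intro x
    simp only [mem_insert, mem_singleton]
  have hout : ∀ t ∈ ({p, u1, u2, u3, u4, w} : Finset V), t ≠ p → G.N S t ⊆ {p, u1, u2, u3, u4, w} := by
    intro t ht htp
    rw [hmem] at ht
    rcases ht with rfl | rfl | rfl | rfl | rfl | rfl
    · exact absurd rfl htp
    · rw [hN1]; intro x hx; rw [mem_insert, mem_singleton] at hx; rw [hmem]; tauto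
    · rw [hN2]; intro x hx; rw [mem_insert, mem_singleton] at hx; rw [hmem]; tauto
    · rw [hN3]; intro x hx; rw [mem_insert, mem_singleton] at hx; rw [hmem]; tauto
    · rw [hN4]; intro x hx; rw [mem_insert, mem_singleton] at hx; rw [hmem]; tauto
    · rw [hNw]; intro x hx; rw [mem_insert, mem_singleton] at hx; rw [hmem]; tauto
  have hsub : ({p, u1, u2, u3, u4, w} : Finset V) ⊆ S := by
    intro x hx
    rw [hmem] at hx
    rcases hx with rfl | rfl | rfl | rfl | rfl | rfl <;> assumption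
  have hne : ({p, u1, u2, u3, u4, w} : Finset V) ≠ S := by
    intro h
    have hNp : G.N S p ⊆ {u1, w} := by
      intro x hx
      obtain ⟨hxS, hpx⟩ := BG.mem_N.1 hx
      rw [← h, hmem] at hxS
      rw [mem_insert, mem_singleton]
      rcases hxS with rfl | rfl | rfl | rfl | rfl | rfl
      · exact absurd hpx (BG.irr _)
      · exact Or.inl rfl
      · exact absurd hpx (BG.nadj_col c1)
      · have : p ∈ G.N S x := BG.mem_N.2 ⟨hpS, G.symm _ _ hpx⟩
        rw [hN3, mem_insert, mem_singleton] at this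
        rcases this with h | h
        · exact absurd h hp2
        · exact absurd h n1
      · exact absurd hpx (BG.nadj_col (c1.trans c2.symm))
      · exact Or.inr rfl
    have h' := (card_le_card hNp).trans card_le_two
    unfold BG.deg at hp
    omega
  have hbal : G.bal ({p, u1, u2, u3, u4, w} : Finset V) := by
    have e : ({p, u1, u2, u3, u4, w} : Finset V) = {p, u1, u2, u3} ∪ {u4, w} := by
      ext x
      rw [hmem]
      simp only [mem_union, mem_insert, mem_singleton]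
      tauto
    rw [e]
    refine BG.bal_union (BG.bal_four (r1 := p) (r2 := u1) (r3 := u2) (r4 := u3) (fun x => by
      simp only [mem_insert, mem_singleton]) (G.symm _ _ a1p) a12 a23 hp2 h13) (BG.bal_two a4w) ?_
    rw [disjoint_left]
    intro x hx hx'
    simp only [mem_insert, mem_singleton] at hx hx'
    rcases hx' with rfl | rfl
    · rcases hx with h | h | h | h
      · exact n1 h.symm
      · exact c5 (by rw [← h, c2])
      · exact h24 h.symm
      · exact c5 (by rw [← c3, ← h, c2])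
    · rcases hx with h | h | h | h
      · exact c5 (by rw [← c4, h, c1])
      · exact n2 h
      · exact c5 (by rw [← c4, h])
      · exact h3w h.symm
  obtain ⟨w1, hw1, w2, hw2', hne', ⟨x1, hx1, b1⟩, x2, hx2, b2⟩ := hI.irr _ hsub ⟨p, (hmem p).2 (Or.inl rfl)⟩
    hne hbal
  have k1 : w1 = p := by
    by_contra hc
    exact (mem_sdiff.1 hx1).2 (hout w1 hw1 hc (BG.mem_N.2 ⟨(mem_sdiff.1 hx1).1, b1⟩))
  have k2 : w2 = p := by
    by_contra hc
    exact (mem_sdiff.1 hx2).2 (hout w2 hw2' hc (BG.mem_N.2 ⟨(mem_sdiff.1 hx2).1, b2⟩))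
  exact hne' (k1.trans k2.symm)

/-- the first term -/
private theorem kstepp_first {S : Finset V} {p u1 u2 u3 u4 w : V}
    (IH : ∀ T : Finset V, T.card < S.card → G.PP T)
    (hI : G.Irr S) (hmin : ∀ w ∈ S, 2 ≤ G.deg S w) (h1 : u1 ∈ S) (h2 : u2 ∈ S) (h3 : u3 ∈ S) (h4 : u4 ∈ S)
    (hN1 : G.N S u1 = {p, u2}) (hN2 : G.N S u2 = {u1, u3}) (hN3 : G.N S u3 = {u2, u4})
    (hN4 : G.N S u4 = {u3, w}) (hp2 : p ≠ u2) (h13 : u1 ≠ u3) (h24 : u2 ≠ u4) (h3w : u3 ≠ w)
    (hp : 3 ≤ G.deg S p) (hC : p ∉ G.C6V (S \ {u1, u2, u3, u4})) {k : ℕ}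
    (hk : 8 + dl (G.deg S p) + dl (G.deg S w) ≤ (k : ℤ)) :
    yy ^ 2 * (G.F (S \ {u2, u1}) * QQ ^ G.phi S) ≤ yy ^ 3 * QQ ^ k ∧
    (G.deg S w = 2 → yy ^ 2 * (G.F (S \ {u2, u1}) * QQ ^ G.phi S) ≤ lam * (yy ^ 3 * QQ ^ k)) := by
  obtain ⟨⟨hpS, hwS, a1p, a12, a23, a34, a4w⟩, ⟨c1, c2, c3, c4, c5⟩, ⟨d1, d2, d3, d4⟩, n1, n2⟩ :=
    kstepp_facts hN1 hN2 hN3 hN4 hp2 h13 h24 h3w hp
  have n41 : u4 ≠ u1 := fun h => c5 (by rw [← h, c2])
  have n31 : u3 ≠ u1 := h13.symm
  have n32 : u3 ≠ u2 := (BG.ne_of_adj a23).symm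
  have hNu3 : G.N (S \ {u2, u1}) u3 = {u4} := by
    rw [BG.N_sdiff, hN3]
    ext x
    simp only [mem_sdiff, mem_insert, mem_singleton, not_or]
    constructor
    · rintro ⟨h | h, h'⟩
      · exact absurd h h'.1
      · exact h
    · rintro rfl
      exact ⟨Or.inr rfl, h24.symm, n41⟩
  have hF := BG.forced (G := G) (S := S) (R := {u2, u1}) hNu3 h3 (by
    simp only [mem_insert, mem_singleton, not_or]
    exact ⟨n32, n31⟩)
  have hd4 : G.deg (S \ {u2, u1}) u4 = 2 := by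
    rw [BG.deg_sdiff_eq, d4]
    intro r hr
    rw [mem_insert, mem_singleton] at hr
    rcases hr with rfl | rfl
    · exact BG.nadj_col c2
    · intro hadj
      have : u4 ∈ G.N S r := BG.mem_N.2 ⟨h4, G.symm _ _ hadj⟩
      rw [hN1, mem_insert, mem_singleton] at this
      rcases this with h | h
      · exact n1 h.symm
      · exact h24 h.symm
  rw [hd4] at hF
  have hE := kstepp_empty hI h1 h2 h3 h4 hN1 hN2 hN3 hN4 hC
  have hphi := BG.phi_four (G := G) (S := S) (R := {u4, u3, u2, u1}) (r1 := u1) (r2 := u2) (r3 := u3) (r4 := u4)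
    (fun x => by simp only [mem_insert, mem_singleton]; tauto) h1 (BG.mem_N.2 ⟨h2, a12⟩)
    (BG.mem_N.2 ⟨h3, a23⟩) (BG.mem_N.2 ⟨h4, a34⟩) h13 h24
  have s1 : (G.N S u1).erase u2 = {p} := by
    rw [hN1]; ext x; simp only [mem_erase, mem_insert, mem_singleton]
    constructor
    · rintro ⟨h, h' | h'⟩
      · exact h'
      · exact absurd h' h
    · rintro rfl
      exact ⟨hp2, Or.inl rfl⟩
  have s2 : ((G.N S u2).erase u1).erase u3 = ∅ := by
    rw [hN2]; ext x; simp only [mem_erase, mem_insert, mem_singleton, notMem_empty, iff_false]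
    tauto
  have s3 : ((G.N S u3).erase u2).erase u4 = ∅ := by
    rw [hN3]; ext x; simp only [mem_erase, mem_insert, mem_singleton, notMem_empty, iff_false]
    tauto
  have s4 : (G.N S u4).erase u3 = {w} := by
    rw [hN4]; ext x; simp only [mem_erase, mem_insert, mem_singleton]
    constructor
    · rintro ⟨h, h' | h'⟩
      · exact absurd h' h
      · exact h'
    · rintro rfl
      exact ⟨h3w.symm, Or.inr rfl⟩
  rw [s1, s2, s3, s4, sum_singleton, sum_singleton, sum_empty, d1, d2, d3, d4, hh_two] at hphi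
  have hk' : (G.phi S : ℤ) + 2 * ((G.C6V (S \ {u4, u3, u2, u1})).card : ℤ) ≤
      (G.phi (S \ {u4, u3, u2, u1}) : ℤ) + k := by
    rw [hE, card_empty]
    push_cast at hphi ⊢
    linarith
  have hlt : (S \ {u4, u3, u2, u1}).card < S.card := card_sdiff_lt h4 (by simp)
  have hPP := IH _ hlt
  have hy2 : 0 ≤ yy ^ 3 := pow_nonneg yy_pos.le _
  have key : ∀ B : ℝ, G.Gh (S \ {u4, u3, u2, u1}) ≤ B →
      yy ^ 2 * (G.F (S \ {u2, u1}) * QQ ^ G.phi S) ≤ yy ^ 3 * (B * QQ ^ k) := by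
    intro B hB
    have := BG.use hB hk'
    calc yy ^ 2 * (G.F (S \ {u2, u1}) * QQ ^ G.phi S)
        = yy ^ 3 * (G.F (S \ {u4, u3, u2, u1}) * QQ ^ G.phi S) := by
          rw [hF]
          norm_num
          ring
      _ ≤ yy ^ 3 * (B * QQ ^ k) := mul_le_mul_of_nonneg_left this hy2
  refine ⟨?_, ?_⟩
  · have := key 1 hPP.A
    rwa [one_mul] at this
  · intro hdw
    obtain ⟨w', hw', hNw⟩ := BG.nbr2 hdw (BG.mem_N.2 ⟨h4, G.symm _ _ a4w⟩)
    obtain ⟨hw'S, hww'⟩ := BG.mem_N.1 (show w' ∈ G.N S w by rw [hNw]; simp)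
    have cw' : G.col w' = G.col u2 := by
      rw [← c2]
      exact BG.col_common hww' (G.symm _ _ a4w)
    have m1 : w' ≠ u1 := fun h => c5 (by rw [← h, cw'])
    have m3 : w' ≠ u3 := fun h => c5 (by rw [← c3, ← h, cw'])
    have m2 : w' ≠ u2 := by
      rintro rfl
      have : w ∈ G.N S w' := BG.mem_N.2 ⟨hwS, G.symm _ _ hww'⟩
      rw [hN2, mem_insert, mem_singleton] at this
      rcases this with h | h
      · exact n2 h
      · exact h3w h.symm
    have hNW : G.N (S \ {u4, u3, u2, u1}) w = {w'} := by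
      rw [BG.N_sdiff, hNw]
      ext x
      simp only [mem_sdiff, mem_insert, mem_singleton, not_or]
      constructor
      · rintro ⟨h | h, h'⟩
        · exact absurd h h'.1
        · exact h
      · rintro rfl
        exact ⟨Or.inr rfl, hw', m3, m2, m1⟩
    have hwm : w ∈ S \ {u4, u3, u2, u1} := by
      simp only [mem_sdiff, mem_insert, mem_singleton, not_or]
      exact ⟨hwS, (BG.ne_of_adj a4w).symm, h3w.symm, fun h => c5 (by rw [← c4, h]), n2⟩
    have hadj4 : ¬ G.adj w' u4 := BG.nadj_col (cw'.trans c2.symm)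
    have hadj2 : ¬ G.adj w' u2 := BG.nadj_col cw'
    have hadj3 : ¬ G.adj w' u3 := by
      intro h
      have : w' ∈ G.N S u3 := BG.mem_N.2 ⟨hw'S, G.symm _ _ h⟩
      rw [hN3, mem_insert, mem_singleton] at this
      rcases this with h | h
      · exact m2 h
      · exact hw' h
    have hdw' : 2 ≤ G.deg (S \ {u4, u3, u2, u1}) w' := by
      by_cases hpw : w' = p
      · have := BG.deg_sdiff_ge (G := G) (S := S) (R := {u4, u3, u2, u1}) (w := w') (r0 := u1) (by
          intro r hr hadj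
          simp only [mem_insert, mem_singleton] at hr
          rcases hr with rfl | rfl | rfl | rfl
          · exact absurd hadj hadj4
          · exact absurd hadj hadj3
          · exact absurd hadj hadj2
          · rfl)
        rw [← hpw] at hp
        omega
      · rw [BG.deg_sdiff_eq]
        · exact hmin w' hw'S
        · intro r hr
          simp only [mem_insert, mem_singleton] at hr
          rcases hr with rfl | rfl | rfl | rfl
          · exact hadj4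
          · exact hadj3
          · exact hadj2
          · intro h
            have : w' ∈ G.N S r := BG.mem_N.2 ⟨hw'S, G.symm _ _ h⟩
            rw [hN1, mem_insert, mem_singleton] at this
            rcases this with h | h
            · exact hpw h
            · exact m2 h
    have := key lam (hPP.L w w' hwm hNW hdw')
    calc yy ^ 2 * (G.F (S \ {u2, u1}) * QQ ^ G.phi S) ≤ yy ^ 3 * (lam * QQ ^ k) := this
      _ = lam * (yy ^ 3 * QQ ^ k) := by ring

/-- the second term -/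
private theorem kstepp_second {S : Finset V} {p u1 u2 u3 u4 w : V}
    (IH : ∀ T : Finset V, T.card < S.card → G.PP T)
    (hI : G.Irr S) (hmin : ∀ w ∈ S, 2 ≤ G.deg S w) (h1 : u1 ∈ S) (h2 : u2 ∈ S) (h3 : u3 ∈ S) (h4 : u4 ∈ S)
    (hN1 : G.N S u1 = {p, u2}) (hN2 : G.N S u2 = {u1, u3}) (hN3 : G.N S u3 = {u2, u4})
    (hN4 : G.N S u4 = {u3, w}) (hp2 : p ≠ u2) (h13 : u1 ≠ u3) (h24 : u2 ≠ u4) (h3w : u3 ≠ w)
    (hp : 3 ≤ G.deg S p) :
    yy ^ (G.deg S p + G.deg S u3 - 1) * (G.F (S \ {u3, u2, p, u1}) * QQ ^ G.phi S) ≤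
      lam * (yy ^ (G.deg S p + 1) * QQ ^ (3 * G.deg S p + 4)) := by
  obtain ⟨⟨hpS, hwS, a1p, a12, a23, a34, a4w⟩, ⟨c1, c2, c3, c4, c5⟩, ⟨d1, d2, d3, d4⟩, n1, n2⟩ :=
    kstepp_facts hN1 hN2 hN3 hN4 hp2 h13 h24 h3w hp
  have h : G.Pr S p u1 u2 u3 := ⟨h1, h2, by rw [hN1, pair_comm], hN2, hp2.symm, h13⟩
  have hE := h.emptyW hI hp d3
  have hphi := h.phi_W
  have s3 : (G.N S u3).erase u2 = {u4} := by
    rw [hN3]; ext x; simp only [mem_erase, mem_insert, mem_singleton]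
    constructor
    · rintro ⟨h, h' | h'⟩
      · exact absurd h' h
      · exact h'
    · rintro rfl
      exact ⟨h24.symm, Or.inr rfl⟩
  have hcard : ((G.N S p).erase u1).card + 1 = G.deg S p :=
    card_erase_add_one (BG.mem_N.2 ⟨h1, G.symm _ _ a1p⟩)
  have hsum := sum_dl_le_two (G := G) (S := S) (s := (G.N S p).erase u1)
  rw [s3, sum_singleton, d3, d4, hh_two, dl_two, hh_ge hp] at hphi
  have hk' : (G.phi S : ℤ) + 2 * ((G.C6V (S \ {u3, u2, p, u1})).card : ℤ) ≤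
      (G.phi (S \ {u3, u2, p, u1}) : ℤ) + ((3 * G.deg S p + 4 : ℕ) : ℤ) := by
    rw [hE, card_empty]
    have e1 : ((G.deg S p - 2 : ℕ) : ℤ) = (G.deg S p : ℤ) - 2 := by omega
    have e2 : (((G.N S p).erase u1).card : ℤ) = (G.deg S p : ℤ) - 1 := by omega
    rw [e2] at hsum
    rw [e1] at hphi
    push_cast at hphi ⊢
    linarith
  have hwp : w ≠ p := fun h => c5 (by rw [← c4, h, c1])
  have hw2 : w ≠ u2 := fun h => c5 (by rw [← c4, h])
  have hNu4 : G.N (S \ {u3, u2, p, u1}) u4 = {w} := by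
    rw [BG.N_sdiff, hN4]
    ext x
    simp only [mem_sdiff, mem_insert, mem_singleton, not_or]
    constructor
    · rintro ⟨h | h, h'⟩
      · exact absurd h h'.1
      · exact h
    · rintro rfl
      exact ⟨Or.inr rfl, h3w.symm, hw2, hwp, n2⟩
  have hu4m : u4 ∈ S \ {u3, u2, p, u1} := by
    simp only [mem_sdiff, mem_insert, mem_singleton, not_or]
    exact ⟨h4, (BG.ne_of_adj a34).symm, h24.symm, n1.symm, fun h => c5 (by rw [← h, c2])⟩
  have hadj3 : ¬ G.adj w u3 := BG.nadj_col (c4.trans c3.symm)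
  have hadj1 : ¬ G.adj w u1 := BG.nadj_col c4
  have hadj2 : ¬ G.adj w u2 := by
    intro h
    have : w ∈ G.N S u2 := BG.mem_N.2 ⟨hwS, G.symm _ _ h⟩
    rw [hN2, mem_insert, mem_singleton] at this
    rcases this with h | h
    · exact n2 h
    · exact h3w h.symm
  have hdw : 2 ≤ G.deg (S \ {u3, u2, p, u1}) w := by
    by_cases hpw : G.adj w p
    · have h3' := kstepp_hex hI h1 h2 h3 h4 hN1 hN2 hN3 hN4 hp2 h13 h24 h3w hp hpw (hmin w hwS)
      have := BG.deg_sdiff_ge (G := G) (S := S) (R := {u3, u2, p, u1}) (w := w) (r0 := p) (by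
        intro r hr hadj
        simp only [mem_insert, mem_singleton] at hr
        rcases hr with rfl | rfl | rfl | rfl
        · exact absurd hadj hadj3
        · exact absurd hadj hadj2
        · rfl
        · exact absurd hadj hadj1)
      omega
    · rw [BG.deg_sdiff_eq]
      · exact hmin w hwS
      · intro r hr
        simp only [mem_insert, mem_singleton] at hr
        rcases hr with rfl | rfl | rfl | rfl
        · exact hadj3
        · exact hadj2
        · exact hpw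
        · exact hadj1
  have hlt : (S \ {u3, u2, p, u1}).card < S.card := card_sdiff_lt h3 (by simp)
  have hL := (IH _ hlt).L u4 w hu4m hNu4 hdw
  have := BG.use hL hk'
  have he : G.deg S p + G.deg S u3 - 1 = G.deg S p + 1 := by omega
  rw [he]
  calc yy ^ (G.deg S p + 1) * (G.F (S \ {u3, u2, p, u1}) * QQ ^ G.phi S)
      ≤ yy ^ (G.deg S p + 1) * (lam * QQ ^ (3 * G.deg S p + 4)) :=
        mul_le_mul_of_nonneg_left this (pow_nonneg yy_pos.le _)
    _ = lam * (yy ^ (G.deg S p + 1) * QQ ^ (3 * G.deg S p + 4)) := by ring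

private theorem kstepp_lam : lam * QQ ≤ 1 := by
  have h1 : lam * QQ = yy * QQ ^ 14 := by
    unfold lam
    ring
  rw [h1]
  refine le_trans ?_ yQ57
  exact mul_le_mul_of_nonneg_left (QQ_pow_mono (by norm_num)) yy_pos.le

theorem BG.stepP {S : Finset V} {p u1 u2 u3 u4 w : V} (IH : ∀ T : Finset V, T.card < S.card → G.PP T)
    (hI : G.Irr S) (hmin : ∀ w ∈ S, 2 ≤ G.deg S w) (h1 : u1 ∈ S) (h2 : u2 ∈ S) (h3 : u3 ∈ S) (h4 : u4 ∈ S)
    (hN1 : G.N S u1 = {p, u2}) (hN2 : G.N S u2 = {u1, u3}) (hN3 : G.N S u3 = {u2, u4})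
    (hN4 : G.N S u4 = {u3, w}) (hp2 : p ≠ u2) (h13 : u1 ≠ u3) (h24 : u2 ≠ u4) (h3w : u3 ≠ w)
    (hp : 3 ≤ G.deg S p) (hC : p ∉ G.C6V (S \ {u1, u2, u3, u4})) : G.F S * QQ ^ G.phi S ≤ b22 := by
  obtain ⟨⟨hpS, hwS, a1p, a12, a23, a34, a4w⟩, ⟨c1, c2, c3, c4, c5⟩, ⟨d1, d2, d3, d4⟩, n1, n2⟩ :=
    kstepp_facts hN1 hN2 hN3 hN4 hp2 h13 h24 h3w hp
  have h : G.Pr S p u1 u2 u3 := ⟨h1, h2, by rw [hN1, pair_comm], hN2, hp2.symm, h13⟩
  have hsec := kstepp_second IH hI hmin h1 h2 h3 h4 hN1 hN2 hN3 hN4 hp2 h13 h24 h3w hp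
  have hfirst : ∀ k : ℕ, 8 + dl (G.deg S p) + dl (G.deg S w) ≤ (k : ℤ) →
      yy ^ 2 * (G.F (S \ {u2, u1}) * QQ ^ G.phi S) ≤ yy ^ 3 * QQ ^ k ∧
      (G.deg S w = 2 → yy ^ 2 * (G.F (S \ {u2, u1}) * QQ ^ G.phi S) ≤ lam * (yy ^ 3 * QQ ^ k)) :=
    fun k hk => kstepp_first IH hI hmin h1 h2 h3 h4 hN1 hN2 hN3 hN4 hp2 h13 h24 h3w hp hC hk
  have hw2 := hmin w hwS
  rw [h.Q]
  have hlam := lam_pos.le
  rcases Nat.lt_or_ge (G.deg S p) 4 with hp4 | hp4
  · have hp3 : G.deg S p = 3 := by omega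
    rw [hp3] at hsec hfirst ⊢
    rw [dl_three] at hfirst
    rw [show 3 + 1 = 4 from rfl, show 3 * 3 + 4 = 13 from rfl] at hsec
    rcases Nat.lt_or_ge (G.deg S w) 3 with hw3 | hw3
    · have hdw : G.deg S w = 2 := by omega
      have h5 := (hfirst 9 (by rw [hdw, dl_two]; norm_num)).2 hdw
      have h6 := num_P4b
      linarith
    · have h5 := (hfirst 8 (by have := dl_le_one hw3; push_cast; linarith)).1
      have h6 := num_P4a
      linarith
  · have hmono : yy ^ (G.deg S p + 1) * QQ ^ (3 * G.deg S p + 4) ≤ yy ^ 5 * QQ ^ 16 :=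
      yQ_le (by omega) (by omega)
    have h7 := mul_le_mul_of_nonneg_left hmono hlam
    have h8 := num_P4c
    rw [dl_ge hp4] at hfirst
    rcases Nat.lt_or_ge (G.deg S w) 3 with hw3 | hw3
    · have hdw : G.deg S w = 2 := by omega
      have h5 := (hfirst 11 (by rw [hdw, dl_two]; norm_num)).2 hdw
      have h9 : lam * (yy ^ 3 * QQ ^ 11) ≤ yy ^ 3 * QQ ^ 10 := by
        have e : lam * (yy ^ 3 * QQ ^ 11) = lam * QQ * (yy ^ 3 * QQ ^ 10) := by ring
        rw [e]
        have h10 : 0 ≤ yy ^ 3 * QQ ^ 10 := mul_nonneg (pow_nonneg yy_pos.le _) (pow_nonneg QQ_pos.le _)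
        have := kstepp_lam
        nlinarith
      linarith
    · have h5 := (hfirst 10 (by have := dl_le_one hw3; push_cast; linarith)).1
      linarith

end Pool.Agent.CFree
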