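import Pool.Agent.Lib_MP_6af485_kt.KDisc
import Pool.Agent.Lib_MP_6af485_kt.KRedC
import Pool.Agent.Lib_MP_6af485_kt.KStepN
import Pool.Agent.Lib_MP_6af485_kt.KStepP
import Pool.Agent.Lib_MP_6af485_kt.KGe3

/-!
# MP_6af485_co, `k = 3`: the induction

`PP_irr`: `S` irreducible with at least three vertices; all degrees are at least two (`Irr.deg2`). `Gh_le` reduces
everything except `A` for the 6-cycle to `F S * QQ ^ phi S`.
`A`: all degrees two: `|S| = 6`: `six`; otherwise `all2`, `EE_le_one`. All degrees at least three: `ge3`. Otherwise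
`theta_or`: `EE_le_one` or `IsTh.val`. `L`: `N S v = {u}` contradicts degree at least two. `B`: `kstepB`; `B34`: `stepB34'`;
`B44`: `T1`. `N`: all degrees two: `|S| ≠ 6` (otherwise `S` is a 6-cycle component and `u ∈ C6V S`): `all2`; otherwise
`theta_or`; in the second case `u ∈ ThV S`. `D`: if some vertex has degree two: `theta_or`; the theta graph has no vertex of
degree at least four (its vertices have degree at most three: vertices of `K` have degree two in `S \ {u1, u2}` and at most
one neighbour among `u1`, `u2`, as these are adjacent); otherwise `stepD`. `P4`: `stepP`.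

`main`: induction on `|S|`. `S` not balanced: `F_unbal`, `zero_PP`. `S` not connected: there is `W ⊆ S`, nonempty, `≠ S`
without edges to `S \ W`: `PP_disc`. Otherwise `irr_or_cut`: `PP_red`, or irreducible: `PP_small` if `|S| ≤ 2`, else `PP_irr`.
-/

set_option autoImplicit false

namespace Pool.Agent.CFree

open Finset

variable {V : Type} [Fintype V] [DecidableEq V] {G : BG V}

theorem BG.IsTh.deg_le {S K : Finset V} {u1 u2 w : V} (h : G.IsTh S u1 u2 K)
    (hS : S = insert u1 (insert u2 K)) (hw : w ∈ S) : G.deg S w ≤ 3 := by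
  obtain ⟨h1, h2, h12, hd1, hd2, hK, -, -⟩ := h
  rw [hS, mem_insert, mem_insert] at hw
  rcases hw with rfl | rfl | hw
  · omega
  · omega
  · have hd := (hK.2.2 w hw).1
    have hle : G.deg S w ≤ G.deg (S \ {u1, u2}) w + 1 := by
      by_cases ha : G.adj w u1
      · refine BG.deg_sdiff_ge (r0 := u1) fun r hr hadj => ?_
        rw [mem_insert, mem_singleton] at hr
        rcases hr with rfl | rfl
        · rfl
        · exact absurd h12 (BG.nadj_common ha hadj)
      · refine BG.deg_sdiff_ge (r0 := u2) fun r hr hadj => ?_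
        rw [mem_insert, mem_singleton] at hr
        rcases hr with rfl | rfl
        · exact absurd hadj ha
        · rfl
    omega

theorem BG.PP_irr {S : Finset V} (IH : ∀ T : Finset V, T.card < S.card → G.PP T) (hI : G.Irr S)
    (hc : 3 ≤ S.card) : G.PP S := by
  have hmin := hI.deg2 hc
  have hne : S.Nonempty := by
    rw [← card_pos]
    omega
  constructor
  · by_cases hall : ∀ w ∈ S, G.deg S w = 2
    · by_cases h6 : S.card = 6
      · exact BG.six hall h6
      · exact (BG.Gh_le (BG.all2 IH hI hne hall h6)).trans EE_le_one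
    · push Not at hall
      obtain ⟨w, hw, hdw⟩ := hall
      by_cases h2 : ∃ u ∈ S, G.deg S u = 2
      · obtain ⟨u, hu, hdu⟩ := h2
        rcases BG.theta_or IH hI hmin hu hdu hw hdw with h | ⟨u1, u2, K, hT, hS⟩
        · exact (BG.Gh_le h).trans EE_le_one
        · exact BG.Gh_le (hT.val hS)
      · refine BG.Gh_le (BG.ge3 IH hI.conn hne ?_)
        intro x hx
        have h3 := hmin x hx
        have h4 : G.deg S x ≠ 2 := fun h => h2 ⟨x, hx, h⟩
        omega
  · intro v u hv hN hu
    have h1 := hmin v hv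
    unfold BG.deg at h1
    rw [hN, card_singleton] at h1
    omega
  · intro v a b hv hab hN ha hb
    exact BG.Gh_le (BG.kstepB IH hI hmin hv hab hN ha hb)
  · intro v a b hv hab hN ha hb
    exact BG.Gh_le (BG.stepB34' IH hI hmin hv hab hN ha hb)
  · intro v a b hv hab hN ha hb
    exact BG.Gh_le (BG.T1 IH hI hmin hv hab hN ha hb)
  · intro u hu hd hC hT
    refine BG.Gh_le ?_
    by_cases hall : ∀ w ∈ S, G.deg S w = 2
    · refine BG.all2 IH hI hne hall fun h6 => hC ?_
      exact BG.mem_C6V.2 ⟨S, ⟨Subset.rfl, h6, fun w hw => ⟨hall w hw, fun x hx => (BG.mem_N.1 hx).1⟩⟩, hu⟩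
    · push Not at hall
      obtain ⟨w, hw, hdw⟩ := hall
      rcases BG.theta_or IH hI hmin hu hd hw hdw with h | ⟨u1, u2, K, hTh, hS⟩
      · exact h
      · exact absurd (BG.mem_ThV.2 ⟨u1, u2, K, hTh, hS ▸ hu⟩) hT
  · intro b c hb hcb hdb hdc
    have hcS := (BG.mem_N.1 hcb).1
    refine BG.Gh_le ?_
    by_cases h2 : ∃ u ∈ S, G.deg S u = 2
    · obtain ⟨u, hu, hdu⟩ := h2
      rcases BG.theta_or IH hI hmin hu hdu hb (by omega) with h | ⟨u1, u2, K, hTh, hS⟩
      · exact h
      · have := hTh.deg_le hS hcS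
        omega
    · refine BG.stepD IH ?_ hb hcb hdb hdc
      intro x hx
      have h3 := hmin x hx
      have h4 : G.deg S x ≠ 2 := fun h => h2 ⟨x, hx, h⟩
      omega
  · intro p u1 u2 u3 u4 w h1 h2 h3 h4 hN1 hN2 hN3 hN4 hp2 h13 h24 h3w hp hC
    exact BG.Gh_le (BG.stepP IH hI hmin h1 h2 h3 h4 hN1 hN2 hN3 hN4 hp2 h13 h24 h3w hp hC)

theorem BG.mainK (G : BG V) : ∀ (n : ℕ) (S : Finset V), S.card = n → G.PP S := by
  intro n
  induction n using Nat.strong_induction_on with
  | _ n ih =>
    intro S hS
    have IH : ∀ T : Finset V, T.card < S.card → G.PP T := fun T hT => ih T.card (by omega) T rfl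
    by_cases hb : G.bal S
    · by_cases hc : G.Conn S
      · rcases BG.irr_or_cut hb hc with hI | ⟨W, x, hW⟩
        · by_cases h3 : S.card ≤ 2
          · exact BG.PP_small h3
          · exact BG.PP_irr IH hI (by omega)
        · exact BG.PP_red IH hc hW
      · unfold BG.Conn at hc
        push Not at hc
        obtain ⟨W, hW, hne, hWS, h⟩ := hc
        have hcl : ∀ w ∈ W, G.N S w ⊆ W := by
          intro w hw x hx
          obtain ⟨hxS, hwx⟩ := BG.mem_N.1 hx
          by_contra hxW
          exact h w hw x (mem_sdiff.2 ⟨hxS, hxW⟩) hwx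
        obtain ⟨w, hw⟩ := hne
        refine BG.PP_disc hW hcl (IH W (card_lt_card (hW.ssubset_of_ne hWS))) (IH (S \ W) ?_)
        exact card_sdiff_lt (hW hw) hw
    · exact BG.zero_PP (BG.F_unbal hb)

end Pool.Agent.CFree
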