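import Pool.Agent.Lib_MP_6af485_kt.KDefs

/-!
# MP_6af485_co, `k = 3`: numerical inequalities
-/

set_option autoImplicit false

namespace Pool.Agent.CFree

open Finset

theorem yy_lb : 7937005 / 10000000 < yy := by
  by_contra h
  push Not at h
  have h1 : yy ^ 3 ≤ (7937005 / 10000000 : ℝ) ^ 3 := pow_le_pow_left₀ yy_pos.le h 3
  rw [yy_cube] at h1
  norm_num at h1

theorem yy_ub : yy < 7937006 / 10000000 := by
  by_contra h
  push Not at h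
  have h1 : (7937006 / 10000000 : ℝ) ^ 3 ≤ yy ^ 3 := pow_le_pow_left₀ (by norm_num) h 3
  rw [yy_cube] at h1
  norm_num at h1

theorem QQ_pos : 0 < QQ := Real.rpow_pos_of_pos (by have := yy_pos; positivity) _

theorem QQ_pow14 : QQ ^ 14 * (3 * yy ^ 5) = 1 := by
  have h : 0 < 3 * yy ^ 5 := by have := yy_pos; positivity
  unfold QQ
  rw [← Real.rpow_natCast, ← Real.rpow_mul h.le]
  have e : (-(1 / 14) : ℝ) * ((14 : ℕ) : ℝ) = -1 := by norm_num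
  rw [e, Real.rpow_neg_one]
  exact inv_mul_cancel₀ h.ne'

theorem QQ_gt : 1004053 / 1000000 < QQ := by
  by_contra h
  push Not at h
  have h1 : QQ ^ 14 ≤ (1004053 / 1000000 : ℝ) ^ 14 := pow_le_pow_left₀ QQ_pos.le h 14
  have h2 : yy ^ 5 ≤ (7937006 / 10000000 : ℝ) ^ 5 := pow_le_pow_left₀ yy_pos.le yy_ub.le 5
  have h3 := QQ_pow14
  have h4 : 0 ≤ QQ ^ 14 := pow_nonneg QQ_pos.le _
  have h5 : QQ ^ 14 * (3 * yy ^ 5) ≤ (1004053 / 1000000 : ℝ) ^ 14 * (3 * (7937006 / 10000000 : ℝ) ^ 5) := by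
    have := yy_pos
    gcongr
  rw [h3] at h5
  norm_num at h5

theorem QQ_lt : QQ < 1004054 / 1000000 := by
  by_contra h
  push Not at h
  have h1 : (1004054 / 1000000 : ℝ) ^ 14 ≤ QQ ^ 14 := pow_le_pow_left₀ (by norm_num) h 14
  have h2 : (7937005 / 10000000 : ℝ) ^ 5 ≤ yy ^ 5 := pow_le_pow_left₀ (by norm_num) yy_lb.le 5
  have h3 := QQ_pow14
  have h5 : (1004054 / 1000000 : ℝ) ^ 14 * (3 * (7937005 / 10000000 : ℝ) ^ 5) ≤ QQ ^ 14 * (3 * yy ^ 5) := by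
    have := QQ_pos
    gcongr
  rw [h3] at h5
  norm_num at h5

theorem one_le_QQ : 1 ≤ QQ := by linarith [QQ_gt]

/-- upper bounds of monomials -/
theorem mup (a k : ℕ) {c : ℝ} (h : (7937006 / 10000000 : ℝ) ^ a * (1004054 / 1000000) ^ k ≤ c) :
    yy ^ a * QQ ^ k ≤ c := by
  refine le_trans ?_ h
  have h1 := yy_ub.le
  have h2 := QQ_lt.le
  have h3 := yy_pos.le
  have h4 := QQ_pos.le
  gcongr

/-- lower bounds of monomials -/
theorem mlo (a k : ℕ) {c : ℝ} (h : c ≤ (7937005 / 10000000 : ℝ) ^ a * (1004053 / 1000000) ^ k) :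
    c ≤ yy ^ a * QQ ^ k := by
  refine h.trans ?_
  have h1 := yy_lb.le
  have h2 := QQ_gt.le
  gcongr

theorem QQ_pow_mono {m n : ℕ} (h : m ≤ n) : QQ ^ m ≤ QQ ^ n := pow_le_pow_right₀ one_le_QQ h

theorem lam_pos : 0 < lam := by
  have := yy_pos; have := QQ_pos
  unfold lam; positivity

theorem bet_pos : 0 < bet := by
  have := yy_pos; have := QQ_pos
  unfold bet; positivity

theorem b44_pos : 0 < b44 := by
  have := yy_pos; have := QQ_pos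
  unfold b44; positivity

theorem b22_pos : 0 < b22 := by
  have := yy_pos; have := QQ_pos
  unfold b22; positivity

theorem EE_pos : 0 < EE := by
  have := yy_pos; have := QQ_pos
  unfold EE; positivity

/-- `y * Q ^ 57 ≤ 1` -/
theorem yQ57 : yy * QQ ^ 57 ≤ 1 := by
  have := mup 1 57 (c := 1) (by norm_num)
  rwa [pow_one] at this

/-- the general comparison: `y ^ (n + m) * Q ^ (a + k m)` decreases in `m` for `k ≤ 57` -/
theorem yQ_mono {n a k : ℕ} (m : ℕ) (hk : k ≤ 57) : yy ^ (n + m) * QQ ^ (a + k * m) ≤ yy ^ n * QQ ^ a := by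
  have hy := yy_pos
  have hq := QQ_pos
  have h1 : yy * QQ ^ k ≤ 1 := by
    refine le_trans ?_ yQ57
    exact mul_le_mul_of_nonneg_left (QQ_pow_mono hk) hy.le
  have h2 : yy ^ (n + m) * QQ ^ (a + k * m) = yy ^ n * QQ ^ a * (yy * QQ ^ k) ^ m := by
    rw [pow_add, pow_add, mul_pow, pow_mul]
    ring
  rw [h2]
  have h3 : (yy * QQ ^ k) ^ m ≤ 1 := pow_le_one₀ (by positivity) h1
  have h4 : 0 ≤ yy ^ n * QQ ^ a := by positivity
  nlinarith

/-- comparison of monomials: if `n ≤ n'` and `a' ≤ a + 57 (n' - n)` -/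
theorem yQ_le {n n' a a' : ℕ} (hn : n ≤ n') (ha : a' ≤ a + 57 * (n' - n)) :
    yy ^ n' * QQ ^ a' ≤ yy ^ n * QQ ^ a := by
  obtain ⟨m, rfl⟩ : ∃ m, n' = n + m := ⟨n' - n, by omega⟩
  have h1 : n + m - n = m := by omega
  rw [h1] at ha
  refine le_trans ?_ (yQ_mono (n := n) (a := a) (k := 57) m le_rfl)
  exact mul_le_mul_of_nonneg_left (QQ_pow_mono ha) (pow_nonneg yy_pos.le _)

theorem num_T1 : yy ^ 4 * QQ ^ 8 + yy ^ 4 * QQ ^ 8 = b44 := by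
  rw [yy4]
  unfold b44
  ring

/-- `3 y ^ 4 * β = Q ^ 2` -/
theorem num_cubic : 3 * (yy ^ 4 * bet) = QQ ^ 2 := by
  have h : 3 * (yy ^ 4 * bet) = QQ ^ 2 * (QQ ^ 14 * (3 * yy ^ 5)) := by
    unfold bet
    ring
  rw [h, QQ_pow14, mul_one]

theorem num_T7a : 1 / 2 * (bet * QQ ^ 2) + 1 / 2 * b34 = bet := by
  unfold bet b34
  ring

theorem num_T7c : b34 * QQ ^ 2 ≤ bet := by
  have h : b34 * QQ ^ 2 = bet - yy * QQ ^ 16 * (QQ ^ 2 - 1) ^ 2 := by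
    unfold bet b34
    ring
  have h1 : 0 ≤ yy * QQ ^ 16 * (QQ ^ 2 - 1) ^ 2 := by
    have := yy_pos; have := QQ_pos
    positivity
  linarith

theorem num_T1d : lam * (yy ^ 4 * QQ ^ 11) ≤ yy ^ 4 * QQ ^ 8 := by
  have h0 := mlo 4 8 (c := 4099017 / 10000000) (by norm_num)
  have h1 := mup 5 24 (c := 3470990 / 10000000) (by norm_num)
  have e : yy ^ 4 * QQ ^ 8 - (lam * (yy ^ 4 * QQ ^ 11)) = (1) * (yy ^ 4 * QQ ^ 8) + (-1) * (yy ^ 5 * QQ ^ 24) := by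
    unfold lam
    ring
  linarith

theorem num_T2 : 1 / 2 * (lam * QQ ^ 8) + yy ^ 4 * QQ ^ 6 ≤ b34 := by
  have h0 := mlo 1 16 (c := 8467649 / 10000000) (by norm_num)
  have h1 := mup 1 18 (c := 8536582 / 10000000) (by norm_num)
  have h2 := mup 1 21 (c := 8640825 / 10000000) (by norm_num)
  have h3 := mup 4 6 (c := 4066018 / 10000000) (by norm_num)
  have e : b34 - (1 / 2 * (lam * QQ ^ 8) + yy ^ 4 * QQ ^ 6) = (2) * (yy ^ 1 * QQ ^ 16) + (-1) * (yy ^ 1 * QQ ^ 18) + (-1/2) * (yy ^ 1 * QQ ^ 21) + (-1) * (yy ^ 4 * QQ ^ 6) := by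
    unfold lam b34
    ring
  linarith

theorem num_T2d : 1 / 2 * (lam * QQ ^ 8) + lam * (yy ^ 4 * QQ ^ 9) ≤ b34 := by
  have h0 := mlo 1 16 (c := 8467649 / 10000000) (by norm_num)
  have h1 := mup 1 18 (c := 8536582 / 10000000) (by norm_num)
  have h2 := mup 1 21 (c := 8640825 / 10000000) (by norm_num)
  have h3 := mup 5 22 (c := 3443017 / 10000000) (by norm_num)
  have e : b34 - (1 / 2 * (lam * QQ ^ 8) + lam * (yy ^ 4 * QQ ^ 9)) = (2) * (yy ^ 1 * QQ ^ 16) + (-1) * (yy ^ 1 * QQ ^ 18) + (-1/2) * (yy ^ 1 * QQ ^ 21) + (-1) * (yy ^ 5 * QQ ^ 22) := by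
    unfold lam b34
    ring
  linarith

theorem num_T3 : 1 / 2 * QQ ^ 6 + yy ^ 5 * QQ ^ 8 ≤ b34 := by
  have h0 := mup 0 6 (c := 10245719 / 10000000) (by norm_num)
  have h1 := mlo 1 16 (c := 8467649 / 10000000) (by norm_num)
  have h2 := mup 1 18 (c := 8536582 / 10000000) (by norm_num)
  have h3 := mup 5 8 (c := 3253420 / 10000000) (by norm_num)
  have e : b34 - (1 / 2 * QQ ^ 6 + yy ^ 5 * QQ ^ 8) = (-1/2) * (yy ^ 0 * QQ ^ 6) + (2) * (yy ^ 1 * QQ ^ 16) + (-1) * (yy ^ 1 * QQ ^ 18) + (-1) * (yy ^ 5 * QQ ^ 8) := by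
    unfold b34
    ring
  linarith

theorem num_T3d : 1 / 2 * QQ ^ 6 + lam * (yy ^ 5 * QQ ^ 12) ≤ b34 := by
  have h0 := mup 0 6 (c := 10245719 / 10000000) (by norm_num)
  have h1 := mlo 1 16 (c := 8467649 / 10000000) (by norm_num)
  have h2 := mup 1 18 (c := 8536582 / 10000000) (by norm_num)
  have h3 := mup 6 25 (c := 2766095 / 10000000) (by norm_num)
  have e : b34 - (1 / 2 * QQ ^ 6 + lam * (yy ^ 5 * QQ ^ 12)) = (-1/2) * (yy ^ 0 * QQ ^ 6) + (2) * (yy ^ 1 * QQ ^ 16) + (-1) * (yy ^ 1 * QQ ^ 18) + (-1) * (yy ^ 6 * QQ ^ 25) := by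
    unfold lam b34
    ring
  linarith

theorem num_T4a : 1 / 2 * (bet * QQ ^ 6) + lam * (yy ^ 4 * QQ ^ 9) ≤ b34 := by
  have h0 := mlo 1 16 (c := 8467649 / 10000000) (by norm_num)
  have h1 := mup 1 18 (c := 8536582 / 10000000) (by norm_num)
  have h2 := mup 1 22 (c := 8675855 / 10000000) (by norm_num)
  have h3 := mup 5 22 (c := 3443017 / 10000000) (by norm_num)
  have e : b34 - (1 / 2 * (bet * QQ ^ 6) + lam * (yy ^ 4 * QQ ^ 9)) = (2) * (yy ^ 1 * QQ ^ 16) + (-1) * (yy ^ 1 * QQ ^ 18) + (-1/2) * (yy ^ 1 * QQ ^ 22) + (-1) * (yy ^ 5 * QQ ^ 22) := by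
    unfold lam bet b34
    ring
  linarith

theorem num_T4b : 1 / 2 * (EE * QQ ^ 6) + lam * (yy ^ 5 * QQ ^ 25) ≤ b34 := by
  have h0 := mlo 1 16 (c := 8467649 / 10000000) (by norm_num)
  have h1 := mup 1 18 (c := 8536582 / 10000000) (by norm_num)
  have h2 := mup 2 8 (c := 6506838 / 10000000) (by norm_num)
  have h3 := mup 5 26 (c := 3499189 / 10000000) (by norm_num)
  have h4 := mup 6 38 (c := 2915473 / 10000000) (by norm_num)
  have e : b34 - (1 / 2 * (EE * QQ ^ 6) + lam * (yy ^ 5 * QQ ^ 25)) = (2) * (yy ^ 1 * QQ ^ 16) + (-1) * (yy ^ 1 * QQ ^ 18) + (-1/2) * (yy ^ 2 * QQ ^ 8) + (-1/2) * (yy ^ 5 * QQ ^ 26) + (-1) * (yy ^ 6 * QQ ^ 38) := by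
    unfold lam b34 EE
    ring
  linarith

theorem num_T4c : 1 / 2 * (EE * QQ ^ 6) + yy ^ 5 * QQ ^ 18 ≤ b34 := by
  have h0 := mlo 1 16 (c := 8467649 / 10000000) (by norm_num)
  have h1 := mup 1 18 (c := 8536582 / 10000000) (by norm_num)
  have h2 := mup 2 8 (c := 6506838 / 10000000) (by norm_num)
  have h3 := mup 5 18 (c := 3387746 / 10000000) (by norm_num)
  have h4 := mup 5 26 (c := 3499189 / 10000000) (by norm_num)
  have e : b34 - (1 / 2 * (EE * QQ ^ 6) + yy ^ 5 * QQ ^ 18) = (2) * (yy ^ 1 * QQ ^ 16) + (-1) * (yy ^ 1 * QQ ^ 18) + (-1/2) * (yy ^ 2 * QQ ^ 8) + (-1) * (yy ^ 5 * QQ ^ 18) + (-1/2) * (yy ^ 5 * QQ ^ 26) := by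
    unfold b34 EE
    ring
  linarith

theorem num_T5a : 1 / 2 * (EE * QQ ^ 2) + bet * (yy ^ 4 * QQ ^ 6) ≤ b34 := by
  have h0 := mlo 1 16 (c := 8467649 / 10000000) (by norm_num)
  have h1 := mup 1 18 (c := 8536582 / 10000000) (by norm_num)
  have h2 := mup 2 4 (c := 6402384 / 10000000) (by norm_num)
  have h3 := mup 5 22 (c := 3443017 / 10000000) (by norm_num)
  have e : b34 - (1 / 2 * (EE * QQ ^ 2) + bet * (yy ^ 4 * QQ ^ 6)) = (2) * (yy ^ 1 * QQ ^ 16) + (-1) * (yy ^ 1 * QQ ^ 18) + (-1/2) * (yy ^ 2 * QQ ^ 4) + (-3/2) * (yy ^ 5 * QQ ^ 22) := by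
    unfold bet b34 EE
    ring
  linarith

theorem num_T5b : 1 / 2 * (EE * QQ ^ 4) + b34 * (yy ^ 4 * QQ ^ 6) ≤ b34 := by
  have h0 := mlo 1 16 (c := 8467649 / 10000000) (by norm_num)
  have h1 := mup 1 18 (c := 8536582 / 10000000) (by norm_num)
  have h2 := mup 2 6 (c := 6454400 / 10000000) (by norm_num)
  have h3 := mup 5 22 (c := 3443017 / 10000000) (by norm_num)
  have h4 := mlo 5 24 (c := 3470903 / 10000000) (by norm_num)
  have e : b34 - (1 / 2 * (EE * QQ ^ 4) + b34 * (yy ^ 4 * QQ ^ 6)) = (2) * (yy ^ 1 * QQ ^ 16) + (-1) * (yy ^ 1 * QQ ^ 18) + (-1/2) * (yy ^ 2 * QQ ^ 6) + (-2) * (yy ^ 5 * QQ ^ 22) + (1/2) * (yy ^ 5 * QQ ^ 24) := by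
    unfold b34 EE
    ring
  linarith

theorem num_T5c : 1 / 2 * QQ ^ 6 + b44 * yy ^ 4 ≤ b34 := by
  have h0 := mup 0 6 (c := 10245719 / 10000000) (by norm_num)
  have h1 := mlo 1 16 (c := 8467649 / 10000000) (by norm_num)
  have h2 := mup 1 18 (c := 8536582 / 10000000) (by norm_num)
  have h3 := mup 5 8 (c := 3253420 / 10000000) (by norm_num)
  have e : b34 - (1 / 2 * QQ ^ 6 + b44 * yy ^ 4) = (-1/2) * (yy ^ 0 * QQ ^ 6) + (2) * (yy ^ 1 * QQ ^ 16) + (-1) * (yy ^ 1 * QQ ^ 18) + (-1) * (yy ^ 5 * QQ ^ 8) := by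
    unfold b34 b44
    ring
  linarith

theorem num_T5d : 1 / 2 * (EE * QQ ^ 6) + b44 * (yy ^ 4 * QQ ^ 6) ≤ b34 := by
  have h0 := mlo 1 16 (c := 8467649 / 10000000) (by norm_num)
  have h1 := mup 1 18 (c := 8536582 / 10000000) (by norm_num)
  have h2 := mup 2 8 (c := 6506838 / 10000000) (by norm_num)
  have h3 := mup 5 14 (c := 3333363 / 10000000) (by norm_num)
  have h4 := mup 5 26 (c := 3499189 / 10000000) (by norm_num)
  have e : b34 - (1 / 2 * (EE * QQ ^ 6) + b44 * (yy ^ 4 * QQ ^ 6)) = (2) * (yy ^ 1 * QQ ^ 16) + (-1) * (yy ^ 1 * QQ ^ 18) + (-1/2) * (yy ^ 2 * QQ ^ 8) + (-1) * (yy ^ 5 * QQ ^ 14) + (-1/2) * (yy ^ 5 * QQ ^ 26) := by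
    unfold b34 b44 EE
    ring
  linarith

theorem num_T6a : yy * QQ ^ 10 ≤ bet := by
  have h0 := mup 1 10 (c := 8264707 / 10000000) (by norm_num)
  have h1 := mlo 1 16 (c := 8467649 / 10000000) (by norm_num)
  have e : bet - (yy * QQ ^ 10) = (-1) * (yy ^ 1 * QQ ^ 10) + (1) * (yy ^ 1 * QQ ^ 16) := by
    unfold bet
    ring
  linarith

theorem num_T6c : yy ^ 2 * QQ ^ 35 ≤ bet := by
  have h0 := mlo 1 16 (c := 8467649 / 10000000) (by norm_num)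
  have h1 := mup 2 35 (c := 7257899 / 10000000) (by norm_num)
  have e : bet - (yy ^ 2 * QQ ^ 35) = (1) * (yy ^ 1 * QQ ^ 16) + (-1) * (yy ^ 2 * QQ ^ 35) := by
    unfold bet
    ring
  linarith

theorem num_T7b : 1 / 2 * (bet * QQ ^ 4) + 1 / 2 * b44 ≤ bet := by
  have h0 := mup 1 8 (c := 8198102 / 10000000) (by norm_num)
  have h1 := mlo 1 16 (c := 8467649 / 10000000) (by norm_num)
  have h2 := mup 1 20 (c := 8605937 / 10000000) (by norm_num)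
  have e : bet - (1 / 2 * (bet * QQ ^ 4) + 1 / 2 * b44) = (-1/2) * (yy ^ 1 * QQ ^ 8) + (1) * (yy ^ 1 * QQ ^ 16) + (-1/2) * (yy ^ 1 * QQ ^ 20) := by
    unfold bet b44
    ring
  linarith

theorem num_T7d : 1 / 2 * (b34 * QQ ^ 4) + 1 / 2 * (b44 * QQ ^ 2) ≤ bet := by
  have h0 := mup 1 10 (c := 8264707 / 10000000) (by norm_num)
  have h1 := mlo 1 16 (c := 8467649 / 10000000) (by norm_num)
  have h2 := mup 1 20 (c := 8605937 / 10000000) (by norm_num)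
  have h3 := mlo 1 22 (c := 8675663 / 10000000) (by norm_num)
  have e : bet - (1 / 2 * (b34 * QQ ^ 4) + 1 / 2 * (b44 * QQ ^ 2)) = (-1/2) * (yy ^ 1 * QQ ^ 10) + (1) * (yy ^ 1 * QQ ^ 16) + (-1) * (yy ^ 1 * QQ ^ 20) + (1/2) * (yy ^ 1 * QQ ^ 22) := by
    unfold bet b34 b44
    ring
  linarith

theorem num_T7e : b44 * QQ ^ 4 ≤ bet := by
  have h0 := mup 1 12 (c := 8331853 / 10000000) (by norm_num)
  have h1 := mlo 1 16 (c := 8467649 / 10000000) (by norm_num)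
  have e : bet - (b44 * QQ ^ 4) = (-1) * (yy ^ 1 * QQ ^ 12) + (1) * (yy ^ 1 * QQ ^ 16) := by
    unfold bet b44
    ring
  linarith

theorem num_T8a : 1 / 2 * (EE * QQ ^ 4) + 1 / 2 * (yy ^ 2 * QQ ^ 23) ≤ bet := by
  have h0 := mlo 1 16 (c := 8467649 / 10000000) (by norm_num)
  have h1 := mup 2 6 (c := 6454400 / 10000000) (by norm_num)
  have h2 := mup 2 23 (c := 6913947 / 10000000) (by norm_num)
  have h3 := mup 5 24 (c := 3470990 / 10000000) (by norm_num)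
  have e : bet - (1 / 2 * (EE * QQ ^ 4) + 1 / 2 * (yy ^ 2 * QQ ^ 23)) = (1) * (yy ^ 1 * QQ ^ 16) + (-1/2) * (yy ^ 2 * QQ ^ 6) + (-1/2) * (yy ^ 2 * QQ ^ 23) + (-1/2) * (yy ^ 5 * QQ ^ 24) := by
    unfold bet EE
    ring
  linarith

theorem num_T8b : 1 / 2 * (EE * QQ ^ 4) + 1 / 2 * (bet * (yy * QQ ^ 10)) ≤ bet := by
  have h0 := mlo 1 16 (c := 8467649 / 10000000) (by norm_num)
  have h1 := mup 2 6 (c := 6454400 / 10000000) (by norm_num)
  have h2 := mup 2 26 (c := 6998376 / 10000000) (by norm_num)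
  have h3 := mup 5 24 (c := 3470990 / 10000000) (by norm_num)
  have e : bet - (1 / 2 * (EE * QQ ^ 4) + 1 / 2 * (bet * (yy * QQ ^ 10))) = (1) * (yy ^ 1 * QQ ^ 16) + (-1/2) * (yy ^ 2 * QQ ^ 6) + (-1/2) * (yy ^ 2 * QQ ^ 26) + (-1/2) * (yy ^ 5 * QQ ^ 24) := by
    unfold bet EE
    ring
  linarith

theorem num_T8c : 1 / 2 * QQ ^ 2 + 1 / 2 * (lam * (yy * QQ ^ 7)) ≤ bet := by
  have h0 := mup 0 2 (c := 10081245 / 10000000) (by norm_num)
  have h1 := mlo 1 16 (c := 8467649 / 10000000) (by norm_num)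
  have h2 := mup 2 20 (c := 6830537 / 10000000) (by norm_num)
  have e : bet - (1 / 2 * QQ ^ 2 + 1 / 2 * (lam * (yy * QQ ^ 7))) = (-1/2) * (yy ^ 0 * QQ ^ 2) + (1) * (yy ^ 1 * QQ ^ 16) + (-1/2) * (yy ^ 2 * QQ ^ 20) := by
    unfold lam bet
    ring
  linarith

theorem num_T8d : 1 / 2 * (b22 * QQ ^ 2) + 1 / 2 * (yy * QQ ^ 6) ≤ bet := by
  have h0 := mup 1 6 (c := 8132034 / 10000000) (by norm_num)
  have h1 := mlo 1 16 (c := 8467649 / 10000000) (by norm_num)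
  have h2 := mup 1 24 (c := 8746341 / 10000000) (by norm_num)
  have e : bet - (1 / 2 * (b22 * QQ ^ 2) + 1 / 2 * (yy * QQ ^ 6)) = (-1/2) * (yy ^ 1 * QQ ^ 6) + (1) * (yy ^ 1 * QQ ^ 16) + (-1/2) * (yy ^ 1 * QQ ^ 24) := by
    unfold bet b22
    ring
  linarith

theorem num_T8e : 1 / 2 * ((1 / 2 + yy ^ 5) * QQ ^ 18) + 1 / 2 * (yy * QQ ^ 4) ≤ bet := by
  have h0 := mup 0 18 (c := 10755418 / 10000000) (by norm_num)
  have h1 := mup 1 4 (c := 8066498 / 10000000) (by norm_num)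
  have h2 := mlo 1 16 (c := 8467649 / 10000000) (by norm_num)
  have h3 := mup 5 18 (c := 3387746 / 10000000) (by norm_num)
  have e : bet - (1 / 2 * ((1 / 2 + yy ^ 5) * QQ ^ 18) + 1 / 2 * (yy * QQ ^ 4)) = (-1/4) * (yy ^ 0 * QQ ^ 18) + (-1/2) * (yy ^ 1 * QQ ^ 4) + (1) * (yy ^ 1 * QQ ^ 16) + (-1/2) * (yy ^ 5 * QQ ^ 18) := by
    unfold bet
    ring
  linarith

theorem num_all2 : 1 / 2 * QQ ^ 12 + 1 / 2 * (lam * QQ ^ 12) ≤ EE := by
  have h0 := mup 0 12 (c := 10497475 / 10000000) (by norm_num)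
  have h1 := mup 1 25 (c := 8781799 / 10000000) (by norm_num)
  have h2 := mlo 2 2 (c := 6350772 / 10000000) (by norm_num)
  have h3 := mlo 5 20 (c := 3415199 / 10000000) (by norm_num)
  have e : EE - (1 / 2 * QQ ^ 12 + 1 / 2 * (lam * QQ ^ 12)) = (-1/2) * (yy ^ 0 * QQ ^ 12) + (-1/2) * (yy ^ 1 * QQ ^ 25) + (1) * (yy ^ 2 * QQ ^ 2) + (1) * (yy ^ 5 * QQ ^ 20) := by
    unfold lam EE
    ring
  linarith

theorem num_pA3 : lam * (yy ^ 2 * QQ ^ 5) + yy ^ 4 * QQ ^ 13 ≤ EE := by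
  have h0 := mlo 2 2 (c := 6350772 / 10000000) (by norm_num)
  have h1 := mup 3 18 (c := 5377711 / 10000000) (by norm_num)
  have h2 := mup 4 13 (c := 4182816 / 10000000) (by norm_num)
  have h3 := mlo 5 20 (c := 3415199 / 10000000) (by norm_num)
  have e : EE - (lam * (yy ^ 2 * QQ ^ 5) + yy ^ 4 * QQ ^ 13) = (1) * (yy ^ 2 * QQ ^ 2) + (-1) * (yy ^ 3 * QQ ^ 18) + (-1) * (yy ^ 4 * QQ ^ 13) + (1) * (yy ^ 5 * QQ ^ 20) := by
    unfold lam EE
    ring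
  linarith

theorem num_pA4 : lam * (yy ^ 2 * QQ ^ 7) + yy ^ 5 * QQ ^ 16 ≤ EE := by
  have h0 := mlo 2 2 (c := 6350772 / 10000000) (by norm_num)
  have h1 := mup 3 20 (c := 5421402 / 10000000) (by norm_num)
  have h2 := mup 5 16 (c := 3360445 / 10000000) (by norm_num)
  have h3 := mlo 5 20 (c := 3415199 / 10000000) (by norm_num)
  have e : EE - (lam * (yy ^ 2 * QQ ^ 7) + yy ^ 5 * QQ ^ 16) = (1) * (yy ^ 2 * QQ ^ 2) + (-1) * (yy ^ 3 * QQ ^ 20) + (-1) * (yy ^ 5 * QQ ^ 16) + (1) * (yy ^ 5 * QQ ^ 20) := by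
    unfold lam EE
    ring
  linarith

theorem num_pB3 : bet * (yy ^ 2 * QQ ^ 2) + yy ^ 5 * QQ ^ 38 ≤ EE := by
  have h0 := mlo 2 2 (c := 6350772 / 10000000) (by norm_num)
  have h1 := mup 3 18 (c := 5377711 / 10000000) (by norm_num)
  have h2 := mlo 5 20 (c := 3415199 / 10000000) (by norm_num)
  have h3 := mup 5 38 (c := 3673265 / 10000000) (by norm_num)
  have e : EE - (bet * (yy ^ 2 * QQ ^ 2) + yy ^ 5 * QQ ^ 38) = (1) * (yy ^ 2 * QQ ^ 2) + (-1) * (yy ^ 3 * QQ ^ 18) + (1) * (yy ^ 5 * QQ ^ 20) + (-1) * (yy ^ 5 * QQ ^ 38) := by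
    unfold bet EE
    ring
  linarith

theorem num_pB4 : bet * (yy ^ 2 * QQ ^ 4) + yy ^ 6 * QQ ^ 41 ≤ EE := by
  have h0 := mlo 2 2 (c := 6350772 / 10000000) (by norm_num)
  have h1 := mup 3 20 (c := 5421402 / 10000000) (by norm_num)
  have h2 := mlo 5 20 (c := 3415199 / 10000000) (by norm_num)
  have h3 := mup 6 41 (c := 2951075 / 10000000) (by norm_num)
  have e : EE - (bet * (yy ^ 2 * QQ ^ 4) + yy ^ 6 * QQ ^ 41) = (1) * (yy ^ 2 * QQ ^ 2) + (-1) * (yy ^ 3 * QQ ^ 20) + (1) * (yy ^ 5 * QQ ^ 20) + (-1) * (yy ^ 6 * QQ ^ 41) := by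
    unfold bet EE
    ring
  linarith

theorem num_pC3 : yy ^ 2 * QQ ^ 2 + lam * (yy ^ 5 * QQ ^ 26) ≤ EE := by
  have h0 := mlo 5 20 (c := 3415199 / 10000000) (by norm_num)
  have h1 := mup 6 39 (c := 2927292 / 10000000) (by norm_num)
  have e : EE - (yy ^ 2 * QQ ^ 2 + lam * (yy ^ 5 * QQ ^ 26)) = (1) * (yy ^ 5 * QQ ^ 20) + (-1) * (yy ^ 6 * QQ ^ 39) := by
    unfold lam EE
    ring
  linarith

theorem num_pC4 : yy ^ 2 * QQ ^ 4 + lam * (yy ^ 6 * QQ ^ 29) ≤ EE := by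
  have h0 := mlo 2 2 (c := 6350772 / 10000000) (by norm_num)
  have h1 := mup 2 4 (c := 6402384 / 10000000) (by norm_num)
  have h2 := mlo 5 20 (c := 3415199 / 10000000) (by norm_num)
  have h3 := mup 7 42 (c := 2351766 / 10000000) (by norm_num)
  have e : EE - (yy ^ 2 * QQ ^ 4 + lam * (yy ^ 6 * QQ ^ 29)) = (1) * (yy ^ 2 * QQ ^ 2) + (-1) * (yy ^ 2 * QQ ^ 4) + (1) * (yy ^ 5 * QQ ^ 20) + (-1) * (yy ^ 7 * QQ ^ 42) := by
    unfold lam EE
    ring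
  linarith

theorem num_pK4 : yy ^ 2 * QQ ^ 4 + yy ^ 6 * QQ ^ 29 ≤ EE := by
  have h0 := mlo 2 2 (c := 6350772 / 10000000) (by norm_num)
  have h1 := mup 2 4 (c := 6402384 / 10000000) (by norm_num)
  have h2 := mlo 5 20 (c := 3415199 / 10000000) (by norm_num)
  have h3 := mup 6 29 (c := 2811224 / 10000000) (by norm_num)
  have e : EE - (yy ^ 2 * QQ ^ 4 + yy ^ 6 * QQ ^ 29) = (1) * (yy ^ 2 * QQ ^ 2) + (-1) * (yy ^ 2 * QQ ^ 4) + (1) * (yy ^ 5 * QQ ^ 20) + (-1) * (yy ^ 6 * QQ ^ 29) := by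
    unfold EE
    ring
  linarith

theorem num_p44 : yy ^ 2 * QQ ^ 6 + yy ^ 7 * QQ ^ 56 ≤ EE := by
  have h0 := mlo 2 2 (c := 6350772 / 10000000) (by norm_num)
  have h1 := mup 2 6 (c := 6454400 / 10000000) (by norm_num)
  have h2 := mlo 5 20 (c := 3415199 / 10000000) (by norm_num)
  have h3 := mup 7 56 (c := 2488817 / 10000000) (by norm_num)
  have e : EE - (yy ^ 2 * QQ ^ 6 + yy ^ 7 * QQ ^ 56) = (1) * (yy ^ 2 * QQ ^ 2) + (-1) * (yy ^ 2 * QQ ^ 6) + (1) * (yy ^ 5 * QQ ^ 20) + (-1) * (yy ^ 7 * QQ ^ 56) := by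
    unfold EE
    ring
  linarith

theorem num_D1 : 2 * (bet * (yy ^ 4 * QQ ^ 4)) + bet * (yy ^ 5 * QQ ^ 4) ≤ EE := by
  have h0 := mlo 2 2 (c := 6350772 / 10000000) (by norm_num)
  have h1 := mup 5 20 (c := 3415270 / 10000000) (by norm_num)
  have h2 := mup 6 20 (c := 2710702 / 10000000) (by norm_num)
  have e : EE - (2 * (bet * (yy ^ 4 * QQ ^ 4)) + bet * (yy ^ 5 * QQ ^ 4)) = (1) * (yy ^ 2 * QQ ^ 2) + (-1) * (yy ^ 5 * QQ ^ 20) + (-1) * (yy ^ 6 * QQ ^ 20) := by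
    unfold bet EE
    ring
  linarith

theorem num_D2 : yy ^ 4 * QQ ^ 6 + 2 * (bet * (yy ^ 5 * QQ ^ 6)) ≤ EE := by
  have h0 := mlo 2 2 (c := 6350772 / 10000000) (by norm_num)
  have h1 := mup 4 6 (c := 4066018 / 10000000) (by norm_num)
  have h2 := mlo 5 20 (c := 3415199 / 10000000) (by norm_num)
  have h3 := mup 6 22 (c := 2732725 / 10000000) (by norm_num)
  have e : EE - (yy ^ 4 * QQ ^ 6 + 2 * (bet * (yy ^ 5 * QQ ^ 6))) = (1) * (yy ^ 2 * QQ ^ 2) + (-1) * (yy ^ 4 * QQ ^ 6) + (1) * (yy ^ 5 * QQ ^ 20) + (-2) * (yy ^ 6 * QQ ^ 22) := by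
    unfold bet EE
    ring
  linarith

theorem num_D3 : 3 * (yy ^ 5 * QQ ^ 8) ≤ EE := by
  have h0 := mlo 2 2 (c := 6350772 / 10000000) (by norm_num)
  have h1 := mup 5 8 (c := 3253420 / 10000000) (by norm_num)
  have h2 := mlo 5 20 (c := 3415199 / 10000000) (by norm_num)
  have e : EE - (3 * (yy ^ 5 * QQ ^ 8)) = (1) * (yy ^ 2 * QQ ^ 2) + (-3) * (yy ^ 5 * QQ ^ 8) + (1) * (yy ^ 5 * QQ ^ 20) := by
    unfold EE
    ring
  linarith

theorem num_g5 : 5 * (yy ^ 8 * QQ ^ 14) ≤ 1 := by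
  have h0 := mup 8 14 (c := 1666682 / 10000000) (by norm_num)
  have e : 1 - (5 * (yy ^ 8 * QQ ^ 14)) = (1) * (yy ^ 0 * QQ ^ 0) + (-5) * (yy ^ 8 * QQ ^ 14) := by
    ring
  linarith

theorem num_g45 : 3 * (yy ^ 6 * QQ ^ 10) + yy ^ 7 * QQ ^ 12 ≤ 1 := by
  have h0 := mup 6 10 (c := 2603221 / 10000000) (by norm_num)
  have h1 := mup 7 12 (c := 2082965 / 10000000) (by norm_num)
  have e : 1 - (3 * (yy ^ 6 * QQ ^ 10) + yy ^ 7 * QQ ^ 12) = (1) * (yy ^ 0 * QQ ^ 0) + (-3) * (yy ^ 6 * QQ ^ 10) + (-1) * (yy ^ 7 * QQ ^ 12) := by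
    ring
  linarith

theorem num_g44 : 4 * (yy ^ 6 * QQ ^ 10 * (3 * (EE * (yy ^ 5 * QQ ^ 8)))) ≤ 1 := by
  have h0 := mup 13 20 (c := 537872 / 10000000) (by norm_num)
  have h1 := mup 16 38 (c := 289252 / 10000000) (by norm_num)
  have e : 1 - (4 * (yy ^ 6 * QQ ^ 10 * (3 * (EE * (yy ^ 5 * QQ ^ 8))))) = (1) * (yy ^ 0 * QQ ^ 0) + (-12) * (yy ^ 13 * QQ ^ 20) + (-12) * (yy ^ 16 * QQ ^ 38) := by
    unfold EE
    ring
  linarith

theorem num_P4a : yy ^ 3 * QQ ^ 8 + lam * (yy ^ 4 * QQ ^ 13) ≤ b22 := by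
  have h0 := mlo 1 22 (c := 8675663 / 10000000) (by norm_num)
  have h1 := mup 3 8 (c := 5164482 / 10000000) (by norm_num)
  have h2 := mup 5 26 (c := 3499189 / 10000000) (by norm_num)
  have e : b22 - (yy ^ 3 * QQ ^ 8 + lam * (yy ^ 4 * QQ ^ 13)) = (1) * (yy ^ 1 * QQ ^ 22) + (-1) * (yy ^ 3 * QQ ^ 8) + (-1) * (yy ^ 5 * QQ ^ 26) := by
    unfold lam b22
    ring
  linarith

theorem num_P4b : lam * (yy ^ 3 * QQ ^ 9) + lam * (yy ^ 4 * QQ ^ 13) ≤ b22 := by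
  have h0 := mlo 1 22 (c := 8675663 / 10000000) (by norm_num)
  have h1 := mup 4 22 (c := 4337929 / 10000000) (by norm_num)
  have h2 := mup 5 26 (c := 3499189 / 10000000) (by norm_num)
  have e : b22 - (lam * (yy ^ 3 * QQ ^ 9) + lam * (yy ^ 4 * QQ ^ 13)) = (1) * (yy ^ 1 * QQ ^ 22) + (-1) * (yy ^ 4 * QQ ^ 22) + (-1) * (yy ^ 5 * QQ ^ 26) := by
    unfold lam b22
    ring
  linarith

theorem num_P4c : yy ^ 3 * QQ ^ 10 + lam * (yy ^ 5 * QQ ^ 16) ≤ b22 := by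
  have h0 := mlo 1 22 (c := 8675663 / 10000000) (by norm_num)
  have h1 := mup 3 10 (c := 5206440 / 10000000) (by norm_num)
  have h2 := mup 6 29 (c := 2811224 / 10000000) (by norm_num)
  have e : b22 - (yy ^ 3 * QQ ^ 10 + lam * (yy ^ 5 * QQ ^ 16)) = (1) * (yy ^ 1 * QQ ^ 22) + (-1) * (yy ^ 3 * QQ ^ 10) + (-1) * (yy ^ 6 * QQ ^ 29) := by
    unfold lam b22
    ring
  linarith

theorem num_r1 : yy * QQ ^ 4 ≤ b44 := by
  have h0 := mup 1 4 (c := 8066498 / 10000000) (by norm_num)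
  have h1 := mlo 1 8 (c := 8198034 / 10000000) (by norm_num)
  have e : b44 - (yy * QQ ^ 4) = (-1) * (yy ^ 1 * QQ ^ 4) + (1) * (yy ^ 1 * QQ ^ 8) := by
    unfold b44
    ring
  linarith

theorem num_r2 : yy ^ 2 * QQ ^ 34 ≤ b44 := by
  have h0 := mlo 1 8 (c := 8198034 / 10000000) (by norm_num)
  have h1 := mup 2 34 (c := 7228594 / 10000000) (by norm_num)
  have e : b44 - (yy ^ 2 * QQ ^ 34) = (1) * (yy ^ 1 * QQ ^ 8) + (-1) * (yy ^ 2 * QQ ^ 34) := by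
    unfold b44
    ring
  linarith

theorem num_r3 : yy ^ 2 * QQ ^ 23 ≤ lam := by
  have h0 := mlo 1 13 (c := 8365520 / 10000000) (by norm_num)
  have h1 := mup 2 23 (c := 6913947 / 10000000) (by norm_num)
  have e : lam - (yy ^ 2 * QQ ^ 23) = (1) * (yy ^ 1 * QQ ^ 13) + (-1) * (yy ^ 2 * QQ ^ 23) := by
    unfold lam
    ring
  linarith

theorem num_r4 : lam * bet ≤ b44 := by
  have h0 := mlo 1 8 (c := 8198034 / 10000000) (by norm_num)
  have h1 := mup 2 29 (c := 7083836 / 10000000) (by norm_num)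
  have e : b44 - (lam * bet) = (1) * (yy ^ 1 * QQ ^ 8) + (-1) * (yy ^ 2 * QQ ^ 29) := by
    unfold lam bet b44
    ring
  linarith

theorem lam_le_b34 : lam ≤ b34 := by
  have h0 := mup 1 13 (c := 8365630 / 10000000) (by norm_num)
  have h1 := mlo 1 16 (c := 8467649 / 10000000) (by norm_num)
  have h2 := mup 1 18 (c := 8536582 / 10000000) (by norm_num)
  have e : b34 - (lam) = (-1) * (yy ^ 1 * QQ ^ 13) + (2) * (yy ^ 1 * QQ ^ 16) + (-1) * (yy ^ 1 * QQ ^ 18) := by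
    unfold lam b34
    ring
  linarith

theorem b44_le_b34 : b44 ≤ b34 := by
  have h0 := mup 1 8 (c := 8198102 / 10000000) (by norm_num)
  have h1 := mlo 1 16 (c := 8467649 / 10000000) (by norm_num)
  have h2 := mup 1 18 (c := 8536582 / 10000000) (by norm_num)
  have e : b34 - (b44) = (-1) * (yy ^ 1 * QQ ^ 8) + (2) * (yy ^ 1 * QQ ^ 16) + (-1) * (yy ^ 1 * QQ ^ 18) := by
    unfold b34 b44
    ring
  linarith

theorem b34_le_bet : b34 ≤ bet := by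
  have h0 := mup 1 16 (c := 8467786 / 10000000) (by norm_num)
  have h1 := mlo 1 18 (c := 8536427 / 10000000) (by norm_num)
  have e : bet - (b34) = (-1) * (yy ^ 1 * QQ ^ 16) + (1) * (yy ^ 1 * QQ ^ 18) := by
    unfold bet b34
    ring
  linarith

theorem bet_le_EE : bet ≤ EE := by
  have h0 := mup 1 16 (c := 8467786 / 10000000) (by norm_num)
  have h1 := mlo 2 2 (c := 6350772 / 10000000) (by norm_num)
  have h2 := mlo 5 20 (c := 3415199 / 10000000) (by norm_num)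
  have e : EE - (bet) = (-1) * (yy ^ 1 * QQ ^ 16) + (1) * (yy ^ 2 * QQ ^ 2) + (1) * (yy ^ 5 * QQ ^ 20) := by
    unfold bet EE
    ring
  linarith

theorem b22_le_EE : b22 ≤ EE := by
  have h0 := mup 1 22 (c := 8675855 / 10000000) (by norm_num)
  have h1 := mlo 2 2 (c := 6350772 / 10000000) (by norm_num)
  have h2 := mlo 5 20 (c := 3415199 / 10000000) (by norm_num)
  have e : EE - (b22) = (-1) * (yy ^ 1 * QQ ^ 22) + (1) * (yy ^ 2 * QQ ^ 2) + (1) * (yy ^ 5 * QQ ^ 20) := by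
    unfold EE b22
    ring
  linarith

theorem lam_le_b22 : lam ≤ b22 := by
  have h0 := mup 1 13 (c := 8365630 / 10000000) (by norm_num)
  have h1 := mlo 1 22 (c := 8675663 / 10000000) (by norm_num)
  have e : b22 - (lam) = (-1) * (yy ^ 1 * QQ ^ 13) + (1) * (yy ^ 1 * QQ ^ 22) := by
    unfold lam b22
    ring
  linarith

theorem bet_le_b22 : bet ≤ b22 := by
  have h0 := mup 1 16 (c := 8467786 / 10000000) (by norm_num)
  have h1 := mlo 1 22 (c := 8675663 / 10000000) (by norm_num)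
  have e : b22 - (bet) = (-1) * (yy ^ 1 * QQ ^ 16) + (1) * (yy ^ 1 * QQ ^ 22) := by
    unfold bet b22
    ring
  linarith

theorem EE_le_one : EE ≤ 1 := by
  have h0 := mup 2 2 (c := 6350788 / 10000000) (by norm_num)
  have h1 := mup 5 20 (c := 3415270 / 10000000) (by norm_num)
  have e : 1 - (EE) = (1) * (yy ^ 0 * QQ ^ 0) + (-1) * (yy ^ 2 * QQ ^ 2) + (-1) * (yy ^ 5 * QQ ^ 20) := by
    unfold EE
    ring
  linarith

theorem b34_pos : 0 < b34 := lam_pos.trans_le lam_le_b34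

theorem lam_le_bet : lam ≤ bet := lam_le_b34.trans b34_le_bet

theorem bet_le_one : bet ≤ 1 := bet_le_EE.trans EE_le_one

theorem b44_le_bet : b44 ≤ bet := b44_le_b34.trans b34_le_bet

theorem b34_le_EE : b34 ≤ EE := b34_le_bet.trans bet_le_EE

theorem lam_le_EE : lam ≤ EE := lam_le_bet.trans bet_le_EE

theorem lam_le_one : lam ≤ 1 := lam_le_EE.trans EE_le_one

theorem b22_le_one : b22 ≤ 1 := b22_le_EE.trans EE_le_one

end Pool.Agent.CFree
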