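import Pool.Agent.Lib_MP_6af485_kt.KSix

/-!
# MP_6af485_co, `k = 3`: weights of unions

`phi_prod`: the degrees of the vertices of `W` (and of `S \ W`, which has no neighbours in `W` by symmetry) are the
same in `S` and in `W` (in `S \ W`).
`C6V_prod`: `IsC6 W K` or `IsC6 (S \ W) K` imply `IsC6 S K`; conversely if `IsC6 S K` then `K` is connected
(`IsC6.share`), so `K ⊆ W` or `K ⊆ S \ W`. So `C6V S` is the disjoint union of `C6V W` and `C6V (S \ W)`.
`ThV_prod`: `IsTh W u1 u2 K` implies `IsTh S u1 u2 K` (the same for `S \ W`, by symmetry of the roles of the two sets);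
only this direction is needed: `u ∈ ThV W → u ∈ ThV S`.
`deg_cut`: `deg W x + m = deg S x`, `m = |N S x \ W|`; the other vertices of `W` have the same degree in `S` and `W`.
`deg_cut_out`: `r ∈ S \ W` has in `S` exactly one neighbour in `W`, namely `x`, if `r ∈ N S x`, and none otherwise.
`phi_cut`: sum over `W` and over `S \ W`.
-/

set_option autoImplicit false

namespace Pool.Agent.CFree

open Finset

variable {V : Type} [Fintype V] [DecidableEq V] {G : BG V}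

private theorem kphicut_in {S W : Finset V} (hW : W ⊆ S) {w : V} (h : G.N S w ⊆ W) :
    G.N W w = G.N S w := by
  ext y
  constructor
  · intro hy
    exact BG.mem_N.2 ⟨hW (BG.mem_N.1 hy).1, (BG.mem_N.1 hy).2⟩
  · intro hy
    exact BG.mem_N.2 ⟨h hy, (BG.mem_N.1 hy).2⟩

private theorem kphicut_out {S W : Finset V} (hcl : ∀ w ∈ W, G.N S w ⊆ W) {r : V} (hr : r ∈ S)
    (hrW : r ∉ W) : G.N (S \ W) r = G.N S r := by
  rw [BG.N_sdiff, sdiff_eq_self_of_disjoint]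
  rw [disjoint_left]
  intro y hy hyW
  exact hrW (hcl y hyW (BG.mem_N.2 ⟨hr, G.symm _ _ (BG.mem_N.1 hy).2⟩))

private theorem kphicut_deg {S T : Finset V} {w : V} (h : G.N T w = G.N S w) :
    G.deg T w = G.deg S w := by
  unfold BG.deg
  rw [h]

theorem BG.phi_prod {S W : Finset V} (hW : W ⊆ S) (hcl : ∀ w ∈ W, G.N S w ⊆ W) :
    G.phi S = G.phi W + G.phi (S \ W) := by
  unfold BG.phi
  rw [← sum_sdiff hW, add_comm]
  congr 1
  · refine sum_congr rfl fun w hw => ?_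
    rw [kphicut_deg (kphicut_in hW (hcl w hw))]
  · refine sum_congr rfl fun r hr => ?_
    obtain ⟨h1, h2⟩ := mem_sdiff.1 hr
    rw [kphicut_deg (kphicut_out hcl h1 h2)]

private theorem kphicut_c6_in {S W K : Finset V} (hW : W ⊆ S) (hcl : ∀ w ∈ W, G.N S w ⊆ W)
    (h : G.IsC6 W K) : G.IsC6 S K := by
  obtain ⟨h1, h2, h3⟩ := h
  refine ⟨h1.trans hW, h2, fun w hw => ?_⟩
  have e := kphicut_in hW (hcl w (h1 hw))
  rw [← kphicut_deg e, ← e]
  exact h3 w hw

private theorem kphicut_c6_out {S W K : Finset V} (hcl : ∀ w ∈ W, G.N S w ⊆ W)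
    (h : G.IsC6 (S \ W) K) : G.IsC6 S K := by
  obtain ⟨h1, h2, h3⟩ := h
  refine ⟨h1.trans sdiff_subset, h2, fun w hw => ?_⟩
  obtain ⟨hw1, hw2⟩ := mem_sdiff.1 (h1 hw)
  have e := kphicut_out hcl hw1 hw2
  rw [← kphicut_deg e, ← e]
  exact h3 w hw

private theorem kphicut_sub {S W K : Finset V} (hcl : ∀ w ∈ W, G.N S w ⊆ W)
    (h : G.IsC6 S K) {x : V} (hx : x ∈ K) (hxW : x ∈ W) : K ⊆ W := by
  have hK := h.1
  have step : ∀ {a b : V}, a ∈ W → b ∈ K → G.adj a b → b ∈ W := fun {a b} ha hb hab =>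
    hcl a ha (BG.mem_N.2 ⟨hK hb, hab⟩)
  have same : ∀ k ∈ K, G.col k = G.col x → k ∈ W := by
    intro k hk hc
    by_cases hkx : k = x
    · rw [hkx]; exact hxW
    · obtain ⟨c, hc1, hc2, hc3⟩ := h.share hk hx hkx hc
      exact step (step hxW hc1 hc3) hk (G.symm _ _ hc2)
  intro k hk
  by_cases hc : G.col k = G.col x
  · exact same k hk hc
  · obtain ⟨hd, hN⟩ := h.2.2 k hk
    have hpos : 0 < (G.N S k).card := by
      unfold BG.deg at hd
      omega
    obtain ⟨c, hcN⟩ := card_pos.1 hpos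
    have hadj := (BG.mem_N.1 hcN).2
    have hb := G.bip _ _ hadj
    have hcx : G.col c = G.col x := by
      cases h1 : G.col k <;> cases h2 : G.col c <;> cases h3 : G.col x <;> simp_all
    exact step (same c (hN hcN) hcx) hk (G.symm _ _ hadj)

theorem BG.C6V_prod {S W : Finset V} (hW : W ⊆ S) (hcl : ∀ w ∈ W, G.N S w ⊆ W) :
    G.C6V S = G.C6V W ∪ G.C6V (S \ W) ∧ Disjoint (G.C6V W) (G.C6V (S \ W)) := by
  constructor
  · ext v
    rw [mem_union, BG.mem_C6V, BG.mem_C6V, BG.mem_C6V]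
    constructor
    · rintro ⟨K, hK, hv⟩
      by_cases hx : ∃ x ∈ K, x ∈ W
      · obtain ⟨x, hx1, hx2⟩ := hx
        have hKW := kphicut_sub hcl hK hx1 hx2
        refine Or.inl ⟨K, ⟨hKW, hK.2.1, fun w hw => ?_⟩, hv⟩
        have e := kphicut_in hW (hcl w (hKW hw))
        rw [kphicut_deg e, e]
        exact hK.2.2 w hw
      · refine Or.inr ⟨K, ⟨fun w hw => mem_sdiff.2 ⟨hK.1 hw, fun hwW => hx ⟨w, hw, hwW⟩⟩, hK.2.1,
          fun w hw => ?_⟩, hv⟩
        have e := kphicut_out hcl (hK.1 hw) (fun hwW => hx ⟨w, hw, hwW⟩)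
        rw [kphicut_deg e, e]
        exact hK.2.2 w hw
    · rintro (⟨K, hK, hv⟩ | ⟨K, hK, hv⟩)
      · exact ⟨K, kphicut_c6_in hW hcl hK, hv⟩
      · exact ⟨K, kphicut_c6_out hcl hK, hv⟩
  · rw [disjoint_left]
    intro v hv1 hv2
    obtain ⟨K, hK, hvK⟩ := BG.mem_C6V.1 hv1
    obtain ⟨L, hL, hvL⟩ := BG.mem_C6V.1 hv2
    exact (mem_sdiff.1 (hL.1 hvL)).2 (hK.1 hvK)

theorem BG.ThV_prod {S W : Finset V} (hW : W ⊆ S) (hcl : ∀ w ∈ W, G.N S w ⊆ W) : G.ThV W ⊆ G.ThV S := by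
  intro v hv
  obtain ⟨u1, u2, K, h, hvK⟩ := BG.mem_ThV.1 hv
  obtain ⟨h1, h2, h3, h4, h5, h6, h7, h8⟩ := h
  have e1 := kphicut_in hW (hcl u1 h1)
  have e2 := kphicut_in hW (hcl u2 h2)
  refine BG.mem_ThV.2 ⟨u1, u2, K, ⟨hW h1, hW h2, h3, ?_, ?_, ?_, ?_, ?_⟩, hvK⟩
  · rw [← kphicut_deg e1]; exact h4
  · rw [← kphicut_deg e2]; exact h5
  · refine ⟨h6.1.trans (sdiff_subset_sdiff hW (Subset.refl _)), h6.2.1, fun w hw => ?_⟩
    have hwW : w ∈ W := (mem_sdiff.1 (h6.1 hw)).1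
    have e : G.N (W \ {u1, u2}) w = G.N (S \ {u1, u2}) w := by
      rw [BG.N_sdiff, BG.N_sdiff, kphicut_in hW (hcl w hwW)]
    rw [← kphicut_deg e, ← e]
    exact h6.2.2 w hw
  · rw [← e1]; exact h7
  · rw [← e2]; exact h8

theorem BG.Cut.deg_cut {S W : Finset V} {x : V} (h : G.Cut S W x) :
    G.deg W x + (G.N S x \ W).card = G.deg S x := by
  unfold BG.deg
  have e : G.N W x = G.N S x ∩ W := by
    ext y
    rw [mem_inter, BG.mem_N, BG.mem_N]
    constructor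
    · rintro ⟨h1, h2⟩; exact ⟨⟨h.sub h1, h2⟩, h1⟩
    · rintro ⟨⟨_, h2⟩, h1⟩; exact ⟨h1, h2⟩
  rw [e, card_inter_add_card_sdiff]

theorem BG.Cut.deg_in {S W : Finset V} {x w : V} (h : G.Cut S W x) (hw : w ∈ W) (hwx : w ≠ x) :
    G.deg W w = G.deg S w :=
  kphicut_deg (kphicut_in h.sub (h.out w hw hwx))

theorem BG.Cut.deg_out {S W : Finset V} {x r : V} (h : G.Cut S W x) (hr : r ∈ S) (hrW : r ∉ W) :
    G.deg (S \ W) r + (if r ∈ G.N S x then 1 else 0) = G.deg S r := by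
  have e : (G.N S r ∩ W).card = if r ∈ G.N S x then 1 else 0 := by
    split_ifs with hx
    · have : G.N S r ∩ W = {x} := by
        ext y
        rw [mem_inter, mem_singleton]
        constructor
        · rintro ⟨hy, hyW⟩
          by_contra hne
          exact hrW (h.out y hyW hne (BG.mem_N.2 ⟨hr, G.symm _ _ (BG.mem_N.1 hy).2⟩))
        · rintro rfl
          exact ⟨BG.mem_N.2 ⟨h.sub h.mem, G.symm _ _ (BG.mem_N.1 hx).2⟩, h.mem⟩
      rw [this, card_singleton]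
    · rw [card_eq_zero, eq_empty_iff_forall_notMem]
      intro y hy
      obtain ⟨hy1, hyW⟩ := mem_inter.1 hy
      have hadj := (BG.mem_N.1 hy1).2
      by_cases hne : y = x
      · subst hne
        exact hx (BG.mem_N.2 ⟨hr, G.symm _ _ hadj⟩)
      · exact hrW (h.out y hyW hne (BG.mem_N.2 ⟨hr, G.symm _ _ hadj⟩))
  rw [← e]
  unfold BG.deg
  rw [BG.N_sdiff, add_comm, card_inter_add_card_sdiff]

theorem BG.phi_cut {S W : Finset V} {x : V} (h : G.Cut S W x) :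
    (G.phi S : ℤ) + hh (G.deg W x) = G.phi W + G.phi (S \ W) + hh (G.deg S x) +
      ∑ r ∈ G.N S x \ W, dl (G.deg S r) := by
  have h1 : (G.phi S : ℤ) = ∑ r ∈ S \ W, (hh (G.deg S r) : ℤ) + ∑ w ∈ W, (hh (G.deg S w) : ℤ) := by
    unfold BG.phi
    rw [← sum_sdiff h.sub]
    push_cast
    ring
  have h2 : ∑ w ∈ W, (hh (G.deg S w) : ℤ) + hh (G.deg W x) = G.phi W + hh (G.deg S x) := by
    unfold BG.phi
    rw [← add_sum_erase W _ h.mem, ← add_sum_erase W (fun v => hh (G.deg W v)) h.mem]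
    have e : ∑ w ∈ W.erase x, (hh (G.deg S w) : ℤ) = ∑ w ∈ W.erase x, (hh (G.deg W w) : ℤ) := by
      refine sum_congr rfl fun w hw => ?_
      rw [h.deg_in (mem_of_mem_erase hw) (ne_of_mem_erase hw)]
    rw [e]
    push_cast
    ring
  have h3 : ∑ r ∈ S \ W, (hh (G.deg S r) : ℤ) = G.phi (S \ W) +
      ∑ r ∈ G.N S x \ W, dl (G.deg S r) := by
    have e : G.N S x \ W = (S \ W).filter fun r => r ∈ G.N S x := by
      ext r
      rw [mem_filter, mem_sdiff, mem_sdiff]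
      constructor
      · rintro ⟨a, b⟩; exact ⟨⟨(BG.mem_N.1 a).1, b⟩, a⟩
      · rintro ⟨⟨_, b⟩, a⟩; exact ⟨a, b⟩
    rw [e, sum_filter]
    unfold BG.phi
    push_cast
    rw [← sum_add_distrib]
    refine sum_congr rfl fun r hr => ?_
    obtain ⟨hr1, hr2⟩ := mem_sdiff.1 hr
    have hd := h.deg_out hr1 hr2
    by_cases hx : r ∈ G.N S x
    · rw [if_pos hx] at hd ⊢
      unfold dl
      rw [← hd, Nat.add_sub_cancel]
      ring
    · rw [if_neg hx] at hd ⊢
      rw [← hd, add_zero, add_zero]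
  linarith

end Pool.Agent.CFree
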