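import Pool.Agent.Lib_MP_6af485_kt.KPhi

/-!
# MP_6af485_co, `k = 3`: two adjacent vertices of degree two

`Pr S p u1 u2 q`: `p - u1 - u2 - q`, `u1`, `u2` have degree two. `T = S \ {u2, u1}`, `W = S \ {q, u2, p, u1}`.
Colours: `u1`, `q` have one colour, `u2`, `p` the other one; `p` and `q` are not adjacent (`G.c4`: `u1` and `q` would have the
common neighbours `u2` and `p`).

`Q`: `BG.pair` with `R = ∅`. `phi_T`: `phi_pair` (`{u2, u1}`, `v = u1`, `u = u2`). `phi_W`: `phi_four` with the path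
`p, u1, u2, q`: `((N S u1).erase p).erase u2 = ∅`.
`outer_T`: a vertex outside adjacent to `u1` is `p`, to `u2` is `q`.
`outer_W`: a vertex outside of `{q, u2, p, u1}` is not adjacent to `u1`, `u2`.
`deg_p`: `p` loses `u1` in `T` (it is not adjacent to `u2`: same colour).
`deg_T`: other vertices do not change. `deg_W1`: a vertex `w ∈ (N S p).erase u1` has the colour of `u1` and `q`, it loses
exactly `p` in `W` (`u2` is adjacent to `u1`, `q` only; `w ≠ q` as `p`, `q` are not adjacent).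
`deg_W0`: vertices not adjacent to `p`, `q` do not change in `W`.
-/

set_option autoImplicit false

namespace Pool.Agent.CFree

open Finset

variable {V : Type} [Fintype V] [DecidableEq V] {G : BG V}

/-- `p - u1 - u2 - q`: `u1` and `u2` have degree two -/
structure BG.Pr (G : BG V) (S : Finset V) (p u1 u2 q : V) : Prop where
  h1 : u1 ∈ S
  h2 : u2 ∈ S
  N1 : G.N S u1 = {u2, p}
  N2 : G.N S u2 = {u1, q}
  p2 : u2 ≠ p
  q1 : u1 ≠ q

theorem BG.Pr.symm {S : Finset V} {p u1 u2 q : V} (h : G.Pr S p u1 u2 q) : G.Pr S q u2 u1 p :=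
  ⟨h.h2, h.h1, h.N2, h.N1, h.q1, h.p2⟩

theorem BG.Pr.mem {S : Finset V} {p u1 u2 q : V} (h : G.Pr S p u1 u2 q) :
    p ∈ S ∧ q ∈ S ∧ G.adj u1 u2 ∧ G.adj p u1 ∧ G.adj u2 q ∧ ¬ G.adj p q ∧ p ≠ q ∧ p ≠ u1 ∧ q ≠ u2 := by
  obtain ⟨-, a12⟩ := BG.mem_N.1 (show u2 ∈ G.N S u1 by rw [h.N1]; simp)
  obtain ⟨hpS, a1p⟩ := BG.mem_N.1 (show p ∈ G.N S u1 by rw [h.N1]; simp)
  obtain ⟨hqS, a2q⟩ := BG.mem_N.1 (show q ∈ G.N S u2 by rw [h.N2]; simp)
  have hpq : ¬ G.adj p q := fun hpq =>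
    h.p2 (G.c4 u1 q u2 p h.q1 a12 (G.symm _ _ a2q) a1p (G.symm _ _ hpq))
  refine ⟨hpS, hqS, a12, G.symm _ _ a1p, a2q, hpq, ?_, (BG.ne_of_adj a1p).symm, (BG.ne_of_adj a2q).symm⟩
  rintro rfl
  exact BG.nadj_common a1p a12 (G.symm _ _ a2q)

/-- the colours -/
theorem BG.Pr.cols {S : Finset V} {p u1 u2 q : V} (h : G.Pr S p u1 u2 q) :
    G.col q = G.col u1 ∧ G.col p = G.col u2 ∧ G.col u1 ≠ G.col u2 := by
  obtain ⟨-, -, a12, ap1, a2q, -, -, -, -⟩ := h.mem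
  exact ⟨(BG.col_path a12 a2q).symm, BG.col_path ap1 a12, G.bip _ _ a12⟩

theorem BG.Pr.Q {S : Finset V} {p u1 u2 q : V} (h : G.Pr S p u1 u2 q) :
    G.F S * QQ ^ G.phi S = yy ^ 2 * (G.F (S \ {u2, u1}) * QQ ^ G.phi S) +
      yy ^ (G.deg S p + G.deg S q - 1) * (G.F (S \ {q, u2, p, u1}) * QQ ^ G.phi S) := by
  have hpair := BG.pair (G := G) (S := S) (R := ∅) (v1 := u1) (v2 := u2) (p := p) (q := q)
    (by simpa using h.N1) (by simpa using h.N2) h.p2 h.q1 h.h1 (by simp) h.h2 (by simp)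
  rw [sdiff_empty] at hpair
  have e1 : (insert u2 (insert u1 ∅) : Finset V) = {u2, u1} := by
    ext x
    simp
  have e2 : (insert q (insert u2 (insert p (insert u1 ∅))) : Finset V) = {q, u2, p, u1} := by
    ext x
    simp
  rw [e1, e2] at hpair
  rw [hpair]
  ring

theorem BG.Pr.degs {S : Finset V} {p u1 u2 q : V} (h : G.Pr S p u1 u2 q) :
    G.deg S u1 = 2 ∧ G.deg S u2 = 2 := by
  constructor
  · unfold BG.deg
    rw [h.N1, card_pair h.p2]
  · unfold BG.deg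
    rw [h.N2, card_pair h.q1]

theorem BG.Pr.phi_T {S : Finset V} {p u1 u2 q : V} (h : G.Pr S p u1 u2 q) :
    (G.phi S : ℤ) = (G.phi (S \ {u2, u1}) : ℤ) + 4 + dl (G.deg S p) + dl (G.deg S q) := by
  have hm : u2 ∈ G.N S u1 := by rw [h.N1]; simp
  obtain ⟨d1, d2⟩ := h.degs
  have e1 : (G.N S u1).erase u2 = {p} := by
    rw [h.N1]
    have := h.p2
    ext x
    simp only [mem_erase, mem_insert, mem_singleton]
    grind
  have e2 : (G.N S u2).erase u1 = {q} := by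
    rw [h.N2]
    have := h.q1
    ext x
    simp only [mem_erase, mem_insert, mem_singleton]
    grind
  rw [BG.phi_pair h.h1 hm, d1, d2, hh_two, e1, e2, sum_singleton, sum_singleton]
  push_cast
  ring

theorem BG.Pr.phi_W {S : Finset V} {p u1 u2 q : V} (h : G.Pr S p u1 u2 q) :
    (G.phi S : ℤ) = (G.phi (S \ {q, u2, p, u1}) : ℤ) + 4 + hh (G.deg S p) + hh (G.deg S q) +
      ∑ w ∈ (G.N S p).erase u1, dl (G.deg S w) + ∑ w ∈ (G.N S q).erase u2, dl (G.deg S w) := by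
  obtain ⟨hp, hq, a12, ap1, a2q, hpq, npq, np1, nq2⟩ := h.mem
  obtain ⟨d1, d2⟩ := h.degs
  have e1 : ((G.N S u1).erase p).erase u2 = ∅ := by
    rw [h.N1]
    ext x
    simp only [mem_erase, mem_insert, mem_singleton]
    grind
  have e2 : ((G.N S u2).erase u1).erase q = ∅ := by
    rw [h.N2]
    ext x
    simp only [mem_erase, mem_insert, mem_singleton]
    grind
  have hphi := BG.phi_four (G := G) (S := S) (R := {q, u2, p, u1}) (r1 := p) (r2 := u1) (r3 := u2) (r4 := q)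
    (by intro x; simp only [mem_insert, mem_singleton]; tauto) hp (BG.mem_N.2 ⟨h.h1, ap1⟩)
    (by rw [h.N1]; simp) (by rw [h.N2]; simp) h.p2.symm h.q1
  rw [hphi, d1, d2, hh_two, e1, e2, sum_empty]
  push_cast
  ring

theorem BG.Pr.outer_T {S : Finset V} {p u1 u2 q w r : V} (h : G.Pr S p u1 u2 q)
    (hw : w ∈ S \ {u2, u1}) (hr : r ∈ ({u2, u1} : Finset V)) (hadj : G.adj w r) :
    (r = u1 ∧ w = p) ∨ (r = u2 ∧ w = q) := by
  rw [mem_sdiff, mem_insert, mem_singleton, not_or] at hw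
  obtain ⟨hwS, hw2, hw1⟩ := hw
  rw [mem_insert, mem_singleton] at hr
  rcases hr with rfl | rfl
  · have h1 : w ∈ G.N S r := BG.mem_N.2 ⟨hwS, G.symm _ _ hadj⟩
    rw [h.N2, mem_insert, mem_singleton] at h1
    rcases h1 with h1 | h1
    · exact absurd h1 hw1
    · exact Or.inr ⟨rfl, h1⟩
  · have h1 : w ∈ G.N S r := BG.mem_N.2 ⟨hwS, G.symm _ _ hadj⟩
    rw [h.N1, mem_insert, mem_singleton] at h1
    rcases h1 with h1 | h1
    · exact absurd h1 hw2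
    · exact Or.inl ⟨rfl, h1⟩

theorem BG.Pr.outer_W {S : Finset V} {p u1 u2 q w r : V} (h : G.Pr S p u1 u2 q)
    (hw : w ∈ S \ {q, u2, p, u1}) (hr : r ∈ ({q, u2, p, u1} : Finset V)) (hadj : G.adj w r) :
    (r = p ∧ w ∈ (G.N S p).erase u1) ∨ (r = q ∧ w ∈ (G.N S q).erase u2) := by
  simp only [mem_sdiff, mem_insert, mem_singleton, not_or] at hw
  obtain ⟨hwS, hwq, hw2, hwp, hw1⟩ := hw
  simp only [mem_insert, mem_singleton] at hr
  rcases hr with rfl | rfl | rfl | rfl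
  · exact Or.inr ⟨rfl, mem_erase.2 ⟨hw2, BG.mem_N.2 ⟨hwS, G.symm _ _ hadj⟩⟩⟩
  · have h1 : w ∈ G.N S r := BG.mem_N.2 ⟨hwS, G.symm _ _ hadj⟩
    rw [h.N2, mem_insert, mem_singleton] at h1
    rcases h1 with h1 | h1
    · exact absurd h1 hw1
    · exact absurd h1 hwq
  · exact Or.inl ⟨rfl, mem_erase.2 ⟨hw1, BG.mem_N.2 ⟨hwS, G.symm _ _ hadj⟩⟩⟩
  · have h1 : w ∈ G.N S r := BG.mem_N.2 ⟨hwS, G.symm _ _ hadj⟩
    rw [h.N1, mem_insert, mem_singleton] at h1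
    rcases h1 with h1 | h1
    · exact absurd h1 hw2
    · exact absurd h1 hwp

theorem BG.Pr.deg_p {S : Finset V} {p u1 u2 q : V} (h : G.Pr S p u1 u2 q) :
    p ∈ S \ {u2, u1} ∧ G.N (S \ {u2, u1}) p = (G.N S p).erase u1 ∧
      G.deg (S \ {u2, u1}) p + 1 = G.deg S p := by
  obtain ⟨hp, hq, a12, ap1, a2q, hpq, npq, np1, nq2⟩ := h.mem
  obtain ⟨-, cp, -⟩ := h.cols
  have hN : G.N (S \ {u2, u1}) p = (G.N S p).erase u1 := by
    rw [BG.N_sdiff]
    ext x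
    rw [mem_sdiff, mem_erase, mem_insert, mem_singleton]
    constructor
    · rintro ⟨h1, h2⟩
      exact ⟨fun h' => h2 (Or.inr h'), h1⟩
    · rintro ⟨h1, h2⟩
      refine ⟨h2, ?_⟩
      rintro (rfl | h')
      · exact BG.nadj_col cp (BG.mem_N.1 h2).2
      · exact h1 h'
  refine ⟨?_, hN, ?_⟩
  · rw [mem_sdiff, mem_insert, mem_singleton]
    refine ⟨hp, ?_⟩
    rintro (h' | h')
    · exact h.p2 h'.symm
    · exact np1 h'
  · unfold BG.deg
    rw [hN]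
    exact card_erase_add_one (BG.mem_N.2 ⟨h.h1, ap1⟩)

theorem BG.Pr.deg_T {S : Finset V} {p u1 u2 q w : V} (h : G.Pr S p u1 u2 q) (hw : w ∈ S) (hwp : w ≠ p)
    (hwq : w ≠ q) (hw1 : w ≠ u1) (hw2 : w ≠ u2) :
    w ∈ S \ {u2, u1} ∧ G.N (S \ {u2, u1}) w = G.N S w ∧ G.deg (S \ {u2, u1}) w = G.deg S w := by
  have hm : w ∈ S \ {u2, u1} := by
    rw [mem_sdiff, mem_insert, mem_singleton]
    exact ⟨hw, by rintro (h' | h'); exacts [hw2 h', hw1 h']⟩
  have hN : G.N (S \ {u2, u1}) w = G.N S w := by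
    rw [BG.N_sdiff, sdiff_eq_self_of_disjoint]
    rw [disjoint_left]
    intro x hx hr
    rcases h.outer_T hm hr (BG.mem_N.1 hx).2 with ⟨-, h1⟩ | ⟨-, h1⟩
    · exact hwp h1
    · exact hwq h1
  refine ⟨hm, hN, ?_⟩
  unfold BG.deg
  rw [hN]

theorem BG.Pr.deg_W1 {S : Finset V} {p u1 u2 q w : V} (h : G.Pr S p u1 u2 q)
    (hw : w ∈ (G.N S p).erase u1) :
    w ∈ S \ {q, u2, p, u1} ∧ G.N (S \ {q, u2, p, u1}) w = (G.N S w).erase p ∧
      G.deg (S \ {q, u2, p, u1}) w + 1 = G.deg S w := by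
  obtain ⟨hp, hq, a12, ap1, a2q, hpq, npq, np1, nq2⟩ := h.mem
  obtain ⟨cq, cp, c12⟩ := h.cols
  obtain ⟨hw1, hwN⟩ := mem_erase.1 hw
  obtain ⟨hwS, hpw⟩ := BG.mem_N.1 hwN
  have cw : G.col w = G.col u1 := BG.col_common hpw ap1
  have hwq : w ≠ q := by
    rintro rfl
    exact hpq hpw
  have hw2 : w ≠ u2 := by
    rintro rfl
    exact c12 cw.symm
  have hwp : w ≠ p := (BG.ne_of_adj hpw).symm
  have hm : w ∈ S \ {q, u2, p, u1} := by
    simp only [mem_sdiff, mem_insert, mem_singleton, not_or]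
    exact ⟨hwS, hwq, hw2, hwp, hw1⟩
  have hN : G.N (S \ {q, u2, p, u1}) w = (G.N S w).erase p := by
    rw [BG.N_sdiff]
    ext x
    rw [mem_sdiff, mem_erase]
    constructor
    · rintro ⟨h1, h2⟩
      refine ⟨?_, h1⟩
      rintro rfl
      exact h2 (by simp)
    · rintro ⟨h1, h2⟩
      refine ⟨h2, fun h3 => ?_⟩
      rcases h.outer_W hm h3 (BG.mem_N.1 h2).2 with ⟨h4, -⟩ | ⟨h4, -⟩
      · exact h1 h4
      · subst h4
        exact BG.nadj_col (cw.trans cq.symm) (BG.mem_N.1 h2).2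
  refine ⟨hm, hN, ?_⟩
  unfold BG.deg
  rw [hN]
  exact card_erase_add_one (BG.mem_N.2 ⟨hp, G.symm _ _ hpw⟩)

theorem BG.Pr.deg_W0 {S : Finset V} {p u1 u2 q w : V} (h : G.Pr S p u1 u2 q)
    (hw : w ∈ S \ {q, u2, p, u1}) (hp : ¬ G.adj w p) (hq : ¬ G.adj w q) :
    G.N (S \ {q, u2, p, u1}) w = G.N S w ∧ G.deg (S \ {q, u2, p, u1}) w = G.deg S w := by
  have hN : G.N (S \ {q, u2, p, u1}) w = G.N S w := by
    rw [BG.N_sdiff, sdiff_eq_self_of_disjoint]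
    rw [disjoint_left]
    intro x hx hr
    have hadj := (BG.mem_N.1 hx).2
    rcases h.outer_W hw hr hadj with ⟨h1, -⟩ | ⟨h1, -⟩
    · exact hp (h1 ▸ hadj)
    · exact hq (h1 ▸ hadj)
  refine ⟨hN, ?_⟩
  unfold BG.deg
  rw [hN]

end Pool.Agent.CFree
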