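import Pool.Agent.Lib_MP_6af485_kt.KPhi

/-!
# MP_6af485_co, `k = 3`: removing a path of four vertices `v - b - y - z`

`R4 S v a b y z`: `N S v = {a, b}`, `y` is a neighbour of `b` of degree two with other neighbour `z`.
Colours: `v`, `y` have one colour; `a`, `b`, `z` the other one. All of `v, a, b, y, z` are different: `y ≠ v`, `a ≠ b`,
`z ≠ b` by assumption, `z ≠ a` because `y` and `v` would have the common neighbours `a, b` (`G.c4`), the others by colour.

`ne`: the distinctness. `nadj`: `y` is not adjacent to `a`, `z` is not adjacent to `v` (`z ≠ a, b`), `z` is not adjacent to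
`a`, `b` (colour).
`outer`: a vertex `w ∉ R` adjacent to `v` is `a` (`N S v = {a, b}`), and no `w ∉ R` is adjacent to `y`.
`F`: `BG.forced` for `y` in `S \ {b, v}` (`N (S \ {b, v}) y = {z}`), `deg (S \ {b, v}) z = deg S z`.
`phi`: `BG.phi_four` with `r1 = v`, `r2 = b`, `r3 = y`, `r4 = z`: `(N S v).erase b = {a}`, `hh 2 = 2`,
`((N S y).erase b).erase z = ∅`.
-/

set_option autoImplicit false

namespace Pool.Agent.CFree

open Finset

variable {V : Type} [Fintype V] [DecidableEq V] {G : BG V}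

/-- `a - v - b - y - z`: `v` and `y` have degree two -/
structure BG.R4 (G : BG V) (S : Finset V) (v a b y z : V) : Prop where
  hv : v ∈ S
  ab : a ≠ b
  Nv : G.N S v = {a, b}
  hy : y ∈ G.N S b
  yv : y ≠ v
  zb : z ≠ b
  Ny : G.N S y = {b, z}

theorem BG.R4.mem {S : Finset V} {v a b y z : V} (h : G.R4 S v a b y z) :
    a ∈ S ∧ b ∈ S ∧ y ∈ S ∧ z ∈ S ∧ G.adj v a ∧ G.adj v b ∧ G.adj b y ∧ G.adj y z := by
  obtain ⟨haS, hva⟩ := BG.mem_N.1 (show a ∈ G.N S v by rw [h.Nv]; simp)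
  obtain ⟨hbS, hvb⟩ := BG.mem_N.1 (show b ∈ G.N S v by rw [h.Nv]; simp)
  obtain ⟨hyS, hby⟩ := BG.mem_N.1 h.hy
  obtain ⟨hzS, hyz⟩ := BG.mem_N.1 (show z ∈ G.N S y by rw [h.Ny]; simp)
  exact ⟨haS, hbS, hyS, hzS, hva, hvb, hby, hyz⟩

theorem BG.R4.ne {S : Finset V} {v a b y z : V} (h : G.R4 S v a b y z) :
    v ≠ a ∧ v ≠ b ∧ v ≠ z ∧ y ≠ a ∧ y ≠ b ∧ y ≠ z ∧ z ≠ a := by
  obtain ⟨haS, hbS, hyS, hzS, hva, hvb, hby, hyz⟩ := h.mem
  have cab : G.col a = G.col b := BG.col_common hva hvb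
  have cyv : G.col y = G.col v := BG.col_common hby (G.symm _ _ hvb)
  have czb : G.col z = G.col b := BG.col_common hyz (G.symm _ _ hby)
  have cvb := G.bip _ _ hvb
  refine ⟨BG.ne_of_adj hva, BG.ne_of_adj hvb, ?_, ?_, (BG.ne_of_adj hby).symm, BG.ne_of_adj hyz, ?_⟩
  · rintro rfl
    exact cvb czb
  · rintro rfl
    exact cvb (cyv.symm.trans cab)
  · rintro rfl
    exact h.ab (G.c4 y v z b h.yv hyz hva (G.symm _ _ hby) hvb)

theorem BG.R4.nadj {S : Finset V} {v a b y z : V} (h : G.R4 S v a b y z) :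
    ¬ G.adj y a ∧ ¬ G.adj z v ∧ ¬ G.adj z a ∧ ¬ G.adj z b ∧ ¬ G.adj v y := by
  obtain ⟨haS, hbS, hyS, hzS, hva, hvb, hby, hyz⟩ := h.mem
  obtain ⟨n1, n2, n3, n4, n5, n6, n7⟩ := h.ne
  have cab : G.col a = G.col b := BG.col_common hva hvb
  have cyv : G.col y = G.col v := BG.col_common hby (G.symm _ _ hvb)
  have czb : G.col z = G.col b := BG.col_common hyz (G.symm _ _ hby)
  refine ⟨?_, ?_, BG.nadj_col (czb.trans cab.symm), BG.nadj_col czb, BG.nadj_col cyv.symm⟩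
  · intro hya
    exact h.ab (G.c4 y v a b h.yv hya hva (G.symm _ _ hby) hvb)
  · intro hzv
    have h1 : z ∈ G.N S v := BG.mem_N.2 ⟨hzS, G.symm _ _ hzv⟩
    rw [h.Nv, mem_insert, mem_singleton] at h1
    rcases h1 with h1 | h1
    · exact n7 h1
    · exact h.zb h1

/-- which outer vertices are adjacent to `R` -/
theorem BG.R4.outer {S : Finset V} {v a b y z w r : V} (h : G.R4 S v a b y z)
    (hw : w ∈ S \ {z, y, b, v}) (hr : r ∈ ({z, y, b, v} : Finset V)) (hadj : G.adj w r) :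
    (r = v ∧ w = a) ∨ (r = b ∧ w ∈ ((G.N S b).erase v).erase y) ∨ (r = z ∧ w ∈ (G.N S z).erase y) := by
  simp only [mem_sdiff, mem_insert, mem_singleton, not_or] at hw
  obtain ⟨hwS, hwz, hwy, hwb, hwv⟩ := hw
  simp only [mem_insert, mem_singleton] at hr
  rcases hr with rfl | rfl | rfl | rfl
  · exact Or.inr (Or.inr ⟨rfl, mem_erase.2 ⟨hwy, BG.mem_N.2 ⟨hwS, G.symm _ _ hadj⟩⟩⟩)
  · have h1 : w ∈ G.N S r := BG.mem_N.2 ⟨hwS, G.symm _ _ hadj⟩
    rw [h.Ny, mem_insert, mem_singleton] at h1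
    rcases h1 with h1 | h1
    · exact absurd h1 hwb
    · exact absurd h1 hwz
  · exact Or.inr (Or.inl ⟨rfl, mem_erase.2 ⟨hwy, mem_erase.2 ⟨hwv, BG.mem_N.2 ⟨hwS, G.symm _ _ hadj⟩⟩⟩⟩)
  · have h1 : w ∈ G.N S r := BG.mem_N.2 ⟨hwS, G.symm _ _ hadj⟩
    rw [h.Nv, mem_insert, mem_singleton] at h1
    rcases h1 with h1 | h1
    · exact Or.inl ⟨rfl, h1⟩
    · exact absurd h1 hwb

theorem BG.R4.F {S : Finset V} {v a b y z : V} (h : G.R4 S v a b y z) :
    G.F (S \ {b, v}) = yy ^ (G.deg S z - 1) * G.F (S \ {z, y, b, v}) := by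
  obtain ⟨haS, hbS, hyS, hzS, hva, hvb, hby, hyz⟩ := h.mem
  obtain ⟨n1, n2, n3, n4, n5, n6, n7⟩ := h.ne
  obtain ⟨m1, m2, m3, m4, m5⟩ := h.nadj
  have hN : G.N (S \ {b, v}) y = {z} := by
    rw [BG.N_sdiff, h.Ny]
    have := h.zb
    ext x
    simp only [mem_sdiff, mem_insert, mem_singleton, not_or]
    constructor
    · rintro ⟨h1 | h1, h2, h3⟩
      · exact absurd h1 h2
      · exact h1
    · rintro rfl
      exact ⟨Or.inr rfl, this, n3.symm⟩
  have hyR : y ∉ ({b, v} : Finset V) := by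
    rw [mem_insert, mem_singleton]
    rintro (h1 | h1)
    · exact n5 h1
    · exact h.yv h1
  have hd : G.deg (S \ {b, v}) z = G.deg S z := by
    apply BG.deg_sdiff_eq
    intro r hr
    rw [mem_insert, mem_singleton] at hr
    rcases hr with rfl | rfl
    · exact m4
    · exact m2
  rw [BG.forced hN hyS hyR, hd]

theorem BG.R4.phi {S : Finset V} {v a b y z : V} (h : G.R4 S v a b y z) :
    (G.phi S : ℤ) = (G.phi (S \ {z, y, b, v}) : ℤ) + 4 + hh (G.deg S b) + hh (G.deg S z) + dl (G.deg S a) +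
      ∑ w ∈ ((G.N S b).erase v).erase y, dl (G.deg S w) + ∑ w ∈ (G.N S z).erase y, dl (G.deg S w) := by
  obtain ⟨haS, hbS, hyS, hzS, hva, hvb, hby, hyz⟩ := h.mem
  obtain ⟨n1, n2, n3, n4, n5, n6, n7⟩ := h.ne
  have dv : G.deg S v = 2 := by unfold BG.deg; rw [h.Nv, card_pair h.ab]
  have dy : G.deg S y = 2 := by unfold BG.deg; rw [h.Ny, card_pair h.zb.symm]
  have e1 : (G.N S v).erase b = {a} := by
    rw [h.Nv]
    have := h.ab
    ext x
    simp only [mem_erase, mem_insert, mem_singleton]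
    constructor
    · rintro ⟨h1, h2 | h2⟩
      · exact h2
      · exact absurd h2 h1
    · rintro rfl
      exact ⟨this, Or.inl rfl⟩
  have e2 : ((G.N S y).erase b).erase z = ∅ := by
    rw [h.Ny]
    ext x
    simp only [mem_erase, mem_insert, mem_singleton, notMem_empty, iff_false]
    tauto
  have hphi := BG.phi_four (G := G) (S := S) (R := {z, y, b, v}) (r1 := v) (r2 := b) (r3 := y) (r4 := z)
    (by intro x; simp only [mem_insert, mem_singleton]; tauto) h.hv (by rw [h.Nv]; simp) h.hy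
    (by rw [h.Ny]; simp) h.yv.symm h.zb.symm
  rw [hphi, dv, dy, hh_two, e1, e2, sum_empty, sum_singleton]
  push_cast
  ring

end Pool.Agent.CFree
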