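import Pool.Agent.Lib_MP_6af485_kt.KR4A
import Pool.Agent.Lib_MP_6af485_kt.KIrr

/-!
# MP_6af485_co, `k = 3`: removing a path of four vertices, components

`R = {z, y, b, v}`, `T = S \ R`, `S` irreducible, `K` a 6-cycle component of `T`.

`a_notin`: `deg a = 3`, the neighbours `x1, x2 ≠ v` of `a` have degree at least three in `S`. If `a ∈ K` then `x1, x2 ∈ K`
(`N T a ⊆ K`, `x1, x2 ∉ R`: they have the colour of `v`, and `x1 = y` is impossible as `y` is not adjacent to `a`) have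
degree two in `T`, so both of them are adjacent to a vertex of `R`, by `outer` to `b` or `z`; not to `b` (`v` and `x1` would
have the common neighbours `a, b`). So both are adjacent to `z` and to `a`: `G.c4` (`z ≠ a`).
`meets`: by `Irr.attach` two vertices `k1 ≠ k2` of `K` are adjacent to `R`; by `outer`: if none of them is `a` or adjacent
to `b`, both are adjacent to `z`: contradiction to `IsC6.outside`.
`meets2`: if `a ∉ K`: not both are adjacent to `b`, not both to `z`; so one is adjacent to `b`, one to `z`.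
`empty3`: `deg z = 2`, `deg b = 3`, `a ∉ K` for all `K`: by `meets2` `K` contains the only vertex `y2` of
`((N S b).erase v).erase y` and the only vertex `t` of `(N S z).erase y`; `S \ (K ∪ R)` contains `a`; `Irr.rest` (`bal_four`)
gives two vertices outside of `K` adjacent to `R`, by `outer` each of them is `a`, `y2` or `t`: contradiction.
-/

set_option autoImplicit false

namespace Pool.Agent.CFree

open Finset

variable {V : Type} [Fintype V] [DecidableEq V] {G : BG V}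

omit [Fintype V] in
private theorem kr4b_mem {v b y z x : V} :
    x ∈ ({z, y, b, v} : Finset V) ↔ x = v ∨ x = b ∨ x = y ∨ x = z := by
  rw [mem_insert, mem_insert, mem_insert, mem_singleton]
  tauto

theorem BG.R4.bal {S : Finset V} {v a b y z : V} (h : G.R4 S v a b y z) :
    G.bal ({z, y, b, v} : Finset V) ∧ ({z, y, b, v} : Finset V) ⊆ S ∧
      (S \ {z, y, b, v}).card < S.card := by
  obtain ⟨_, hb, hy, hz, _, hvb, hby, hyz⟩ := h.mem
  refine ⟨BG.bal_four (fun x => kr4b_mem) hvb hby hyz h.yv.symm h.zb.symm, ?_,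
    card_sdiff_lt h.hv (kr4b_mem.2 (Or.inl rfl))⟩
  intro x hx
  rcases kr4b_mem.1 hx with rfl | rfl | rfl | rfl
  · exact h.hv
  · exact hb
  · exact hy
  · exact hz

theorem BG.R4.a_notin {S K : Finset V} {v a b y z : V} (h : G.R4 S v a b y z) (ha : G.deg S a = 3)
    (hcl : ∀ x ∈ (G.N S a).erase v, 3 ≤ G.deg S x) (hK : G.IsC6 (S \ {z, y, b, v}) K) : a ∉ K := by
  intro haK
  obtain ⟨haS, hb, hy, hz, hva, hvb, hby, hyz⟩ := h.mem
  obtain ⟨nya, nzv, nza, nzb, nvy⟩ := h.nadj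
  obtain ⟨_, _, _, _, _, _, hzna⟩ := h.ne
  have hvN : v ∈ G.N S a := BG.mem_N.2 ⟨h.hv, G.symm _ _ hva⟩
  have key : ∀ x ∈ (G.N S a).erase v, G.adj x a ∧ G.adj x z := by
    intro x hx
    have hxv := (mem_erase.1 hx).1
    obtain ⟨hxS, hax⟩ := BG.mem_N.1 (mem_erase.1 hx).2
    have hxR : x ∉ ({z, y, b, v} : Finset V) := by
      intro hxR
      rcases kr4b_mem.1 hxR with h1 | h1 | h1 | h1
      · exact hxv h1
      · exact BG.nadj_common hva hvb (h1 ▸ hax)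
      · exact nya (G.symm _ _ (h1 ▸ hax))
      · exact nza (G.symm _ _ (h1 ▸ hax))
    have hxT : x ∈ S \ {z, y, b, v} := mem_sdiff.2 ⟨hxS, hxR⟩
    have hxK : x ∈ K := (hK.2.2 a haK).2 (BG.mem_N.2 ⟨hxT, hax⟩)
    have hex : ∃ r ∈ ({z, y, b, v} : Finset V), G.adj x r := by
      by_contra hno
      push Not at hno
      have h1 := BG.deg_sdiff_eq (G := G) (S := S) hno
      have h2 := (hK.2.2 x hxK).1
      have h3 := hcl x hx
      omega
    obtain ⟨r, hr, hxr⟩ := hex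
    rcases h.outer hxT hr hxr with ⟨_, h1⟩ | ⟨h1, _⟩ | ⟨h1, _⟩
    · exact absurd h1 (BG.ne_of_adj hax).symm
    · rw [h1] at hxr
      exact absurd (G.c4 v x a b hxv.symm hva (G.symm _ _ hax) hvb hxr) h.ab
    · rw [h1] at hxr
      exact ⟨G.symm _ _ hax, hxr⟩
  obtain ⟨x1, x2, hne, h1v, h2v, hN⟩ := BG.nbr3 ha hvN
  have m1 : x1 ∈ (G.N S a).erase v := mem_erase.2 ⟨h1v, by rw [hN]; simp⟩
  have m2 : x2 ∈ (G.N S a).erase v := mem_erase.2 ⟨h2v, by rw [hN]; simp⟩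
  obtain ⟨a1, b1⟩ := key x1 m1
  obtain ⟨a2, b2⟩ := key x2 m2
  exact hzna (G.c4 x1 x2 a z hne a1 a2 b1 b2).symm

private theorem kr4b_nK {S K : Finset V} {v b y z r : V} (hK : G.IsC6 (S \ {z, y, b, v}) K)
    (hr : r ∈ ({z, y, b, v} : Finset V)) : r ∉ K := fun h => (mem_sdiff.1 (hK.1 h)).2 hr

theorem BG.R4.meets {S K : Finset V} {v a b y z : V} (h : G.R4 S v a b y z) (hI : G.Irr S)
    (hK : G.IsC6 (S \ {z, y, b, v}) K) : a ∈ K ∨ ∃ w ∈ ((G.N S b).erase v).erase y, w ∈ K := by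
  obtain ⟨_, hR, _⟩ := h.bal
  obtain ⟨k1, h1, k2, h2, hne, ⟨r1, hr1, ha1⟩, r2, hr2, ha2⟩ :=
    hI.attach hR ⟨v, kr4b_mem.2 (Or.inl rfl)⟩ hK
  rcases h.outer (hK.1 h1) hr1 ha1 with ⟨_, e1⟩ | ⟨_, e1⟩ | ⟨e1, _⟩
  · exact Or.inl (e1 ▸ h1)
  · exact Or.inr ⟨k1, e1, h1⟩
  · rcases h.outer (hK.1 h2) hr2 ha2 with ⟨_, e2⟩ | ⟨_, e2⟩ | ⟨e2, _⟩
    · exact Or.inl (e2 ▸ h2)
    · exact Or.inr ⟨k2, e2, h2⟩
    · rw [e1] at ha1
      rw [e2] at ha2
      exact absurd ⟨ha1, ha2⟩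
        (hK.outside h1 h2 hne (kr4b_nK hK (kr4b_mem.2 (Or.inr (Or.inr (Or.inr rfl))))))

theorem BG.R4.meets2 {S K : Finset V} {v a b y z : V} (h : G.R4 S v a b y z) (hI : G.Irr S)
    (hK : G.IsC6 (S \ {z, y, b, v}) K) (ha : a ∉ K) :
    (∃ w ∈ ((G.N S b).erase v).erase y, w ∈ K) ∧ ∃ t ∈ (G.N S z).erase y, t ∈ K := by
  obtain ⟨_, hR, _⟩ := h.bal
  obtain ⟨k1, h1, k2, h2, hne, ⟨r1, hr1, ha1⟩, r2, hr2, ha2⟩ :=
    hI.attach hR ⟨v, kr4b_mem.2 (Or.inl rfl)⟩ hK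
  rcases h.outer (hK.1 h1) hr1 ha1 with ⟨_, e1⟩ | ⟨f1, e1⟩ | ⟨f1, e1⟩
  · exact absurd (e1 ▸ h1) ha
  · rcases h.outer (hK.1 h2) hr2 ha2 with ⟨_, e2⟩ | ⟨f2, e2⟩ | ⟨f2, e2⟩
    · exact absurd (e2 ▸ h2) ha
    · rw [f1] at ha1
      rw [f2] at ha2
      exact absurd ⟨ha1, ha2⟩
        (hK.outside h1 h2 hne (kr4b_nK hK (kr4b_mem.2 (Or.inr (Or.inl rfl)))))
    · exact ⟨⟨k1, e1, h1⟩, k2, e2, h2⟩
  · rcases h.outer (hK.1 h2) hr2 ha2 with ⟨_, e2⟩ | ⟨f2, e2⟩ | ⟨f2, e2⟩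
    · exact absurd (e2 ▸ h2) ha
    · exact ⟨⟨k2, e2, h2⟩, k1, e1, h1⟩
    · rw [f1] at ha1
      rw [f2] at ha2
      exact absurd ⟨ha1, ha2⟩
        (hK.outside h1 h2 hne (kr4b_nK hK (kr4b_mem.2 (Or.inr (Or.inr (Or.inr rfl))))))

theorem BG.R4.empty3 {S : Finset V} {v a b y z : V} (h : G.R4 S v a b y z) (hI : G.Irr S)
    (hb : G.deg S b = 3) (hz : G.deg S z = 2) (ha : ∀ K, G.IsC6 (S \ {z, y, b, v}) K → a ∉ K) :
    G.C6V (S \ {z, y, b, v}) = ∅ := by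
  rw [BG.C6V_eq_empty]
  intro K hK
  have haK := ha K hK
  obtain ⟨haS, hbS, hyS, hzS, hva, hvb, hby, hyz⟩ := h.mem
  obtain ⟨hbal, hR, _⟩ := h.bal
  obtain ⟨nva, _, _, nya, _, _, nza⟩ := h.ne
  obtain ⟨⟨w, hw, hwK⟩, t, ht, htK⟩ := h.meets2 hI hK haK
  have hvN : v ∈ G.N S b := BG.mem_N.2 ⟨h.hv, G.symm _ _ hvb⟩
  have c1 : (((G.N S b).erase v).erase y).card ≤ 1 := by
    have e1 := card_erase_add_one hvN
    have e2 := card_erase_add_one (mem_erase.2 ⟨h.yv, h.hy⟩ : y ∈ (G.N S b).erase v)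
    unfold BG.deg at hb
    omega
  have hyN : y ∈ G.N S z := BG.mem_N.2 ⟨hyS, G.symm _ _ hyz⟩
  have c2 : ((G.N S z).erase y).card ≤ 1 := by
    have e1 := card_erase_add_one hyN
    unfold BG.deg at hz
    omega
  have haR : a ∉ ({z, y, b, v} : Finset V) := by
    intro hx
    rcases kr4b_mem.1 hx with e | e | e | e
    · exact nva e.symm
    · exact h.ab e
    · exact nya e.symm
    · exact nza e.symm
  have haU : a ∈ S \ (K ∪ {z, y, b, v}) := by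
    refine mem_sdiff.2 ⟨haS, fun hx => ?_⟩
    rcases mem_union.1 hx with e | e
    · exact haK e
    · exact haR e
  obtain ⟨w1, h1, w2, h2, hne, ⟨r1, hr1, ha1⟩, r2, hr2, ha2⟩ :=
    hI.rest hR ⟨v, kr4b_mem.2 (Or.inl rfl)⟩ hbal hK ⟨a, haU⟩
  have key : ∀ x ∈ S \ (K ∪ {z, y, b, v}), ∀ r ∈ ({z, y, b, v} : Finset V), G.adj x r →
      x = a := by
    intro x hx r hr hxr
    have hx1 := mem_sdiff.1 hx
    have hxK : x ∉ K := fun e => hx1.2 (mem_union_left _ e)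
    have hxT : x ∈ S \ {z, y, b, v} := mem_sdiff.2 ⟨hx1.1, fun e => hx1.2 (mem_union_right _ e)⟩
    rcases h.outer hxT hr hxr with ⟨_, e1⟩ | ⟨_, e1⟩ | ⟨_, e1⟩
    · exact e1
    · exact absurd ((card_le_one.1 c1 x e1 w hw) ▸ hwK) hxK
    · exact absurd ((card_le_one.1 c2 x e1 t ht) ▸ htK) hxK
  exact hne ((key w1 h1 r1 hr1 ha1).trans (key w2 h2 r2 hr2 ha2).symm)

end Pool.Agent.CFree
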