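import Pool.Agent.Lib_MP_6af485_kt.KPhiCut

/-!
# MP_6af485_co, `k = 3`: connected graphs with a balanced part with one exit, components

`S` connected, `Cut S W x`.
`cut_pos`: `W` is nonempty and `W ≠ S`, so some `w ∈ W` has a neighbour outside, `w = x`.
`C6V_conn`: if `IsC6 S K` then `K` is closed, so `K = S` by `Conn`; all degrees are two. `W` is balanced and contains
`x`, so `W.erase x` is nonempty and not `S`, so it has a neighbour outside of `W.erase x`, it must be `x` (by `out`);
`x` has a neighbour outside `W` (`cut_pos`) and degree two, so exactly one neighbour `w1` in `W`. So `deg W x = 1` and all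
other vertices of `W` have degree two in `W`; `W` is balanced, so the number of edges of `W` counted from the colour of
`x` is `2 * (|W| / 2) - 1`, from the other colour `2 * (|W| / 2)`: contradiction. (Or: `|S| = 6`, so `|W| ∈ {2, 4}`.)
`C6V_in`: `IsC6 W K` implies `x ∈ K` (otherwise `K` is closed in `S`, so `K = S`, but `K ⊆ W ≠ S`).
`C6V_out`: `IsC6 (S \ W) K` implies that `K` contains an element of `N S x \ W` (otherwise closed in `S`, by
`Cut.out` and symmetry of `adj`).
-/

set_option autoImplicit false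

namespace Pool.Agent.CFree

open Finset

variable {V : Type} [Fintype V] [DecidableEq V] {G : BG V}

theorem BG.cut_pos {S W : Finset V} {x : V} (hc : G.Conn S) (h : G.Cut S W x) :
    1 ≤ (G.N S x \ W).card := by
  obtain ⟨w, hw, y, hy, hadj⟩ := hc W h.sub ⟨x, h.mem⟩ h.ne
  obtain ⟨hyS, hyW⟩ := mem_sdiff.1 hy
  have hwx : w = x := by
    by_contra hne
    exact hyW (h.out w hw hne (BG.mem_N.2 ⟨hyS, hadj⟩))
  subst hwx
  exact card_pos.2 ⟨y, mem_sdiff.2 ⟨BG.mem_N.2 ⟨hyS, hadj⟩, hyW⟩⟩

/-- a closed nonempty part of a connected graph is everything -/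
private theorem kreda_closed {S K : Finset V} (hc : G.Conn S) (hK : K ⊆ S) (hne : K.Nonempty)
    (hcl : ∀ w ∈ K, G.N S w ⊆ K) : K = S := by
  by_contra hKS
  obtain ⟨w, hw, y, hy, hadj⟩ := hc K hK hne hKS
  obtain ⟨hyS, hyK⟩ := mem_sdiff.1 hy
  exact hyK (hcl w hw (BG.mem_N.2 ⟨hyS, hadj⟩))

private theorem kreda_ne {S K : Finset V} (h : G.IsC6 S K) : K.Nonempty := by
  rw [← card_pos, h.2.1]
  norm_num

theorem BG.C6V_conn {S W : Finset V} {x : V} (hc : G.Conn S) (h : G.Cut S W x) : G.C6V S = ∅ := by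
  rw [BG.C6V_eq_empty]
  intro K hK
  have hKS : K = S := kreda_closed hc hK.1 (kreda_ne hK) fun w hw => (hK.2.2 w hw).2
  subst hKS
  -- the two colour classes of `W`
  have hbal : (W.filter fun z => G.col z = G.col x).card =
      (W.filter fun z => G.col z = !(G.col x)).card := by
    have hb := h.bal
    unfold BG.bal at hb
    cases hx : G.col x
    · simpa using hb.symm
    · simpa using hb
  -- neighbours of a vertex of the other colour
  have hN : ∀ y ∈ W.filter fun z => G.col z = !(G.col x),
      G.N W y ⊆ (W.filter fun z => G.col z = G.col x) ∧ (G.N W y).card = 2 := by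
    intro y hy
    obtain ⟨hyW, hyc⟩ := mem_filter.1 hy
    constructor
    · intro z hz
      obtain ⟨hzW, hadj⟩ := BG.mem_N.1 hz
      have hb := G.bip _ _ hadj
      refine mem_filter.2 ⟨hzW, ?_⟩
      cases h1 : G.col x <;> cases h2 : G.col y <;> cases h3 : G.col z <;> simp_all
    · have hyx : y ≠ x := by
        rintro rfl
        cases h1 : G.col y <;> rw [h1] at hyc <;> exact absurd hyc (by decide)
      have := h.deg_in hyW hyx
      rw [(hK.2.2 y (h.sub hyW)).1] at this
      exact this
  have ha1 : 1 ≤ (W.filter fun z => G.col z = G.col x).card :=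
    card_pos.2 ⟨x, mem_filter.2 ⟨h.mem, rfl⟩⟩
  obtain ⟨y, hy⟩ := card_pos.1 (by omega : 0 < (W.filter fun z => G.col z = !(G.col x)).card)
  have ha2 : 2 ≤ (W.filter fun z => G.col z = G.col x).card := by
    rw [← (hN y hy).2]
    exact card_le_card (hN y hy).1
  have h3 : ∀ c : Bool, (W.filter fun z => G.col z = c) ⊆ (K.filter fun z => G.col z = c) :=
    fun c => filter_subset_filter _ h.sub
  have ha3 : (W.filter fun z => G.col z = G.col x).card ≤ 3 := by
    rw [← hK.three (G.col x)]
    exact card_le_card (h3 _)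
  rcases Nat.lt_or_ge (W.filter fun z => G.col z = G.col x).card 3 with hlt | hge
  · -- two vertices of each colour
    have hA2 : (W.filter fun z => G.col z = G.col x).card = 2 := by omega
    have hB2 : (W.filter fun z => G.col z = !(G.col x)).card = 2 := by omega
    obtain ⟨y1, y2, hy12, hBe⟩ := card_eq_two.1 hB2
    obtain ⟨p, q, hpq, hAe⟩ := card_eq_two.1 hA2
    have e1 := hN y1 (by rw [hBe]; exact mem_insert_self _ _)
    have e2 := hN y2 (by rw [hBe]; exact mem_insert_of_mem (mem_singleton_self _))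
    have f1 : G.N W y1 = {p, q} := by
      rw [← hAe]
      exact eq_of_subset_of_card_le e1.1 (by omega)
    have f2 : G.N W y2 = {p, q} := by
      rw [← hAe]
      exact eq_of_subset_of_card_le e2.1 (by omega)
    have g1 : G.adj y1 p := (BG.mem_N.1 (by rw [f1]; exact mem_insert_self _ _ : p ∈ G.N W y1)).2
    have g2 : G.adj y2 p := (BG.mem_N.1 (by rw [f2]; exact mem_insert_self _ _ : p ∈ G.N W y2)).2
    have g3 : G.adj y1 q := (BG.mem_N.1 (by rw [f1]; exact mem_insert_of_mem (mem_singleton_self _) :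
      q ∈ G.N W y1)).2
    have g4 : G.adj y2 q := (BG.mem_N.1 (by rw [f2]; exact mem_insert_of_mem (mem_singleton_self _) :
      q ∈ G.N W y2)).2
    exact hpq (G.c4 y1 y2 p q hy12 g1 g2 g3 g4)
  · -- all vertices
    apply h.ne
    refine Subset.antisymm h.sub fun z hz => ?_
    have k1 : (W.filter fun z => G.col z = G.col x) = (K.filter fun z => G.col z = G.col x) :=
      eq_of_subset_of_card_le (h3 _) (by rw [hK.three]; exact hge)
    have k2 : (W.filter fun z => G.col z = !(G.col x)) = (K.filter fun z => G.col z = !(G.col x)) :=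
      eq_of_subset_of_card_le (h3 _) (by rw [hK.three]; omega)
    by_cases hz1 : G.col z = G.col x
    · have : z ∈ K.filter fun z => G.col z = G.col x := mem_filter.2 ⟨hz, hz1⟩
      rw [← k1] at this
      exact (mem_filter.1 this).1
    · have hz2 : G.col z = !(G.col x) := by
        cases h1 : G.col z <;> cases h2 : G.col x <;> simp_all
      have : z ∈ K.filter fun z => G.col z = !(G.col x) := mem_filter.2 ⟨hz, hz2⟩
      rw [← k2] at this
      exact (mem_filter.1 this).1

theorem BG.C6V_in {S W K : Finset V} {x : V} (hc : G.Conn S) (h : G.Cut S W x) (hK : G.IsC6 W K) :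
    x ∈ K := by
  by_contra hx
  have hKS : K = S := by
    refine kreda_closed hc (hK.1.trans h.sub) (kreda_ne hK) fun w hw => ?_
    have hwx : w ≠ x := fun e => hx (e ▸ hw)
    have hwW := hK.1 hw
    intro y hy
    exact (hK.2.2 w hw).2 (BG.mem_N.2 ⟨h.out w hwW hwx hy, (BG.mem_N.1 hy).2⟩)
  apply h.ne
  refine Subset.antisymm h.sub ?_
  rw [← hKS]
  exact hK.1

theorem BG.C6V_out {S W K : Finset V} {x : V} (hc : G.Conn S) (h : G.Cut S W x)
    (hK : G.IsC6 (S \ W) K) : ∃ r ∈ G.N S x \ W, r ∈ K := by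
  by_contra hno
  have hKS : K = S := by
    refine kreda_closed hc (hK.1.trans sdiff_subset) (kreda_ne hK) fun w hw => ?_
    obtain ⟨hwS, hwW⟩ := mem_sdiff.1 (hK.1 hw)
    intro y hy
    obtain ⟨hyS, hadj⟩ := BG.mem_N.1 hy
    have hyW : y ∉ W := by
      intro hyW
      by_cases hyx : y = x
      · subst hyx
        exact hno ⟨w, mem_sdiff.2 ⟨BG.mem_N.2 ⟨hwS, G.symm _ _ hadj⟩, hwW⟩, hw⟩
      · exact hwW (h.out y hyW hyx (BG.mem_N.2 ⟨hwS, G.symm _ _ hadj⟩))
    exact (hK.2.2 w hw).2 (BG.mem_N.2 ⟨mem_sdiff.2 ⟨hyS, hyW⟩, hadj⟩)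
  have : x ∈ K := by
    rw [hKS]
    exact h.sub h.mem
  exact (mem_sdiff.1 (hK.1 this)).2 h.mem

end Pool.Agent.CFree
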