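import Pool.Agent.Lib_MP_6af485_kt.KRedF
import Pool.Agent.Lib_MP_6af485_kt.KCut
import Pool.Agent.Lib_MP_6af485_co.StepD

/-!
# MP_6af485_co, `k = 3`: connected graphs with a balanced part with one exit, bounds

`S` connected, `Cut S W x`, `m = |N S x \ W| ≥ 1`, `U = S \ W`, `IH` for `W` and `U` (smaller than `S`).

`red_gen`: `F S = yy ^ m * F W * F U` (`F_cut`), and with `phi_cut`
`F S * QQ ^ phi S = yy ^ m * QQ ^ k * Gh W * Gh U`, where `k = hh (deg S x) - hh (deg W x) + ∑ dl + 2 |C6V W| +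
2 |C6V U|` (integer exponent). If `deg W x = 0` then `F W = 0` (`BG.F_zero`) and the left side is zero.
So, for a natural number `k' ≥ k`: `F S * QQ ^ phi S ≤ yy ^ m * QQ ^ k' * Gh W * Gh U`.

`red1`: `k ≤ (m + 10) + 11 m` (`cut_x`, `cut_r`), `Gh W, Gh U ≤ 1`, and
`yy ^ m * QQ ^ (12 m + 10) ≤ yy * QQ ^ 22 = b22` (`yQ_le`).

`red2` (a vertex `v` with one neighbour `u`, `deg u ≥ 2`): `W = {v, u}`, `x = u`: `Cut S {v, u} u`; `F W ≤ 1`
(`BG.main` in `StepD`, or compute), `phi W = 0`, `C6V W = ∅`, so `Gh W ≤ 1`; `m = deg S u - 1`, `deg W u = 1`,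
`hh (deg S u) - 0 ≤ m + 1` and for `m = 1` it is 2: `k ≤ m + 1 + 11 m = 12 m + 1`, `yy ^ m * QQ ^ (12 m + 1) ≤
yy * QQ ^ 13 = lam` (`yQ_le`, as `57 > 12`).
-/

set_option autoImplicit false

namespace Pool.Agent.CFree

open Finset

variable {V : Type} [Fintype V] [DecidableEq V] {G : BG V}

theorem BG.red_gen {S W : Finset V} {x : V} (hc : G.Conn S) (h : G.Cut S W x) {k : ℕ}
    (hk : 1 ≤ G.deg W x → (hh (G.deg S x) : ℤ) - hh (G.deg W x) + ∑ r ∈ G.N S x \ W, dl (G.deg S r) +
      2 * ((G.C6V W).card : ℤ) + 2 * ((G.C6V (S \ W)).card : ℤ) ≤ k) :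
    G.F S * QQ ^ G.phi S ≤ yy ^ (G.N S x \ W).card * QQ ^ k * G.Gh W * G.Gh (S \ W) := by
  have hy := yy_pos
  have hq := QQ_pos
  rw [BG.F_cut h]
  rcases Nat.eq_zero_or_pos (G.deg W x) with h0 | h0
  · have hN : G.N W x = ∅ := card_eq_zero.1 h0
    rw [BG.F_zero h.mem hN, mul_zero, zero_mul, zero_mul]
    have h1 := BG.Gh_nonneg (G := G) W
    have h2 := BG.Gh_nonneg (G := G) (S \ W)
    positivity
  · have hk' := hk h0
    have hphi := BG.phi_cut h
    have h1 : QQ ^ G.phi S ≤ QQ ^ k * QQ ^ ((G.phi W : ℤ) - 2 * ((G.C6V W).card : ℤ)) *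
        QQ ^ ((G.phi (S \ W) : ℤ) - 2 * ((G.C6V (S \ W)).card : ℤ)) := by
      rw [← zpow_natCast QQ (G.phi S), ← zpow_natCast QQ k, ← zpow_add₀ hq.ne', ← zpow_add₀ hq.ne']
      exact zpow_le_zpow_right₀ one_le_QQ (by linarith)
    have h2 : 0 ≤ yy ^ (G.N S x \ W).card * G.F W * G.F (S \ W) :=
      mul_nonneg (mul_nonneg (pow_nonneg hy.le _) (G.F_nonneg _)) (G.F_nonneg _)
    refine (mul_le_mul_of_nonneg_left h1 h2).trans (le_of_eq ?_)
    unfold BG.Gh
    ring

private theorem kredb_card {S W : Finset V} {x : V} (h : G.Cut S W x) :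
    W.card < S.card ∧ (S \ W).card < S.card := by
  constructor
  · exact card_lt_card (Finset.ssubset_iff_subset_ne.2 ⟨h.sub, h.ne⟩)
  · refine card_lt_card (Finset.ssubset_iff_subset_ne.2 ⟨sdiff_subset, fun he => ?_⟩)
    have h1 : x ∈ S \ W := by
      rw [he]
      exact h.sub h.mem
    exact (mem_sdiff.1 h1).2 h.mem

private theorem kredb_le {S W : Finset V} {x : V} (IH : ∀ T : Finset V, T.card < S.card → G.PP T)
    (h : G.Cut S W x) (k : ℕ) :
    yy ^ (G.N S x \ W).card * QQ ^ k * G.Gh W * G.Gh (S \ W) ≤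
      yy ^ (G.N S x \ W).card * QQ ^ k := by
  have hy := yy_pos
  have hq := QQ_pos
  have h1 := (IH W (kredb_card h).1).A
  have h2 := (IH (S \ W) (kredb_card h).2).A
  have h3 : 0 ≤ yy ^ (G.N S x \ W).card * QQ ^ k := by positivity
  have h4 : G.Gh W * G.Gh (S \ W) ≤ 1 := mul_le_one₀ h1 (BG.Gh_nonneg _) h2
  calc _ = yy ^ (G.N S x \ W).card * QQ ^ k * (G.Gh W * G.Gh (S \ W)) := by ring
    _ ≤ yy ^ (G.N S x \ W).card * QQ ^ k * 1 := mul_le_mul_of_nonneg_left h4 h3
    _ = _ := mul_one _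

theorem BG.red1 {S W : Finset V} {x : V} (IH : ∀ T : Finset V, T.card < S.card → G.PP T)
    (hc : G.Conn S) (h : G.Cut S W x) : G.F S * QQ ^ G.phi S ≤ b22 := by
  have hm := BG.cut_pos hc h
  have hr := (BG.cut_r hc h).1
  refine (BG.red_gen hc h (k := 12 * (G.N S x \ W).card + 10) ?_).trans
    ((kredb_le IH h _).trans ?_)
  · intro hd
    have hx := (BG.cut_x hc h hd).1
    push_cast
    linarith
  · have h1 := yQ_le (n := 1) (n' := (G.N S x \ W).card) (a := 22)
      (a' := 12 * (G.N S x \ W).card + 10) hm (by omega)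
    rw [pow_one] at h1
    exact h1

theorem BG.red2 {S : Finset V} {v u : V} (IH : ∀ T : Finset V, T.card < S.card → G.PP T)
    (hc : G.Conn S) (hv : v ∈ S) (hN : G.N S v = {u}) (hu : 2 ≤ G.deg S u) :
    G.F S * QQ ^ G.phi S ≤ lam := by
  obtain ⟨huS, hvu⟩ := BG.mem_N.1 (show u ∈ G.N S v by rw [hN]; exact mem_singleton_self u)
  have hne : v ≠ u := BG.ne_of_adj hvu
  have hvN : v ∈ G.N S u := BG.mem_N.2 ⟨hv, G.symm _ _ hvu⟩
  -- another neighbour of `u`
  obtain ⟨y, hy, hyv⟩ : ∃ y ∈ G.N S u, y ≠ v := by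
    by_contra hcon
    push Not at hcon
    have h1 : G.N S u ⊆ {v} := fun z hz => mem_singleton.2 (hcon z hz)
    have h2 := card_le_card h1
    rw [card_singleton] at h2
    unfold BG.deg at hu
    omega
  obtain ⟨hyS, huy⟩ := BG.mem_N.1 hy
  have hyu : y ≠ u := (BG.ne_of_adj huy).symm
  have hcut : G.Cut S {v, u} u := by
    refine ⟨?_, ?_, ?_, ?_, ?_⟩
    · intro z hz
      rw [mem_insert, mem_singleton] at hz
      rcases hz with rfl | rfl
      · exact hv
      · exact huS
    · exact mem_insert_of_mem (mem_singleton_self u)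
    · intro he
      rw [← he, mem_insert, mem_singleton] at hyS
      rcases hyS with h1 | h1
      · exact hyv h1
      · exact hyu h1
    · have hcol := G.bip _ _ hvu
      unfold BG.bal
      cases h1 : G.col v <;> cases h2 : G.col u
      · exact absurd (h1.trans h2.symm) hcol
      · rw [filter_insert, filter_insert, filter_singleton, filter_singleton, h1, h2]
        simp
      · rw [filter_insert, filter_insert, filter_singleton, filter_singleton, h1, h2]
        simp
      · exact absurd (h1.trans h2.symm) hcol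
    · intro w hw hwu
      rw [mem_insert, mem_singleton] at hw
      rcases hw with rfl | rfl
      · rw [hN]
        intro z hz
        exact mem_insert_of_mem hz
      · exact absurd rfl hwu
  have hC : G.C6V {v, u} = ∅ := by
    rw [BG.C6V_eq_empty]
    intro K hK
    have h1 := card_le_card hK.1
    rw [hK.2.1, card_pair hne] at h1
    omega
  have hm := BG.cut_pos hc hcut
  have hr := (BG.cut_r hc hcut).1
  refine (BG.red_gen hc hcut (k := 12 * (G.N S u \ {v, u}).card + 1) ?_).trans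
    ((kredb_le IH hcut _).trans ?_)
  · intro hd
    have hx := (BG.cut_x hc hcut hd).2 hC
    rw [hC, card_empty]
    push_cast
    linarith
  · have h1 := yQ_le (n := 1) (n' := (G.N S u \ {v, u}).card) (a := 13)
      (a' := 12 * (G.N S u \ {v, u}).card + 1) hm (by omega)
    rw [pow_one] at h1
    exact h1

end Pool.Agent.CFree
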