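import Pool.Agent.Lib_MP_6af485_kt.KRedB

/-!
# MP_6af485_co, `k = 3`: connected graphs with a balanced part with one exit, a vertex of degree two

`S` connected, `Cut S W x`, `m = |N S x \ W| ≥ 1`, `U = S \ W`.

`cut_two`: if `C6V W ≠ ∅`, `C6V U ≠ ∅` and `m = 1` then the vertices of degree at least three in `S` are `x` and its only
neighbour `r` in `U`: `x` is in a 6-cycle component `K` of `W` (`C6V_in`), `W \ K` is closed in `S` (its neighbours in `W` are
in `W \ K`, and only `x ∈ K` has neighbours outside `W`), so `W = K` by `Conn` (`W \ K ≠ S`; if it is nonempty it has a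
neighbour outside). In the same way `U = K'` is a 6-cycle component containing `r`.
`cut_W`: if `C6V W ≠ ∅` then `W` is a 6-cycle component of itself (the same argument; any `m`).
`cut_U`: if `C6V U ≠ ∅` and `m = 1` then `U` is a 6-cycle component of itself (the same argument).

`red3`: if `S` has a vertex `v` of degree two with both neighbours of degree at least three then
`F S * QQ ^ phi S ≤ lam`: if `C6V W = ∅` then `k ≤ (m + 1) + 11 m` in `red_gen`; if `C6V U = ∅` then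
`k ≤ (m + 10) + 2 m`: in both cases `yy ^ m * QQ ^ k ≤ yy * QQ ^ 13` (`yQ_le`) and `Gh W, Gh U ≤ 1`. If both are nonempty and
`m ≥ 2`: `k ≤ 12 m + 10`, `yy ^ m * QQ ^ (12 m + 10) ≤ yy * QQ ^ 13` by `yQ_le` (`12 m + 10 ≤ 13 + 57 (m - 1)`). If both are nonempty and `m = 1`:
`cut_two`: the neighbours `a ≠ b` of `v` are `x` and `r`, but these are adjacent, so they have no common neighbour `v`
(`nadj_common`): contradiction.
-/

set_option autoImplicit false

namespace Pool.Agent.CFree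

open Finset

variable {V : Type} [Fintype V] [DecidableEq V] {G : BG V}

/-- a part with a 6-cycle component is a 6-cycle -/
theorem BG.cut_W {S W : Finset V} {x : V} (hc : G.Conn S) (h : G.Cut S W x) (hW : (G.C6V W).Nonempty) :
    G.IsC6 W W := by
  obtain ⟨v, hv⟩ := hW
  obtain ⟨K, hK, _⟩ := BG.mem_C6V.1 hv
  have hx : x ∈ K := BG.C6V_in hc h hK
  have hWK : W ⊆ K := by
    intro z hz
    by_contra hzK
    have hne : W \ K ≠ S := by
      intro e
      have : x ∈ W \ K := by rw [e]; exact h.sub h.mem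
      exact (mem_sdiff.1 this).2 hx
    obtain ⟨w, hw, y, hy, hadj⟩ := hc (W \ K) (sdiff_subset.trans h.sub) ⟨z, mem_sdiff.2 ⟨hz, hzK⟩⟩ hne
    obtain ⟨hwW, hwK⟩ := mem_sdiff.1 hw
    obtain ⟨hyS, hy2⟩ := mem_sdiff.1 hy
    have hwx : w ≠ x := fun e => hwK (e ▸ hx)
    have hyW : y ∈ W := h.out w hwW hwx (BG.mem_N.2 ⟨hyS, hadj⟩)
    have hyK : y ∈ K := by
      by_contra hyK
      exact hy2 (mem_sdiff.2 ⟨hyW, hyK⟩)
    exact hwK ((hK.2.2 y hyK).2 (BG.mem_N.2 ⟨hwW, G.symm _ _ hadj⟩))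
  have e : K = W := Subset.antisymm hK.1 hWK
  rw [e] at hK
  exact hK

theorem BG.cut_U {S W : Finset V} {x : V} (hc : G.Conn S) (h : G.Cut S W x) (hm : (G.N S x \ W).card = 1)
    (hU : (G.C6V (S \ W)).Nonempty) : G.IsC6 (S \ W) (S \ W) := by
  obtain ⟨v, hv⟩ := hU
  obtain ⟨K, hK, _⟩ := BG.mem_C6V.1 hv
  obtain ⟨r, hr, hrK⟩ := BG.C6V_out hc h hK
  obtain ⟨r0, hr0⟩ := card_eq_one.1 hm
  have hr1 : r = r0 := by
    rw [hr0] at hr
    exact mem_singleton.1 hr
  have hUK : S \ W ⊆ K := by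
    intro z hz
    by_contra hzK
    have hne : (S \ W) \ K ≠ S := by
      intro e
      have : x ∈ (S \ W) \ K := by rw [e]; exact h.sub h.mem
      exact (mem_sdiff.1 (mem_sdiff.1 this).1).2 h.mem
    obtain ⟨w, hw, y, hy, hadj⟩ := hc ((S \ W) \ K) (sdiff_subset.trans sdiff_subset)
      ⟨z, mem_sdiff.2 ⟨hz, hzK⟩⟩ hne
    obtain ⟨hwU, hwK⟩ := mem_sdiff.1 hw
    obtain ⟨hwS, hwW⟩ := mem_sdiff.1 hwU
    obtain ⟨hyS, hy2⟩ := mem_sdiff.1 hy
    by_cases hyW : y ∈ W
    · by_cases hyx : y = x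
      · subst hyx
        have hwN : w ∈ G.N S y \ W := mem_sdiff.2 ⟨BG.mem_N.2 ⟨hwS, G.symm _ _ hadj⟩, hwW⟩
        rw [hr0] at hwN
        have : w = r := by rw [hr1]; exact mem_singleton.1 hwN
        exact hwK (this ▸ hrK)
      · exact hwW (h.out y hyW hyx (BG.mem_N.2 ⟨hwS, G.symm _ _ hadj⟩))
    · have hyK : y ∈ K := by
        by_contra hyK
        exact hy2 (mem_sdiff.2 ⟨mem_sdiff.2 ⟨hyS, hyW⟩, hyK⟩)
      exact hwK ((hK.2.2 y hyK).2 (BG.mem_N.2 ⟨hwU, G.symm _ _ hadj⟩))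
  have e : K = S \ W := Subset.antisymm hK.1 hUK
  rw [e] at hK
  exact hK

/-- the vertices of degree at least three -/
theorem BG.cut_two {S W : Finset V} {x w : V} (hc : G.Conn S) (h : G.Cut S W x)
    (hm : (G.N S x \ W).card = 1) (hW : (G.C6V W).Nonempty) (hU : (G.C6V (S \ W)).Nonempty) (hw : w ∈ S)
    (hd : 3 ≤ G.deg S w) : w = x ∨ w ∈ G.N S x \ W := by
  by_cases hwW : w ∈ W
  · left
    by_contra hne
    have h1 := (BG.cut_W hc h hW).2.2 w hwW
    have h2 := h.deg_in hwW hne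
    rw [h1.1] at h2
    omega
  · right
    have h1 := (BG.cut_U hc h hm hU).2.2 w (mem_sdiff.2 ⟨hw, hwW⟩)
    have h2 := h.deg_out hw hwW
    rw [h1.1] at h2
    refine mem_sdiff.2 ⟨?_, hwW⟩
    by_contra hne
    rw [if_neg hne] at h2
    omega

private theorem kredd_fin {X A B : ℝ} {m k : ℕ} (hm : 1 ≤ m) (hk : k ≤ 13 + 57 * (m - 1))
    (h : X ≤ yy ^ m * QQ ^ k * A * B) (hA : A ≤ 1) (hB : B ≤ 1) (hA0 : 0 ≤ A) (hB0 : 0 ≤ B) :
    X ≤ lam := by
  have hy := yy_pos
  have hq := QQ_pos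
  have h1 : yy ^ m * QQ ^ k ≤ yy ^ 1 * QQ ^ 13 := yQ_le hm hk
  have h2 : A * B ≤ 1 := mul_le_one₀ hA hB0 hB
  have h3 : 0 ≤ yy ^ m * QQ ^ k := by positivity
  calc X ≤ yy ^ m * QQ ^ k * (A * B) := by rw [← mul_assoc]; exact h
    _ ≤ yy ^ m * QQ ^ k * 1 := mul_le_mul_of_nonneg_left h2 h3
    _ ≤ yy ^ 1 * QQ ^ 13 := by rw [mul_one]; exact h1
    _ = lam := by unfold lam; rw [pow_one]

theorem BG.red3 {S W : Finset V} {x v a b : V} (IH : ∀ T : Finset V, T.card < S.card → G.PP T)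
    (hc : G.Conn S) (h : G.Cut S W x) (hv : v ∈ S) (hab : a ≠ b) (hN : G.N S v = {a, b})
    (ha : 3 ≤ G.deg S a) (hb : 3 ≤ G.deg S b) : G.F S * QQ ^ G.phi S ≤ lam := by
  have hm := BG.cut_pos hc h
  have hcW : W.card < S.card := card_lt_card (Finset.ssubset_iff_subset_ne.2 ⟨h.sub, h.ne⟩)
  have hcU : (S \ W).card < S.card := by
    refine card_lt_card (Finset.ssubset_iff_subset_ne.2 ⟨sdiff_subset, fun e => ?_⟩)
    have : x ∈ S \ W := by rw [e]; exact h.sub h.mem
    exact (mem_sdiff.1 this).2 h.mem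
  have hGW := (IH W hcW).A
  have hGU := (IH (S \ W) hcU).A
  have hr := BG.cut_r hc h
  by_cases hW : G.C6V W = ∅
  · refine kredd_fin hm (k := 12 * (G.N S x \ W).card + 1) (by omega) (BG.red_gen hc h fun hd => ?_)
      hGW hGU (BG.Gh_nonneg _) (BG.Gh_nonneg _)
    have h1 := (BG.cut_x hc h hd).2 hW
    have h2 := hr.1
    rw [hW, card_empty]
    push_cast
    linarith
  by_cases hU : G.C6V (S \ W) = ∅
  · refine kredd_fin hm (k := 3 * (G.N S x \ W).card + 10) (by omega) (BG.red_gen hc h fun hd => ?_)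
      hGW hGU (BG.Gh_nonneg _) (BG.Gh_nonneg _)
    have h1 := (BG.cut_x hc h hd).1
    have h2 := hr.2 hU
    rw [hU, card_empty]
    push_cast
    linarith
  rcases Nat.lt_or_ge (G.N S x \ W).card 2 with hm2 | hm2
  · exfalso
    have hm1 : (G.N S x \ W).card = 1 := by omega
    have hWn := nonempty_iff_ne_empty.2 hW
    have hUn := nonempty_iff_ne_empty.2 hU
    have haN : a ∈ G.N S v := by rw [hN]; exact mem_insert_self _ _
    have hbN : b ∈ G.N S v := by rw [hN]; exact mem_insert_of_mem (mem_singleton_self _)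
    obtain ⟨haS, hva⟩ := BG.mem_N.1 haN
    obtain ⟨hbS, hvb⟩ := BG.mem_N.1 hbN
    have hnadj := BG.nadj_common hva hvb
    rcases BG.cut_two hc h hm1 hWn hUn haS ha with h1 | h1 <;>
      rcases BG.cut_two hc h hm1 hWn hUn hbS hb with h2 | h2
    · exact hab (h1.trans h2.symm)
    · rw [h1] at hnadj
      exact hnadj (BG.mem_N.1 (mem_sdiff.1 h2).1).2
    · rw [h2] at hnadj
      exact hnadj (G.symm _ _ (BG.mem_N.1 (mem_sdiff.1 h1).1).2)
    · exact hab (card_le_one.1 (by omega) a h1 b h2)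
  · refine kredd_fin hm (k := 12 * (G.N S x \ W).card + 10) (by omega) (BG.red_gen hc h fun hd => ?_)
      hGW hGU (BG.Gh_nonneg _) (BG.Gh_nonneg _)
    have h1 := (BG.cut_x hc h hd).1
    have h2 := hr.1
    push_cast
    linarith

end Pool.Agent.CFree
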