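import Pool.Agent.Lib_MP_6af485_kt.KRedD

/-!
# MP_6af485_co, `k = 3`: connected graphs with a balanced part with one exit, neighbours of degree at least four

`v` has degree two and both neighbours `a`, `b` have degree at least four; `F S * QQ ^ phi S ≤ b44`. `U = S \ W`,
`m = |N S x \ W|`. If `C6V W = ∅` and
`C6V U = ∅` then `k ≤ (m + 1) + 2 m` in `red_gen`, `yy ^ m * QQ ^ (3 m + 1) ≤ yy * QQ ^ 4 ≤ b44` (`num_r1`). If `m ≥ 2` then
`≤ yy ^ 2 * QQ ^ 34 ≤ b44` (`num_r2`). Let `m = 1`. Both nonempty: as in `red3`. `C6V W ≠ ∅`, `C6V U = ∅`: by `cut_W` all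
vertices of `W` have degree two in `W`, `deg S x = 3`, and `k ≤ 11 + 2 = 13`, so it is enough that `Gh U ≤ bet`
(`lam * bet ≤ b44`, `num_r4`). Here `v, a, b ∉ W`: `a, b` have degree at least 4, but the vertices of `W` have degree at most
3 in `S`; a vertex of `W` has a neighbour in `W`, so `v ∉ W`. And `v ∉ N S x` (otherwise `x ∈ {a, b}` has
degree three), so `N U v = {a, b}` and `deg U a ≥ 3`, `deg U b ≥ 3` (`Cut.deg_out`): `PP.B` for `U`.
`C6V W = ∅`, `C6V U ≠ ∅`: by `cut_U` all vertices of `U` have degree two in `U`, and the only neighbour `r` of `x` in `U` has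
`deg S r = 3`, `k ≤ 2 + 11 = 13`. Now `v, a, b ∈ W` (as before), `v ≠ x` (otherwise `r ∈ {a, b}` has degree three), so
`N W v = {a, b}`, and `deg W a ≥ 3`, `deg W b ≥ 3` (`Cut.deg_cut`, `Cut.deg_in`): `PP.B` for `W`.
-/

set_option autoImplicit false

namespace Pool.Agent.CFree

open Finset

variable {V : Type} [Fintype V] [DecidableEq V] {G : BG V}

/-- both factors are at most one -/
theorem BG.krede_prod {W U : Finset V} {m k n a : ℕ} {B : ℝ} (hW : G.Gh W ≤ 1) (hU : G.Gh U ≤ 1)
    (hn : n ≤ m) (ha : k ≤ a + 57 * (m - n)) (hB : yy ^ n * QQ ^ a ≤ B) :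
    yy ^ m * QQ ^ k * G.Gh W * G.Gh U ≤ B := by
  have h0 : 0 ≤ yy ^ m * QQ ^ k := mul_nonneg (pow_nonneg yy_pos.le _) (pow_nonneg QQ_pos.le _)
  have h1 := G.Gh_nonneg W
  have h2 := G.Gh_nonneg U
  calc yy ^ m * QQ ^ k * G.Gh W * G.Gh U ≤ yy ^ m * QQ ^ k * 1 * 1 := by
        gcongr
    _ = yy ^ m * QQ ^ k := by ring
    _ ≤ yy ^ n * QQ ^ a := yQ_le hn ha
    _ ≤ B := hB

theorem BG.red4 {S W : Finset V} {x v a b : V} (IH : ∀ T : Finset V, T.card < S.card → G.PP T)
    (hc : G.Conn S) (h : G.Cut S W x) (hv : v ∈ S) (hab : a ≠ b) (hN : G.N S v = {a, b})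
    (ha : 4 ≤ G.deg S a) (hb : 4 ≤ G.deg S b) : G.F S * QQ ^ G.phi S ≤ b44 := by
  obtain ⟨haS, hva⟩ := BG.mem_N.1 (show a ∈ G.N S v by rw [hN]; simp)
  obtain ⟨hbS, hvb⟩ := BG.mem_N.1 (show b ∈ G.N S v by rw [hN]; simp)
  have hm := BG.cut_pos hc h
  have ltW : W.card < S.card := card_lt_card (h.sub.ssubset_of_ne h.ne)
  have ltU : (S \ W).card < S.card := card_sdiff_lt (h.sub h.mem) h.mem
  have AW := (IH W ltW).A
  have AU := (IH (S \ W) ltU).A
  have hr := BG.cut_r hc h
  have hbig : 2 ≤ (G.N S x \ W).card → G.F S * QQ ^ G.phi S ≤ b44 := by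
    intro hm2
    have h1 := BG.red_gen hc h (k := 12 * (G.N S x \ W).card + 10) (fun hd => by
      have h3 := (BG.cut_x hc h hd).1
      push_cast
      linarith [hr.1])
    exact h1.trans (BG.krede_prod AW AU hm2 (by omega) num_r2)
  by_cases hCW : G.C6V W = ∅
  · by_cases hCU : G.C6V (S \ W) = ∅
    · have h1 := BG.red_gen hc h (k := 3 * (G.N S x \ W).card + 1) (fun hd => by
        have h3 := (BG.cut_x hc h hd).2 hCW
        have h4 := hr.2 hCU
        rw [hCW, hCU, card_empty]
        push_cast
        linarith)
      refine h1.trans (BG.krede_prod (n := 1) (a := 4) AW AU hm (by omega) ?_)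
      rw [pow_one]
      exact num_r1
    · rcases Nat.lt_or_ge (G.N S x \ W).card 2 with hm1 | hm2
      · have hm1' : (G.N S x \ W).card = 1 := by omega
        have hU := BG.cut_U hc h hm1' (nonempty_iff_ne_empty.2 hCU)
        have hdeg : ∀ w ∈ S \ W, G.deg S w ≤ 3 := by
          intro w hw
          obtain ⟨hwS, hwW⟩ := mem_sdiff.1 hw
          have h3 := h.deg_out hwS hwW
          rw [(hU.2.2 w hw).1] at h3
          split_ifs at h3 <;> omega
        have haW : a ∈ W := by
          by_contra hn
          have := hdeg a (mem_sdiff.2 ⟨haS, hn⟩)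
          omega
        have hbW : b ∈ W := by
          by_contra hn
          have := hdeg b (mem_sdiff.2 ⟨hbS, hn⟩)
          omega
        have hab' : ∀ u ∈ G.N S v, u ∈ W := by
          intro u hu
          rw [hN, mem_insert, mem_singleton] at hu
          rcases hu with rfl | rfl
          · exact haW
          · exact hbW
        have hvW : v ∈ W := by
          by_contra hn
          have hvU : v ∈ S \ W := mem_sdiff.2 ⟨hv, hn⟩
          have h3 := (hU.2.2 v hvU).1
          obtain ⟨u, hu⟩ : (G.N (S \ W) v).Nonempty := by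
            rw [← card_pos]
            unfold BG.deg at h3
            omega
          obtain ⟨huU, hvu⟩ := BG.mem_N.1 hu
          exact (mem_sdiff.1 huU).2 (hab' u (BG.mem_N.2 ⟨(mem_sdiff.1 huU).1, hvu⟩))
        have hNW : G.N W v = {a, b} := by
          rw [← hN]
          ext u
          constructor
          · intro hu
            obtain ⟨h3, h4⟩ := BG.mem_N.1 hu
            exact BG.mem_N.2 ⟨h.sub h3, h4⟩
          · intro hu
            exact BG.mem_N.2 ⟨hab' u hu, (BG.mem_N.1 hu).2⟩
        have hdW : ∀ w ∈ W, 4 ≤ G.deg S w → 3 ≤ G.deg W w := by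
          intro w hw hd
          by_cases hwx : w = x
          · subst hwx
            have := h.deg_cut
            omega
          · rw [h.deg_in hw hwx]
            omega
        have hB := (IH W ltW).B v a b hvW hab hNW (hdW a haW ha) (hdW b hbW hb)
        have h1 := BG.red_gen hc h (k := 13) (fun hd => by
          have h3 := (BG.cut_x hc h hd).2 hCW
          have h4 := hr.1
          rw [hm1'] at h3 h4
          rw [hCW, card_empty]
          push_cast at h3 h4 ⊢
          linarith)
        rw [hm1', pow_one] at h1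
        refine h1.trans ?_
        have h0 : 0 ≤ yy * QQ ^ 13 := lam_pos.le
        calc yy * QQ ^ 13 * G.Gh W * G.Gh (S \ W) ≤ yy * QQ ^ 13 * bet * 1 := by
              have := G.Gh_nonneg W
              have := G.Gh_nonneg (S \ W)
              have := bet_pos.le
              gcongr
          _ = lam * bet := by unfold lam; ring
          _ ≤ b44 := num_r4
      · exact hbig hm2
  · by_cases hCU : G.C6V (S \ W) = ∅
    · rcases Nat.lt_or_ge (G.N S x \ W).card 2 with hm1 | hm2
      · have hm1' : (G.N S x \ W).card = 1 := by omega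
        have hWW := BG.cut_W hc h (nonempty_iff_ne_empty.2 hCW)
        have hdeg : ∀ w ∈ W, G.deg S w ≤ 3 := by
          intro w hw
          have h4 := (hWW.2.2 w hw).1
          by_cases hwx : w = x
          · subst hwx
            have := h.deg_cut
            omega
          · have := h.deg_in hw hwx
            omega
        have haW : a ∉ W := fun hn => by
          have := hdeg a hn
          omega
        have hbW : b ∉ W := fun hn => by
          have := hdeg b hn
          omega
        have hab' : ∀ u ∈ G.N S v, u ∉ W := by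
          intro u hu
          rw [hN, mem_insert, mem_singleton] at hu
          rcases hu with rfl | rfl
          · exact haW
          · exact hbW
        have hvW : v ∉ W := by
          intro hn
          have h3 := (hWW.2.2 v hn).1
          obtain ⟨u, hu⟩ : (G.N W v).Nonempty := by
            rw [← card_pos]
            unfold BG.deg at h3
            omega
          obtain ⟨huW, hvu⟩ := BG.mem_N.1 hu
          exact hab' u (BG.mem_N.2 ⟨h.sub huW, hvu⟩) huW
        have hNU : G.N (S \ W) v = {a, b} := by
          rw [← hN, BG.N_sdiff, sdiff_eq_self_of_disjoint]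
          rw [disjoint_left]
          exact hab'
        have hdU : ∀ w ∈ S, w ∉ W → 4 ≤ G.deg S w → 3 ≤ G.deg (S \ W) w := by
          intro w hw hwW hd
          have h3 := h.deg_out hw hwW
          split_ifs at h3 <;> omega
        have hB := (IH (S \ W) ltU).B v a b (mem_sdiff.2 ⟨hv, hvW⟩) hab hNU (hdU a haS haW ha)
          (hdU b hbS hbW hb)
        have h1 := BG.red_gen hc h (k := 13) (fun hd => by
          have h3 := (BG.cut_x hc h hd).1
          have h4 := hr.2 hCU
          rw [hm1'] at h3 h4
          rw [hCU, card_empty]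
          push_cast at h3 h4 ⊢
          linarith)
        rw [hm1', pow_one] at h1
        refine h1.trans ?_
        have h0 : 0 ≤ yy * QQ ^ 13 := lam_pos.le
        calc yy * QQ ^ 13 * G.Gh W * G.Gh (S \ W) ≤ yy * QQ ^ 13 * 1 * bet := by
              have := G.Gh_nonneg W
              have := G.Gh_nonneg (S \ W)
              gcongr
          _ = lam * bet := by unfold lam; ring
          _ ≤ b44 := num_r4
      · exact hbig hm2
    · rcases Nat.lt_or_ge (G.N S x \ W).card 2 with hm1 | hm2
      · exfalso
        have hm1' : (G.N S x \ W).card = 1 := by omega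
        have h1 := BG.cut_two hc h hm1' (nonempty_iff_ne_empty.2 hCW) (nonempty_iff_ne_empty.2 hCU) haS (by omega)
        have h2 := BG.cut_two hc h hm1' (nonempty_iff_ne_empty.2 hCW) (nonempty_iff_ne_empty.2 hCU) hbS (by omega)
        rcases h1 with h1 | h1
        · rcases h2 with h2 | h2
          · exact hab (h1.trans h2.symm)
          · subst h1
            exact BG.nadj_common hva hvb (BG.mem_N.1 (mem_sdiff.1 h2).1).2
        · rcases h2 with h2 | h2
          · subst h2
            exact BG.nadj_common hvb hva (BG.mem_N.1 (mem_sdiff.1 h1).1).2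
          · exact hab (card_le_one.1 hm1'.le a h1 b h2)
      · exact hbig hm2

end Pool.Agent.CFree
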