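import Pool.Agent.Lib_MP_6af485_kt.KRedA

/-!
# MP_6af485_co, `k = 3`: connected graphs with a balanced part with one exit, weights

`S` connected, `Cut S W x`, `m = |N S x \ W| ≥ 1` (`cut_pos`).
`cut_x`: if `C6V W ≠ ∅` then `|C6V W| ≤ 6` (`C6V_card_le` with `M = {x}`, `C6V_in`) and `deg W x = 2` (`x` is in a
component), `deg S x = m + 2 ≥ 3` (`Cut.deg_cut`), `hh (m + 2) - 2 + 12 = m + 10`. If `C6V W = ∅`, `d = deg W x ≥ 1`:
`hh (d + m) - hh d ≤ m + 1` for `d ≥ 1`, `m ≥ 1` (`d = 1`: `hh (m + 1) ≤ m + 1`; `d = 2`: `m - 2`; `d ≥ 3`: `m`).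
`cut_r`: `|C6V (S \ W)| ≤ 6 * |M'|` for `M' = (N S x \ W) ∩ C6V (S \ W)` (`C6V_card_le`, `C6V_out`). For `r ∈ M'` the
degree in `S \ W` is two, so `deg S r = 3` (`Cut.deg_out`), `dl = -1`; for the others `dl ≤ 2`. The sum is at most
`11 * |M'| + 2 * (m - |M'|) ≤ 11 * m`; if `C6V (S \ W) = ∅` it is at most `2 * m` (`dl_le_two`).
-/

set_option autoImplicit false

namespace Pool.Agent.CFree

open Finset

variable {V : Type} [Fintype V] [DecidableEq V] {G : BG V}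

theorem BG.cut_x {S W : Finset V} {x : V} (hc : G.Conn S) (h : G.Cut S W x) (hd : 1 ≤ G.deg W x) :
    (hh (G.deg S x) : ℤ) - hh (G.deg W x) + 2 * ((G.C6V W).card : ℤ) ≤ (G.N S x \ W).card + 10 ∧
      (G.C6V W = ∅ → (hh (G.deg S x) : ℤ) - hh (G.deg W x) ≤ (G.N S x \ W).card + 1) := by
  have hm := BG.cut_pos hc h
  have hdc := h.deg_cut
  have h2 : (hh (G.deg S x) : ℤ) - hh (G.deg W x) ≤ (G.N S x \ W).card + 1 := by
    rw [← hdc]
    unfold hh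
    split_ifs <;> omega
  refine ⟨?_, fun _ => h2⟩
  by_cases hC : G.C6V W = ∅
  · rw [hC, card_empty]
    push_cast
    omega
  · rw [BG.C6V_eq_empty] at hC
    push Not at hC
    obtain ⟨K, hK⟩ := hC
    have hxK := BG.C6V_in hc h hK
    have hdx := (hK.2.2 x hxK).1
    have hcard : (G.C6V W).card ≤ 6 * ({x} : Finset V).card :=
      BG.C6V_card_le fun K' hK' => ⟨x, mem_singleton_self x, BG.C6V_in hc h hK'⟩
    rw [card_singleton] at hcard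
    have h3 : hh (G.deg S x) = (G.N S x \ W).card := by
      rw [hh_ge (by omega)]
      omega
    rw [h3, hdx, hh_two]
    push_cast
    omega

theorem BG.cut_r {S W : Finset V} {x : V} (hc : G.Conn S) (h : G.Cut S W x) :
    ∑ r ∈ G.N S x \ W, dl (G.deg S r) + 2 * ((G.C6V (S \ W)).card : ℤ) ≤ 11 * (G.N S x \ W).card ∧
      (G.C6V (S \ W) = ∅ → ∑ r ∈ G.N S x \ W, dl (G.deg S r) ≤ 2 * (G.N S x \ W).card) := by
  refine ⟨?_, fun _ => sum_dl_le_two⟩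
  have hcard : (G.C6V (S \ W)).card ≤ 6 * ((G.N S x \ W) ∩ G.C6V (S \ W)).card := by
    refine BG.C6V_card_le fun K hK => ?_
    obtain ⟨r, hr, hrK⟩ := BG.C6V_out hc h hK
    exact ⟨r, mem_inter.2 ⟨hr, BG.mem_C6V.2 ⟨K, hK, hrK⟩⟩, hrK⟩
  have hsplit : ∑ r ∈ G.N S x \ W, dl (G.deg S r) =
      ∑ r ∈ (G.N S x \ W) ∩ G.C6V (S \ W), dl (G.deg S r) +
        ∑ r ∈ (G.N S x \ W) \ G.C6V (S \ W), dl (G.deg S r) := by
    rw [← sum_inter_add_sum_sdiff (G.N S x \ W) (G.C6V (S \ W))]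
  have h1 : ∑ r ∈ (G.N S x \ W) ∩ G.C6V (S \ W), dl (G.deg S r) =
      -(((G.N S x \ W) ∩ G.C6V (S \ W)).card : ℤ) := by
    have h2 : ∑ r ∈ (G.N S x \ W) ∩ G.C6V (S \ W), dl (G.deg S r) =
        ∑ _r ∈ (G.N S x \ W) ∩ G.C6V (S \ W), (-1 : ℤ) := by
      refine sum_congr rfl fun r hr => ?_
      obtain ⟨hr1, hr2⟩ := mem_inter.1 hr
      obtain ⟨K, hK, hrK⟩ := BG.mem_C6V.1 hr2
      obtain ⟨hrN, hrW⟩ := mem_sdiff.1 hr1
      have h3 := h.deg_out (BG.mem_N.1 hrN).1 hrW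
      rw [if_pos hrN, (hK.2.2 r hrK).1] at h3
      rw [← h3, dl_three]
    rw [h2, sum_const, nsmul_eq_mul]
    ring
  have h2 := sum_dl_le_two (G := G) (S := S) (s := (G.N S x \ W) \ G.C6V (S \ W))
  have h3 := card_inter_add_card_sdiff (G.N S x \ W) (G.C6V (S \ W))
  rw [hsplit, h1]
  have h4 : (((G.N S x \ W) ∩ G.C6V (S \ W)).card : ℤ) + (((G.N S x \ W) \ G.C6V (S \ W)).card : ℤ) =
      ((G.N S x \ W).card : ℤ) := by exact_mod_cast h3
  have h5 : ((G.C6V (S \ W)).card : ℤ) ≤ 6 * (((G.N S x \ W) ∩ G.C6V (S \ W)).card : ℤ) := by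
    exact_mod_cast hcard
  omega

end Pool.Agent.CFree
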