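import Pool.Agent.Lib_MP_6af485_co.Vals
import Pool.Agent.Lib_MP_6af485_kt.KFinal

/-!
# MP_6af485_co, `k = 3`: the bound is attained

Block diagonal matrices with `a` blocks equal to the Fano plane and `b` blocks equal to the hexagon.
-/

set_option autoImplicit false

namespace Pool.Agent.CFree

open Finset

/-- there is a `C₄`-free zero-one `n × n` matrix with `e` ones and permanent at least `p` -/
def Att (n e p : ℕ) : Prop :=
  ∃ A : Matrix (Fin n) (Fin n) ℕ, ZeroOne A ∧ C4Free A ∧ ones A = e ∧ p ≤ A.permanent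

/-- block diagonal matrix -/
def blk {m n : ℕ} (A : Matrix (Fin m) (Fin m) ℕ) (B : Matrix (Fin n) (Fin n) ℕ) :
    Matrix (Fin (m + n)) (Fin (m + n)) ℕ :=
  fun i j => Matrix.fromBlocks A 0 0 B (finSumFinEquiv.symm i) (finSumFinEquiv.symm j)

theorem blk_ll {m n : ℕ} (A : Matrix (Fin m) (Fin m) ℕ) (B : Matrix (Fin n) (Fin n) ℕ) (i j : Fin m) :
    blk A B (Fin.castAdd n i) (Fin.castAdd n j) = A i j := by
  simp [blk]

theorem blk_lr {m n : ℕ} (A : Matrix (Fin m) (Fin m) ℕ) (B : Matrix (Fin n) (Fin n) ℕ) (i : Fin m)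
    (j : Fin n) : blk A B (Fin.castAdd n i) (Fin.natAdd m j) = 0 := by
  simp [blk]

theorem blk_rl {m n : ℕ} (A : Matrix (Fin m) (Fin m) ℕ) (B : Matrix (Fin n) (Fin n) ℕ) (i : Fin n)
    (j : Fin m) : blk A B (Fin.natAdd m i) (Fin.castAdd n j) = 0 := by
  simp [blk]

theorem blk_rr {m n : ℕ} (A : Matrix (Fin m) (Fin m) ℕ) (B : Matrix (Fin n) (Fin n) ℕ) (i j : Fin n) :
    blk A B (Fin.natAdd m i) (Fin.natAdd m j) = B i j := by
  simp [blk]

theorem blk_zeroOne {m n : ℕ} {A : Matrix (Fin m) (Fin m) ℕ} {B : Matrix (Fin n) (Fin n) ℕ}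
    (hA : ZeroOne A) (hB : ZeroOne B) : ZeroOne (blk A B) := by
  intro i j
  refine Fin.addCases (fun i => ?_) (fun i => ?_) i <;> refine Fin.addCases (fun j => ?_) (fun j => ?_) j
  · rw [blk_ll]; exact hA i j
  · rw [blk_lr]; exact Or.inl rfl
  · rw [blk_rl]; exact Or.inl rfl
  · rw [blk_rr]; exact hB i j

theorem blk_one {m n : ℕ} {A : Matrix (Fin m) (Fin m) ℕ} {B : Matrix (Fin n) (Fin n) ℕ}
    {x y : Fin (m + n)} (h : blk A B x y = 1) :
    (∃ i j, x = Fin.castAdd n i ∧ y = Fin.castAdd n j ∧ A i j = 1) ∨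
      ∃ i j, x = Fin.natAdd m i ∧ y = Fin.natAdd m j ∧ B i j = 1 := by
  revert h
  refine Fin.addCases (fun i => ?_) (fun i => ?_) x <;> refine Fin.addCases (fun j => ?_) (fun j => ?_) y
  · intro h
    rw [blk_ll] at h
    exact Or.inl ⟨i, j, rfl, rfl, h⟩
  · intro h
    rw [blk_lr] at h
    exact absurd h (by norm_num)
  · intro h
    rw [blk_rl] at h
    exact absurd h (by norm_num)
  · intro h
    rw [blk_rr] at h
    exact Or.inr ⟨i, j, rfl, rfl, h⟩

theorem castAdd_ne_natAdd {m n : ℕ} (i : Fin m) (j : Fin n) : Fin.castAdd n i ≠ Fin.natAdd m j := by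
  intro h
  have h1 := congrArg Fin.val h
  simp only [Fin.val_castAdd, Fin.val_natAdd] at h1
  have := i.isLt
  omega

theorem blk_c4 {m n : ℕ} {A : Matrix (Fin m) (Fin m) ℕ} {B : Matrix (Fin n) (Fin n) ℕ}
    (hA : C4Free A) (hB : C4Free B) : C4Free (blk A B) := by
  rintro x x' y y' hx hy ⟨h1, h2, h3, h4⟩
  rcases blk_one h1 with ⟨i, j, rfl, rfl, a1⟩ | ⟨i, j, rfl, rfl, a1⟩
  · rcases blk_one h2 with ⟨i2, j2, e1, rfl, a2⟩ | ⟨i2, j2, e1, rfl, a2⟩
    · rcases blk_one h3 with ⟨i3, j3, rfl, e3, a3⟩ | ⟨i3, j3, rfl, e3, a3⟩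
      · rw [blk_ll] at h1 h2 h3 h4
        exact hA i i3 j j2 (fun e => hx (by rw [e])) (fun e => hy (by rw [e])) ⟨h1, h2, h3, h4⟩
      · exact castAdd_ne_natAdd _ _ e3
    · exact castAdd_ne_natAdd _ _ e1
  · rcases blk_one h2 with ⟨i2, j2, e1, rfl, a2⟩ | ⟨i2, j2, e1, rfl, a2⟩
    · exact castAdd_ne_natAdd _ _ e1.symm
    · rcases blk_one h3 with ⟨i3, j3, rfl, e3, a3⟩ | ⟨i3, j3, rfl, e3, a3⟩
      · exact castAdd_ne_natAdd _ _ e3.symm
      · rw [blk_rr] at h1 h2 h3 h4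
        exact hB i i3 j j2 (fun e => hx (by rw [e])) (fun e => hy (by rw [e])) ⟨h1, h2, h3, h4⟩

theorem blk_ones {m n : ℕ} (A : Matrix (Fin m) (Fin m) ℕ) (B : Matrix (Fin n) (Fin n) ℕ) :
    ones (blk A B) = ones A + ones B := by
  rw [ones_rows, ones_rows, ones_rows, Fin.sum_univ_add]
  congr 1
  · refine sum_congr rfl fun i _ => ?_
    rw [card_filter, card_filter, Fin.sum_univ_add]
    simp [blk_ll, blk_lr]
  · refine sum_congr rfl fun i _ => ?_
    rw [card_filter, card_filter, Fin.sum_univ_add]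
    simp [blk_rl, blk_rr]

/-- the permutation of the blocks -/
def blkPerm {m n : ℕ} (x : Equiv.Perm (Fin m) × Equiv.Perm (Fin n)) : Equiv.Perm (Fin (m + n)) :=
  finSumFinEquiv.permCongr (Equiv.sumCongr x.1 x.2)

theorem blkPerm_left {m n : ℕ} (x : Equiv.Perm (Fin m) × Equiv.Perm (Fin n)) (i : Fin m) :
    blkPerm x (Fin.castAdd n i) = Fin.castAdd n (x.1 i) := by
  simp [blkPerm, Equiv.permCongr_apply]

theorem blkPerm_right {m n : ℕ} (x : Equiv.Perm (Fin m) × Equiv.Perm (Fin n)) (i : Fin n) :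
    blkPerm x (Fin.natAdd m i) = Fin.natAdd m (x.2 i) := by
  simp [blkPerm, Equiv.permCongr_apply]

theorem blkPerm_inj {m n : ℕ} : Function.Injective (blkPerm (m := m) (n := n)) := by
  intro x y h
  refine Prod.ext (Equiv.ext fun i => ?_) (Equiv.ext fun i => ?_)
  · have h1 := Equiv.congr_fun h (Fin.castAdd n i)
    rw [blkPerm_left, blkPerm_left] at h1
    exact Fin.castAdd_injective _ _ h1
  · have h1 := Equiv.congr_fun h (Fin.natAdd m i)
    rw [blkPerm_right, blkPerm_right] at h1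
    exact Fin.natAdd_injective _ _ h1

theorem blk_perm {m n : ℕ} (A : Matrix (Fin m) (Fin m) ℕ) (B : Matrix (Fin n) (Fin n) ℕ) :
    A.permanent * B.permanent ≤ (blk A B).permanent := by
  have h1 : A.permanent * B.permanent =
      ∑ x : Equiv.Perm (Fin m) × Equiv.Perm (Fin n), ∏ i, blk A B (blkPerm x i) i := by
    unfold Matrix.permanent
    rw [sum_mul_sum, ← univ_product_univ, sum_product]
    refine sum_congr rfl fun σ _ => sum_congr rfl fun τ _ => ?_
    rw [Fin.prod_univ_add]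
    congr 1
    · refine prod_congr rfl fun i _ => ?_
      rw [blkPerm_left, blk_ll]
    · refine prod_congr rfl fun i _ => ?_
      rw [blkPerm_right, blk_rr]
  rw [h1]
  unfold Matrix.permanent
  have h2 : ∑ x : Equiv.Perm (Fin m) × Equiv.Perm (Fin n), ∏ i, blk A B (blkPerm x i) i =
      ∑ σ ∈ univ.image (blkPerm (m := m) (n := n)), ∏ i, blk A B (σ i) i := by
    rw [sum_image fun x _ y _ h => blkPerm_inj h]
  rw [h2]
  exact sum_le_sum_of_subset (subset_univ _)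

theorem Att.add {n e p n' e' p' : ℕ} (h : Att n e p) (h' : Att n' e' p') :
    Att (n + n') (e + e') (p * p') := by
  obtain ⟨A, a1, a2, a3, a4⟩ := h
  obtain ⟨B, b1, b2, b3, b4⟩ := h'
  refine ⟨blk A B, blk_zeroOne a1 b1, blk_c4 a2 b2, ?_, ?_⟩
  · rw [blk_ones, a3, b3]
  · exact (Nat.mul_le_mul a4 b4).trans (blk_perm A B)

theorem att_zero : Att 0 0 1 := by
  refine ⟨fun _ _ => 0, fun i => i.elim0, fun i => i.elim0, ?_, ?_⟩
  · simp [ones]
  · unfold Matrix.permanent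
    simp

theorem att_mul {n e p : ℕ} (h : Att n e p) (a : ℕ) : Att (n * a) (e * a) (p ^ a) := by
  induction a with
  | zero => simpa using att_zero
  | succ a ih =>
    have := ih.add h
    rwa [← pow_succ] at this

theorem att_fano : Att 7 21 24 := ⟨fano, fano_reg.1, fano_reg.2.2.2.1, ones_of_reg fano_reg, fano_perm⟩

theorem att_hex : Att 3 6 2 := ⟨hexM, hexM_reg.1, hexM_reg.2.2.2.1, ones_of_reg hexM_reg, hexM_perm⟩

/-- the exact maximum for `7 a + 3 b` rows and `21 a + 6 b` ones -/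
theorem sharp_kt (a b : ℕ) : ∃ A : Matrix (Fin (7 * a + 3 * b)) (Fin (7 * a + 3 * b)) ℕ, ZeroOne A ∧
    C4Free A ∧ ones A = 21 * a + 6 * b ∧ A.permanent = 24 ^ a * 2 ^ b ∧
    A.permanent ^ 21 = 27 ^ (ones A - 2 * (7 * a + 3 * b)) * 4 ^ ones A * 8 ^ (7 * a + 3 * b) := by
  obtain ⟨A, h01, h4, h1, h2⟩ := (att_mul att_fano a).add (att_mul att_hex b)
  have h3 := perm_kt A h01 h4 (by rw [h1]; omega)
  have e1 : ones A - 2 * (7 * a + 3 * b) = 7 * a := by rw [h1]; omega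
  have e2 : 27 ^ (7 * a) * 4 ^ (21 * a + 6 * b) * 8 ^ (7 * a + 3 * b) = (24 ^ a * 2 ^ b) ^ 21 := by
    have f1 : (27 : ℕ) ^ (7 * a) = 3 ^ (21 * a) := by
      rw [show (27 : ℕ) = 3 ^ 3 by norm_num, ← pow_mul]
      congr 1
      ring
    have f2 : (4 : ℕ) ^ (21 * a + 6 * b) = 2 ^ (42 * a + 12 * b) := by
      rw [show (4 : ℕ) = 2 ^ 2 by norm_num, ← pow_mul]
      congr 1
      ring
    have f3 : (8 : ℕ) ^ (7 * a + 3 * b) = 2 ^ (21 * a + 9 * b) := by
      rw [show (8 : ℕ) = 2 ^ 3 by norm_num, ← pow_mul]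
      congr 1
      ring
    have f4 : (24 : ℕ) ^ a = 2 ^ (3 * a) * 3 ^ a := by
      rw [show (24 : ℕ) = 2 ^ 3 * 3 by norm_num, mul_pow, ← pow_mul]
    rw [f1, f2, f3, f4]
    ring
  have h5 : A.permanent = 24 ^ a * 2 ^ b := by
    apply le_antisymm
    · rw [e1, h1, e2] at h3
      exact le_of_pow_le_pow_left₀ (by norm_num) (Nat.zero_le _) h3
    · exact h2
  refine ⟨A, h01, h4, h1, h5, ?_⟩
  rw [h5, e1, h1, e2]

end Pool.Agent.CFree
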