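import Pool.Agent.Lib_MP_6af485_kt.KIrr
import Pool.Agent.Lib_MP_6af485_kt.KTh

/-!
# MP_6af485_co, `k = 3`: removing a vertex of degree two and a neighbour from an irreducible graph, components

`S` irreducible, `N S v = {a, b}`, `deg a ≥ 3`, `R = {a, v}`.

`side_part`: `K` is a balanced part of `S \ R` without neighbours outside of `K ∪ R`, and two different vertices of `K`
are not both adjacent to `a`. By `Irr.attach'` two vertices `k1 ≠ k2` of `K` are adjacent to `a` or `v`; the neighbours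
of `v` in `K` are at most `b` (`a ∉ K`). So one of them is `b` (`b ∈ K`) and the other one is adjacent to `a`. Another
vertex `x ≠ v` adjacent to `a` (there are at least two of them as `deg a ≥ 3`) is not in `K`, and `x ∉ R` (`x ≠ a`), so
`S \ (K ∪ R)` is nonempty. `R` is balanced (`bal_two`). By `Irr.inner'` both `a` and `v` have a neighbour in
`S \ (K ∪ R)`, but the neighbours of `v` are `a` and `b`: contradiction.

`side_C6`: `C6V_eq_empty`, `side_part` with `IsC6.bal`, `IsC6.outside`.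
`side_Th`: `ThV_eq_empty`, `side_part` for `insert u1 (insert u2 K)` with `IsTh.closed`, `IsTh.bal`, `IsTh.outside`.
-/

set_option autoImplicit false

namespace Pool.Agent.CFree

open Finset

variable {V : Type} [Fintype V] [DecidableEq V] {G : BG V}

theorem BG.side_part {S K : Finset V} {v a b : V} (hI : G.Irr S) (hv : v ∈ S) (hab : a ≠ b)
    (hN : G.N S v = {a, b}) (ha : 3 ≤ G.deg S a) (hK : K ⊆ S \ {a, v}) (hKn : K.Nonempty) (hKb : G.bal K)
    (hcl : ∀ w ∈ K, G.N (S \ {a, v}) w ⊆ K)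
    (hout : ∀ k1 ∈ K, ∀ k2 ∈ K, k1 ≠ k2 → ¬ (G.adj k1 a ∧ G.adj k2 a)) : False := by
  obtain ⟨haS, hva⟩ := BG.mem_N.1 (show a ∈ G.N S v by rw [hN]; simp)
  obtain ⟨hbS, hvb⟩ := BG.mem_N.1 (show b ∈ G.N S v by rw [hN]; simp)
  have hR : ({a, v} : Finset V) ⊆ S := by
    intro x hx
    rw [mem_insert, mem_singleton] at hx
    rcases hx with rfl | rfl
    · exact haS
    · exact hv
  have hRb : G.bal ({a, v} : Finset V) := BG.bal_two (G.symm _ _ hva)
  -- a vertex of `K` adjacent to `v` is `b`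
  have hvK : ∀ k ∈ K, G.adj k v → k = b := by
    intro k hk hkv
    have h1 : k ∈ G.N S v := BG.mem_N.2 ⟨(mem_sdiff.1 (hK hk)).1, G.symm _ _ hkv⟩
    rw [hN, mem_insert, mem_singleton] at h1
    rcases h1 with rfl | h1
    · exact absurd (mem_insert_self _ _) (mem_sdiff.1 (hK hk)).2
    · exact h1
  obtain ⟨k1, h1, k2, h2, hne, ⟨r1, hr1, ha1⟩, r2, hr2, ha2⟩ :=
    hI.attach' hR (insert_nonempty _ _) hK hKn hKb hcl
  rw [mem_insert, mem_singleton] at hr1 hr2
  have hbK : b ∈ K := by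
    rcases hr1 with rfl | rfl
    · rcases hr2 with rfl | rfl
      · exact absurd ⟨ha1, ha2⟩ (hout k1 h1 k2 h2 hne)
      · rw [← hvK k2 h2 ha2]
        exact h2
    · rw [← hvK k1 h1 ha1]
      exact h1
  -- a neighbour of `a` outside of `K`
  have hx : ∃ x ∈ G.N S a, x ≠ v ∧ x ∉ K := by
    by_contra hcon
    push Not at hcon
    have hle : (G.N S a).erase v ⊆ K.filter fun k => G.adj k a := by
      intro x hx
      obtain ⟨hxv, hxN⟩ := mem_erase.1 hx
      exact mem_filter.2 ⟨hcon x hxN hxv, G.symm _ _ (BG.mem_N.1 hxN).2⟩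
    have h3 : (K.filter fun k => G.adj k a).card ≤ 1 := by
      rw [card_le_one]
      intro x hx y hy
      by_contra hxy
      exact hout x (mem_filter.1 hx).1 y (mem_filter.1 hy).1 hxy ⟨(mem_filter.1 hx).2, (mem_filter.1 hy).2⟩
    have h4 := card_le_card hle
    have h5 := card_erase_add_one (show v ∈ G.N S a from BG.mem_N.2 ⟨hv, G.symm _ _ hva⟩)
    unfold BG.deg at ha
    omega
  obtain ⟨x, hxN, hxv, hxK⟩ := hx
  obtain ⟨hxS, hax⟩ := BG.mem_N.1 hxN
  have hU : (S \ (K ∪ {a, v})).Nonempty := by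
    refine ⟨x, mem_sdiff.2 ⟨hxS, ?_⟩⟩
    rw [mem_union, mem_insert, mem_singleton]
    rintro (h | h | h)
    · exact hxK h
    · exact (BG.ne_of_adj hax) h.symm
    · exact hxv h
  obtain ⟨s1, hs1, s2, hs2, hs12, ⟨w1, hw1, hsw1⟩, w2, hw2, hsw2⟩ :=
    hI.inner' hR (insert_nonempty _ _) hRb hK hKb hcl hU
  -- `v` has no neighbour outside
  have hvout : ∀ w ∈ S \ (K ∪ {a, v}), ¬ G.adj v w := by
    intro w hw hvw
    obtain ⟨hwS, hwn⟩ := mem_sdiff.1 hw
    have h3 : w ∈ G.N S v := BG.mem_N.2 ⟨hwS, hvw⟩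
    rw [hN, mem_insert, mem_singleton] at h3
    rcases h3 with rfl | rfl
    · exact hwn (mem_union_right _ (mem_insert_self _ _))
    · exact hwn (mem_union_left _ hbK)
  rw [mem_insert, mem_singleton] at hs1 hs2
  rcases hs1 with rfl | rfl
  · rcases hs2 with rfl | rfl
    · exact hs12 rfl
    · exact hvout w2 hw2 hsw2
  · exact hvout w1 hw1 hsw1

theorem BG.side_C6 {S : Finset V} {v a b : V} (hI : G.Irr S) (hv : v ∈ S) (hab : a ≠ b)
    (hN : G.N S v = {a, b}) (ha : 3 ≤ G.deg S a) : G.C6V (S \ {a, v}) = ∅ := by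
  rw [BG.C6V_eq_empty]
  intro K hK
  refine BG.side_part hI hv hab hN ha hK.1 hK.nonempty hK.bal (fun w hw => (hK.2.2 w hw).2) ?_
  intro k1 h1 k2 h2 hne
  refine hK.outside h1 h2 hne fun h => ?_
  exact (mem_sdiff.1 (hK.1 h)).2 (mem_insert_self _ _)

theorem BG.side_Th {S : Finset V} {v a b : V} (hI : G.Irr S) (hv : v ∈ S) (hab : a ≠ b)
    (hN : G.N S v = {a, b}) (ha : 3 ≤ G.deg S a) : G.ThV (S \ {a, v}) = ∅ := by
  rw [BG.ThV_eq_empty]
  intro u1 u2 K hK
  have hsub : insert u1 (insert u2 K) ⊆ S \ {a, v} := by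
    intro x hx
    rw [mem_insert, mem_insert] at hx
    rcases hx with rfl | rfl | hx
    · exact hK.1
    · exact hK.2.1
    · exact (mem_sdiff.1 (hK.2.2.2.2.2.1.1 hx)).1
  refine BG.side_part hI hv hab hN ha hsub (insert_nonempty _ _) hK.bal hK.closed ?_
  intro k1 h1 k2 h2 hne
  refine hK.outside h1 h2 hne fun h => ?_
  exact (mem_sdiff.1 (hsub h)).2 (mem_insert_self _ _)

end Pool.Agent.CFree
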