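import Pool.Agent.Lib_MP_6af485_kt.KPhi

/-!
# MP_6af485_co, `k = 3`: removing a vertex of degree two and a neighbour, degrees

`N S v = {a, b}`, `T = S \ {a, v}`; `x` is a neighbour of `a`, `x ≠ v`; `y` is a neighbour of `b`, `y ≠ v`.

`x` and `y` have the colour of `v`, so they are not adjacent to `v`; `x` is adjacent to `a`; `y` is not adjacent to `a`
(otherwise `v` and `y` have the common neighbours `a, b`, `G.c4`); `x` is not adjacent to `b` in the same way.
A vertex `z ≠ a, b` is not adjacent to `v`.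
`side_z`: `N S y = {b, z}`: `z` has the colour of `b` and `a`, so it is not adjacent to `a`; `z ≠ a` as `y` is not
adjacent to `a`; so `z` is not adjacent to `v`.
-/

set_option autoImplicit false

namespace Pool.Agent.CFree

open Finset

variable {V : Type} [Fintype V] [DecidableEq V] {G : BG V}

theorem BG.side_phi {S : Finset V} {v a b : V} (hv : v ∈ S) (hab : a ≠ b) (hN : G.N S v = {a, b}) :
    (G.phi S : ℤ) = (G.phi (S \ {a, v}) : ℤ) + 2 + hh (G.deg S a) + dl (G.deg S b) +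
      ∑ x ∈ (G.N S a).erase v, dl (G.deg S x) := by
  have ha : a ∈ G.N S v := by rw [hN]; simp
  have hd : G.deg S v = 2 := by unfold BG.deg; rw [hN, card_pair hab]
  rw [BG.phi_pair hv ha, hd, hh_two]
  have h1 : (G.N S v).erase a = {b} := by
    rw [hN]
    ext x
    simp only [mem_erase, mem_insert, mem_singleton]
    constructor
    · rintro ⟨h1, h2 | h2⟩
      · exact absurd h2 h1
      · exact h2
    · rintro rfl
      exact ⟨hab.symm, Or.inr rfl⟩
  rw [h1, sum_singleton]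
  push_cast
  ring

/-- the neighbour `b` loses `v` -/
theorem BG.side_b {S : Finset V} {v a b : V} (hv : v ∈ S) (hab : a ≠ b) (hN : G.N S v = {a, b}) :
    b ∈ S \ {a, v} ∧ G.N (S \ {a, v}) b = (G.N S b).erase v ∧ G.deg (S \ {a, v}) b + 1 = G.deg S b := by
  obtain ⟨haS, hva⟩ := BG.mem_N.1 (show a ∈ G.N S v by rw [hN]; simp)
  obtain ⟨hbS, hvb⟩ := BG.mem_N.1 (show b ∈ G.N S v by rw [hN]; simp)
  have hN' : G.N (S \ {a, v}) b = (G.N S b).erase v := by
    rw [BG.N_sdiff]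
    ext x
    rw [mem_sdiff, mem_erase, mem_insert, mem_singleton]
    constructor
    · rintro ⟨h1, h2⟩
      exact ⟨fun h => h2 (Or.inr h), h1⟩
    · rintro ⟨h1, h2⟩
      refine ⟨h2, ?_⟩
      rintro (rfl | h)
      · exact BG.nadj_common hvb hva (BG.mem_N.1 h2).2
      · exact h1 h
  refine ⟨?_, hN', ?_⟩
  · rw [mem_sdiff, mem_insert, mem_singleton]
    refine ⟨hbS, ?_⟩
    rintro (h | h)
    · exact hab h.symm
    · exact BG.ne_of_adj hvb h.symm
  · unfold BG.deg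
    rw [hN']
    exact card_erase_add_one (BG.mem_N.2 ⟨hv, G.symm _ _ hvb⟩)

/-- the neighbours of `a` lose `a` -/
theorem BG.side_x {S : Finset V} {v a b x : V} (hv : v ∈ S) (hab : a ≠ b) (hN : G.N S v = {a, b})
    (hx : x ∈ (G.N S a).erase v) :
    x ∈ S \ {a, v} ∧ G.N (S \ {a, v}) x = (G.N S x).erase a ∧ G.deg (S \ {a, v}) x + 1 = G.deg S x := by
  obtain ⟨haS, hva⟩ := BG.mem_N.1 (show a ∈ G.N S v by rw [hN]; simp)
  obtain ⟨hxv, hxN⟩ := mem_erase.1 hx
  obtain ⟨hxS, hax⟩ := BG.mem_N.1 hxN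
  have hN' : G.N (S \ {a, v}) x = (G.N S x).erase a := by
    rw [BG.N_sdiff]
    ext w
    rw [mem_sdiff, mem_erase, mem_insert, mem_singleton]
    constructor
    · rintro ⟨h1, h2⟩
      exact ⟨fun h => h2 (Or.inl h), h1⟩
    · rintro ⟨h1, h2⟩
      refine ⟨h2, ?_⟩
      rintro (h | rfl)
      · exact h1 h
      · exact BG.nadj_common hax (G.symm _ _ hva) (BG.mem_N.1 h2).2
  refine ⟨?_, hN', ?_⟩
  · rw [mem_sdiff, mem_insert, mem_singleton]
    refine ⟨hxS, ?_⟩
    rintro (h | h)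
    · exact BG.ne_of_adj hax h.symm
    · exact hxv h
  · unfold BG.deg
    rw [hN']
    exact card_erase_add_one (BG.mem_N.2 ⟨haS, G.symm _ _ hax⟩)

/-- nothing changes for a vertex which is not adjacent to `a` -/
theorem BG.side_w {S : Finset V} {v a b w : V} (hN : G.N S v = {a, b}) (hw : w ∈ S) (hwb : w ≠ b)
    (hwa : w ≠ a) (hn : ¬ G.adj w a) :
    G.N (S \ {a, v}) w = G.N S w ∧ G.deg (S \ {a, v}) w = G.deg S w := by
  have hwv : ¬ G.adj w v := by
    intro h
    have h1 : w ∈ G.N S v := BG.mem_N.2 ⟨hw, G.symm _ _ h⟩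
    rw [hN, mem_insert, mem_singleton] at h1
    rcases h1 with h1 | h1
    · exact hwa h1
    · exact hwb h1
  have hN' : G.N (S \ {a, v}) w = G.N S w := by
    rw [BG.N_sdiff, sdiff_eq_self_of_disjoint]
    rw [disjoint_left]
    intro x hx hr
    rw [mem_insert, mem_singleton] at hr
    rcases hr with rfl | rfl
    · exact hn (BG.mem_N.1 hx).2
    · exact hwv (BG.mem_N.1 hx).2
  refine ⟨hN', ?_⟩
  unfold BG.deg
  rw [hN']

/-- nothing changes for the neighbours of `b` -/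
theorem BG.side_y {S : Finset V} {v a b y : V} (hv : v ∈ S) (hab : a ≠ b) (hN : G.N S v = {a, b})
    (hy : y ∈ (G.N S b).erase v) :
    y ∈ S \ {a, v} ∧ ¬ G.adj y a ∧ G.N (S \ {a, v}) y = G.N S y ∧ G.deg (S \ {a, v}) y = G.deg S y := by
  obtain ⟨haS, hva⟩ := BG.mem_N.1 (show a ∈ G.N S v by rw [hN]; simp)
  obtain ⟨hbS, hvb⟩ := BG.mem_N.1 (show b ∈ G.N S v by rw [hN]; simp)
  obtain ⟨hyv, hyN⟩ := mem_erase.1 hy
  obtain ⟨hyS, hby⟩ := BG.mem_N.1 hyN
  have hya : ¬ G.adj y a := fun h => hab (G.c4 y v a b hyv h hva (G.symm _ _ hby) hvb)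
  have hyb : y ≠ b := (BG.ne_of_adj hby).symm
  have hya' : y ≠ a := by
    rintro rfl
    exact BG.nadj_common hvb hva hby
  refine ⟨?_, hya, BG.side_w hN hyS hyb hya' hya⟩
  rw [mem_sdiff, mem_insert, mem_singleton]
  refine ⟨hyS, ?_⟩
  rintro (h | h)
  · exact hya' h
  · exact hyv h

/-- the other neighbour of a neighbour of degree two of `b` -/
theorem BG.side_z {S : Finset V} {v a b y z : V} (hv : v ∈ S) (hab : a ≠ b) (hN : G.N S v = {a, b})
    (hy : y ∈ (G.N S b).erase v) (hNy : G.N S y = {b, z}) (hz : z ≠ b) :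
    z ∈ S \ {a, v} ∧ z ≠ a ∧ z ≠ v ∧ ¬ G.adj z a ∧ ¬ G.adj z v ∧ G.N (S \ {a, v}) z = G.N S z ∧
      G.deg (S \ {a, v}) z = G.deg S z := by
  obtain ⟨haS, hva⟩ := BG.mem_N.1 (show a ∈ G.N S v by rw [hN]; simp)
  obtain ⟨hbS, hvb⟩ := BG.mem_N.1 (show b ∈ G.N S v by rw [hN]; simp)
  obtain ⟨hyT, hya, -, -⟩ := BG.side_y hv hab hN hy
  obtain ⟨hyv, hyN⟩ := mem_erase.1 hy
  obtain ⟨hyS, hby⟩ := BG.mem_N.1 hyN
  obtain ⟨hzS, hyz⟩ := BG.mem_N.1 (show z ∈ G.N S y by rw [hNy]; simp)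
  have hza : z ≠ a := by
    rintro rfl
    exact hya hyz
  have hcz : G.col z = G.col a := (BG.col_common hyz (G.symm _ _ hby)).trans (BG.col_common hvb hva)
  have hza' : ¬ G.adj z a := BG.nadj_col hcz
  have hzv : ¬ G.adj z v := by
    intro h
    have h1 : z ∈ G.N S v := BG.mem_N.2 ⟨hzS, G.symm _ _ h⟩
    rw [hN, mem_insert, mem_singleton] at h1
    rcases h1 with h1 | h1
    · exact hza h1
    · exact hz h1
  have hzv' : z ≠ v := by
    rintro rfl
    exact G.bip _ _ hva hcz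
  obtain ⟨h1, h2⟩ := BG.side_w hN hzS hz hza hza'
  refine ⟨?_, hza, hzv', hza', hzv, h1, h2⟩
  rw [mem_sdiff, mem_insert, mem_singleton]
  refine ⟨hzS, ?_⟩
  rintro (h | h)
  · exact hza h
  · exact hzv' h

end Pool.Agent.CFree
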