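import Pool.Agent.Lib_MP_6af485_kt.KSideA
import Pool.Agent.Lib_MP_6af485_kt.KSideB

/-!
# MP_6af485_co, `k = 3`: removing a vertex of degree two and a neighbour, bounds for the smaller graph

`T = S \ {a, v}`; `IH` applies to `T`.

`side_dirty`: `x` has the neighbours `a` and `z` in `S` (`nbr2`), so `N T x = {z}`; `z` has the colour of `a`, and
`z ≠ b` (`x` is not adjacent to `b`), so `deg T z = deg S z ≥ 2` (`side_w`): `PP.L`.
`side_EE`: `deg T b = 2`, `C6V T = ∅`, `ThV T = ∅` (`side_C6`, `side_Th`): `PP.N`.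
`side_EE'`: the same for `x`.
`side_D`: `deg T b = 3`, `y ∈ N T b`, `deg T y = deg S y`: `PP.D`.
`side_S`: `N T b = (N S b).erase v = {y1, y2}` (`card_eq_two`), the degrees of `y1, y2` do not change: `PP.B`,
`PP.B34` (the order of `y1, y2` such that `deg y2 ≥ 4`), `PP.B44`.
`side_B`: `N T y = N S y = {b, z}`, `deg T b = 3`, `deg T z = deg S z`: `PP.B`.
-/

set_option autoImplicit false

namespace Pool.Agent.CFree

open Finset

variable {V : Type} [Fintype V] [DecidableEq V] {G : BG V}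

/-- `S \ {a, v}` is smaller -/
theorem BG.side_lt {S : Finset V} {v a : V} (hv : v ∈ S) : (S \ {a, v}).card < S.card :=
  card_sdiff_lt hv (by simp)

theorem BG.side_dirty {S : Finset V} {v a b x : V} (IH : ∀ T : Finset V, T.card < S.card → G.PP T)
    (hmin : ∀ w ∈ S, 2 ≤ G.deg S w) (hv : v ∈ S) (hab : a ≠ b) (hN : G.N S v = {a, b})
    (hx : x ∈ (G.N S a).erase v) (hdx : G.deg S x = 2) : G.Gh (S \ {a, v}) ≤ lam := by
  obtain ⟨haS, hva⟩ := BG.mem_N.1 (show a ∈ G.N S v by rw [hN]; simp)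
  obtain ⟨hbS, hvb⟩ := BG.mem_N.1 (show b ∈ G.N S v by rw [hN]; simp)
  obtain ⟨hxT, hNx, -⟩ := BG.side_x hv hab hN hx
  obtain ⟨hxv, hxN⟩ := mem_erase.1 hx
  obtain ⟨hxS, hax⟩ := BG.mem_N.1 hxN
  obtain ⟨z, hza, hNxS⟩ := BG.nbr2 hdx (BG.mem_N.2 ⟨haS, G.symm _ _ hax⟩)
  obtain ⟨hzS, hxz⟩ := BG.mem_N.1 (show z ∈ G.N S x by rw [hNxS]; simp)
  have hzb : z ≠ b := by
    rintro rfl
    exact hab (G.c4 x v a z hxv (G.symm _ _ hax) hva hxz hvb)
  have hza' : ¬ G.adj z a := BG.nadj_common hxz (G.symm _ _ hax)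
  have hN' : G.N (S \ {a, v}) x = {z} := by
    rw [hNx, hNxS]
    ext w
    simp only [mem_erase, mem_insert, mem_singleton]
    constructor
    · rintro ⟨h1, h2 | h2⟩
      · exact absurd h2 h1
      · exact h2
    · rintro rfl
      exact ⟨hza, Or.inr rfl⟩
  refine (IH _ (BG.side_lt hv)).L x z hxT hN' ?_
  rw [(BG.side_w hN hzS hzb hza hza').2]
  exact hmin z hzS

theorem BG.side_EE {S : Finset V} {v a b : V} (IH : ∀ T : Finset V, T.card < S.card → G.PP T)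
    (hI : G.Irr S) (hv : v ∈ S) (hab : a ≠ b) (hN : G.N S v = {a, b}) (ha : 3 ≤ G.deg S a)
    (hb : G.deg S b = 3) : G.Gh (S \ {a, v}) ≤ EE := by
  obtain ⟨hbT, -, hd⟩ := BG.side_b hv hab hN
  refine (IH _ (BG.side_lt hv)).N b hbT (by omega) ?_ ?_
  · rw [BG.side_C6 hI hv hab hN ha]
    exact notMem_empty _
  · rw [BG.side_Th hI hv hab hN ha]
    exact notMem_empty _

theorem BG.side_EE' {S : Finset V} {v a b x : V} (IH : ∀ T : Finset V, T.card < S.card → G.PP T)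
    (hI : G.Irr S) (hv : v ∈ S) (hab : a ≠ b) (hN : G.N S v = {a, b}) (ha : 3 ≤ G.deg S a)
    (hx : x ∈ (G.N S a).erase v) (hdx : G.deg S x = 3) : G.Gh (S \ {a, v}) ≤ EE := by
  obtain ⟨hxT, -, hd⟩ := BG.side_x hv hab hN hx
  refine (IH _ (BG.side_lt hv)).N x hxT (by omega) ?_ ?_
  · rw [BG.side_C6 hI hv hab hN ha]
    exact notMem_empty _
  · rw [BG.side_Th hI hv hab hN ha]
    exact notMem_empty _

/-- a vertex `y` of degree two adjacent to `b` stays -/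
theorem BG.side_EEy {S : Finset V} {v a b y : V} (IH : ∀ T : Finset V, T.card < S.card → G.PP T)
    (hI : G.Irr S) (hv : v ∈ S) (hab : a ≠ b) (hN : G.N S v = {a, b}) (ha : 3 ≤ G.deg S a)
    (hy : y ∈ (G.N S b).erase v) (hdy : G.deg S y = 2) : G.Gh (S \ {a, v}) ≤ EE := by
  obtain ⟨hyT, -, -, hd⟩ := BG.side_y hv hab hN hy
  refine (IH _ (BG.side_lt hv)).N y hyT (by omega) ?_ ?_
  · rw [BG.side_C6 hI hv hab hN ha]
    exact notMem_empty _
  · rw [BG.side_Th hI hv hab hN ha]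
    exact notMem_empty _

theorem BG.side_D {S : Finset V} {v a b y : V} (IH : ∀ T : Finset V, T.card < S.card → G.PP T)
    (hv : v ∈ S) (hab : a ≠ b) (hN : G.N S v = {a, b}) (hb : G.deg S b = 4)
    (hy : y ∈ (G.N S b).erase v) (hdy : 4 ≤ G.deg S y) : G.Gh (S \ {a, v}) ≤ EE := by
  obtain ⟨hbT, hNb, hd⟩ := BG.side_b hv hab hN
  obtain ⟨-, -, -, hd'⟩ := BG.side_y hv hab hN hy
  exact (IH _ (BG.side_lt hv)).D b y hbT (by rw [hNb]; exact hy) (by omega) (by omega)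

/-- the two other neighbours of `b` -/
theorem BG.side_two {S : Finset V} {v a b : V} (hv : v ∈ S) (hab : a ≠ b) (hN : G.N S v = {a, b})
    (hb : G.deg S b = 3) : ∃ y1 y2, y1 ≠ y2 ∧ (G.N S b).erase v = {y1, y2} ∧
      G.N (S \ {a, v}) b = {y1, y2} ∧ b ∈ S \ {a, v} ∧ G.deg (S \ {a, v}) y1 = G.deg S y1 ∧
      G.deg (S \ {a, v}) y2 = G.deg S y2 := by
  obtain ⟨hbT, hNb, hd⟩ := BG.side_b hv hab hN
  have hc : ((G.N S b).erase v).card = 2 := by
    rw [← hNb]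
    unfold BG.deg at hd hb
    omega
  obtain ⟨y1, y2, h12, he⟩ := card_eq_two.1 hc
  refine ⟨y1, y2, h12, he, by rw [hNb, he], hbT, ?_, ?_⟩
  · exact (BG.side_y hv hab hN (by rw [he]; simp)).2.2.2
  · exact (BG.side_y hv hab hN (by rw [he]; simp)).2.2.2

theorem BG.side_S {S : Finset V} {v a b : V} (IH : ∀ T : Finset V, T.card < S.card → G.PP T)
    (hv : v ∈ S) (hab : a ≠ b) (hN : G.N S v = {a, b}) (hb : G.deg S b = 3)
    (hcl : ∀ y ∈ (G.N S b).erase v, 3 ≤ G.deg S y) : G.Gh (S \ {a, v}) ≤ bet := by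
  obtain ⟨y1, y2, h12, he, hNb, hbT, d1, d2⟩ := BG.side_two hv hab hN hb
  refine (IH _ (BG.side_lt hv)).B b y1 y2 hbT h12 hNb ?_ ?_
  · rw [d1]
    exact hcl y1 (by rw [he]; simp)
  · rw [d2]
    exact hcl y2 (by rw [he]; simp)

theorem BG.side_S34 {S : Finset V} {v a b y : V} (IH : ∀ T : Finset V, T.card < S.card → G.PP T)
    (hv : v ∈ S) (hab : a ≠ b) (hN : G.N S v = {a, b}) (hb : G.deg S b = 3)
    (hcl : ∀ y ∈ (G.N S b).erase v, 3 ≤ G.deg S y) (hy : y ∈ (G.N S b).erase v)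
    (hdy : 4 ≤ G.deg S y) : G.Gh (S \ {a, v}) ≤ b34 := by
  obtain ⟨y1, y2, h12, he, hNb, hbT, d1, d2⟩ := BG.side_two hv hab hN hb
  have c1 := hcl y1 (by rw [he]; simp)
  have c2 := hcl y2 (by rw [he]; simp)
  rw [he, mem_insert, mem_singleton] at hy
  rcases hy with rfl | rfl
  · exact (IH _ (BG.side_lt hv)).B34 b y2 y hbT h12.symm (by rw [hNb, pair_comm]) (by omega) (by omega)
  · exact (IH _ (BG.side_lt hv)).B34 b y1 y hbT h12 hNb (by omega) (by omega)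

theorem BG.side_S44 {S : Finset V} {v a b : V} (IH : ∀ T : Finset V, T.card < S.card → G.PP T)
    (hv : v ∈ S) (hab : a ≠ b) (hN : G.N S v = {a, b}) (hb : G.deg S b = 3)
    (hcl : ∀ y ∈ (G.N S b).erase v, 4 ≤ G.deg S y) : G.Gh (S \ {a, v}) ≤ b44 := by
  obtain ⟨y1, y2, h12, he, hNb, hbT, d1, d2⟩ := BG.side_two hv hab hN hb
  refine (IH _ (BG.side_lt hv)).B44 b y1 y2 hbT h12 hNb ?_ ?_
  · rw [d1]
    exact hcl y1 (by rw [he]; simp)
  · rw [d2]
    exact hcl y2 (by rw [he]; simp)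

theorem BG.side_B {S : Finset V} {v a b y z : V} (IH : ∀ T : Finset V, T.card < S.card → G.PP T)
    (hv : v ∈ S) (hab : a ≠ b) (hN : G.N S v = {a, b}) (hb : 4 ≤ G.deg S b)
    (hy : y ∈ (G.N S b).erase v) (hNy : G.N S y = {b, z}) (hz : z ≠ b) (hdz : 3 ≤ G.deg S z) :
    G.Gh (S \ {a, v}) ≤ bet := by
  obtain ⟨-, -, hd⟩ := BG.side_b hv hab hN
  obtain ⟨hyT, -, hNy', -⟩ := BG.side_y hv hab hN hy
  obtain ⟨-, -, -, -, -, -, hdz'⟩ := BG.side_z hv hab hN hy hNy hz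
  exact (IH _ (BG.side_lt hv)).B y b z hyT hz.symm (by rw [hNy', hNy]) (by omega) (by omega)

end Pool.Agent.CFree
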