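import Pool.Agent.Lib_MP_6af485_kt.KSideD

/-!
# MP_6af485_co, `k = 3`: a vertex of degree two, one neighbour of large degree

`T1`: `two_Q`, `side_big` with `n = 4` for both terms (for the second one with the roles of `a` and `b` exchanged,
`N S v = {b, a}`), `num_T1d`, `num_T1`.
`T2`: first term: `yy ^ 3 = 1 / 2`, `side_use` with `side_dirty` and `k = 8` (`3 + 1 + 2 * 2`); second term: `side_big3` with
`n = 4` (roles exchanged), `num_T2`, `num_T2d`.
`T3`: first term: `side_use` with `B = 1` (`PP.A`) and `k = 6` (`3 + 1 + 2`); second term: `side_big3` with `n = 5`,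
`num_T3`, `num_T3d`.
-/

set_option autoImplicit false

namespace Pool.Agent.CFree

open Finset

variable {V : Type} [Fintype V] [DecidableEq V] {G : BG V}

theorem BG.T1 {S : Finset V} {v a b : V} (IH : ∀ T : Finset V, T.card < S.card → G.PP T)
    (hI : G.Irr S) (hmin : ∀ w ∈ S, 2 ≤ G.deg S w) (hv : v ∈ S) (hab : a ≠ b) (hN : G.N S v = {a, b})
    (ha : 4 ≤ G.deg S a) (hb : 4 ≤ G.deg S b) : G.F S * QQ ^ G.phi S ≤ b44 := by
  have hN' : G.N S v = {b, a} := by rw [hN, pair_comm]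
  have h1 := BG.side_big (n := 4) IH hI hmin hv hab hN (by norm_num) ha (by omega)
  have h2 := BG.side_big (n := 4) IH hI hmin hv hab.symm hN' (by norm_num) hb (by omega)
  have h1' : yy ^ G.deg S a * (G.F (S \ {a, v}) * QQ ^ G.phi S) ≤ yy ^ 4 * QQ ^ 8 := by
    rcases h1 with h | h
    · exact h
    · exact h.trans num_T1d
  have h2' : yy ^ G.deg S b * (G.F (S \ {b, v}) * QQ ^ G.phi S) ≤ yy ^ 4 * QQ ^ 8 := by
    rcases h2 with h | h
    · exact h
    · exact h.trans num_T1d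
  rw [BG.two_Q hv hab hN, ← num_T1]
  exact add_le_add h1' h2'

theorem BG.T2 {S : Finset V} {v a b x : V} (IH : ∀ T : Finset V, T.card < S.card → G.PP T)
    (hI : G.Irr S) (hmin : ∀ w ∈ S, 2 ≤ G.deg S w) (hv : v ∈ S) (hab : a ≠ b) (hN : G.N S v = {a, b})
    (ha : G.deg S a = 3) (hb : 4 ≤ G.deg S b) (hx : x ∈ (G.N S a).erase v) (hdx : G.deg S x = 2) :
    G.F S * QQ ^ G.phi S ≤ b34 := by
  have hN' : G.N S v = {b, a} := by rw [hN, pair_comm]
  have hc := BG.side_card hv hN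
  have h1 : G.F (S \ {a, v}) * QQ ^ G.phi S ≤ lam * QQ ^ 8 := by
    refine BG.side_use hI hv hab hN ha.ge (BG.side_dirty IH hmin hv hab hN hx hdx) ?_
    have h2 := sum_dl_le_two (G := G) (S := S) (s := (G.N S a).erase v)
    rw [dl_ge hb]
    push_cast
    omega
  have h2 := BG.side_big3 (n := 4) IH hI hmin hv hab.symm hN' (by norm_num) hb ha
  rw [BG.two_Q hv hab hN, ha, yy_cube]
  have e1 : (2 * 4 - 2 : ℕ) = 6 := rfl
  have e2 : (3 * 4 - 3 : ℕ) = 9 := rfl
  rw [e1, e2] at h2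
  rcases h2 with h | h
  · linarith [num_T2]
  · linarith [num_T2d]

theorem BG.T3 {S : Finset V} {v a b : V} (IH : ∀ T : Finset V, T.card < S.card → G.PP T)
    (hI : G.Irr S) (hmin : ∀ w ∈ S, 2 ≤ G.deg S w) (hv : v ∈ S) (hab : a ≠ b) (hN : G.N S v = {a, b})
    (ha : G.deg S a = 3) (hb : 5 ≤ G.deg S b) (hcl : ∀ x ∈ (G.N S a).erase v, 3 ≤ G.deg S x) :
    G.F S * QQ ^ G.phi S ≤ b34 := by
  have hN' : G.N S v = {b, a} := by rw [hN, pair_comm]
  have hc := BG.side_card hv hN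
  have h1 : G.F (S \ {a, v}) * QQ ^ G.phi S ≤ 1 * QQ ^ 6 := by
    refine BG.side_use hI hv hab hN ha.ge (IH _ (BG.side_lt hv)).A ?_
    have h2 := sum_dl_le_one hcl
    rw [dl_ge (by omega : 4 ≤ G.deg S b)]
    push_cast
    omega
  have h2 := BG.side_big3 (n := 5) IH hI hmin hv hab.symm hN' (by norm_num) hb ha
  rw [BG.two_Q hv hab hN, ha, yy_cube]
  have e1 : (2 * 5 - 2 : ℕ) = 8 := rfl
  have e2 : (3 * 5 - 3 : ℕ) = 12 := rfl
  rw [e1, e2] at h2
  rcases h2 with h | h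
  · linarith [num_T3]
  · linarith [num_T3d]

end Pool.Agent.CFree
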