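import Pool.Agent.Lib_MP_6af485_kt.KR4B
import Pool.Agent.Lib_MP_6af485_kt.KR4C
import Pool.Agent.Lib_MP_6af485_kt.KSideD

/-!
# MP_6af485_co, `k = 3`: a forced edge after removing `b` and `v`

`deg a = deg b = 3`, `((N S b).erase v).erase y = {y2}`, `T = S \ {z, y, b, v}`, `k = deg z`. By `R4.F`, `R4.phi`:
`F (S \ {b, v}) = yy ^ (k - 1) * F T`, exponent `4 + 1 + hh k - 1 + dl y2 + ∑ dl (N S z \ y) + 2 |C6V T|`.

`k = 2`: `(N S z).erase y = {t}`, exponent `6 + dl y2 + dl t + 2 |C6V T|`. If `C6V T = ∅` it is at most 10: `num_T6a`.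
Otherwise let `K` be a component. By `Irr.attach` and `R4.outer` two of `a, y2, t` are in `K`. If `S \ (K ∪ R)` were
nonempty, then by `Irr.rest` (`R4.bal`) and `R4.outer` two of `a, y2, t` would be in it, but there are only three. So
`S = K ∪ R`, `T = K`, and `y2, t ∈ K` have degree two in `T`, so degree three in `S` (`R4.deg_r`), `dl = -1`;
`C6V T ⊆ K` has at most 6 elements: the exponent is at most `6 - 1 - 1 + 12 = 16`: `yy * QQ ^ 16 = bet`, `PP.A`.
`k ≥ 3`: each `K` contains `a` or `y2` (`R4.meets`), so `|C6V T| ≤ 12` (`C6V_card_le`); the exponent is at most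
`4 + (k - 2) + 2 + 2 (k - 1) + 24 = 3 k + 26` (`4 + 1 - 1 = 4`, `hh k = k - 2`, `sum_dl_le_two`), and
`yy ^ (k - 1) * QQ ^ (3 k + 26) ≤ yy ^ 2 * QQ ^ 35 ≤ bet` (`yQ_mono`, `num_T6c`).
-/

set_option autoImplicit false

namespace Pool.Agent.CFree

open Finset

variable {V : Type} [Fintype V] [DecidableEq V] {G : BG V}

/-- the other neighbour of `b` -/
theorem BG.R4.kt6_y2 {S : Finset V} {v a b y z : V} (h : G.R4 S v a b y z) (hb : G.deg S b = 3) :
    ∃ y2, ((G.N S b).erase v).erase y = {y2} ∧ y2 ∈ S \ {z, y, b, v} ∧ G.adj b y2 := by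
  obtain ⟨haS, hbS, hyS, hzS, hva, hvb, hby, hyz⟩ := h.mem
  obtain ⟨n1, n2, n3, n4, n5, n6, n7⟩ := h.ne
  obtain ⟨m1, m2, m3, m4, m5⟩ := h.nadj
  have c1 := card_erase_add_one (show v ∈ G.N S b from BG.mem_N.2 ⟨h.hv, G.symm _ _ hvb⟩)
  have c2 := card_erase_add_one (show y ∈ (G.N S b).erase v from mem_erase.2 ⟨h.yv, h.hy⟩)
  have c3 : (((G.N S b).erase v).erase y).card = 1 := by
    unfold BG.deg at hb
    omega
  obtain ⟨y2, he⟩ := card_eq_one.1 c3
  have hm : y2 ∈ ((G.N S b).erase v).erase y := by rw [he]; exact mem_singleton_self _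
  obtain ⟨hy, hm2⟩ := mem_erase.1 hm
  obtain ⟨hv, hm3⟩ := mem_erase.1 hm2
  obtain ⟨hS, hadj⟩ := BG.mem_N.1 hm3
  refine ⟨y2, he, ?_, hadj⟩
  simp only [mem_sdiff, mem_insert, mem_singleton, not_or]
  refine ⟨hS, ?_, hy, (BG.ne_of_adj hadj).symm, hv⟩
  rintro rfl
  exact m4 (G.symm _ _ hadj)

/-- the other neighbours of `z` -/
theorem BG.R4.kt6_t {S : Finset V} {v a b y z t : V} (h : G.R4 S v a b y z) (ht : t ∈ (G.N S z).erase y) :
    t ∈ S \ {z, y, b, v} ∧ G.adj z t := by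
  obtain ⟨m1, m2, m3, m4, m5⟩ := h.nadj
  obtain ⟨hy, hm⟩ := mem_erase.1 ht
  obtain ⟨hS, hadj⟩ := BG.mem_N.1 hm
  refine ⟨?_, hadj⟩
  simp only [mem_sdiff, mem_insert, mem_singleton, not_or]
  refine ⟨hS, (BG.ne_of_adj hadj).symm, hy, ?_, ?_⟩
  · rintro rfl
    exact m4 hadj
  · rintro rfl
    exact m2 hadj

theorem BG.T6a {S : Finset V} {v a b y z : V} (IH : ∀ T : Finset V, T.card < S.card → G.PP T)
    (hI : G.Irr S) (h : G.R4 S v a b y z)
    (ha : G.deg S a = 3) (hb : G.deg S b = 3) (hz : G.deg S z = 2) :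
    G.F (S \ {b, v}) * QQ ^ G.phi S ≤ bet := by
  obtain ⟨haS, hbS, hyS, hzS, hva, hvb, hby, hyz⟩ := h.mem
  obtain ⟨hRb, hRS, hlt⟩ := h.bal
  obtain ⟨y2, he, hy2T, hby2⟩ := h.kt6_y2 hb
  have c4 : ((G.N S z).erase y).card = 1 := by
    have := card_erase_add_one (show y ∈ G.N S z from BG.mem_N.2 ⟨hyS, G.symm _ _ hyz⟩)
    unfold BG.deg at hz
    omega
  obtain ⟨t, het⟩ := card_eq_one.1 c4
  obtain ⟨htT, hzt⟩ := h.kt6_t (show t ∈ (G.N S z).erase y by rw [het]; exact mem_singleton_self _)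
  have hphi := h.phi
  rw [ha, hb, hz, hh_three, hh_two, dl_three, he, het, sum_singleton, sum_singleton] at hphi
  have hA := (IH _ hlt).A
  have hF := h.F
  rw [hz, show 2 - 1 = 1 from rfl, pow_one] at hF
  have d1 := dl_le_two (G.deg S y2)
  have d2 := dl_le_two (G.deg S t)
  have fin : ∀ k : ℕ, (G.phi S : ℤ) + 2 * ((G.C6V (S \ {z, y, b, v})).card : ℤ) ≤
      (G.phi (S \ {z, y, b, v}) : ℤ) + k → G.F (S \ {b, v}) * QQ ^ G.phi S ≤ yy * QQ ^ k := by
    intro k hk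
    have h1 := BG.use hA hk
    rw [hF]
    calc yy * G.F (S \ {z, y, b, v}) * QQ ^ G.phi S = yy * (G.F (S \ {z, y, b, v}) * QQ ^ G.phi S) := by ring
      _ ≤ yy * (1 * QQ ^ k) := mul_le_mul_of_nonneg_left h1 yy_pos.le
      _ = yy * QQ ^ k := by ring
  by_cases hC : G.C6V (S \ {z, y, b, v}) = ∅
  · refine (fin 10 ?_).trans num_T6a
    rw [hC, card_empty]
    push_cast at hphi ⊢
    omega
  · rw [BG.C6V_eq_empty] at hC
    push Not at hC
    obtain ⟨K, hK⟩ := hC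
    have hout : ∀ w ∈ S \ {z, y, b, v}, ∀ r ∈ ({z, y, b, v} : Finset V), G.adj w r →
        w ∈ ({a, y2, t} : Finset V) := by
      intro w hw r hr hadj
      rcases h.outer hw hr hadj with ⟨-, h1⟩ | ⟨-, h1⟩ | ⟨-, h1⟩
      · rw [h1]; simp
      · rw [he, mem_singleton] at h1
        rw [h1]; simp
      · rw [het, mem_singleton] at h1
        rw [h1]; simp
    obtain ⟨k1, hk1, k2, hk2, hk12, ⟨r1, hr1, ha1⟩, r2, hr2, ha2⟩ := hI.attach hRS (insert_nonempty _ _) hK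
    have hsub : S ⊆ K ∪ {z, y, b, v} := by
      by_contra hns
      have hU : (S \ (K ∪ {z, y, b, v})).Nonempty := by
        rw [sdiff_nonempty]
        exact hns
      obtain ⟨w1, hw1, w2, hw2, hw12, ⟨s1, hs1, hb1⟩, s2, hs2, hb2⟩ :=
        hI.rest hRS (insert_nonempty _ _) hRb hK hU
      have hUT : ∀ w ∈ S \ (K ∪ {z, y, b, v}), w ∈ S \ {z, y, b, v} ∧ w ∉ K := by
        intro w hw
        obtain ⟨q1, q2⟩ := mem_sdiff.1 hw
        exact ⟨mem_sdiff.2 ⟨q1, fun h' => q2 (mem_union_right _ h')⟩, fun h' => q2 (mem_union_left _ h')⟩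
      have p1 := hout k1 (hK.1 hk1) r1 hr1 ha1
      have p2 := hout k2 (hK.1 hk2) r2 hr2 ha2
      have p3 := hout w1 (hUT w1 hw1).1 s1 hs1 hb1
      have p4 := hout w2 (hUT w2 hw2).1 s2 hs2 hb2
      have q3 := (hUT w1 hw1).2
      have q4 := (hUT w2 hw2).2
      have n13 : k1 ≠ w1 := fun e => q3 (e ▸ hk1)
      have n14 : k1 ≠ w2 := fun e => q4 (e ▸ hk1)
      have n23 : k2 ≠ w1 := fun e => q3 (e ▸ hk2)
      have n24 : k2 ≠ w2 := fun e => q4 (e ▸ hk2)
      have hcard : ({k1, k2, w1, w2} : Finset V).card = 4 := by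
        rw [card_insert_of_notMem, card_insert_of_notMem, card_pair hw12]
        · simp [n23, n24]
        · simp [hk12, n13, n14]
      have hle : ({k1, k2, w1, w2} : Finset V) ⊆ {a, y2, t} := by
        intro x hx
        simp only [mem_insert, mem_singleton] at hx
        rcases hx with rfl | rfl | rfl | rfl
        · exact p1
        · exact p2
        · exact p3
        · exact p4
      have h3 := card_le_card hle
      have h4 := card_le_three (a := a) (b := y2) (c := t)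
      omega
    have hTK : S \ {z, y, b, v} ⊆ K := by
      intro w hw
      obtain ⟨q1, q2⟩ := mem_sdiff.1 hw
      rcases mem_union.1 (hsub q1) with h' | h'
      · exact h'
      · exact absurd h' q2
    have g1 := (h.deg_r hy2T (Or.inl hby2)).2
    have g2 := (h.deg_r htT (Or.inr hzt)).2
    rw [(hK.2.2 y2 (hTK hy2T)).1] at g1
    rw [(hK.2.2 t (hTK htT)).1] at g2
    have hcC : (G.C6V (S \ {z, y, b, v})).card ≤ 6 := by
      rw [← hK.2.1]
      apply card_le_card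
      refine Subset.trans ?_ hTK
      intro w hw
      obtain ⟨K', hK', hwK'⟩ := BG.mem_C6V.1 hw
      exact hK'.1 hwK'
    rw [← g1, ← g2, dl_three] at hphi
    refine (fin 16 ?_).trans_eq rfl
    push_cast at hphi ⊢
    omega

theorem BG.T6b {S : Finset V} {v a b y z : V} (IH : ∀ T : Finset V, T.card < S.card → G.PP T)
    (hI : G.Irr S) (h : G.R4 S v a b y z)
    (ha : G.deg S a = 3) (hb : G.deg S b = 3) (hz : 3 ≤ G.deg S z) :
    G.F (S \ {b, v}) * QQ ^ G.phi S ≤ bet := by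
  obtain ⟨haS, hbS, hyS, hzS, hva, hvb, hby, hyz⟩ := h.mem
  obtain ⟨hRb, hRS, hlt⟩ := h.bal
  obtain ⟨y2, he, hy2T, hby2⟩ := h.kt6_y2 hb
  obtain ⟨m, hm⟩ : ∃ m, G.deg S z = 3 + m := ⟨G.deg S z - 3, by omega⟩
  have hphi := h.phi
  have c1 := card_erase_add_one (show y ∈ G.N S z from BG.mem_N.2 ⟨hyS, G.symm _ _ hyz⟩)
  have c2 : (G.N S z).card = 3 + m := hm
  have s1 := sum_dl_le_two (G := G) (S := S) (s := (G.N S z).erase y)
  rw [ha, hb, hh_three, hh_ge hz, dl_three, he, sum_singleton, hm] at hphi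
  have hA := (IH _ hlt).A
  have hF := h.F
  have d1 := dl_le_two (G.deg S y2)
  have hcC : (G.C6V (S \ {z, y, b, v})).card ≤ 6 * ({a, y2} : Finset V).card := by
    refine BG.C6V_card_le fun K hK => ?_
    rcases h.meets hI hK with h1 | ⟨w, hw, hwK⟩
    · exact ⟨a, by simp, h1⟩
    · rw [he, mem_singleton] at hw
      exact ⟨w, by rw [hw]; simp, hwK⟩
  have h2 := card_le_two (a := a) (b := y2)
  have h1 := BG.use (S := S) (k := 35 + 3 * m) hA (by
    push_cast at hphi ⊢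
    omega)
  rw [hF]
  have e1 : G.deg S z - 1 = 2 + m := by omega
  rw [e1]
  calc yy ^ (2 + m) * G.F (S \ {z, y, b, v}) * QQ ^ G.phi S
      = yy ^ (2 + m) * (G.F (S \ {z, y, b, v}) * QQ ^ G.phi S) := by ring
    _ ≤ yy ^ (2 + m) * (1 * QQ ^ (35 + 3 * m)) := mul_le_mul_of_nonneg_left h1 (pow_nonneg yy_pos.le _)
    _ = yy ^ (2 + m) * QQ ^ (35 + 3 * m) := by ring
    _ ≤ yy ^ 2 * QQ ^ 35 := yQ_mono m (by norm_num)
    _ ≤ bet := num_T6c

theorem BG.T6 {S : Finset V} {v a b y : V} (IH : ∀ T : Finset V, T.card < S.card → G.PP T)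
    (hI : G.Irr S) (hmin : ∀ w ∈ S, 2 ≤ G.deg S w) (hv : v ∈ S) (hab : a ≠ b) (hN : G.N S v = {a, b})
    (ha : G.deg S a = 3) (hb : G.deg S b = 3) (hy : y ∈ (G.N S b).erase v) (hdy : G.deg S y = 2) :
    G.F (S \ {b, v}) * QQ ^ G.phi S ≤ bet := by
  obtain ⟨hyv, hyN⟩ := mem_erase.1 hy
  obtain ⟨hyS, hby⟩ := BG.mem_N.1 hyN
  obtain ⟨hbS, hvb⟩ := BG.mem_N.1 (show b ∈ G.N S v by rw [hN]; simp)
  obtain ⟨z, hzb, hNy⟩ := BG.nbr2 hdy (BG.mem_N.2 ⟨hbS, G.symm _ _ hby⟩)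
  have h : G.R4 S v a b y z := ⟨hv, hab, hN, hyN, hyv, hzb, hNy⟩
  have hzS := (BG.mem_N.1 (show z ∈ G.N S y by rw [hNy]; simp)).1
  rcases Nat.lt_or_ge (G.deg S z) 3 with hz | hz
  · exact BG.T6a IH hI h ha hb (by have := hmin z hzS; omega)
  · exact BG.T6b IH hI h ha hb hz

end Pool.Agent.CFree
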