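import Pool.Agent.Lib_MP_6af485_kt.KR4B
import Pool.Agent.Lib_MP_6af485_kt.KR4C
import Pool.Agent.Lib_MP_6af485_kt.KSideD

/-!
# MP_6af485_co, `k = 3`: neighbours of degree three, one of them next to a second vertex of degree two

`deg a = deg b = 3`, the neighbours `x ≠ v` of `a` have degree at least three, `y` is a neighbour of `b` of degree two with
other neighbour `z`, `((N S b).erase v).erase y = {y2}`, `T = S \ {z, y, b, v}`. `yy ^ 3 = 1 / 2` (`two_Q`).
First term: `side_clean3` (`QQ ^ 4`, and `QQ ^ 2` if some `x` has degree three) with `side_EE`. Second term: `R4.F`, `R4.phi`,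
`BG.use`: `yy ^ (k - 1)`, `k = deg z`, exponent `4 + hh k + dl y2 + ∑ dl (N S z \ y) + 2 |C6V T|` (`4 + 1 - 1 = 4`).
No 6-cycle component of `T` contains `a` (`R4.a_notin`).

`T8x` (`k = 2`, `N S z = {y, t}`): `C6V T = ∅` (`R4.empty3`), the exponent is `6 + dl y2 + dl t`.
`T8b` (`t` not adjacent to `a`, or `deg t ≥ 4`): `N T a = (N S a).erase v = {x1, x2}` (`R4.deg_a`); `x1, x2` are not
adjacent to `b`; if `xi` is adjacent to `z` then `xi = t` (`R4.deg_r`: degree at least `4 - 1`); otherwise the degree is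
the same (`R4.deg_w`). So `PP.B` for `T`, exponent at most 10: `num_T8b`.
`T8c` (`t` adjacent to `a`, `deg t = 3`, `deg y2 = 2`): first term: `side_clean3` with `B = 1` and `QQ ^ 2`; second term:
exponent `6 + 2 - 1`, `R4.lam_y2`: `num_T8c`.
-/

set_option autoImplicit false

namespace Pool.Agent.CFree

open Finset

variable {V : Type} [Fintype V] [DecidableEq V] {G : BG V}

private theorem kt8c_degz {S : Finset V} {y z t : V} (hNz : G.N S z = {y, t}) (hty : t ≠ y) :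
    G.deg S z = 2 := by
  unfold BG.deg
  rw [hNz, card_pair hty.symm]

private theorem kt8c_card {S : Finset V} {v a b y z : V} (h : G.R4 S v a b y z) (hb : G.deg S b = 3) :
    (((G.N S b).erase v).erase y).card = 1 := by
  obtain ⟨_, _, _, _, _, hvb, _, _⟩ := h.mem
  have hvN : v ∈ G.N S b := BG.mem_N.2 ⟨h.hv, G.symm _ _ hvb⟩
  have e1 := card_erase_add_one hvN
  have e2 := card_erase_add_one (mem_erase.2 ⟨h.yv, h.hy⟩ : y ∈ (G.N S b).erase v)
  unfold BG.deg at hb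
  omega

private theorem kt8c_yy3 : yy ^ 3 = (1 / 2 : ℝ) := yy_cube

/-- the second term if `deg z = 2` -/
theorem BG.T8x {S : Finset V} {v a b y z t y2 : V} (hI : G.Irr S) (h : G.R4 S v a b y z)
    (ha : G.deg S a = 3) (hb : G.deg S b = 3) (hcl : ∀ x ∈ (G.N S a).erase v, 3 ≤ G.deg S x)
    (hy2 : y2 ∈ ((G.N S b).erase v).erase y) (hNz : G.N S z = {y, t}) (hty : t ≠ y) {B : ℝ} {k : ℕ}
    (hB : G.Gh (S \ {z, y, b, v}) ≤ B) (hk : 6 + dl (G.deg S y2) + dl (G.deg S t) ≤ k) :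
    G.F (S \ {b, v}) * QQ ^ G.phi S ≤ B * (yy * QQ ^ k) := by
  have hz : G.deg S z = 2 := kt8c_degz hNz hty
  have hC : G.C6V (S \ {z, y, b, v}) = ∅ :=
    h.empty3 hI hb hz (fun K hK => h.a_notin ha hcl hK)
  obtain ⟨w, hw⟩ := card_eq_one.1 (kt8c_card h hb)
  have hy2w : y2 = w := by
    rw [hw, mem_singleton] at hy2
    exact hy2
  have hs1 : ∑ x ∈ ((G.N S b).erase v).erase y, dl (G.deg S x) = dl (G.deg S y2) := by
    rw [hw, sum_singleton, hy2w]
  have hNz' : (G.N S z).erase y = {t} := by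
    rw [hNz]
    ext x
    rw [mem_erase, mem_insert, mem_singleton]
    constructor
    · rintro ⟨h1, h2 | h2⟩
      · exact absurd h2 h1
      · exact h2
    · intro hx
      exact ⟨fun e => hty (hx.symm.trans e), Or.inr hx⟩
  have hs2 : ∑ x ∈ (G.N S z).erase y, dl (G.deg S x) = dl (G.deg S t) := by
    rw [hNz', sum_singleton]
  have hphi := h.phi
  rw [hs1, hs2, ha, hb, hz, dl_three, hh_three, hh_two] at hphi
  have huse : G.F (S \ {z, y, b, v}) * QQ ^ G.phi S ≤ B * QQ ^ k := by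
    refine BG.use hB ?_
    rw [hC, card_empty]
    push_cast at hphi ⊢
    omega
  have hF := h.F
  rw [hz] at hF
  have hF' : G.F (S \ {b, v}) = yy * G.F (S \ {z, y, b, v}) := by
    rw [hF]
    norm_num
  rw [hF']
  calc yy * G.F (S \ {z, y, b, v}) * QQ ^ G.phi S = yy * (G.F (S \ {z, y, b, v}) * QQ ^ G.phi S) := by ring
    _ ≤ yy * (B * QQ ^ k) := mul_le_mul_of_nonneg_left huse yy_pos.le
    _ = B * (yy * QQ ^ k) := by ring

theorem BG.T8b {S : Finset V} {v a b y z t : V} (IH : ∀ T : Finset V, T.card < S.card → G.PP T)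
    (hI : G.Irr S) (h : G.R4 S v a b y z) (ha : G.deg S a = 3) (hb : G.deg S b = 3)
    (hcl : ∀ x ∈ (G.N S a).erase v, 3 ≤ G.deg S x) (hNz : G.N S z = {y, t}) (hty : t ≠ y)
    (ht : ¬ G.adj a t ∨ 4 ≤ G.deg S t) : G.F S * QQ ^ G.phi S ≤ bet := by
  obtain ⟨haS, hbS, hyS, hzS, hva, hvb, hby, hyz⟩ := h.mem
  obtain ⟨nya, nzv, nza, nzb, nvy⟩ := h.nadj
  obtain ⟨y2, hy2⟩ := card_eq_one.1 (kt8c_card h hb)
  have hy2m : y2 ∈ ((G.N S b).erase v).erase y := by
    rw [hy2, mem_singleton]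
  obtain ⟨haT, hNa, hda⟩ := h.deg_a
  have hvN : v ∈ G.N S a := BG.mem_N.2 ⟨h.hv, G.symm _ _ hva⟩
  obtain ⟨x1, x2, hne, h1v, h2v, hN⟩ := BG.nbr3 ha hvN
  have hNT : G.N (S \ {z, y, b, v}) a = {x1, x2} := by
    rw [hNa, hN]
    ext x
    rw [mem_erase, mem_insert, mem_insert, mem_singleton]
    constructor
    · rintro ⟨h1, h2 | h2 | h2⟩
      · exact absurd h2 h1
      · exact Or.inl h2
      · exact Or.inr h2
    · rintro (h2 | h2)
      · exact ⟨fun e => h1v (h2.symm.trans e), Or.inr (Or.inl h2)⟩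
      · exact ⟨fun e => h2v (h2.symm.trans e), Or.inr (Or.inr h2)⟩
  have key : ∀ x ∈ G.N (S \ {z, y, b, v}) a, 3 ≤ G.deg (S \ {z, y, b, v}) x := by
    intro x hx
    have hx' : x ∈ (G.N S a).erase v := hNa ▸ hx
    obtain ⟨hxT, hax⟩ := BG.mem_N.1 hx
    have hxv := (mem_erase.1 hx').1
    have hxS := (mem_sdiff.1 hxT).1
    have hxa : x ≠ a := (BG.ne_of_adj hax).symm
    have hnb : ¬ G.adj b x := fun e =>
      h.ab (G.c4 v x a b hxv.symm hva (G.symm _ _ hax) hvb (G.symm _ _ e))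
    by_cases hzx : G.adj z x
    · have hm : x ∈ G.N S z := BG.mem_N.2 ⟨hxS, hzx⟩
      rw [hNz, mem_insert, mem_singleton] at hm
      have hxt : x = t := by
        rcases hm with e | e
        · exact absurd (e ▸ G.symm _ _ hax) nya
        · exact e
      have h4 : 4 ≤ G.deg S t := by
        rcases ht with e | e
        · exact absurd (hxt ▸ hax) e
        · exact e
      have h5 := (h.deg_r hxT (Or.inr hzx)).2
      rw [hxt] at h5 ⊢
      omega
    · rw [(h.deg_w hxT hxa hnb hzx).2]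
      exact hcl x hx'
  have hG : G.Gh (S \ {z, y, b, v}) ≤ bet := by
    refine (IH _ h.bal.2.2).B a x1 x2 haT hne hNT (key x1 ?_) (key x2 ?_)
    · rw [hNT]; simp
    · rw [hNT]; simp
  have t1 := (BG.side_clean3 hI h.hv h.ab h.Nv ha hb hcl
    (BG.side_EE IH hI h.hv h.ab h.Nv ha.ge hb)).1
  have t2 := BG.T8x (k := 10) hI h ha hb hcl hy2m hNz hty hG (by
    have e1 := dl_le_two (G.deg S y2)
    have e2 := dl_le_two (G.deg S t)
    push_cast
    omega)
  rw [BG.two_Q h.hv h.ab h.Nv, ha, hb, kt8c_yy3]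
  have t3 := num_T8b
  linarith

theorem BG.T8c {S : Finset V} {v a b y z t y2 : V} (IH : ∀ T : Finset V, T.card < S.card → G.PP T)
    (hI : G.Irr S) (hmin : ∀ w ∈ S, 2 ≤ G.deg S w) (h : G.R4 S v a b y z) (ha : G.deg S a = 3)
    (hb : G.deg S b = 3) (hcl : ∀ x ∈ (G.N S a).erase v, 3 ≤ G.deg S x)
    (hy2 : y2 ∈ ((G.N S b).erase v).erase y) (hNz : G.N S z = {y, t}) (hty : t ≠ y)
    (hat : G.adj a t) (hdt : G.deg S t = 3) (hd2 : G.deg S y2 = 2) : G.F S * QQ ^ G.phi S ≤ bet := by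
  obtain ⟨_, nzv, _, _, _⟩ := h.nadj
  obtain ⟨htS, hzt⟩ := BG.mem_N.1 (show t ∈ G.N S z by rw [hNz]; simp)
  have htv : t ≠ v := by
    intro e
    rw [e] at hzt
    exact nzv hzt
  have htm : t ∈ (G.N S a).erase v := mem_erase.2 ⟨htv, BG.mem_N.2 ⟨htS, hat⟩⟩
  have t1 := (BG.side_clean3 hI h.hv h.ab h.Nv ha hb hcl
    (IH _ (BG.side_lt h.hv)).A).2 ⟨t, htm, hdt⟩
  have t2 := BG.T8x (k := 7) hI h ha hb hcl hy2 hNz hty (h.lam_y2 IH hmin hy2 hd2) (by
    rw [hd2, hdt, dl_two, dl_three]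
    norm_num)
  rw [BG.two_Q h.hv h.ab h.Nv, ha, hb, kt8c_yy3]
  have t3 := num_T8c
  linarith

end Pool.Agent.CFree
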